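import Pool.Agent.helper63.NF.Fact

/-!
# Maximum principle in the corner: definitions
-/

namespace Pool.Agent.helper12.RS

open Complex Set Metric
open Pool.Agent.helper63.NF

noncomputable section

/-- the next state as a function of the state -/
def nx (t : Tb) (e κ : ℝ) (n : ℕ) (x T : ℂ) : ℂ :=
  Sn e κ (Tb.yT e κ T) (t.lT e κ T) (t.rT e κ n T * x) ^ ((1 / 2 : ℝ) : ℂ) - (Real.cosh κ : ℂ)

/-- the corner -/
def CR (e κ s1 R : ℝ) : Set ℂ :=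
  {T | ‖T‖ < s1 / e ∧ ‖(Real.sinh κ : ℂ) - T‖ < R * ‖(Real.sinh κ : ℂ) + T‖}

/-- numbers of a node in the corner -/
structure CH (t : Tb) (e κ δ s1 R : ℝ) : Prop where
  he : 4 ≤ e
  hκ : 0 < κ
  hb : e * κ ≤ 1 / 2
  s0 : 0 < s1
  s8 : s1 ≤ 1 / 8
  R0 : 0 < R
  R1 : R ≤ 1
  d0 : 0 ≤ δ
  d1 : δ ≤ 2 * Real.sinh κ
  d2 : kk κ * R + δ < 1
  pol : ∀ y : ℂ, ‖y‖ ≤ 2 → podom t.pol (t.de e) y
  c : ∀ n, ∃ c : ℝ, 0 ≤ c ∧ c ≤ 1 ∧ t.c n = (c : ℂ)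

/-- the closing of a middle node, product form -/
def clo (t : Tb) (e κ : ℝ) (n : ℕ) (T T' x x' : ℂ) : ℂ :=
  x - t.MT e κ n T * (x - (1 - exp (t.lT e κ T + lc (t.lT e κ T) - lc (t.lT e κ T') -
    (e : ℂ) * log ((Real.cosh κ : ℂ) + T')) *
      (1 + exp (-(t.lT e κ T')) * (t.rT e κ (n + 1) T' * x'))) / t.rT e κ n T)

/-- a middle node, closing in the product form -/
structure MidQ (t : Tb) (e κ θ δ Y : ℝ) (n : ℕ) (T : ℂ) : Prop where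
  nd : NodeP t e κ n T
  st : ∀ x : ℂ, ‖x‖ ≤ 1 → ∃ T' : ℂ, StepP t e κ δ Y n T x T' ∧
    0 < (1 + exp (-(t.lT e κ T'))).re ∧ ∀ x' : ℂ, ‖x'‖ ≤ 1 → ‖clo t e κ n T T' x x'‖ < θ

/-- what the maximum principle needs from a point, without the closing -/
structure StQ (t : Tb) (e κ δ Y : ℝ) (n : ℕ) (T : ℂ) : Prop where
  nd : NodeP t e κ n T
  st : ∀ x : ℂ, ‖x‖ ≤ 1 → ∃ T' : ℂ, StepP t e κ δ Y n T x T'

end

end Pool.Agent.helper12.RS
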