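import Pool.Agent.helper12.RS.Scale

/-!
# The range of `κ`

`κ ↦ 2 (cosh κ - 1)/cosh (eκ/2)^(2/e)` is increasing, so the hypothesis
`2 (cosh κ - 1)/cosh (eκ/2)^(2/e) < 4^(1/e) - 1` bounds `κ`.
-/

namespace Pool.Agent.helper12.RS

open Real

theorem sinh_ratio {x y : ℝ} (h : y ≤ x) : exp (x - y) * sinh y ≤ sinh x := by
  rw [sinh_eq, sinh_eq]
  have h1 : exp (x - y) * exp y = exp x := by rw [← exp_add]; congr 1; ring
  have h2 : exp (-x) ≤ exp (x - y) * exp (-y) := by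
    rw [← exp_add]
    exact exp_le_exp.2 (by linarith)
  have h3 : exp (x - y) * ((exp y - exp (-y)) / 2) =
      (exp (x - y) * exp y - exp (x - y) * exp (-y)) / 2 := by ring
  rw [h3, h1]
  linarith

theorem cosh_ratio {x y : ℝ} (h : y ≤ x) : cosh x ≤ exp (x - y) * cosh y := by
  rw [cosh_eq, cosh_eq]
  have h1 : exp (x - y) * exp y = exp x := by rw [← exp_add]; congr 1; ring
  have h2 : exp (-x) ≤ exp (x - y) * exp (-y) := by
    rw [← exp_add]
    exact exp_le_exp.2 (by linarith)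
  have h3 : exp (x - y) * ((exp y + exp (-y)) / 2) =
      (exp (x - y) * exp y + exp (x - y) * exp (-y)) / 2 := by ring
  rw [h3, h1]
  linarith

/-- the bounding function -/
noncomputable def kfun (e κ : ℝ) : ℝ := 2 * (cosh κ - 1) / cosh (e * κ / 2) ^ (2 / e)

theorem kfun_eq (e κ : ℝ) : kfun e κ = Hh κ ^ 2 / cosh (e * κ / 2) ^ (2 / e) := by
  rw [Hh_sq]
  rfl

theorem kfun_mono {e κ κ1 : ℝ} (he : 0 < e) (hκ1 : 0 < κ1) (h : κ1 ≤ κ) :
    kfun e κ1 ≤ kfun e κ := by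
  rw [kfun_eq, kfun_eq]
  have hc1 := cosh_pos (e * κ1 / 2)
  have hc := cosh_pos (e * κ / 2)
  have h1 : exp ((κ - κ1) / 2) * Hh κ1 ≤ Hh κ := by
    have := sinh_ratio (x := κ / 2) (y := κ1 / 2) (by linarith)
    rw [show κ / 2 - κ1 / 2 = (κ - κ1) / 2 by ring] at this
    unfold Hh
    linarith
  have hH := Hh_pos hκ1
  have h2 : exp (κ - κ1) * Hh κ1 ^ 2 ≤ Hh κ ^ 2 := by
    have h3 := pow_le_pow_left₀ (by positivity) h1 2
    have h4 : exp (κ - κ1) = exp ((κ - κ1) / 2) ^ 2 := by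
      rw [sq, ← exp_add]
      congr 1
      ring
    rw [h4, ← mul_pow]
    exact h3
  have h5 : cosh (e * κ / 2) ^ (2 / e) ≤ exp (κ - κ1) * cosh (e * κ1 / 2) ^ (2 / e) := by
    have h6 := cosh_ratio (x := e * κ / 2) (y := e * κ1 / 2) (by nlinarith)
    have h7 := rpow_le_rpow hc.le h6 (z := 2 / e) (by positivity)
    rw [mul_rpow (exp_pos _).le hc1.le, ← exp_mul,
      show (e * κ / 2 - e * κ1 / 2) * (2 / e) = κ - κ1 by field_simp] at h7
    exact h7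
  have hp1 := rpow_pos_of_pos hc1 (2 / e)
  have hp := rpow_pos_of_pos hc (2 / e)
  rw [div_le_div_iff₀ hp1 hp]
  calc Hh κ1 ^ 2 * cosh (e * κ / 2) ^ (2 / e)
      ≤ Hh κ1 ^ 2 * (exp (κ - κ1) * cosh (e * κ1 / 2) ^ (2 / e)) :=
        mul_le_mul_of_nonneg_left h5 (by positivity)
    _ = exp (κ - κ1) * Hh κ1 ^ 2 * cosh (e * κ1 / 2) ^ (2 / e) := by ring
    _ ≤ Hh κ ^ 2 * cosh (e * κ1 / 2) ^ (2 / e) := mul_le_mul_of_nonneg_right h2 hp1.le

/-- **The range of `κ`.** -/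
theorem kmax_lt {e κ κ1 : ℝ} (he : 0 < e) (hκ1 : 0 < κ1)
    (h : 2 * (cosh κ - 1) / cosh (e * κ / 2) ^ (2 / e) < 4 ^ (1 / e) - 1)
    (h1 : 4 ^ (1 / e) - 1 ≤ kfun e κ1) : κ < κ1 := by
  by_contra hc
  have h2 := kfun_mono he hκ1 (not_lt.1 hc)
  have h3 : kfun e κ < 4 ^ (1 / e) - 1 := h
  linarith

/-- Criterion for `b = eκ/2 < B` for all `1/e` in `[ε0, ε1]`. -/
theorem b_lt {e κ B ε0 ε1 : ℝ} (he : 0 < e) (hB : 0 < B) (h0 : 0 < ε0) (he0 : ε0 ≤ 1 / e)
    (he1 : 1 / e ≤ ε1)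
    (hc : (4 ^ ε1 - 1) * cosh B ^ (2 * ε1) ≤ (2 * sinh (ε0 * B)) ^ 2)
    (h : 2 * (cosh κ - 1) / cosh (e * κ / 2) ^ (2 / e) < 4 ^ (1 / e) - 1) : e * κ / 2 < B := by
  have hκ1 : 0 < 2 * B / e := by positivity
  have h1 : κ < 2 * B / e := by
    apply kmax_lt he hκ1 h
    have hcB := cosh_pos B
    have hp := rpow_pos_of_pos hcB (2 / e)
    rw [kfun_eq, show e * (2 * B / e) / 2 = B by field_simp, le_div_iff₀ hp]
    have e1 : (4 : ℝ) ^ (1 / e) ≤ 4 ^ ε1 := rpow_le_rpow_of_exponent_le (by norm_num) he1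
    have e2 : cosh B ^ (2 / e) ≤ cosh B ^ (2 * ε1) := by
      apply rpow_le_rpow_of_exponent_le (one_le_cosh B)
      have : 2 / e = 2 * (1 / e) := by ring
      rw [this]
      linarith
    have e3 : (1 : ℝ) ≤ 4 ^ (1 / e) := one_le_rpow (by norm_num) (by positivity)
    have e4 : 2 * sinh (ε0 * B) ≤ Hh (2 * B / e) := by
      unfold Hh
      have : ε0 * B ≤ 2 * B / e / 2 := by
        have := mul_le_mul_of_nonneg_right he0 hB.le
        calc ε0 * B ≤ 1 / e * B := this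
          _ = 2 * B / e / 2 := by ring
      have := sinh_le_sinh.2 this
      linarith
    have e5 : 0 < 2 * sinh (ε0 * B) := by
      have := sinh_pos_iff.2 (mul_pos h0 hB)
      positivity
    calc (4 ^ (1 / e) - 1) * cosh B ^ (2 / e) ≤ (4 ^ ε1 - 1) * cosh B ^ (2 * ε1) := by
          apply mul_le_mul (by linarith) e2 hp.le (by linarith)
      _ ≤ (2 * sinh (ε0 * B)) ^ 2 := hc
      _ ≤ Hh (2 * B / e) ^ 2 := pow_le_pow_left₀ e5.le e4 2
  rw [lt_div_iff₀ he] at h1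
  linarith

/-- `b < B` with `B < 1/(...)`: for all large `e`: `κ² e ≤ D` when `D` is large enough. -/
theorem ek_sq_lt {e κ D : ℝ} (he : 0 < e) (hκ : 0 < κ) (hD : 0 < D)
    (hc : (4 ^ (1 / e) - 1) * exp (√(D / e)) ≤ D / e)
    (h : 2 * (cosh κ - 1) / cosh (e * κ / 2) ^ (2 / e) < 4 ^ (1 / e) - 1) : e * κ ^ 2 < D := by
  have hκ1 : 0 < √(D / e) := sqrt_pos.2 (by positivity)
  have hsq : √(D / e) ^ 2 = D / e := sq_sqrt (by positivity)
  have h1 : κ < √(D / e) := by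
    apply kmax_lt he hκ1 h
    obtain ⟨k, hk⟩ : ∃ k, k = √(D / e) := ⟨_, rfl⟩
    rw [← hk] at hc hκ1 hsq ⊢
    have hcB := cosh_pos (e * k / 2)
    have hp := rpow_pos_of_pos hcB (2 / e)
    rw [kfun_eq, le_div_iff₀ hp]
    have e2 : cosh (e * k / 2) ^ (2 / e) ≤ exp k := by
      have h3 : cosh (e * k / 2) ≤ exp (e * k / 2) := by
        have := cosh_ratio (x := e * k / 2) (y := 0) (by positivity)
        simpa using this
      have h4 := rpow_le_rpow hcB.le h3 (z := 2 / e) (by positivity)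
      rw [← exp_mul, show e * k / 2 * (2 / e) = k by field_simp] at h4
      exact h4
    have e3 : (1 : ℝ) ≤ 4 ^ (1 / e) := one_le_rpow (by norm_num) (by positivity)
    have e4 : k ≤ Hh k := by
      unfold Hh
      have := self_le_sinh_iff.2 (half_pos hκ1).le
      linarith
    calc (4 ^ (1 / e) - 1) * cosh (e * k / 2) ^ (2 / e) ≤ (4 ^ (1 / e) - 1) * exp k :=
          mul_le_mul_of_nonneg_left e2 (by linarith)
      _ ≤ D / e := hc
      _ = k ^ 2 := hsq.symm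
      _ ≤ Hh k ^ 2 := pow_le_pow_left₀ hκ1.le e4 2
  have h2 := pow_lt_pow_left₀ h1 hκ.le two_ne_zero
  rw [hsq, lt_div_iff₀ he] at h2
  linarith

end Pool.Agent.helper12.RS
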