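import Pool.Agent.helper63.NF.SpecMid
import Pool.Agent.helper12.RS.CMD

/-!
# Middle nodes from the programs of the near field, closing in the product form
-/

namespace Pool.Agent.helper63.NF

open Complex
open Pool.Agent.helper31.IA (Z get)
open Pool.Agent.helper12.RS

/-- a middle node, closing in the product form -/
theorem mid_ptQ {t : TD} (hok : t.ok = true) {e κ : ℝ} (he : 0 < e) (hκ : 0 < κ) {m : ℕ}
    {σ : ℕ → ℂ} {Q : (ℕ → ℂ) → Prop} {T x : ℂ} (h0 : σ 0 = ((1 / e : ℝ) : ℂ))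
    (h1 : σ 1 = ((e * κ / 2 : ℝ) : ℂ)) (h2 : σ 2 = T) (h3 : σ 3 = x)
    (h : Sem (P2m t (m + 1)) σ Q) : ∃ T1 σ1, NR t e κ m T x T1 σ1 ∧
      StepP t.tb e κ (t.δ (m + 1) e κ) (t.Y (m + 1) e) m T x T1 ∧
      0 < (1 + exp (-(t.tb.lT e κ T1))).re ∧
      ∀ x' : ℂ, ‖x'‖ ≤ 1 → ‖clo t.tb e κ m T T1 x x'‖ < θ0 := by
  have h := sem_append _ _ _ h
  have h := sem_append _ _ _ h
  obtain ⟨σ1, T1, h, hR⟩ := near_spec hok he hκ h0 h1 h2 h3 h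
  obtain ⟨σ2, h, f2, hN⟩ := node_spec hok (Or.inr rfl) hR.hF hR.hH hR.fT1 h
  refine ⟨T1, σ1, hR, hR.stepP hN.Qre, hN.M1, ?_⟩
  intro x' hx' 
  have hF2 : HF t e κ σ2 := hR.hF.of_eq (fun i hi _ _ _ => f2 i (by omega)) (fun i j => f2 _ (by
    have := mreg_ge i j
    omega))
  have n30 : σ2 30 = t.tb.lT e κ T - ((e * κ : ℝ) : ℂ) := by rw [f2 30 (by omega)]; exact hR.nd.l
  have n34 : σ2 34 = lc (t.tb.lT e κ T) - (LM e κ : ℂ) := by rw [f2 34 (by omega)]; exact hR.nd.mm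
  have n82 : σ2 82 = lc (t.tb.lT e κ T1) - (LM e κ : ℂ) := hN.mm
  have n80 : σ2 80 = exp (-(t.tb.lT e κ T1)) := hN.M
  have n3 : σ2 3 = x := by rw [f2 3 (by omega)]; exact hR.fx
  have n58 : σ2 58 = T1 := by rw [f2 58 (by omega)]; exact hR.fT1
  have n59 := hR.fLQ
  rw [← f2 59 (by omega)] at n59
  have n42 := hR.fden
  rw [← f2 42 (by omega)] at n42
  have n64 := hR.fTT
  rw [← f2 64 (by omega)] at n64
  have n91 := hR.fia
  rw [← f2 91 (by omega)] at n91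
  have n94 := hR.fM
  rw [← f2 94 (by omega)] at n94
  have n95 := hR.fir
  rw [← f2 95 (by omega)] at n95
  have n0 := hF2.ep
  have n22 := hF2.one
  have n7 := hF2.k
  obtain ⟨den', hden⟩ : ∃ d, d = t.tb.c (m + 1) * T1 + ((1 / e : ℝ) : ℂ) := ⟨_, rfl⟩
  obtain ⟨-, h⟩ := sem_set h (x := den') (by
    show (zi (nth 0 t.c (m + 1 + 1))).val * σ2 58 + σ2 0 = _
    rw [zi_val, n58, n0, hden]
    rfl)
  obtain ⟨-, p1, h⟩ := h
  have dre : 0 < den'.re := p1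
  have dne' := ne_of_re dre
  obtain ⟨-, h⟩ := sem_set h (x := den'⁻¹) (by
    show (upd σ2 89 _ 89)⁻¹ = _
    rw [upd_same])
  obtain ⟨a', ha'⟩ : ∃ a, a = t.tb.an e κ (m + 1) := ⟨_, rfl⟩
  obtain ⟨a, ha⟩ : ∃ a, a = t.tb.an e κ m := ⟨_, rfl⟩
  obtain ⟨s, hs⟩ : ∃ s, s = t.s2 (m + 1) := ⟨_, rfl⟩
  obtain ⟨r, hr⟩ : ∃ r, r = t.tb.rT e κ m T := ⟨_, rfl⟩
  obtain ⟨r', hr'⟩ : ∃ r, r = t.tb.rT e κ (m + 1) T1 := ⟨_, rfl⟩
  have hsv : (scZ t (m + 1)).val = s := by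
    rw [hs]
    exact zn_val _
  have sne : s ≠ 0 := by rw [hs]; exact t.s2_ne _
  have ane : a ≠ 0 := by rw [ha]; exact hR.ane
  have rne : r ≠ 0 := by rw [hr]; exact hR.r_ne
  have hM : MI t.L (t.tb.de e) (t.tb.db e κ) (upd (upd σ2 89 den') 90 den'⁻¹) := by
    have k : ∀ i j, upd (upd σ2 89 den') 90 den'⁻¹ (mreg i j) = σ2 (mreg i j) := fun i j => by
      have := mreg_ge i j
      rw [upd_ne (by omega), upd_ne (by omega)]
    exact ⟨by rw [k, hF2.mi.hu], by rw [k, hF2.mi.hv], fun i j hij => by rw [k, hF2.mi.hm i j hij]⟩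
  have hav : (aE t (m + 1 + 1)).ev (upd (upd σ2 89 den') 90 den'⁻¹) = a' := by
    rw [aE_ev hM (by rw [upd_ne (by omega), upd_ne (by omega), n7]), ha']
    rfl
  obtain ⟨-, h⟩ := sem_set h (x := r' / r) (by
    show ((scZ t (m + 1)).val * (aE t (m + 1 + 1)).ev (upd (upd σ2 89 den') 90 den'⁻¹) *
      (upd (upd σ2 89 den') 90 den'⁻¹ 91)) * (upd (upd σ2 89 den') 90 den'⁻¹ 64) *
      ((upd (upd σ2 89 den') 90 den'⁻¹ 42) * (upd (upd σ2 89 den') 90 den'⁻¹ 90)) = _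
    rw [hav, hsv, upd_same]
    rw [upd_ne (by omega), upd_ne (by omega), upd_ne (by omega), upd_ne (by omega),
      upd_ne (by omega), upd_ne (by omega), n91, n64, n42, ← hs, ← ha, hr, hr']
    unfold Tb.rT
    rw [← ha, ← ha', add_comm ((1 / e : ℝ) : ℂ) (t.tb.c m * T),
      add_comm ((1 / e : ℝ) : ℂ) (t.tb.c (m + 1) * T1), ← hden]
    have d1 := hR.dne
    have d2 := hR.TK
    field_simp)
  obtain ⟨l, hl⟩ : ∃ l, l = t.tb.lT e κ T := ⟨_, rfl⟩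
  obtain ⟨l', hl'⟩ : ∃ l, l = t.tb.lT e κ T1 := ⟨_, rfl⟩
  rw [← hl] at n30 n34
  rw [← hl'] at n82 n80
  obtain ⟨Lq, hLq⟩ : ∃ L, L = (e : ℂ) * log ((Real.cosh κ : ℂ) + T1) := ⟨_, rfl⟩
  rw [← hLq] at n59
  obtain ⟨E0, hE0⟩ : ∃ E, E = exp (l + lc l - lc l' - Lq) := ⟨_, rfl⟩
  obtain ⟨-, h⟩ := sem_set h (x := E0) (by
    simp only [E.ev, upd, Nat.reduceEqDiff, reduceIte]
    rw [n30, n34, n82, n59, hE0]
    congr 1
    ring)
  obtain ⟨-, -, h⟩ := h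
  obtain ⟨M, hMd⟩ : ∃ M, M = t.tb.MT e κ m T := ⟨_, rfl⟩
  rw [← hMd] at n94
  have h := h (-(M * E0 * exp (-l') * (r' / r) * x')) (by
    simp only [E.ev, upd, Nat.reduceEqDiff, reduceIte]
    rw [zz_val, sub_zero, norm_neg, n94, n80, norm_mul]
    calc ‖M * E0 * exp (-l') * (r' / r)‖ * ‖x'‖ ≤ ‖M * E0 * exp (-l') * (r' / r)‖ * 1 :=
          mul_le_mul_of_nonneg_left hx' (norm_nonneg _)
      _ = _ := mul_one _)
  obtain ⟨-, p2, -⟩ := h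
  simp only [E.ev, upd, Nat.reduceEqDiff, reduceIte] at p2
  rw [hsv, n3, n22, n94] at p2
  unfold clo
  rw [← hr', ← hl, ← hl', ← hr, ← hMd, ← hLq, ← hE0]
  have e2 : x - M * (x - (1 - E0 * (1 + exp (-l') * (r' * x'))) / r) =
      x * (1 - M) + M * (s * (1 - E0) * σ2 95) + -(M * E0 * exp (-l') * (r' / r) * x') := by
    have e3 : s * (1 - E0) * σ2 95 = (1 - E0) * r⁻¹ := by
      rw [← hs, ← hr] at n95
      linear_combination (1 - E0) * n95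
    rw [e3]
    field_simp
    ring
  rw [e2]
  exact p2


/-- **Middle nodes.** -/
theorem midQ_of' {t : TD} (hok : t.ok = true) {e κ : ℝ} (he : 0 < e) (hκ : 0 < κ) {m : ℕ} {T : ℂ}
    (h : ∀ x : ℂ, ‖x‖ ≤ 1 → ∃ σ : ℕ → ℂ, σ 0 = ((1 / e : ℝ) : ℂ) ∧ σ 1 = ((e * κ / 2 : ℝ) : ℂ) ∧
      σ 2 = T ∧ σ 3 = x ∧ Sem (P2m t (m + 1)) σ fun _ => True) :
    MidQ t.tb e κ θ0 (t.δ (m + 1) e κ) (t.Y (m + 1) e) m T := by
  refine ⟨?_, ?_⟩
  · obtain ⟨σ, h0, h1, h2, h3, hs⟩ := h 1 (by simp)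
    obtain ⟨T1, σ1, hR, hS, -, hC⟩ := mid_ptQ hok he hκ h0 h1 h2 h3 hs
    refine hR.nodeP ?_
    intro hM
    have h4 := hC 0 (by simp)
    unfold clo at h4
    rw [hM, zero_mul, sub_zero, norm_one] at h4
    exact absurd (h4.trans θ0_lt) (lt_irrefl _)
  · intro x hx
    obtain ⟨σ, h0, h1, h2, h3, hs⟩ := h x hx
    obtain ⟨T1, σ1, hR, hS, hM, hC⟩ := mid_ptQ hok he hκ h0 h1 h2 h3 hs
    exact ⟨T1, hS, hM, hC⟩

/-- from the product form -/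
theorem midP_of_midQ {t : Tb} {e κ θ δ Y : ℝ} {n : ℕ} {T : ℂ} (h : MidQ t e κ θ δ Y n T) :
    MidP t e κ θ δ Y n T := by
  refine ⟨h.nd, ?_⟩
  intro x hx
  obtain ⟨T', hS, hM, hC⟩ := h.st x hx
  refine ⟨T', hS, ?_⟩
  intro x' hx' hF
  refine ⟨hM, ?_⟩
  rw [exp_close (ne_of_re hF)]
  exact hC x' hx'

end Pool.Agent.helper63.NF
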