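import Mathlib

/-!
# The functions `log (1 + z)/z` and `(exp z - 1)/z` and their polynomials
-/

namespace Pool.Agent.helper12.RS

open Complex Finset

/-- `log (1 + z)/z` -/
noncomputable def LmF (z : ℂ) : ℂ := if z = 0 then 1 else log (1 + z) / z

/-- `(exp z - 1)/z` -/
noncomputable def E1F (z : ℂ) : ℂ := if z = 0 then 1 else (exp z - 1) / z

theorem mul_LmF (z : ℂ) : z * LmF z = log (1 + z) := by
  unfold LmF
  split_ifs with h
  · rw [h]
    simp
  · field_simp

theorem mul_E1F (z : ℂ) : z * E1F z = exp z - 1 := by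
  unfold E1F
  split_ifs with h
  · rw [h]
    simp
  · field_simp

theorem exp_eq_E1F (z : ℂ) : exp z = 1 + z * E1F z := by
  rw [mul_E1F]
  ring

theorem LmF_bound {n : ℕ} (hn : 0 < n) {z : ℂ} {r : ℝ} (hr : r < 1) (hz : ‖z‖ < r) :
    ‖LmF z - ∑ k ∈ range n, (-1) ^ k * z ^ k / (k + 1)‖ ≤ r ^ n / ((n + 1) * (1 - r)) := by
  have hz0 := norm_nonneg z
  have hr0 : 0 < r := hz0.trans_lt hz
  have hpos : 0 < 1 - r := by linarith
  rcases eq_or_ne z 0 with h | h
  · have h1 : ∑ k ∈ range n, (-1 : ℂ) ^ k * z ^ k / (k + 1) = 1 := by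
      rw [sum_eq_single 0]
      · simp
      · intro k _ hk
        rw [h, zero_pow hk]
        simp
      · intro h2
        exact absurd (mem_range.2 hn) h2
    have h2 : LmF z = 1 := by
      unfold LmF
      rw [if_pos h]
    rw [h1, h2, sub_self, norm_zero]
    positivity
  · have hzp : 0 < ‖z‖ := norm_pos_iff.2 h
    have h1 := Complex.norm_log_sub_logTaylor_le n (hz.trans hr)
    have h2 : LmF z - ∑ k ∈ range n, (-1 : ℂ) ^ k * z ^ k / (k + 1) =
        (log (1 + z) - logTaylor (n + 1) z) / z := by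
      have h3 : logTaylor (n + 1) z = z * ∑ k ∈ range n, (-1 : ℂ) ^ k * z ^ k / (k + 1) := by
        unfold logTaylor
        rw [sum_range_succ']
        simp only [Nat.cast_zero, div_zero, add_zero]
        rw [mul_sum]
        apply sum_congr rfl
        intro k _
        push_cast
        ring
      unfold LmF
      rw [if_neg h, h3, sub_div, mul_div_cancel_left₀ _ h]
    rw [h2, norm_div, div_le_iff₀ hzp]
    refine h1.trans ?_
    have h4 : ‖z‖ ^ (n + 1) = ‖z‖ ^ n * ‖z‖ := pow_succ _ _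
    have h5 : ‖z‖ ^ n ≤ r ^ n := pow_le_pow_left₀ hz0 hz.le n
    have h6 : (1 - ‖z‖)⁻¹ ≤ (1 - r)⁻¹ := inv_anti₀ hpos (by linarith)
    rw [h4]
    calc ‖z‖ ^ n * ‖z‖ * (1 - ‖z‖)⁻¹ / (n + 1) ≤ r ^ n * ‖z‖ * (1 - r)⁻¹ / (n + 1) := by
          have : 0 ≤ (1 - ‖z‖)⁻¹ := by
            rw [inv_nonneg]
            linarith
          gcongr
      _ = r ^ n / ((n + 1) * (1 - r)) * ‖z‖ := by
          field_simp

theorem E1F_bound {n : ℕ} {z : ℂ} {r : ℝ} (hr : r ≤ 1) (hz : ‖z‖ < r) (hn : 0 < n) :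
    ‖E1F z - ∑ k ∈ range n, z ^ k / ((k + 1).factorial : ℂ)‖ ≤
      r ^ n * ((n + 2) / ((n + 1).factorial * (n + 1))) := by
  have hz0 := norm_nonneg z
  have hr0 : 0 < r := hz0.trans_lt hz
  rcases eq_or_ne z 0 with h | h
  · have h1 : ∑ k ∈ range n, z ^ k / ((k + 1).factorial : ℂ) = 1 := by
      rw [sum_eq_single 0]
      · simp
      · intro k _ hk
        rw [h, zero_pow hk]
        simp
      · intro h2
        exact absurd (mem_range.2 hn) h2
    have h2 : E1F z = 1 := by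
      unfold E1F
      rw [if_pos h]
    rw [h1, h2, sub_self, norm_zero]
    positivity
  · have hzp : 0 < ‖z‖ := norm_pos_iff.2 h
    have h1 := Complex.exp_bound (x := z) (hz.le.trans hr) (n := n + 1) (by omega)
    have h2 : E1F z - ∑ k ∈ range n, z ^ k / ((k + 1).factorial : ℂ) =
        (exp z - ∑ m ∈ range (n + 1), z ^ m / (m.factorial : ℂ)) / z := by
      have h3 : ∑ m ∈ range (n + 1), z ^ m / (m.factorial : ℂ) =
          1 + z * ∑ k ∈ range n, z ^ k / ((k + 1).factorial : ℂ) := by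
        rw [sum_range_succ', mul_sum]
        simp only [pow_zero, Nat.factorial_zero, Nat.cast_one, div_one]
        rw [add_comm]
        congr 1
        apply sum_congr rfl
        intro k _
        rw [pow_succ]
        ring
      unfold E1F
      rw [if_neg h, h3, ← sub_sub, sub_div (exp z - 1), mul_div_cancel_left₀ _ h]
    rw [h2, norm_div, div_le_iff₀ hzp]
    refine h1.trans ?_
    have h4 : ‖z‖ ^ (n + 1) = ‖z‖ ^ n * ‖z‖ := pow_succ _ _
    have h5 : ‖z‖ ^ n ≤ r ^ n := pow_le_pow_left₀ hz0 hz.le n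
    rw [h4]
    calc ‖z‖ ^ n * ‖z‖ * (((n + 1).succ : ℝ) * (((n + 1).factorial : ℝ) * ((n + 1 : ℕ) : ℝ))⁻¹) ≤
        r ^ n * ‖z‖ * (((n + 1).succ : ℝ) * (((n + 1).factorial : ℝ) * ((n + 1 : ℕ) : ℝ))⁻¹) := by
          gcongr
      _ = r ^ n * ((n + 2) / ((n + 1).factorial * (n + 1))) * ‖z‖ := by
          push_cast
          ring

theorem tb {z : ℂ} (hz : ‖z‖ ≤ 1) (d : ℝ) (k : ℕ) : ‖(d : ℂ) * z ^ k‖ ≤ |d| := by
  rw [norm_mul, Complex.norm_real, Real.norm_eq_abs, norm_pow]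
  exact mul_le_of_le_one_right (abs_nonneg d) (pow_le_one₀ (norm_nonneg z) hz)

theorem approx_of {f p q : ℂ} {a b c : ℝ} (h1 : ‖f - p‖ ≤ a) (h2 : ‖p - q‖ ≤ b)
    (h3 : a + b ≤ c) : ‖f - q‖ ≤ c := by
  have h4 : f - q = (f - p) + (p - q) := by ring
  rw [h4]
  exact (norm_add_le _ _).trans ((add_le_add h1 h2).trans h3)

end Pool.Agent.helper12.RS
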