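import Pool.Agent.helper72.EQR.HalfW
import Pool.Agent.helper72.EQR.ZeroW
import Pool.Agent.helper20.EQR.Out

/-!
# Assembly of the corner programs
-/

namespace Pool.Agent.helper12.RS

open Complex ComplexConjugate Set Filter Topology
open Pool.Agent.helper31.EQ.Y Pool.Agent.helper31.EQ.R
open Pool.Agent.helper12.RP Pool.Agent.helper12.FF Pool.Agent.helper63.RG
open Pool.Agent.helper20.EQR

variable {e κ : ℝ} {t : Tb}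

/-- the radius `exp (-2 κ n) (1 + sinh κ · s)` -/
noncomputable def Tb.RR (t : Tb) (l : List (List ℂ)) (nr e κ : ℝ) : ℝ :=
  Real.exp (-(2 * κ * nr)) * (1 + Real.sinh κ * (P2 l (t.de e) (t.db e κ)).re)

theorem Tb.P2_re (ht : t.IsReal) {l : List (List ℂ)} (hl : R2 l) :
    P2 l (t.de e) (t.db e κ) = ((P2 l (t.de e) (t.db e κ)).re : ℂ) :=
  (Complex.conj_eq_iff_re.1 (P2_real hl (Tb.conj_de ht) (Tb.conj_db ht))).symm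

theorem brA (he : 0 < e) {s m : ℝ} (hs : 0 < s) (hm : 0 < m) (hk : e * κ = s * m) :
    BR e κ s (m / 2) (bA ((1 / e : ℝ) : ℂ) s m) := by
  refine ⟨rfl, rfl, ?_, hs, by positivity, ?_⟩
  · show ((1 / 2) : ℂ) * (m : ℂ) = _
    push_cast
    ring
  · field_simp
    linarith

theorem brB (he : 0 < e) {s : ℝ} (hs : 0 < s) (hk : s = e * κ / 2) :
    BR e κ s 1 (bB ((1 / e : ℝ) : ℂ) s) := by
  refine ⟨rfl, rfl, ?_, hs, one_pos, ?_⟩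
  · rw [ofReal_one]
    rfl
  · field_simp
    linarith

/-- no point outside the disc, chart A -/
theorem outA (he : 0 < e) (ht : t.IsReal) {l : List (List ℂ)} (hl : R2 l) {nr : ℝ} {N : ℂ}
    (hN : N = (nr : ℂ)) {s m ψ ρ : ℝ} (hs : 0 < s) (hm : 0 < m) (hk : e * κ = s * m)
    (hρ0 : 0 ≤ ρ) (hρ : ρ ≤ t.RR l nr e κ)
    (hp : ‖(bA ((1 / e : ℝ) : ℂ) s m).K - uA ψ‖ ≤ ρ * ‖(bA ((1 / e : ℝ) : ℂ) s m).K + uA ψ‖)
    (h : 0 < (oE (bA ((1 / e : ℝ) : ℂ) s m) N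
      (P2 l (Tb.deb t (bA ((1 / e : ℝ) : ℂ) s m)) (Tb.dbb t (bA ((1 / e : ℝ) : ℂ) s m)))
      (uA ψ) (uAc ψ)).re) : False := by
  have hb := brA he hs hm hk
  refine out_false he hb hN (sr := (P2 l (t.de e) (t.db e κ)).re) ?_ (uAc_eq ψ) hρ0 hρ hp h
  rw [← Tb.P2_re ht hl, Tb.de_eq hb, Tb.db_eq he hb]

/-- no point outside the disc, chart B -/
theorem outB (he : 0 < e) (ht : t.IsReal) {l : List (List ℂ)} (hl : R2 l) {nr : ℝ} {N : ℂ}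
    (hN : N = (nr : ℂ)) {s m ψ ρ : ℝ} (hs : 0 < s) (hk : s = e * κ / 2)
    (hρ0 : 0 ≤ ρ) (hρ : ρ ≤ t.RR l nr e κ)
    (hp : ‖(bB ((1 / e : ℝ) : ℂ) s).K - uB m ψ‖ ≤ ρ * ‖(bB ((1 / e : ℝ) : ℂ) s).K + uB m ψ‖)
    (h : 0 < (oE (bB ((1 / e : ℝ) : ℂ) s) N
      (P2 l (Tb.deb t (bB ((1 / e : ℝ) : ℂ) s)) (Tb.dbb t (bB ((1 / e : ℝ) : ℂ) s)))
      (uB m ψ) (uBc m ψ)).re) : False := by
  have hb := brB he hs hk
  refine out_false he hb hN (sr := (P2 l (t.de e) (t.db e κ)).re) ?_ (uBc_eq m ψ) hρ0 hρ hp h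
  rw [← Tb.P2_re ht hl, Tb.de_eq hb, Tb.db_eq he hb]

theorem eps_bd {e e0 e1 : ℝ} (h0 : 0 < e0) (h1 : e0 ≤ e) (h2 : e ≤ e1) :
    1 / e1 ≤ 1 / e ∧ 1 / e ≤ 1 / e0 := by
  have he : 0 < e := h0.trans_le h1
  exact ⟨one_div_le_one_div_of_le he h2, one_div_le_one_div_of_le h0 h1⟩

open Pool.Agent.helper31.IA Pool.Agent.helper31.IX in
theorem cov2 {ops : List Pool.Agent.helper31.IX.Op} {c0 h0 c1 h1 : ℕ}
    (hc : Cov 1 ops [(c0, h0), (c1, h1)]) {t0 t1 : ℝ} {x : ℂ}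
    (i0 : |t0 - (c0 : ℝ) / 2 ^ 40| ≤ (h0 : ℝ) / 2 ^ 40)
    (i1 : |t1 - (c1 : ℝ) / 2 ^ 40| ≤ (h1 : ℝ) / 2 ^ 40) (hx : ‖x‖ ≤ 1) :
    Asserts ops [(t0 : ℂ), (t1 : ℂ), x] := by
  have := hc [t0, t1] [x] (List.Forall₂.cons i0 (List.Forall₂.cons i1 List.Forall₂.nil)) rfl
    (by intro z hz; rw [List.mem_singleton] at hz; rw [hz]; exact hx)
  exact this

theorem Tb.tkR_nonneg {l : List (List ℂ)} {j : ℝ} (h : 0 < (P2 l (t.de e) (t.db e κ)).re) :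
    0 ≤ t.tkR l j e κ := mul_nonneg h.le (Real.exp_pos _).le

theorem Ae_eq (he : 0 < e) {c1 c2 : ℝ} {C1 C2 : ℂ} (h1 : C1 = (c1 : ℂ)) (h2 : C2 = (c2 : ℂ)) :
    C1 * ((1 / e : ℝ) : ℂ) + C2 = (((c1 + c2 * e) / e : ℝ) : ℂ) := by
  have he0 : (e : ℂ) ≠ 0 := by exact_mod_cast he.ne'
  rw [h1, h2]
  push_cast
  field_simp

theorem Ae_eq' (he : 0 < e) {c2 : ℝ} {C2 : ℂ} (h2 : C2 = (c2 : ℂ)) :
    C2 = (((c2 * e) / e : ℝ) : ℂ) := by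
  rw [h2, mul_div_cancel_right₀ _ he.ne']

end Pool.Agent.helper12.RS
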