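import Pool.Agent.helper12.RS.Tab

/-!
# The record of near node functions, final form
-/

namespace Pool.Agent.helper12.RS

open Complex ComplexConjugate Set Filter Topology
open Pool.Agent.helper31.EQ.Y Pool.Agent.helper31.EQ.R
open Pool.Agent.helper12.RP Pool.Agent.helper12.FF

noncomputable section

/-- `∑ c_ij u^i v^j` -/
def P2 (l : List (List ℂ)) (u v : ℂ) : ℂ := horn (l.map (fun r => horn r v)) u

/-- `∑ c_kij w^k u^i v^j` -/
def P3 (l : List (List (List ℂ))) (w u v : ℂ) : ℂ := horn (l.map (fun r => P2 r u v)) w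

/-- real coefficients -/
def R1 (l : List ℂ) : Prop := ∀ c ∈ l, conj c = c
def R2 (l : List (List ℂ)) : Prop := ∀ r ∈ l, R1 r
def R3 (l : List (List (List ℂ))) : Prop := ∀ r ∈ l, R2 r

/-- a pair of conjugate poles `wr + w1 de ± i wi` with residues `rho ± i sig` -/
structure Pol where
  wr : ℂ
  wi : ℂ
  w1 : ℂ
  rho : List (List ℂ)
  sig : List (List ℂ)

structure Pol.IsReal (p : Pol) : Prop where
  wr : conj p.wr = p.wr
  wi : conj p.wi = p.wi
  w1 : conj p.w1 = p.w1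
  rho : R2 p.rho
  sig : R2 p.sig

/-- Tables. `y = e (1 - u²)`, `u = 1/(cosh κ + T)`, `de = ε - ec`, `db = b - bc`, `b = eκ/2`:
`l n = eκ + e (exp (-2κ) - u²) (1/2 + H)`, `r n = 2 a_n (T + K)/(ε + c_n T)`,
`a_n = P2 (a n) de db · exp (-j_n κ)`, `M n`;
first node in terms of `φ = i v/(1 + i v/2)`: `l0 = φ P + b q`, `r0 = a_0 u/(1 + c0 u)`,
`u = 4 b + 4 g φ`, `g = 201/128 + (83/16) ε²`, `M0`. -/
structure Tb where
  ec : ℂ
  bc : ℂ
  H : List (List (List ℂ))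
  pol : Option Pol
  M : ℕ → List (List (List ℂ))
  a : ℕ → List (List ℂ)
  j : ℕ → ℂ
  c : ℕ → ℂ
  l0 : List (List (List ℂ))
  q0 : List (List ℂ)
  M0 : List (List (List ℂ))
  a0 : List (List ℂ)
  j0 : ℂ
  c0 : ℂ

/-- all coefficients are real -/
structure Tb.IsReal (t : Tb) : Prop where
  ec : conj t.ec = t.ec
  bc : conj t.bc = t.bc
  H : R3 t.H
  pol : ∀ p, t.pol = some p → p.IsReal
  M : ∀ n, R3 (t.M n)
  a : ∀ n, R2 (t.a n)
  j : ∀ n, conj (t.j n) = t.j n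
  c : ∀ n, conj (t.c n) = t.c n
  l0 : R3 t.l0
  q0 : R2 t.q0
  M0 : R3 t.M0
  a0 : R2 t.a0
  j0 : conj t.j0 = t.j0
  c0 : conj t.c0 = t.c0

theorem P2_real {l : List (List ℂ)} (h : R2 l) {u v : ℂ} (hu : conj u = u) (hv : conj v = v) :
    conj (P2 l u v) = P2 l u v := by
  unfold P2
  rw [← horn_conj _ (horn_map_real l h hv) u, hu]

theorem P3_real {l : List (List (List ℂ))} (h : R3 l) {w u v : ℂ} (hu : conj u = u)
    (hv : conj v = v) : P3 l (conj w) u v = conj (P3 l w u v) := by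
  unfold P3
  refine horn_conj _ ?_ w
  intro c hc
  rw [List.mem_map] at hc
  obtain ⟨r, hr, rfl⟩ := hc
  exact P2_real (h r hr) hu hv

theorem P3_diff (l : List (List (List ℂ))) (u v : ℂ) : Differentiable ℂ (fun w => P3 l w u v) :=
  horn_diff _

theorem conj_half : conj ((1 : ℂ) / 2) = 1 / 2 := by
  rw [map_div₀, map_one]
  congr 1
  exact Complex.conj_ofNat 2

namespace Pol

variable (p : Pol) (u : ℂ)

/-- `z = y - wr - w1 de` -/
def z (y : ℂ) : ℂ := y - (p.w1 * u + p.wr)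

/-- the pair of poles `(2 ρ z - 2 σ g)/(z² + g²)` -/
def val (y v : ℂ) : ℂ :=
  (((2 : ℂ) * (P2 p.rho u v * p.z u y)) - ((2 : ℂ) * (P2 p.sig u v * p.wi))) *
    ((p.z u y * p.z u y) + (p.wi * p.wi))⁻¹

/-- domain -/
def dom (y : ℂ) : Prop := (p.z u y * p.z u y) + (p.wi * p.wi) ≠ 0

variable {p u}

theorem z_conj (h : p.IsReal) (hu : conj u = u) (y : ℂ) : p.z u (conj y) = conj (p.z u y) := by
  unfold z
  rw [map_sub, map_add, map_mul, h.wr, h.w1, hu]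

theorem val_conj (h : p.IsReal) (hu : conj u = u) {v : ℂ} (hv : conj v = v) (y : ℂ) :
    p.val u (conj y) v = conj (p.val u y v) := by
  unfold val
  rw [z_conj h hu]
  simp only [map_add, map_mul, map_sub, map_inv₀, h.wi, P2_real h.rho hu hv, P2_real h.sig hu hv,
    show (conj (2 : ℂ)) = 2 from Complex.conj_ofNat 2]

theorem dom_conj (h : p.IsReal) (hu : conj u = u) {y : ℂ} (hy : p.dom u y) :
    p.dom u (conj y) := by
  unfold dom at hy ⊢
  have : (p.z u (conj y) * p.z u (conj y)) + (p.wi * p.wi) =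
      conj ((p.z u y * p.z u y) + (p.wi * p.wi)) := by
    rw [z_conj h hu, map_add, map_mul, map_mul, h.wi]
  rw [this]
  exact (map_ne_zero _).2 hy

theorem z_diff (y : ℂ) : DifferentiableAt ℂ (p.z u) y := differentiableAt_id.sub_const _

theorem den_diff (y : ℂ) :
    DifferentiableAt ℂ (fun y => (p.z u y * p.z u y) + (p.wi * p.wi)) y :=
  ((z_diff y).mul (z_diff y)).add_const _

theorem val_diff {v y : ℂ} (h : p.dom u y) : DifferentiableAt ℂ (fun y => p.val u y v) y := by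
  have h1 := ((z_diff (p := p) (u := u) y).const_mul (P2 p.rho u v)).const_mul 2
  exact (h1.sub_const _).mul ((den_diff y).inv h)

end Pol

/-- domain for an optional pair of poles -/
def podom (o : Option Pol) (u y : ℂ) : Prop := ∀ p, o = some p → p.dom u y

/-- `H` with an optional pair of poles -/
def HP (o : Option Pol) (H : List (List (List ℂ))) (y u v : ℂ) : ℂ :=
  match o with
  | none => P3 H y u v
  | some p => P3 H y u v + p.val u y v

theorem HP_conj {o : Option Pol} (ho : ∀ p, o = some p → p.IsReal) {H : List (List (List ℂ))}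
    (hH : R3 H) {u v : ℂ} (hu : conj u = u) (hv : conj v = v) (y : ℂ) :
    HP o H (conj y) u v = conj (HP o H y u v) := by
  cases o with
  | none => exact P3_real hH hu hv
  | some p =>
    show P3 H (conj y) u v + p.val u (conj y) v = conj (P3 H y u v + p.val u y v)
    rw [map_add, P3_real hH hu hv, Pol.val_conj (ho p rfl) hu hv]

theorem HP_diff {o : Option Pol} {H : List (List (List ℂ))} {u v y : ℂ} (h : podom o u y) :
    DifferentiableAt ℂ (fun y => HP o H y u v) y := by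
  cases o with
  | none => exact (P3_diff H u v).differentiableAt
  | some p =>
    show DifferentiableAt ℂ (fun y => P3 H y u v + p.val u y v) y
    exact (P3_diff H u v).differentiableAt.add (Pol.val_diff (h p rfl))

namespace Tb

variable (t : Tb) (e κ : ℝ)

/-- `ε - ec` -/
def de : ℂ := ((1 / e : ℝ) : ℂ) - t.ec

/-- `b - bc` -/
def db : ℂ := ((e * κ / 2 : ℝ) : ℂ) - t.bc

/-- `u = 1/(cosh κ + T)` -/
def uT (T : ℂ) : ℂ := ((Real.cosh κ : ℂ) + T)⁻¹

/-- `Y = 1 - u²` -/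
def YT (T : ℂ) : ℂ := ((Real.cosh κ : ℂ) - 1 + T) * uT κ T * (uT κ T + 1)

/-- `e (exp (-2κ) - u²)` -/
def vT (T : ℂ) : ℂ := (e : ℂ) * ((T - (Real.sinh κ : ℂ)) *
  (uT κ T * ((Real.exp (-κ) : ℂ) * ((Real.exp (-κ) : ℂ) + uT κ T))))

/-- `y = e Y` -/
def yT (T : ℂ) : ℂ := (e : ℂ) * YT κ T

def lT (T : ℂ) : ℂ := ((e * κ : ℝ) : ℂ) + vT e κ T *
  (1 / 2 + HP t.pol t.H (yT e κ T) (t.de e) (t.db e κ))

/-- `a_n` -/
def an (n : ℕ) : ℂ := P2 (t.a n) (t.de e) (t.db e κ) * exp (-(t.j n * κ))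

def rT (n : ℕ) (T : ℂ) : ℂ := 2 * t.an e κ n * (T + (Real.sinh κ : ℂ)) /
  (((1 / e : ℝ) : ℂ) + t.c n * T)

def MT (n : ℕ) (T : ℂ) : ℂ := P3 (t.M n) (yT e κ T) (t.de e) (t.db e κ)

/-- `g` -/
def gR : ℝ := 83 / 16 * (1 / e) ^ 2 + 201 / 128

/-- `i v` -/
def iv (p : ℂ) : ℂ := (Real.sinh (κ / 2) : ℂ) * tanh (κ * p) /
  (((1 / e : ℝ) : ℂ) * (gR e : ℂ) * (1 + (3 / 2) * (Real.sinh (κ / 2) : ℂ) ^ 2))

/-- `φ` -/
def ph (p : ℂ) : ℂ := iv e κ p / (1 + iv e κ p / 2)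

/-- `u = 4 b + 4 g φ` -/
def u0 (p : ℂ) : ℂ := 4 * ((e * κ / 2 : ℝ) : ℂ) + 4 * ((gR e : ℂ) * ph e κ p)

/-- `a_0` -/
def an0 : ℂ := P2 t.a0 (t.de e) (t.db e κ) * exp (-(t.j0 * κ))

variable {t e κ}

theorem conj_de (ht : t.IsReal) : conj (t.de e) = t.de e := by
  unfold de
  rw [map_sub, conj_ofReal, ht.ec]

theorem conj_db (ht : t.IsReal) : conj (t.db e κ) = t.db e κ := by
  unfold db
  rw [map_sub, conj_ofReal, ht.bc]

theorem conj_exp_j {j : ℂ} (hj : conj j = j) : conj (exp (-(j * κ))) = exp (-(j * κ)) := by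
  rw [← exp_conj, map_neg, map_mul, hj, conj_ofReal]

theorem conj_an (ht : t.IsReal) (n : ℕ) : conj (t.an e κ n) = t.an e κ n := by
  unfold an
  rw [map_mul, conj_exp_j (ht.j n), P2_real (ht.a n) (conj_de ht) (conj_db ht)]

theorem conj_an0 (ht : t.IsReal) : conj (t.an0 e κ) = t.an0 e κ := by
  unfold an0
  rw [map_mul, conj_exp_j ht.j0, P2_real ht.a0 (conj_de ht) (conj_db ht)]

theorem uT_conj (T : ℂ) : uT κ (conj T) = conj (uT κ T) := by
  unfold uT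
  rw [map_inv₀, map_add, conj_ofReal]

theorem YT_conj (T : ℂ) : YT κ (conj T) = conj (YT κ T) := by
  unfold YT
  rw [uT_conj]
  simp only [map_mul, map_add, map_sub, map_one, conj_ofReal]

theorem yT_conj (T : ℂ) : yT e κ (conj T) = conj (yT e κ T) := by
  unfold yT
  rw [YT_conj, map_mul, conj_ofReal]

theorem vT_conj (T : ℂ) : vT e κ (conj T) = conj (vT e κ T) := by
  unfold vT
  rw [uT_conj]
  simp only [map_mul, map_add, map_sub, conj_ofReal]

theorem lT_conj (ht : t.IsReal) (T : ℂ) : t.lT e κ (conj T) = conj (t.lT e κ T) := by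
  unfold lT
  rw [vT_conj, yT_conj, HP_conj ht.pol ht.H (conj_de ht) (conj_db ht), map_add, map_mul,
    map_add, conj_ofReal, conj_half]

/-- `Y = 1 - u²` -/
theorem YT_eq' {T : ℂ} (h : (Real.cosh κ : ℂ) + T ≠ 0) : YT κ T = 1 - uT κ T ^ 2 := by
  have h1 : ((Real.cosh κ : ℂ) + T) * uT κ T = 1 := mul_inv_cancel₀ h
  unfold YT
  linear_combination (1 + uT κ T) * h1

theorem vT_eq' {T : ℂ} (h : (Real.cosh κ : ℂ) + T ≠ 0) :
    vT e κ T = (e : ℂ) * ((Real.exp (-κ) : ℂ) ^ 2 - uT κ T ^ 2) := by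
  have h1 : ((Real.cosh κ : ℂ) + T) * uT κ T = 1 := mul_inv_cancel₀ h
  have h2 : (Real.cosh κ : ℂ) + (Real.sinh κ : ℂ) = (Real.exp κ : ℂ) := by
    rw [← ofReal_add, Real.cosh_add_sinh]
  have h3 : (Real.exp κ : ℂ) * (Real.exp (-κ) : ℂ) = 1 := exp_mul_exp_neg κ
  obtain ⟨k, hk⟩ : ∃ k, k = (Real.exp (-κ) : ℂ) := ⟨_, rfl⟩
  have h4 : (T - (Real.sinh κ : ℂ)) * (uT κ T * k) = k - uT κ T := by
    rw [← hk] at h3
    linear_combination k * h1 - uT κ T * h3 - uT κ T * k * h2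
  unfold vT
  rw [← hk]
  linear_combination (e : ℂ) * (k + uT κ T) * h4

theorem rT_conj (ht : t.IsReal) (n : ℕ) (T : ℂ) : t.rT e κ n (conj T) = conj (t.rT e κ n T) := by
  unfold rT
  rw [map_div₀, map_mul, map_mul, map_add, map_add, map_mul, conj_an ht, ht.c, conj_ofReal,
    conj_ofReal, show (conj (2 : ℂ)) = 2 from Complex.conj_ofNat 2]

theorem MT_conj (ht : t.IsReal) (n : ℕ) (T : ℂ) : t.MT e κ n (conj T) = conj (t.MT e κ n T) := by
  unfold MT
  rw [yT_conj, P3_real (ht.M n) (conj_de ht) (conj_db ht)]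

theorem iv_conj (p : ℂ) : iv e κ (conj p) = conj (iv e κ p) := by
  unfold iv
  rw [Tab.tanh_conj', map_div₀, map_mul, map_mul, map_mul, conj_ofReal, conj_ofReal, conj_ofReal]
  congr 2
  rw [map_add, map_mul, map_pow, conj_ofReal, map_one, map_div₀]
  congr 3
  · exact (Complex.conj_ofNat 3).symm
  · exact (Complex.conj_ofNat 2).symm

theorem ph_conj (p : ℂ) : ph e κ (conj p) = conj (ph e κ p) := by
  unfold ph
  rw [iv_conj, map_div₀, map_add, map_div₀, map_one, show (conj (2 : ℂ)) = 2 from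
    Complex.conj_ofNat 2]

theorem u0_conj (p : ℂ) : u0 e κ (conj p) = conj (u0 e κ p) := by
  unfold u0
  rw [ph_conj, map_add, map_mul, map_mul, map_mul, conj_ofReal, conj_ofReal,
    show (conj (4 : ℂ)) = 4 from Complex.conj_ofNat 4]

/-- the domain of the start -/
def DN (t : Tb) (e κ : ℝ) : Set ℂ :=
  {p | cosh (κ * p) ≠ 0 ∧ 1 + iv e κ p / 2 ≠ 0 ∧ 1 + t.c0 * u0 e κ p ≠ 0}

theorem iv_diff {p : ℂ} (h : cosh (κ * p) ≠ 0) : DifferentiableAt ℂ (iv e κ) p := by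
  unfold iv
  exact ((Tab.tanh_diff h).const_mul _).div_const _

theorem ph_diff {p : ℂ} (h : cosh (κ * p) ≠ 0) (h2 : 1 + iv e κ p / 2 ≠ 0) :
    DifferentiableAt ℂ (ph e κ) p := by
  unfold ph
  exact (iv_diff h).div (((iv_diff h).div_const 2).const_add 1) h2

theorem u0_diff {p : ℂ} (h : cosh (κ * p) ≠ 0) (h2 : 1 + iv e κ p / 2 ≠ 0) :
    DifferentiableAt ℂ (u0 e κ) p := by
  unfold u0
  exact (((ph_diff h h2).const_mul _).const_mul _).const_add _

theorem isOpen_DN (t : Tb) (e κ : ℝ) : IsOpen (t.DN e κ) := by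
  rw [isOpen_iff_mem_nhds]
  rintro p ⟨h1, h2, h3⟩
  have c1 : ContinuousAt (fun p : ℂ => cosh (κ * p)) p := by
    have : DifferentiableAt ℂ (fun p : ℂ => (κ : ℂ) * p) p := differentiableAt_id.const_mul _
    exact (Complex.differentiable_cosh.differentiableAt.comp p this).continuousAt
  have c2 : ContinuousAt (fun p : ℂ => 1 + iv e κ p / 2) p :=
    (((iv_diff h1).div_const 2).const_add 1).continuousAt
  have c3 : ContinuousAt (fun p : ℂ => 1 + t.c0 * u0 e κ p) p :=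
    (((u0_diff h1 h2).const_mul t.c0).const_add 1).continuousAt
  filter_upwards [c1.eventually_ne h1, c2.eventually_ne h2, c3.eventually_ne h3] with q a b c
  exact ⟨a, b, c⟩

theorem snd_diff (p T : ℂ) : DifferentiableAt ℂ (fun q : ℂ × ℂ => q.2) (p, T) :=
  differentiableAt_snd

theorem uT_diff {p T : ℂ} (h : (Real.cosh κ : ℂ) + T ≠ 0) :
    DifferentiableAt ℂ (fun q : ℂ × ℂ => uT κ q.2) (p, T) := by
  unfold uT
  exact ((snd_diff p T).const_add _).inv h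

theorem YT_diff {p T : ℂ} (h : (Real.cosh κ : ℂ) + T ≠ 0) :
    DifferentiableAt ℂ (fun q : ℂ × ℂ => YT κ q.2) (p, T) := by
  unfold YT
  exact (((snd_diff p T).const_add _).mul (uT_diff h)).mul ((uT_diff h).add_const _)

theorem yT_diff {p T : ℂ} (h : (Real.cosh κ : ℂ) + T ≠ 0) :
    DifferentiableAt ℂ (fun q : ℂ × ℂ => yT e κ q.2) (p, T) := by
  unfold yT
  exact (YT_diff h).const_mul _

theorem vT_diff {p T : ℂ} (h : (Real.cosh κ : ℂ) + T ≠ 0) :
    DifferentiableAt ℂ (fun q : ℂ × ℂ => vT e κ q.2) (p, T) := by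
  unfold vT
  exact (((snd_diff p T).sub_const _).mul ((uT_diff h).mul
    (((uT_diff h).const_add _).const_mul _))).const_mul _

/-- **The record.** -/
def lamT (t : Tb) (ht : t.IsReal) (e κ : ℝ) : LamT where
  DN := t.DN e κ
  isOpen_DN := isOpen_DN t e κ
  conj_DN := by
    rintro p ⟨h1, h2, h3⟩
    refine ⟨?_, ?_, ?_⟩
    · rw [Tab.cosh_conj']
      exact (map_ne_zero _).2 h1
    · rw [iv_conj]
      have : 1 + conj (iv e κ p) / 2 = conj (1 + iv e κ p / 2) := by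
        rw [map_add, map_div₀, map_one, show (conj (2 : ℂ)) = 2 from Complex.conj_ofNat 2]
      rw [this]
      exact (map_ne_zero _).2 h2
    · rw [u0_conj]
      have : 1 + t.c0 * conj (u0 e κ p) = conj (1 + t.c0 * u0 e κ p) := by
        rw [map_add, map_mul, map_one, ht.c0]
      rw [this]
      exact (map_ne_zero _).2 h3
  DT := fun n => {q | (Real.cosh κ : ℂ) + q.2 ≠ 0 ∧ ((1 / e : ℝ) : ℂ) + t.c n * q.2 ≠ 0 ∧
    podom t.pol (t.de e) (yT e κ q.2)}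
  isOpen_DT := by
    intro n
    have h1 : Continuous (fun q : ℂ × ℂ => (Real.cosh κ : ℂ) + q.2) :=
      continuous_snd.const_add _
    have h2 : Continuous (fun q : ℂ × ℂ => ((1 / e : ℝ) : ℂ) + t.c n * q.2) :=
      (continuous_const.mul continuous_snd).const_add _
    rw [isOpen_iff_mem_nhds]
    rintro ⟨p, T⟩ ⟨m1, m2, m3⟩
    have m1' : (Real.cosh κ : ℂ) + T ≠ 0 := m1
    have h3 : ∀ᶠ q : ℂ × ℂ in 𝓝 (p, T), podom t.pol (t.de e) (yT e κ q.2) := by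
      have hc : ContinuousAt (fun q : ℂ × ℂ => yT e κ q.2) (p, T) :=
        (yT_diff m1').continuousAt
      cases hp : t.pol with
      | none =>
        exact Filter.Eventually.of_forall (fun q r hr => by cases hr)
      | some r =>
        have k1 := m3 r hp
        have c1 : ContinuousAt (fun q : ℂ × ℂ => (r.z (t.de e) (yT e κ q.2) *
            r.z (t.de e) (yT e κ q.2)) + (r.wi * r.wi)) (p, T) :=
          ContinuousAt.comp (g := fun y => (r.z (t.de e) y * r.z (t.de e) y) + (r.wi * r.wi))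
            (Pol.den_diff _).continuousAt hc
        filter_upwards [c1.eventually_ne k1] with q q1
        intro r' hr'
        rw [Option.some.injEq] at hr'
        rw [← hr']
        exact q1
    filter_upwards [h1.continuousAt.eventually_ne m1, h2.continuousAt.eventually_ne m2, h3]
      with q q1 q2 q3
    exact ⟨q1, q2, q3⟩
  conj_DT := by
    rintro n p T ⟨h, h', h''⟩
    have h1 : (Real.cosh κ : ℂ) + T ≠ 0 := h
    have h2 : ((1 / e : ℝ) : ℂ) + t.c n * T ≠ 0 := h'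
    refine ⟨?_, ?_, ?_⟩
    · show (Real.cosh κ : ℂ) + conj T ≠ 0
      have : (Real.cosh κ : ℂ) + conj T = conj ((Real.cosh κ : ℂ) + T) := by
        rw [map_add, conj_ofReal]
      rw [this]
      exact (map_ne_zero _).2 h1
    · show ((1 / e : ℝ) : ℂ) + t.c n * conj T ≠ 0
      have : ((1 / e : ℝ) : ℂ) + t.c n * conj T = conj (((1 / e : ℝ) : ℂ) + t.c n * T) := by
        rw [map_add, map_mul, conj_ofReal, ht.c]
      rw [this]
      exact (map_ne_zero _).2 h2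
    · intro r hr
      show r.dom (t.de e) (yT e κ (conj T))
      rw [yT_conj]
      exact Pol.dom_conj (ht.pol r hr) (conj_de ht) (h'' r hr)
  l0 := fun p => ph e κ p * P3 t.l0 (ph e κ p) (t.de e) (t.db e κ) +
    ((e * κ / 2 : ℝ) : ℂ) * P2 t.q0 (t.de e) (t.db e κ)
  r0 := fun p => t.an0 e κ * u0 e κ p / (1 + t.c0 * u0 e κ p)
  M0 := fun p => P3 t.M0 (ph e κ p) (t.de e) (t.db e κ)
  l := fun _ _ T => t.lT e κ T
  r := fun n _ T => t.rT e κ n T
  M := fun n _ T => t.MT e κ n T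
  l0_diff := by
    rintro p ⟨h1, h2, -⟩
    have h4 := ph_diff h1 h2
    have h5 : DifferentiableAt ℂ (fun p => P3 t.l0 (ph e κ p) (t.de e) (t.db e κ)) p :=
      (((P3_diff t.l0 (t.de e) (t.db e κ)).differentiableAt).comp p h4)
    exact ((h4.mul h5).add_const _).differentiableWithinAt
  r0_diff := by
    rintro p ⟨h1, h2, h3⟩
    have h4 := u0_diff h1 h2
    exact ((h4.const_mul _).div ((h4.const_mul t.c0).const_add 1) h3).differentiableWithinAt
  M0_diff := by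
    rintro p ⟨h1, h2, -⟩
    have h4 := ph_diff h1 h2
    exact (((P3_diff t.M0 (t.de e) (t.db e κ)).differentiableAt).comp p h4).differentiableWithinAt
  l_diff := by
    rintro n p T ⟨h, -, h3⟩
    have h0 : (Real.cosh κ : ℂ) + T ≠ 0 := h
    have h2 : DifferentiableAt ℂ (fun q : ℂ × ℂ => HP t.pol t.H (yT e κ q.2) (t.de e) (t.db e κ))
        (p, T) :=
      DifferentiableAt.comp (g := fun w => HP t.pol t.H w (t.de e) (t.db e κ)) (p, T)
        (HP_diff h3) (yT_diff h0)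
    unfold lT
    exact (((vT_diff h0).mul (h2.const_add _)).const_add _)
  r_diff := by
    rintro n p T ⟨-, h, -⟩
    have h0 : ((1 / e : ℝ) : ℂ) + t.c n * T ≠ 0 := h
    have h1 := snd_diff p T
    have h2 : DifferentiableAt ℂ (fun q : ℂ × ℂ => ((1 / e : ℝ) : ℂ) + t.c n * q.2) (p, T) :=
      (h1.const_mul (t.c n)).const_add _
    have h3 : DifferentiableAt ℂ (fun q : ℂ × ℂ =>
        2 * t.an e κ n * (q.2 + (Real.sinh κ : ℂ))) (p, T) :=
      ((h1.add_const _).const_mul _)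
    unfold rT
    simp only [div_eq_mul_inv] at h2 h3 h0 ⊢
    exact h3.mul (h2.inv h0)
  M_diff := by
    rintro n p T ⟨h, -⟩
    have h0 : (Real.cosh κ : ℂ) + T ≠ 0 := h
    unfold MT
    exact DifferentiableAt.comp (g := fun w => P3 (t.M n) w (t.de e) (t.db e κ)) (p, T)
        ((P3_diff (t.M n) (t.de e) (t.db e κ)).differentiableAt) (yT_diff h0)
  l0_conj := by
    intro p _
    rw [ph_conj, P3_real ht.l0 (conj_de ht) (conj_db ht), map_add, map_mul, map_mul,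
      conj_ofReal, P2_real ht.q0 (conj_de ht) (conj_db ht)]
  r0_conj := by
    intro p _
    rw [u0_conj, map_div₀, map_mul, map_add, map_mul, map_one, conj_an0 ht, ht.c0]
  M0_conj := by
    intro p _
    rw [ph_conj, P3_real ht.M0 (conj_de ht) (conj_db ht)]
  l_conj := fun n p T _ => lT_conj ht T
  r_conj := fun n p T _ => rT_conj ht n T
  M_conj := fun n p T _ => MT_conj ht n T

/-! ### Normalised values -/

/-- `de` -/
def deb (t : Tb) (b : PtB) : ℂ := b.ep - t.ec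

/-- `db` -/
def dbb (t : Tb) (b : PtB) : ℂ := b.b - t.bc

/-- `exp (-κ)` -/
def ek (b : PtB) : ℂ := Complex.exp (-((2 : ℂ) * b.z))

/-- `u` -/
def un (b : PtB) (U : ℂ) : ℂ := ((b.se * (b.gs + U)) + (1 : ℂ))⁻¹

/-- `y` -/
def yn (b : PtB) (U : ℂ) : ℂ := b.s * (((b.gs + U) * un b U) * (un b U + (1 : ℂ)))

/-- `L` of a near node -/
def Lf (t : Tb) (_ : ℕ) (b : PtB) (U : ℂ) : ℂ :=
  ((2 : ℂ) * b.B) + (((U - b.K) * (un b U * (ek b * (ek b + un b U)))) *
    (HP t.pol t.H (yn b U) (t.deb b) (t.dbb b) + ((1 / 2) : ℂ)))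

/-- `2 a_n` -/
def anb (t : Tb) (n : ℕ) (b : PtB) : ℂ :=
  (2 : ℂ) * (P2 (t.a n) (t.deb b) (t.dbb b) * Complex.exp (-(t.j n * ((2 : ℂ) * b.z))))

/-- `R` of a near node -/
def Rf (t : Tb) (n : ℕ) (b : PtB) (U : ℂ) : ℂ :=
  (t.anb n b * (U + b.K)) * ((t.c n * (b.s * U)) + (1 : ℂ))⁻¹

/-- `M` of a near node -/
def Mf (t : Tb) (n : ℕ) (b : PtB) (U : ℂ) : ℂ := P3 (t.M n) (yn b U) (t.deb b) (t.dbb b)

/-- the normalised functions -/
def nf (t : Tb) : NF := ⟨t.Lf, t.Rf, t.Mf⟩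

/-- `g` -/
def gf (b : PtB) : ℂ := ((((83 / 16) : ℂ) * (b.ep * b.ep)) + ((201 / 128) : ℂ))

/-- `W` -/
def W0 (b : PtB) (V : ℂ) : ℂ :=
  ((2 : ℂ) * (Tab.IV V * gf b)) * ((((3 / 8) : ℂ) * ((b.se * b.se) * b.Z4)) + (1 : ℂ))

def L0 (t : Tb) (b : PtB) (V : ℂ) : ℂ :=
  (Tab.Ph b V * P3 t.l0 (b.s * Tab.Ph b V) (t.deb b) (t.dbb b)) +
    (b.B * P2 t.q0 (t.deb b) (t.dbb b))

def u0n (b : PtB) (V : ℂ) : ℂ := (4 : ℂ) * (b.B + (Tab.Ph b V * gf b))

def an0b (t : Tb) (b : PtB) : ℂ :=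
  P2 t.a0 (t.deb b) (t.dbb b) * Complex.exp (-(t.j0 * ((2 : ℂ) * b.z)))

def R0 (t : Tb) (b : PtB) (V : ℂ) : ℂ :=
  (t.an0b b * u0n b V) * ((t.c0 * (b.s * u0n b V)) + (1 : ℂ))⁻¹

def M0f (t : Tb) (b : PtB) (V : ℂ) : ℂ := P3 t.M0 (b.s * Tab.Ph b V) (t.deb b) (t.dbb b)

/-- `t k^..` for the displacement -/
def tkb (t : Tb) (l : List (List ℂ)) (j : ℂ) (b : PtB) : ℂ :=
  P2 l (t.deb b) (t.dbb b) * Complex.exp (-(j * ((2 : ℂ) * b.z)))

/-- the same as a real number -/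
def tkR (t : Tb) (l : List (List ℂ)) (j : ℝ) (e κ : ℝ) : ℝ :=
  (P2 l (t.de e) (t.db e κ)).re * Real.exp (-(j * κ))

/-- the normalised functions of the first node -/
def nf0 (t : Tb) : NF0 := ⟨W0, t.L0, t.R0, t.M0f⟩

end Tb

end

variable {e κ s B : ℝ} {t : Tb}

theorem Tb.de_eq {b : PtB} (h : BR e κ s B b) : t.de e = t.deb b := by
  unfold Tb.de Tb.deb
  rw [h.hep]

theorem BR.b_eq (he : 0 < e) {b : PtB} (h : BR e κ s B b) : ((e * κ / 2 : ℝ) : ℂ) = b.b := by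
  have he0 : (e : ℂ) ≠ 0 := by exact_mod_cast he.ne'
  unfold PtB.b
  rw [h.hs, h.hB, h.kap]
  push_cast
  field_simp

theorem Tb.db_eq (he : 0 < e) {b : PtB} (h : BR e κ s B b) : t.db e κ = t.dbb b := by
  unfold Tb.db Tb.dbb
  rw [h.b_eq he]

theorem BR.two_z {b : PtB} (h : BR e κ s B b) : (2 : ℂ) * b.z = (κ : ℂ) := by
  rw [h.z_eq]
  push_cast
  ring

theorem Tb.uT_eq {b : PtB} (h : BR e κ s B b) (U : ℂ) : Tb.uT κ (b.se * U) = Tb.un b U := by
  unfold Tb.uT Tb.un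
  rw [h.cosh_c]
  congr 1
  ring

theorem Tb.ek_eq {b : PtB} (h : BR e κ s B b) : Tb.ek b = (Real.exp (-κ) : ℂ) := by
  unfold Tb.ek
  rw [h.two_z]
  push_cast
  rfl

theorem BR.e_se (he : 0 < e) {b : PtB} (h : BR e κ s B b) : (e : ℂ) * b.se = b.s := by
  have he0 : (e : ℂ) ≠ 0 := by exact_mod_cast he.ne'
  unfold PtB.se
  rw [h.hep]
  push_cast
  field_simp

theorem Tb.yT_eq (he : 0 < e) {b : PtB} (h : BR e κ s B b) (U : ℂ) :
    Tb.yT e κ (b.se * U) = Tb.yn b U := by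
  have h2 := h.e_se he
  unfold Tb.yT Tb.YT Tb.yn
  rw [Tb.uT_eq h, h.cosh_c, ← h2]
  ring

theorem Tb.gR_eq {b : PtB} (h : BR e κ s B b) : (Tb.gR e : ℂ) = Tb.gf b := by
  unfold Tb.gR Tb.gf
  rw [h.hep]
  push_cast
  ring

theorem Tb.gR_pos (e : ℝ) : 0 < Tb.gR e := by
  unfold Tb.gR
  positivity

theorem Tb.tk_eq (he : 0 < e) (ht : t.IsReal) {l : List (List ℂ)} (hl : R2 l) {j : ℂ} {jr : ℝ}
    (hj : j = (jr : ℂ)) {b : PtB} (h : BR e κ s B b) : t.tkb l j b = (t.tkR l jr e κ : ℂ) := by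
  have h1 : ((P2 l (t.de e) (t.db e κ)).re : ℂ) = P2 l (t.de e) (t.db e κ) :=
    Complex.conj_eq_iff_re.1 (P2_real hl (Tb.conj_de ht) (Tb.conj_db ht))
  unfold Tb.tkb Tb.tkR
  rw [ofReal_mul, h1, Tb.de_eq h, Tb.db_eq he h, h.two_z, hj]
  push_cast
  rfl

theorem Tb.nf_ok (he : 0 < e) (ht : t.IsReal) : t.nf.OK e κ (t.lamT ht e κ) := by
  have he0 : (e : ℂ) ≠ 0 := by exact_mod_cast he.ne'
  refine ⟨?_, ?_, ?_⟩
  · intro s B b h n p U
    have h2 := h.e_se he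
    have h3 : ((e * κ : ℝ) : ℂ) = 2 * (b.s * b.B) := by
      rw [h.hs, h.hB, h.kap]
      push_cast
      field_simp
    have h4 : Tb.vT e κ (b.se * U) = b.s * ((U - b.K) * (Tb.un b U * (Tb.ek b *
        (Tb.ek b + Tb.un b U)))) := by
      unfold Tb.vT
      rw [Tb.uT_eq h, Tb.ek_eq h, h.sinh_c, ← h2]
      ring
    show t.lT e κ (b.se * U) = b.s * t.Lf n b U
    unfold Tb.lT Tb.Lf
    rw [h4, Tb.yT_eq he h, Tb.de_eq h, Tb.db_eq he h, h3]
    ring
  · intro s B b h n p U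
    have h2 := h.e_se he
    have h5 : t.anb n b = 2 * t.an e κ n := by
      unfold Tb.anb Tb.an
      rw [Tb.de_eq h, Tb.db_eq he h, h.two_z]
    show t.rT e κ n (b.se * U) = b.s * t.Rf n b U
    unfold Tb.rT Tb.Rf
    rw [h5, h.sinh_c, ← h.hep]
    have h6 : b.ep ≠ 0 := by
      rw [h.hep]
      exact_mod_cast (one_div_pos.2 he).ne'
    have h7 : b.ep + t.c n * (b.se * U) = b.ep * (t.c n * (b.s * U) + 1) := by
      unfold PtB.se
      ring
    have h8 : 2 * t.an e κ n * (b.se * U + b.se * b.K) =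
        b.ep * (b.s * (2 * t.an e κ n * (U + b.K))) := by
      unfold PtB.se
      ring
    rw [h7, h8, mul_div_mul_left _ _ h6, div_eq_mul_inv]
    ring
  · intro s B b h n p U
    show P3 (t.M n) (Tb.yT e κ (b.se * U)) (t.de e) (t.db e κ) = P3 (t.M n) (Tb.yn b U) (t.deb b)
      (t.dbb b)
    rw [Tb.yT_eq he h, Tb.de_eq h, Tb.db_eq he h]

theorem Tb.nf0_ok (he : 0 < e) (hκ : 0 < κ) (ht : t.IsReal) {η : ℝ} :
    t.nf0.OK e κ (Tab.vv e κ (Tb.gR e) η) ((η : ℂ) * I) (t.lamT ht e κ) := by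
  have he0 : (e : ℂ) ≠ 0 := by exact_mod_cast he.ne'
  obtain ⟨g, hgg⟩ : ∃ g, g = Tb.gR e := ⟨_, rfl⟩
  have hg : 0 < g := by
    rw [hgg]
    exact Tb.gR_pos e
  rw [← hgg]
  have hg0 : (g : ℂ) ≠ 0 := by exact_mod_cast hg.ne'
  obtain ⟨v, hv⟩ : ∃ v, v = Tab.vv e κ g η := ⟨_, rfl⟩
  have hd : 0 < 1 + (3 / 2) * Real.sinh (κ / 2) ^ 2 := by positivity
  have hvr : Real.sinh (κ / 2) * Real.tan (κ * η) =
      v * (1 / e * g * (1 + (3 / 2) * Real.sinh (κ / 2) ^ 2)) := by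
    rw [hv]
    unfold Tab.vv
    field_simp
  have hth : tanh (κ * ((η : ℂ) * I)) = (Real.tan (κ * η) : ℂ) * I := tanh_I κ η
  have h5 : (Real.sinh (κ / 2) : ℂ) * (Real.tan (κ * η) : ℂ) =
      v * (((1 / e : ℝ) : ℂ) * g * (1 + (3 / 2) * (Real.sinh (κ / 2) : ℂ) ^ 2)) := by
    have := congrArg (fun x : ℝ => (x : ℂ)) hvr
    simp only [ofReal_mul, ofReal_add, ofReal_pow, ofReal_one, ofReal_div, ofReal_ofNat] at this ⊢
    exact this
  have hiv : Tb.iv e κ ((η : ℂ) * I) = (v : ℂ) * I := by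
    unfold Tb.iv
    rw [hth, ← hgg]
    have h2 : ((1 / e : ℝ) : ℂ) * g * (1 + (3 / 2) * (Real.sinh (κ / 2) : ℂ) ^ 2) ≠ 0 := by
      have : ((1 / e * g * (1 + (3 / 2) * Real.sinh (κ / 2) ^ 2) : ℝ) : ℂ) ≠ 0 := by
        exact_mod_cast (show 1 / e * g * (1 + (3 / 2) * Real.sinh (κ / 2) ^ 2) ≠ 0 by positivity)
      simp only [ofReal_mul, ofReal_add, ofReal_pow, ofReal_one, ofReal_div, ofReal_ofNat] at this ⊢
      exact this
    rw [div_eq_iff h2]
    linear_combination I * h5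
  have hVs : ∀ {s B V : ℝ} {b : PtB}, BR e κ s B b → s * V = v →
      b.s * Tab.IV V = (v : ℂ) * I := by
    intro s B V b h hV
    unfold Tab.IV
    rw [h.hs, ← hV]
    push_cast
    ring
  have hPh : ∀ {s B V : ℝ} {b : PtB}, BR e κ s B b → s * V = v →
      Tb.ph e κ ((η : ℂ) * I) = b.s * Tab.Ph b V := by
    intro s B V b h hV
    have h1 := hVs h hV
    unfold Tb.ph Tab.Ph
    rw [hiv, ← h1, div_eq_mul_inv, mul_assoc]
    congr 3
    ring
  rw [← hv]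
  refine ⟨?_, ?_, ?_, ?_, ?_⟩
  · intro s B V b h hV
    have h1 : Tb.gf b = (g : ℂ) := by
      rw [hgg, Tb.gR_eq h]
    have h2 : b.se * Tab.IV V = ((1 / e : ℝ) : ℂ) * ((v : ℂ) * I) := by
      rw [← hVs h hV]
      unfold PtB.se
      rw [h.hep]
      ring
    have h3 : b.se ^ 2 * b.Z4 = (Hh κ : ℂ) ^ 2 := h.H_sq.symm
    have h4 : (Hh κ : ℂ) = 2 * (Real.sinh (κ / 2) : ℂ) := by
      unfold Hh
      push_cast
      ring
    show _ = b.se * (((2 : ℂ) * (Tab.IV V * Tb.gf b)) *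
      ((((3 / 8) : ℂ) * ((b.se * b.se) * b.Z4)) + (1 : ℂ)))
    rw [h1, hth]
    have h6 : (b.se * b.se) * b.Z4 = 4 * (Real.sinh (κ / 2) : ℂ) ^ 2 := by
      linear_combination h3 + ((Hh κ : ℂ) + 2 * (Real.sinh (κ / 2) : ℂ)) * h4
    rw [h6, h4]
    linear_combination (2 * I) * h5 - 2 * (g : ℂ) *
      ((((3 / 8) : ℂ) * (4 * (Real.sinh (κ / 2) : ℂ) ^ 2)) + (1 : ℂ)) * h2
  · intro s B V b h hV
    have h1 : Tb.gf b = (g : ℂ) := by
      rw [hgg, Tb.gR_eq h]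
    obtain ⟨z, hz⟩ : ∃ z : ℝ, (b.se * b.se) * b.Z4 = (z : ℂ) := by
      refine ⟨Hh κ ^ 2, ?_⟩
      have h3 : b.se ^ 2 * b.Z4 = (Hh κ : ℂ) ^ 2 := h.H_sq.symm
      push_cast
      linear_combination h3
    refine ⟨2 * (V * g) * (3 / 8 * z + 1), ?_⟩
    show ((2 : ℂ) * (Tab.IV V * Tb.gf b)) * ((((3 / 8) : ℂ) * ((b.se * b.se) * b.Z4)) + (1 : ℂ)) = _
    rw [h1, hz]
    unfold Tab.IV
    push_cast
    ring
  · intro s B V b h hV
    have h3 : ((e * κ / 2 : ℝ) : ℂ) = b.s * b.B := h.b_eq he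
    show Tb.ph e κ ((η : ℂ) * I) * P3 t.l0 (Tb.ph e κ ((η : ℂ) * I)) (t.de e) (t.db e κ) +
      ((e * κ / 2 : ℝ) : ℂ) * P2 t.q0 (t.de e) (t.db e κ) =
      b.s * ((Tab.Ph b V * P3 t.l0 (b.s * Tab.Ph b V) (t.deb b) (t.dbb b)) +
        (b.B * P2 t.q0 (t.deb b) (t.dbb b)))
    rw [hPh h hV, Tb.de_eq h, Tb.db_eq he h, h3]
    ring
  · intro s B V b h hV
    have h1 : (Tb.gR e : ℂ) = Tb.gf b := Tb.gR_eq h
    have h3 : ((e * κ / 2 : ℝ) : ℂ) = b.s * b.B := h.b_eq he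
    have h4 : Tb.u0 e κ ((η : ℂ) * I) = b.s * Tb.u0n b V := by
      unfold Tb.u0 Tb.u0n
      rw [hPh h hV, h1, h3]
      ring
    have h5 : t.an0 e κ = t.an0b b := by
      unfold Tb.an0 Tb.an0b
      rw [Tb.de_eq h, Tb.db_eq he h, h.two_z]
    show t.an0 e κ * Tb.u0 e κ ((η : ℂ) * I) / (1 + t.c0 * Tb.u0 e κ ((η : ℂ) * I)) =
      b.s * ((t.an0b b * Tb.u0n b V) * ((t.c0 * (b.s * Tb.u0n b V)) + (1 : ℂ))⁻¹)
    rw [h4, h5, div_eq_mul_inv, add_comm (1 : ℂ)]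
    ring
  · intro s B V b h hV
    show P3 t.M0 (Tb.ph e κ ((η : ℂ) * I)) (t.de e) (t.db e κ) =
      P3 t.M0 (b.s * Tab.Ph b V) (t.deb b) (t.dbb b)
    rw [hPh h hV, Tb.de_eq h, Tb.db_eq he h]

end Pool.Agent.helper12.RS
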