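import Pool.Agent.helper12.RS.LastQ
import Pool.Agent.helper12.RS.MidQP
import Pool.Agent.helper70.EQR.Circ
import Pool.Agent.helper72.EQR.MaxM
import Pool.Agent.helper20.EQR.MaxL

/-!
# Nodes of the corner from the circle, the inner arc and the maximum principle
-/

namespace Pool.Agent.helper12.RS

open Complex ComplexConjugate Set Metric
open Pool.Agent.helper63.NF Pool.Agent.helper20.EQR

variable {t : Tb} {e κ θ δ Y s1 R : ℝ} {n : ℕ}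

/-- sizes in the corner -/
theorem cor_size (H : CH t e κ δ s1 R) : 0 < Real.sinh κ ∧ Real.sinh κ ≤ 63 / 500 ∧
    e * Real.sinh κ ≤ 63 / 125 ∧ 1 ≤ Real.cosh κ ∧ Real.cosh κ ≤ 126 / 125 ∧
    Real.cosh κ ^ 2 = Real.sinh κ ^ 2 + 1 := by
  have he := H.he
  have hκ := H.hκ
  have hb := H.hb
  have hK0 : 0 < Real.sinh κ := Real.sinh_pos_iff.2 hκ
  have hκ8 : κ ≤ 1 / 8 := by nlinarith
  have hc := Real.cosh_sq κ
  have h1 := Real.cosh_le_exp_half_sq κ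
  have hc1 := Real.one_le_cosh κ
  have h2 : Real.cosh κ ^ 2 ≤ Real.exp (κ ^ 2) := by
    calc Real.cosh κ ^ 2 ≤ Real.exp (κ ^ 2 / 2) ^ 2 := pow_le_pow_left₀ (by linarith) h1 2
      _ = Real.exp (κ ^ 2) := by rw [← Real.exp_nat_mul]; congr 1; push_cast; ring
  have hk2 : κ ^ 2 ≤ 1 / 64 := by nlinarith
  have h3 := (abs_le.1 (Real.abs_exp_sub_one_sub_id_le (x := κ ^ 2) (by
    rw [abs_of_nonneg (by positivity)]; linarith))).2
  have h4 : Real.sinh κ ^ 2 ≤ (126 / 125 * κ) ^ 2 := by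
    nlinarith [sq_nonneg κ, mul_nonneg (sq_nonneg κ) (sub_nonneg.2 hk2)]
  have h5 : Real.sinh κ ≤ 126 / 125 * κ :=
    (pow_le_pow_iff_left₀ hK0.le (by positivity) (by norm_num)).1 h4
  have h6 : Real.sinh κ ≤ 63 / 500 := by linarith
  refine ⟨hK0, h6, ?_, hc1, ?_, hc⟩
  · calc e * Real.sinh κ ≤ e * (126 / 125 * κ) := mul_le_mul_of_nonneg_left h5 (by linarith)
      _ = 126 / 125 * (e * κ) := by ring
      _ ≤ 126 / 125 * (1 / 2) := by linarith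
      _ = _ := by norm_num
  · nlinarith

/-- a point of size at most `1/(2e)` -/
theorem cor_pt (H : CH t e κ δ s1 R) {T : ℂ} (hT : e * ‖T‖ ≤ 1 / 2) (n : ℕ) :
    7 / 8 ≤ ((Real.cosh κ : ℂ) + T).re ∧ (Real.cosh κ : ℂ) + T ≠ 0 ∧
    ((1 / e : ℝ) : ℂ) + t.c n * T ≠ 0 ∧ podom t.pol (t.de e) (Tb.yT e κ T) := by
  obtain ⟨hK0, hK1, heK, hc1, hc2, hcs⟩ := cor_size H
  have he := H.he
  have he0 : 0 < e := by linarith
  have hn := norm_nonneg T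
  have hT8 : ‖T‖ ≤ 1 / 8 := by nlinarith
  have hre := (abs_le.1 (Complex.abs_re_le_norm T)).1
  have h1 : 7 / 8 ≤ ((Real.cosh κ : ℂ) + T).re := by
    rw [add_re, ofReal_re]
    linarith
  have h2 : (Real.cosh κ : ℂ) + T ≠ 0 := by
    intro h
    rw [h] at h1
    norm_num at h1
  refine ⟨h1, h2, ?_, ?_⟩
  · obtain ⟨c, hc0, hc1', hc⟩ := H.c n
    intro h
    have h3 : ((1 / e : ℝ) : ℂ) = -(t.c n * T) := by linear_combination h
    have h4 : 1 / e = ‖t.c n * T‖ := by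
      rw [← norm_neg, ← h3, Complex.norm_real, Real.norm_of_nonneg (by positivity)]
    have h5 : ‖t.c n * T‖ ≤ 1 * ‖T‖ := by
      rw [norm_mul, hc, Complex.norm_real, Real.norm_of_nonneg hc0]
      exact mul_le_mul_of_nonneg_right hc1' hn
    have h6 : 1 ≤ e * ‖T‖ := by
      have : e * (1 / e) ≤ e * ‖T‖ := mul_le_mul_of_nonneg_left (by linarith) he0.le
      rwa [mul_one_div_cancel he0.ne'] at this
    linarith
  · apply H.pol
    have hu : ‖Tb.uT κ T‖ ≤ 8 / 7 := by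
      unfold Tb.uT
      rw [norm_inv]
      rw [inv_le_comm₀ (norm_pos_iff.2 h2) (by norm_num)]
      have := Complex.re_le_norm ((Real.cosh κ : ℂ) + T)
      norm_num at this ⊢
      linarith
    have h3 : e * ‖(Real.cosh κ : ℂ) - 1 + T‖ ≤ 8 / 15 := by
      have h4 : ‖(Real.cosh κ : ℂ) - 1 + T‖ ≤ (Real.cosh κ - 1) + ‖T‖ := by
        refine (norm_add_le _ _).trans ?_
        have : ((Real.cosh κ : ℂ) - 1) = ((Real.cosh κ - 1 : ℝ) : ℂ) := by push_cast; rfl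
        rw [this, Complex.norm_real, Real.norm_of_nonneg (by linarith)]
      have h5 : Real.cosh κ - 1 ≤ Real.sinh κ ^ 2 / 2 := by nlinarith
      have h6 : e * (Real.cosh κ - 1) ≤ 1 / 30 := by
        calc e * (Real.cosh κ - 1) ≤ e * (Real.sinh κ ^ 2 / 2) :=
              mul_le_mul_of_nonneg_left h5 he0.le
          _ = (e * Real.sinh κ) * Real.sinh κ / 2 := by ring
          _ ≤ (63 / 125) * (63 / 500) / 2 := by gcongr
          _ ≤ _ := by norm_num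
      have h7 := mul_le_mul_of_nonneg_left h4 he0.le
      rw [mul_add] at h7
      linarith
    unfold Tb.yT Tb.YT
    rw [norm_mul, norm_mul, norm_mul, Complex.norm_real, Real.norm_of_nonneg he0.le]
    have h8 : ‖Tb.uT κ T + 1‖ ≤ 15 / 7 := by
      refine (norm_add_le _ _).trans ?_
      rw [norm_one]
      linarith
    calc e * (‖(Real.cosh κ : ℂ) - 1 + T‖ * ‖Tb.uT κ T‖ * ‖Tb.uT κ T + 1‖) =
          (e * ‖(Real.cosh κ : ℂ) - 1 + T‖) * ‖Tb.uT κ T‖ * ‖Tb.uT κ T + 1‖ := by ring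
      _ ≤ (8 / 15) * (8 / 7) * (15 / 7) := by gcongr
      _ ≤ 2 := by norm_num

/-- the parameter `X` -/
theorem circ_X (he : 0 < e) (hκ : 0 < κ) (ht : t.IsReal) {s B : ℝ} {b : PtB} (hb : BR e κ s B b)
    {sl : List (List ℂ)} (hsl : R2 sl) {nr : ℝ} {nc : ℂ} (hn : nc = (nr : ℂ))
    (hR : R = t.RR sl nr e κ) {X : ℂ} (hX : (κ : ℂ) * X = ((1 - R : ℝ) : ℂ)) :
    X = oX b nc (P2 sl (t.deb b) (t.dbb b)) := by
  have h1 := oX_eq hb hn (S := P2 sl (t.deb b) (t.dbb b))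
    (sr := (P2 sl (t.de e) (t.db e κ)).re) (by
      rw [← Tb.P2_re ht hsl, Tb.de_eq hb, Tb.db_eq he hb])
  have h2 : (κ : ℂ) ≠ 0 := by exact_mod_cast hκ.ne'
  apply mul_left_cancel₀ h2
  rw [h1, hX, hR]
  rfl

/-- the assertions of a program of the circle, middle node -/
def FM (t : Tb) (n : ℕ) (tl sl : List (List ℂ)) (jc nc : ℂ) (b : PtB) (et : ℂ) : Prop :=
  ∀ x : ℂ, ‖x‖ ≤ 1 →
    StW (ptM t.nf n b (cU b et (oX b nc (P2 sl (t.deb b) (t.dbb b)))) x)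
      (mG (ptM t.nf n b (cU b et (oX b nc (P2 sl (t.deb b) (t.dbb b)))) x) (t.tkb tl jc b)) ∧
    ClA (ptM t.nf n b (cU b et (oX b nc (P2 sl (t.deb b) (t.dbb b)))) x)
      (ptK t.nf n b (cU b et (oX b nc (P2 sl (t.deb b) (t.dbb b)))) x) (4095 / 4096)

/-- the assertions of a program of the circle, last node -/
def FL (t : Tb) (n : ℕ) (tl sl : List (List ℂ)) (jc nc Ae xa C2 : ℂ) (B1 : ℝ) (b : PtB) (et : ℂ) :
    Prop :=
  ∀ x : ℂ, ‖x‖ ≤ 1 →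
    StW (ptM t.nf n b (cU b et (oX b nc (P2 sl (t.deb b) (t.dbb b)))) x)
      (mG (ptM t.nf n b (cU b et (oX b nc (P2 sl (t.deb b) (t.dbb b)))) x) (t.tkb tl jc b)) ∧
    ClL (ptM t.nf n b (cU b et (oX b nc (P2 sl (t.deb b) (t.dbb b)))) x)
      (fun F2 => ptL t.nf n b (cU b et (oX b nc (P2 sl (t.deb b) (t.dbb b)))) x Ae xa C2 F2)
      B1 (4095 / 4096)

theorem om_ne {T : ℂ} (hR0 : 0 < R) (hom : ‖omT κ T‖ = R) : T + (Real.sinh κ : ℂ) ≠ 0 := by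
  intro h0
  unfold omT at hom
  rw [add_comm, h0, div_zero, norm_zero] at hom
  exact hR0.ne hom

/-- **Middle nodes on the circle.** -/
theorem mid_circ (H : CH t e κ δ (1 / 8) R) (ht : t.IsReal)
    {tl sl : List (List ℂ)} (htl : R2 tl) (hsl : R2 sl) {jr nr : ℝ} {jc nc : ℂ}
    (hj : jc = (jr : ℂ)) (hn : nc = (nr : ℂ))
    (hτ0 : 0 ≤ t.tkR tl jr e κ) (hδ : κ * t.tkR tl jr e κ ≤ δ) (hY : 1 / (4 * e ^ 2) ≤ Y)
    (hθ : 4095 / 4096 ≤ θ) (hR : R = t.RR sl nr e κ) (hR1 : R < 1)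
    (hρ : 1 / 8 / e * ((1 - R) / Real.sinh κ) ≤ 9 / 20 * (1 + R))
    (hA : ∀ s m : ℝ, 0 < s → s ≤ 9 / 64 → 0 < m → m ≤ 1 → e * κ = s * m →
      FM t n tl sl jc nc (bA ((1 / e : ℝ) : ℂ) s m) 1)
    (hB : ∀ s m : ℝ, 0 < s → s = e * κ / 2 → 0 ≤ m → m ≤ 1 → 2 * s * m ≤ 9 / 64 →
      FM t n tl sl jc nc (bB ((1 / e : ℝ) : ℂ) s) (2 * m)) :
    ∀ T : ℂ, ‖T‖ ≤ 1 / 8 / e → ‖omT κ T‖ = R → MidQ t e κ θ δ Y n T := by
  intro T hT hom
  have he4 := H.he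
  have he : 0 < e := by linarith
  have hκ := H.hκ
  have hsz : ∀ z : ℂ, ‖z‖ ≤ 1 / 8 / e → podom t.pol (t.de e) (Tb.yT e κ z) := by
    intro z hz
    refine (cor_pt H (T := z) ?_ n).2.2.2
    have h1 := mul_le_mul_of_nonneg_left hz he.le
    rw [mul_div_cancel₀ _ he.ne'] at h1
    linarith
  have hc : ∃ c : ℝ, 0 ≤ c ∧ t.c n = (c : ℂ) := by
    obtain ⟨c, h0, -, h1⟩ := H.c n
    exact ⟨c, h0, h1⟩
  refine Pool.Agent.helper70.EQR.circ_cover he hκ H.R0 hR1 hT hom (om_ne H.R0 hom) hρ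
    (C := fun z => ‖z‖ ≤ 1 / 8 / e → MidQ t e κ θ δ Y n z) ?_ ?_ ?_ hT
  · intro z hz h2
    rw [Complex.norm_conj] at h2
    exact Pool.Agent.helper70.EQR.MidQ.conj ht (hz h2)
  · intro s m hs hs1 hm hm1 hk X hX U hU hre hz
    have hb := brA he hs hm hk
    have hX' := circ_X he hκ ht hb hsl hn hR hX
    subst hU
    subst hX'
    exact midQ_of he ht hb hre hc (hsz _ hz) (Tb.tk_eq he ht htl hj hb) hτ0 hδ hY hθ
      (hA s m hs hs1 hm hm1 hk)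
  · intro s m hs hk hm hm1 hsm X hX U hU hre hz
    have hb := brB he hs hk
    have hX' := circ_X he hκ ht hb hsl hn hR hX
    subst hU
    subst hX'
    exact midQ_of he ht hb hre hc (hsz _ hz) (Tb.tk_eq he ht htl hj hb) hτ0 hδ hY hθ
      (hB s m hs hk hm hm1 hsm)

/-- **The last node on the circle.** -/
theorem last_circ (H : CH t e κ δ (1 / 8) R) (ht : t.IsReal)
    {tl sl : List (List ℂ)} (htl : R2 tl) (hsl : R2 sl) {jr nr : ℝ} {jc nc : ℂ}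
    (hj : jc = (jr : ℂ)) (hn : nc = (nr : ℂ))
    (hτ0 : 0 ≤ t.tkR tl jr e κ) (hδ : κ * t.tkR tl jr e κ ≤ δ) (hY : 1 / (4 * e ^ 2) ≤ Y)
    (hθ : 4095 / 4096 ≤ θ) (hR : R = t.RR sl nr e κ) (hR1 : R < 1)
    (hρ : 1 / 8 / e * ((1 - R) / Real.sinh κ) ≤ 9 / 20 * (1 + R))
    {ax ay xa C2 : ℂ} {axr ayr A x0 B1 a0 c2 : ℝ} (hax : ax = (axr : ℂ)) (hay : ay = (ayr : ℂ))
    (hA0 : 0 ≤ axr + ayr * e) (hAA : A ≤ axr + ayr * e) (hxa : xa = (a0 : ℂ))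
    (ha0 : 0 ≤ a0) (ha0x : a0 ≤ x0) (hC2 : C2 = (c2 : ℂ)) (hB1 : B1 < x0 + 2)
    (hc2 : (1 + 1 / (2 * (x0 + 2))) / (1 - B1 / (x0 + 2)) ≤ c2)
    (hA : ∀ s m : ℝ, 0 < s → s ≤ 9 / 64 → 0 < m → m ≤ 1 → e * κ = s * m →
      FL t n tl sl jc nc (ax * ((1 / e : ℝ) : ℂ) + ay) xa C2 B1 (bA ((1 / e : ℝ) : ℂ) s m) 1)
    (hB : ∀ s m : ℝ, 0 < s → s = e * κ / 2 → 0 ≤ m → m ≤ 1 → 2 * s * m ≤ 9 / 64 →
      FL t n tl sl jc nc (ax * ((1 / e : ℝ) : ℂ) + ay) xa C2 B1 (bB ((1 / e : ℝ) : ℂ) s) (2 * m)) :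
    ∀ T : ℂ, ‖T‖ ≤ 1 / 8 / e → ‖omT κ T‖ = R → LastP t e κ θ δ Y A x0 B1 n T := by
  intro T hT hom
  have he4 := H.he
  have he : 0 < e := by linarith
  have hκ := H.hκ
  have hsz : ∀ z : ℂ, ‖z‖ ≤ 1 / 8 / e → podom t.pol (t.de e) (Tb.yT e κ z) := by
    intro z hz
    refine (cor_pt H (T := z) ?_ n).2.2.2
    have h1 := mul_le_mul_of_nonneg_left hz he.le
    rw [mul_div_cancel₀ _ he.ne'] at h1
    linarith
  have hc : ∃ c : ℝ, 0 ≤ c ∧ t.c n = (c : ℂ) := by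
    obtain ⟨c, h0, -, h1⟩ := H.c n
    exact ⟨c, h0, h1⟩
  have hAe := Ae_eq he hax hay
  refine Pool.Agent.helper70.EQR.circ_cover he hκ H.R0 hR1 hT hom (om_ne H.R0 hom) hρ
    (C := fun z => ‖z‖ ≤ 1 / 8 / e → ‖omT κ z‖ = R → LastP t e κ θ δ Y A x0 B1 n z) ?_ ?_ ?_ hT hom
  · intro z hz h2 h3
    rw [Complex.norm_conj] at h2
    rw [Pool.Agent.helper70.EQR.omT_conj, Complex.norm_conj] at h3
    exact Pool.Agent.helper70.EQR.LastP.conj ht hκ (by rw [h3]; exact H.d2) (hz h2 h3)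
  · intro s m hs hs1 hm hm1 hk X hX U hU hre hz _
    have hb := brA he hs hm hk
    have hX' := circ_X he hκ ht hb hsl hn hR hX
    subst hU
    subst hX'
    exact LastP.mono hκ (ha0.trans ha0x) (lastQ_of he ht hb hre hc (hsz _ hz) (Tb.tk_eq he ht htl hj hb) hτ0 hδ hY hθ hA0 hAe hxa
      ha0 ha0x hC2 hB1 hc2 (hA s m hs hs1 hm hm1 hk)) le_rfl le_rfl hAA
  · intro s m hs hk hm hm1 hsm X hX U hU hre hz _
    have hb := brB he hs hk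
    have hX' := circ_X he hκ ht hb hsl hn hR hX
    subst hU
    subst hX'
    exact LastP.mono hκ (ha0.trans ha0x) (lastQ_of he ht hb hre hc (hsz _ hz) (Tb.tk_eq he ht htl hj hb) hτ0 hδ hY hθ hA0 hAe hxa
      ha0 ha0x hC2 hB1 hc2 (hB s m hs hk hm hm1 hsm)) le_rfl le_rfl hAA

/-- from the frontier to the corner -/
theorem corner_mid (H : CH t e κ δ (1 / 8) R) (hθ : θ ≤ 1)
    (arc : ∀ T : ℂ, T + (Real.sinh κ : ℂ) ≠ 0 → ‖T‖ = 1 / 8 / e → ‖omT κ T‖ ≤ R →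
      MidQ t e κ θ δ Y n T)
    (circ : ∀ T : ℂ, ‖T‖ ≤ 1 / 8 / e → ‖omT κ T‖ = R → MidQ t e κ θ δ Y n T) :
    ∀ T : ℂ, T + (Real.sinh κ : ℂ) ≠ 0 → ‖T‖ ≤ 1 / 8 / e → ‖omT κ T‖ ≤ R →
      MidQ t e κ θ δ Y n T := by
  have he : 0 < e := by linarith [H.he]
  intro T hne hT hom
  rcases hT.eq_or_lt with h1 | h1
  · exact arc T hne h1 hom
  rcases hom.eq_or_lt with h2 | h2
  · exact circ T hT h2
  refine midQ_max H hθ ?_ T (subset_closure ⟨h1, ?_⟩)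
  · intro T' hT'
    obtain ⟨a1, a2, a3⟩ := frontier_CR he H.hκ H.R0 hT'
    have a4 : T' + (Real.sinh κ : ℂ) ≠ 0 := by
      rw [add_comm]
      exact closure_CR_ne H.hκ (frontier_subset_closure hT')
    rcases a3 with a3 | a3
    · exact arc T' a4 a3 a2
    · exact circ T' a1 a3
  · unfold omT at h2
    rw [norm_div, div_lt_iff₀ (norm_pos_iff.2 (by rw [add_comm]; exact hne))] at h2
    exact h2

theorem corner_last (H : CH t e κ δ (1 / 8) R) (hθ : θ ≤ 1) {A x0 B1 : ℝ} (hA : 0 ≤ A)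
    (hx0 : 0 ≤ x0) (hB0 : 0 ≤ B1) (hB1 : B1 < x0 + 2)
    (arc : ∀ T : ℂ, T + (Real.sinh κ : ℂ) ≠ 0 → ‖T‖ = 1 / 8 / e → ‖omT κ T‖ ≤ R →
      LastP t e κ θ δ Y A x0 B1 n T)
    (circ : ∀ T : ℂ, ‖T‖ ≤ 1 / 8 / e → ‖omT κ T‖ = R → LastP t e κ θ δ Y A x0 B1 n T) :
    ∀ T : ℂ, T + (Real.sinh κ : ℂ) ≠ 0 → ‖T‖ ≤ 1 / 8 / e → ‖omT κ T‖ ≤ R →
      LastP t e κ θ δ Y A x0 B1 n T := by
  have he : 0 < e := by linarith [H.he]
  intro T hne hT hom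
  rcases hT.eq_or_lt with h1 | h1
  · exact arc T hne h1 hom
  rcases hom.eq_or_lt with h2 | h2
  · exact circ T hT h2
  refine lastP_max H hθ hA hx0 hB0 hB1 ?_ T (subset_closure ⟨h1, ?_⟩)
  · intro T' hT'
    obtain ⟨a1, a2, a3⟩ := frontier_CR he H.hκ H.R0 hT'
    have a4 : T' + (Real.sinh κ : ℂ) ≠ 0 := by
      rw [add_comm]
      exact closure_CR_ne H.hκ (frontier_subset_closure hT')
    rcases a3 with a3 | a3
    · exact arc T' a4 a3 a2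
    · exact circ T' a1 a3
  · unfold omT at h2
    rw [norm_div, div_lt_iff₀ (norm_pos_iff.2 (by rw [add_comm]; exact hne))] at h2
    exact h2

end Pool.Agent.helper12.RS
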