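import Pool.Agent.helper12.RS.PtY
import Pool.Agent.helper63.RG.NodesW

/-!
# Conditions of the nodes with the absolute displacement
-/

namespace Pool.Agent.helper12.RS

open Complex ComplexConjugate Set Filter Topology
open Pool.Agent.helper31.EQ.Y Pool.Agent.helper31.EQ.R
open Pool.Agent.helper12.RP Pool.Agent.helper12.FF Pool.Agent.helper63.RG

noncomputable section

/-- absolute displacement, in units of `κ tk` -/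
structure PtG where
  b : PtB
  Di : ℂ
  Un : ℂ
  Ts : ℂ
  tk : ℂ

def PtG.KK (g : PtG) : ℂ := (((g.b.K + g.Un) * (g.b.K + g.Ts)) * g.tk)

def PtG.dq (g : PtG) : ℂ := (((2 : ℂ) * (g.b.kh * g.Di)) * (g.KK)⁻¹)

/-- for a middle link -/
def mG (m : PtM) (tk : ℂ) : PtG := ⟨m.c.b, m.Di, m.Un, m.Ts, tk⟩

/-- for the first link -/
def fG (f : PtF) (tk : ℂ) : PtG := ⟨f.c.b, f.Di, f.Un, f.Ts, tk⟩

end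

variable {e κ s B θ τ : ℝ}

/-- **The displacement.** -/
theorem disp_w (he : 0 < e) {g : PtG} (hb : BR e κ s B g.b) {Q' Qs : ℂ}
    (hQ' : Q' = (Real.cosh κ : ℂ) + g.b.se * g.Un) (hQs : Qs = (Real.cosh κ : ℂ) + g.b.se * g.Ts)
    (hUn : g.Un = g.Ts + g.b.se * g.Di) (hτ : g.tk = (τ : ℂ)) (hτ0 : 0 ≤ τ)
    (hKK : g.KK ≠ 0) (hd : ‖g.dq‖ < 1) (hU : ‖g.b.s * g.Un‖ < 1 / 2) :
    Q' ≠ (Real.exp (-κ) : ℂ) ∧ ‖om κ Q' - om κ Qs‖ ≤ κ * τ ∧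
    e * ‖Q' - (Real.cosh κ : ℂ)‖ < 1 / 2 := by
  have hκ := hb.kap_pos he
  have hK := hb.sinh_c
  have hkh := hb.kh_eq
  have hse : g.b.se ≠ 0 := by
    rw [hb.se_eq]
    exact_mod_cast (hb.se_pos he).ne'
  have hem : (Real.exp (-κ) : ℂ) = (Real.cosh κ : ℂ) - (Real.sinh κ : ℂ) := by
    rw [← ofReal_sub, Real.cosh_sub_sinh]
  have htk : g.tk ≠ 0 := right_ne_zero_of_mul hKK
  have hKT : g.b.K + g.Un ≠ 0 := left_ne_zero_of_mul (left_ne_zero_of_mul hKK)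
  have hTs : g.b.K + g.Ts ≠ 0 := right_ne_zero_of_mul (left_ne_zero_of_mul hKK)
  have e1 : Q' - (Real.exp (-κ) : ℂ) = g.b.se * (g.b.K + g.Un) := by
    rw [hQ', hem, hK]
    ring
  have e2 : Qs - (Real.exp (-κ) : ℂ) = g.b.se * (g.b.K + g.Ts) := by
    rw [hQs, hem, hK]
    ring
  have n1 : Q' ≠ (Real.exp (-κ) : ℂ) := by
    intro h
    rw [h, sub_self] at e1
    exact mul_ne_zero hse hKT e1.symm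
  have n2 : Qs ≠ (Real.exp (-κ) : ℂ) := by
    intro h
    rw [h, sub_self] at e2
    exact mul_ne_zero hse hTs e2.symm
  have e3 : Q' - Qs = g.b.se * g.b.se * g.Di := by
    rw [hQ', hQs, hUn]
    ring
  have e6 : om κ Q' - om κ Qs = -((κ : ℂ) * (g.dq * g.tk)) := by
    rw [om_sub κ n2 n1, e1, e2, e3, ← hkh]
    unfold PtG.dq PtG.KK
    field_simp
  refine ⟨n1, ?_, ?_⟩
  · rw [e6, norm_neg, norm_mul, norm_mul, hτ, Complex.norm_real, Complex.norm_real,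
      Real.norm_of_nonneg hκ.le, Real.norm_of_nonneg hτ0]
    apply mul_le_mul_of_nonneg_left _ hκ.le
    have := mul_le_mul_of_nonneg_right hd.le hτ0
    rwa [one_mul] at this
  · have e7 : Q' - (Real.cosh κ : ℂ) = g.b.se * g.Un := by
      rw [hQ']
      ring
    have e8 : (e : ℂ) * (g.b.se * g.Un) = g.b.s * g.Un := by
      have he0 : (e : ℂ) ≠ 0 := by exact_mod_cast he.ne'
      unfold PtB.se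
      rw [hb.hep]
      push_cast
      field_simp
    have e9 : e * ‖g.b.se * g.Un‖ = ‖(e : ℂ) * (g.b.se * g.Un)‖ := by
      rw [norm_mul (e : ℂ), Complex.norm_real, Real.norm_of_nonneg he.le]
    rw [e7, e9, e8]
    exact hU

/-- Conditions at a middle near node; `Q` is the ratio of the link before it, `S x` the radicand of
the next link. -/
structure YG (e κ θ τ : ℝ) (l r M : ℂ) (S : ℂ → ℂ) (Q : ℂ) (l' r' : ℂ → ℂ) : Prop where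
  nc : ∀ x : ℂ, ‖x‖ ≤ 1 → NC l r M (S x) x
  ne : ∀ x : ℂ, ‖x‖ ≤ 1 → S x ^ ((1 / 2 : ℝ) : ℂ) ≠ (Real.exp (-κ) : ℂ)
  disp : ∀ x : ℂ, ‖x‖ ≤ 1 →
    ‖om κ (S x ^ ((1 / 2 : ℝ) : ℂ)) - (kk κ : ℂ) * om κ Q‖ ≤ κ * τ
  T : ∀ x : ℂ, ‖x‖ ≤ 1 → e * ‖S x ^ ((1 / 2 : ℝ) : ℂ) - (Real.cosh κ : ℂ)‖ < 1 / 2
  close : ∀ x x' : ℂ, ‖x‖ ≤ 1 → ‖x'‖ ≤ 1 → ‖x - M * (x - (1 - exp (CL l - (e : ℂ) / 2 * log (S x) +
    lF (l' ((e : ℂ) * (1 - (S x)⁻¹))) (r' ((e : ℂ) * (1 - (S x)⁻¹)) * x'))) / r)‖ < θ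

theorem YG.to {l r M : ℂ} {S : ℂ → ℂ} {Q : ℂ} {l' r' : ℂ → ℂ}
    (H : YG e κ θ τ l r M S Q l' r') {W : Set ℂ}
    (hW : ∀ Q' : ℂ, Q' ≠ (Real.exp (-κ) : ℂ) → ‖om κ Q' - (kk κ : ℂ) * om κ Q‖ ≤ κ * τ →
      e * ‖Q' - (Real.cosh κ : ℂ)‖ < 1 / 2 → om κ Q' ∈ W) :
    YF e κ θ W l r M S l' r' :=
  ⟨H.nc, H.ne, fun x hx => hW _ (H.ne x hx) (H.disp x hx) (H.T x hx), H.close⟩

/-- Conditions at the last near node. -/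
structure YLG (e κ θ τ A x0 B1 : ℝ) (l r M : ℂ) (S : ℂ → ℂ) (Q : ℂ) : Prop where
  nc : ∀ x : ℂ, ‖x‖ ≤ 1 → NC l r M (S x) x
  ne : ∀ x : ℂ, ‖x‖ ≤ 1 → S x ^ ((1 / 2 : ℝ) : ℂ) ≠ (Real.exp (-κ) : ℂ)
  disp : ∀ x : ℂ, ‖x‖ ≤ 1 →
    ‖om κ (S x ^ ((1 / 2 : ℝ) : ℂ)) - (kk κ : ℂ) * om κ Q‖ ≤ κ * τ
  T : ∀ x : ℂ, ‖x‖ ≤ 1 → e * ‖S x ^ ((1 / 2 : ℝ) : ℂ) - (Real.cosh κ : ℂ)‖ < 1 / 2
  close : ∀ x : ℂ, ‖x‖ ≤ 1 → ∀ Q' Q1 Q2 q2 q3 : ℂ, Q' = S x ^ ((1 / 2 : ℝ) : ℂ) →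
    Q1 = 2 * (Real.cosh κ : ℂ) - Q'⁻¹ → Q2 = 2 * (Real.cosh κ : ℂ) - Q1⁻¹ →
    q2 = Q1 ^ (-(e : ℂ)) → q3 = Q2 ^ (-(e : ℂ)) →
    ‖q3‖ ≤ B1 * ‖1 + q3‖ ∧ 1 + q3 ≠ 0 ∧
    ∀ f2 χ : ℂ, ‖f2 - 1 / (1 + q3)‖ ≤
      (1 + 1 / (2 * (x0 + 2))) / (1 - B1 / (x0 + 2)) *
      (e * ‖(Q2 - (Real.cosh κ : ℂ)) ^ 2 - (Real.sinh κ : ℂ) ^ 2‖) * ‖q3‖ / ‖1 + q3‖ ^ 3 →
      ‖χ‖ ≤ A * Real.sinh κ * Real.exp (-(κ * x0)) / Real.sinh (κ * (x0 + 1)) *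
        ‖(Q' - (Real.exp (-κ) : ℂ)) / Q'‖ →
      ‖x - M * (x - (1 - exp (l + lc l - (e : ℂ) / 2 * log (S x)) *
        (1 - q2 * f2 * (1 - χ))) / r)‖ < θ

theorem YLG.to {A x0 B1 : ℝ} {l r M : ℂ} {S : ℂ → ℂ} {Q : ℂ}
    (H : YLG e κ θ τ A x0 B1 l r M S Q) {W : Set ℂ}
    (hW : ∀ Q' : ℂ, Q' ≠ (Real.exp (-κ) : ℂ) → ‖om κ Q' - (kk κ : ℂ) * om κ Q‖ ≤ κ * τ →
      e * ‖Q' - (Real.cosh κ : ℂ)‖ < 1 / 2 → om κ Q' ∈ W) :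
    YL' e κ θ A x0 B1 W l r M S :=
  ⟨H.nc, H.ne, fun x hx => hW _ (H.ne x hx) (H.disp x hx) (H.T x hx), H.close⟩

/-- assertions of a state program -/
structure StW (m : PtM) (g : PtG) : Prop where
  wb : ‖m.c.b.s * m.c.b.wb‖ < 1
  wl : ‖m.c.b.s * m.c.wl‖ < 1
  ER : ‖m.c.b.s * m.c.ER‖ < 1
  Rx : ‖-(m.c.b.s * m.c.Rx)‖ < 1
  Sm : ‖m.Sm‖ < 1
  iq : m.Qp + (m.c.b.se * (m.c.b.gs + m.Ts) + 2) ≠ 0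
  KK : g.KK ≠ 0
  dq : ‖g.dq‖ < 1
  sU : ‖g.b.s * g.Un‖ < 1 / 2

/-- assertions of a state program of the first node -/
structure StX (f : PtF) (g : PtG) : Prop where
  wb : ‖f.c.b.s * f.c.b.wb‖ < 1
  wl : ‖f.c.b.s * f.c.wl‖ < 1
  ER : ‖f.c.b.s * f.c.ER‖ < 1
  Rx : ‖-(f.c.b.s * f.c.Rx)‖ < 1
  q : ‖-f.q‖ < 1
  Sm : ‖f.Sm‖ < 1
  SH : 0 < f.SH.re
  u : f.c.b.se * f.q0 + 1 ≠ 0
  iq : f.Qp + (f.c.b.se * f.e1 + 2) ≠ 0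
  KK : g.KK ≠ 0
  dq : ‖g.dq‖ < 1
  sU : ‖g.b.s * g.Un‖ < 1 / 2

/-- **A middle node.** -/
theorem yG_of (he : 0 < e) {D : LamT} {n : ℕ} {p Q y : ℂ}
    (hy : y = (e : ℂ) * (1 - (Q ^ 2)⁻¹)) {b : PtB} {U L R M : ℂ} {Lf Rf : ℂ → ℂ}
    (h : ∀ x : ℂ, MR e κ s B ⟨⟨b, L, R, x⟩, U⟩ Q)
    (hl : D.l n p (b.se * U) = b.s * L) (hr : D.r n p (b.se * U) = b.s * R)
    (hM : D.M n p (b.se * U) = M)
    (hl' : ∀ U', D.l (n + 1) p (b.se * U') = b.s * Lf U')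
    (hr' : ∀ U', D.r (n + 1) p (b.se * U') = b.s * Rf U')
    {tk : ℂ} (hτ : tk = (τ : ℂ)) (hτ0 : 0 ≤ τ)
    (hA : ∀ x : ℂ, ‖x‖ ≤ 1 → StW ⟨⟨b, L, R, x⟩, U⟩ (mG ⟨⟨b, L, R, x⟩, U⟩ tk) ∧
      ClA ⟨⟨b, L, R, x⟩, U⟩ ⟨⟨b, L, R, x⟩, (⟨⟨b, L, R, x⟩, U⟩ : PtM).ls,
      Lf (⟨⟨b, L, R, x⟩, U⟩ : PtM).Un, Rf (⟨⟨b, L, R, x⟩, U⟩ : PtM).Un, M⟩ θ) :
    YG e κ θ τ ((D.toN e κ).l n p y) ((D.toN e κ).r n p y) ((D.toN e κ).M n p y)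
      (fun x => Sn e κ y ((D.toN e κ).l n p y) ((D.toN e κ).r n p y * x)) Q
      ((D.toN e κ).l (n + 1) p) ((D.toN e κ).r (n + 1) p) := by
  have hre := (h 0).re
  have hc := Real.cosh_pos κ
  obtain ⟨v1, v2, v3⟩ := D.eval he (κ := κ) (n := n) (p := p) (hc.trans hre) hy
  have hT : Q - (Real.cosh κ : ℂ) = b.se * U := by
    have := (h 0).hQ
    rw [this]
    show (Real.cosh κ : ℂ) + b.se * U - (Real.cosh κ : ℂ) = b.se * U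
    ring
  rw [hT] at v1 v2 v3
  rw [v1, v2, v3, hl, hr, hM]
  have hS : ∀ x : ℂ, ‖x‖ ≤ 1 → Sn e κ y (b.s * L) (b.s * R * x) =
      1 + (⟨⟨b, L, R, x⟩, U⟩ : PtM).Sm := by
    intro x hx
    obtain ⟨a, a'⟩ := hA x hx
    rw [hy]
    have r1 := a.wb
    have r2 := a.wl
    have r3 := a.ER
    have r4 := a.Rx
    have r := (h x).rad he r1 r2 r3 r4
    exact r
  have hD : ∀ x : ℂ, ‖x‖ ≤ 1 →
      (1 + (⟨⟨b, L, R, x⟩, U⟩ : PtM).Sm) ^ ((1 / 2 : ℝ) : ℂ) ≠ (Real.exp (-κ) : ℂ) ∧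
      ‖om κ ((1 + (⟨⟨b, L, R, x⟩, U⟩ : PtM).Sm) ^ ((1 / 2 : ℝ) : ℂ)) - (kk κ : ℂ) * om κ Q‖ ≤
        κ * τ ∧ e * ‖(1 + (⟨⟨b, L, R, x⟩, U⟩ : PtM).Sm) ^ ((1 / 2 : ℝ) : ℂ) -
          (Real.cosh κ : ℂ)‖ < 1 / 2 := by
    intro x hx
    obtain ⟨a, a'⟩ := hA x hx
    obtain ⟨-, -, -, c4, c5⟩ := (h x).link he a.Sm a.iq
    have hstep := om_step κ (h x).Q_ne (ne_exp_neg ((h x).b.kap_pos he) (h x).re)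
    have hk : (kk κ : ℂ) * om κ Q = om κ (2 * (Real.cosh κ : ℂ) - Q⁻¹) := by
      rw [hstep]
      rfl
    rw [hk]
    exact disp_w he (g := mG ⟨⟨b, L, R, x⟩, U⟩ tk) (h x).b c5 c4 rfl hτ hτ0 a.KK a.dq a.sU
  refine ⟨?_, ?_, ?_, ?_, ?_⟩
  · intro x hx
    obtain ⟨a, a'⟩ := hA x hx
    obtain ⟨c1, -⟩ := (h x).link he a.Sm a.iq
    obtain ⟨d1, -⟩ := node_logs he (h x).b a.wb a.wl a.ER a.Rx
    have hs0 : b.s ≠ 0 := by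
      rw [(h 0).b.hs]
      exact_mod_cast (h 0).b.s0.ne'
    refine ⟨mul_ne_zero hs0 a'.R, a'.M, d1, ?_⟩
    show Sn e κ y (b.s * L) (b.s * R * x) ∈ slitPlane
    rw [hS x hx]
    exact c1
  · intro x hx
    obtain ⟨a, a'⟩ := hA x hx
    show Sn e κ y (b.s * L) (b.s * R * x) ^ ((1 / 2 : ℝ) : ℂ) ≠ _
    rw [hS x hx]
    exact (hD x hx).1
  · intro x hx
    obtain ⟨a, a'⟩ := hA x hx
    show ‖om κ (Sn e κ y (b.s * L) (b.s * R * x) ^ ((1 / 2 : ℝ) : ℂ)) - (kk κ : ℂ) * om κ Q‖ ≤ _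
    rw [hS x hx]
    exact (hD x hx).2.1
  · intro x hx
    show e * ‖Sn e κ y (b.s * L) (b.s * R * x) ^ ((1 / 2 : ℝ) : ℂ) - _‖ < _
    rw [hS x hx]
    exact (hD x hx).2.2
  · intro x x' hx hx'
    obtain ⟨a, a'⟩ := hA x hx
    obtain ⟨c1, c2, -, -, c5⟩ := (h x).link he a.Sm a.iq
    have e1 := hS x hx
    obtain ⟨w1, w2, -⟩ := D.eval_S he (κ := κ) (n := n + 1) (p := p) c1
    have hTn : (1 + (⟨⟨b, L, R, x⟩, U⟩ : PtM).Sm) ^ ((1 / 2 : ℝ) : ℂ) - (Real.cosh κ : ℂ) =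
        b.se * (⟨⟨b, L, R, x⟩, U⟩ : PtM).Un := by
      rw [c5]
      show (Real.cosh κ : ℂ) + b.se * (⟨⟨b, L, R, x⟩, U⟩ : PtM).Un - (Real.cosh κ : ℂ) = _
      ring
    rw [hTn] at w1 w2
    rw [hl'] at w1
    rw [hr'] at w2
    show ‖x - M * (x - (1 - exp (CL (b.s * L) - (e : ℂ) / 2 *
      log (Sn e κ y (b.s * L) (b.s * R * x)) +
      lF ((D.toN e κ).l (n + 1) p ((e : ℂ) * (1 - (Sn e κ y (b.s * L) (b.s * R * x))⁻¹)))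
        ((D.toN e κ).r (n + 1) p ((e : ℂ) * (1 - (Sn e κ y (b.s * L) (b.s * R * x))⁻¹)) *
          x'))) / (b.s * R))‖ < θ
    rw [e1, w1, w2]
    exact a'.cl _ (close_of he (k := ⟨⟨b, L, R, x⟩, (⟨⟨b, L, R, x⟩, U⟩ : PtM).ls,
      Lf (⟨⟨b, L, R, x⟩, U⟩ : PtM).Un, Rf (⟨⟨b, L, R, x⟩, U⟩ : PtM).Un, M⟩) (h x).b a.wl c2 a'.wln
      a'.ERn a'.R hx')

/-- **The first node.** -/
theorem yFG_of (he : 0 < e) {D : LamT} {η : ℝ} {p : ℂ} (hp : p = (η : ℂ) * I) {b : PtB}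
    {W L R M : ℂ} {Lf Rf : ℂ → ℂ} (h : BR e κ s B b)
    (ht : (Hh κ : ℂ) * tanh (κ * p) = b.se * W)
    (hl : D.l0 p = b.s * L) (hr : D.r0 p = b.s * R) (hM : D.M0 p = M)
    (hl' : ∀ U', D.l 0 p (b.se * U') = b.s * Lf U')
    (hr' : ∀ U', D.r 0 p (b.se * U') = b.s * Rf U')
    {tk : ℂ} (hτ : tk = (τ : ℂ)) (hτ0 : 0 ≤ τ) {W0 : Set ℂ}
    (hW0 : ∀ Q' : ℂ, Q' ≠ (Real.exp (-κ) : ℂ) → ‖om κ Q' - (kk κ : ℂ) * om0 κ p‖ ≤ κ * τ →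
      e * ‖Q' - (Real.cosh κ : ℂ)‖ < 1 / 2 → om κ Q' ∈ W0)
    (hA : ∀ x : ℂ, ‖x‖ ≤ 1 → StX ⟨⟨b, L, R, x⟩, W⟩ (fG ⟨⟨b, L, R, x⟩, W⟩ tk) ∧
      ClA ⟨⟨b, L, R, x⟩, 0⟩ ⟨⟨b, L, R, x⟩,
      (⟨⟨b, L, R, x⟩, W⟩ : PtF).ls, Lf (⟨⟨b, L, R, x⟩, W⟩ : PtF).Un,
      Rf (⟨⟨b, L, R, x⟩, W⟩ : PtF).Un, M⟩ θ) :
    YF e κ θ W0 ((D.toN e κ).l0 p) ((D.toN e κ).r0 p) ((D.toN e κ).M0 p)
      (fun x => S0 e κ (tanh (κ * p)) ((D.toN e κ).l0 p) ((D.toN e κ).r0 p * x))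
      ((D.toN e κ).l 0 p) ((D.toN e κ).r 0 p) ∧
    (∀ x : ℂ, ‖x‖ ≤ 1 → 1 - (Hh κ : ℂ) ^ 2 *
      exp (-(2 * ((LA e κ : ℂ) + lF ((D.toN e κ).l0 p) ((D.toN e κ).r0 p * x))) / e) *
        (1 - tanh (κ * p) ^ 2) ∈ slitPlane) ∧
    (∀ x : ℂ, ‖x‖ ≤ 1 → RS.SH e κ (tanh (κ * p)) ((D.toN e κ).l0 p)
      ((D.toN e κ).r0 p * x) ∈ slitPlane) := by
  have hκ := h.kap_pos he
  have v1 : (D.toN e κ).l0 p = b.s * L := hl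
  have v2 : (D.toN e κ).r0 p = b.s * R := hr
  have v3 : (D.toN e κ).M0 p = M := hM
  rw [v1, v2, v3]
  have hse : b.se ≠ 0 := by
    rw [h.se_eq]
    exact_mod_cast (h.se_pos he).ne'
  have hR : ∀ x : ℂ, ‖x‖ ≤ 1 → S0 e κ (tanh (κ * p)) (b.s * L) (b.s * R * x) =
      1 + (⟨⟨b, L, R, x⟩, W⟩ : PtF).Sm ∧
      RS.SH e κ (tanh (κ * p)) (b.s * L) (b.s * R * x) = (⟨⟨b, L, R, x⟩, W⟩ : PtF).SH ∧
      1 - (Hh κ : ℂ) ^ 2 * exp (-(2 * ((LA e κ : ℂ) + lF (b.s * L) (b.s * R * x))) / e) *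
        (1 - tanh (κ * p) ^ 2) = 1 - (⟨⟨b, L, R, x⟩, W⟩ : PtF).q := by
    intro x hx
    obtain ⟨a, a'⟩ := hA x hx
    have r1 := a.wb
    have r2 := a.wl
    have r3 := a.ER
    have r4 := a.Rx
    have r5 := a.q
    have r := first_rad he (f := ⟨⟨b, L, R, x⟩, W⟩) h r1 r2 r3 r4 r5 ht
    exact r
  have hLk : ∀ x : ℂ, ‖x‖ ≤ 1 →
      (1 + (⟨⟨b, L, R, x⟩, W⟩ : PtF).Sm) ^ ((1 / 2 : ℝ) : ℂ) =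
        1 + (⟨⟨b, L, R, x⟩, W⟩ : PtF).Qp ∧
      log (1 + (⟨⟨b, L, R, x⟩, W⟩ : PtF).Sm) = b.se * (⟨⟨b, L, R, x⟩, W⟩ : PtF).ls ∧
      Qe0 κ p = (Real.cosh κ : ℂ) + b.se * (⟨⟨b, L, R, x⟩, W⟩ : PtF).Ts ∧
      (1 + (⟨⟨b, L, R, x⟩, W⟩ : PtF).Sm) ^ ((1 / 2 : ℝ) : ℂ) =
        (Real.cosh κ : ℂ) + b.se * (⟨⟨b, L, R, x⟩, W⟩ : PtF).Un := by
    intro x hx
    obtain ⟨a, a'⟩ := hA x hx
    have r1 := a.q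
    have r2 := a.Sm
    have r3 := a.u
    have r4 := a.iq
    have r := first_link he (f := ⟨⟨b, L, R, x⟩, W⟩) h r1 r2 r3 r4 ht
    exact r
  have hslit : ∀ x : ℂ, ‖x‖ ≤ 1 → 1 + (⟨⟨b, L, R, x⟩, W⟩ : PtF).Sm ∈ slitPlane := by
    intro x hx
    have a := (hA x hx).1.Sm
    exact (sqrt_of a rfl).1
  have hdisp : ∀ x : ℂ, ‖x‖ ≤ 1 →
      (1 + (⟨⟨b, L, R, x⟩, W⟩ : PtF).Sm) ^ ((1 / 2 : ℝ) : ℂ) ≠ (Real.exp (-κ) : ℂ) ∧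
      ‖om κ ((1 + (⟨⟨b, L, R, x⟩, W⟩ : PtF).Sm) ^ ((1 / 2 : ℝ) : ℂ)) -
        (kk κ : ℂ) * om0 κ p‖ ≤ κ * τ ∧ e * ‖(1 + (⟨⟨b, L, R, x⟩, W⟩ : PtF).Sm) ^
          ((1 / 2 : ℝ) : ℂ) - (Real.cosh κ : ℂ)‖ < 1 / 2 := by
    intro x hx
    obtain ⟨a, a'⟩ := hA x hx
    obtain ⟨c1, c2, c3, c4⟩ := hLk x hx
    have hk : (kk κ : ℂ) * om0 κ p = om κ (Qe0 κ p) := by
      rw [hp]
      exact (om_Qe0_I hκ η).symm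
    rw [hk]
    exact disp_w he (g := fG ⟨⟨b, L, R, x⟩, W⟩ tk) h c4 c3 rfl hτ hτ0 a.KK a.dq a.sU
  refine ⟨⟨?_, ?_, ?_, ?_⟩, ?_, ?_⟩
  · intro x hx
    obtain ⟨a, a'⟩ := hA x hx
    have r1 := a.wb
    have r2 := a.wl
    have r3 := a.ER
    have r4 := a.Rx
    obtain ⟨d1, -⟩ := node_logs he (c := ⟨b, L, R, x⟩) h r1 r2 r3 r4
    have hs0 : b.s ≠ 0 := by
      rw [h.hs]
      exact_mod_cast h.s0.ne'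
    refine ⟨mul_ne_zero hs0 a'.R, a'.M, d1, ?_⟩
    show S0 e κ (tanh (κ * p)) (b.s * L) (b.s * R * x) ∈ slitPlane
    rw [(hR x hx).1]
    exact hslit x hx
  · intro x hx
    show S0 e κ (tanh (κ * p)) (b.s * L) (b.s * R * x) ^ ((1 / 2 : ℝ) : ℂ) ≠ _
    rw [(hR x hx).1]
    exact (hdisp x hx).1
  · intro x hx
    show om κ (S0 e κ (tanh (κ * p)) (b.s * L) (b.s * R * x) ^ ((1 / 2 : ℝ) : ℂ)) ∈ W0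
    rw [(hR x hx).1]
    exact hW0 _ (hdisp x hx).1 (hdisp x hx).2.1 (hdisp x hx).2.2
  · intro x x' hx hx'
    obtain ⟨a, a'⟩ := hA x hx
    obtain ⟨c1, c2, -, c5⟩ := hLk x hx
    have e1 := (hR x hx).1
    obtain ⟨w1, w2, -⟩ := D.eval_S he (κ := κ) (n := 0) (p := p) (hslit x hx)
    have hTn : (1 + (⟨⟨b, L, R, x⟩, W⟩ : PtF).Sm) ^ ((1 / 2 : ℝ) : ℂ) - (Real.cosh κ : ℂ) =
        b.se * (⟨⟨b, L, R, x⟩, W⟩ : PtF).Un := by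
      rw [c5]
      ring
    rw [hTn] at w1 w2
    rw [hl'] at w1
    rw [hr'] at w2
    show ‖x - M * (x - (1 - exp (CL (b.s * L) - (e : ℂ) / 2 *
      log (S0 e κ (tanh (κ * p)) (b.s * L) (b.s * R * x)) +
      lF ((D.toN e κ).l 0 p ((e : ℂ) * (1 - (S0 e κ (tanh (κ * p)) (b.s * L)
        (b.s * R * x))⁻¹)))
        ((D.toN e κ).r 0 p ((e : ℂ) * (1 - (S0 e κ (tanh (κ * p)) (b.s * L)
        (b.s * R * x))⁻¹)) * x'))) / (b.s * R))‖ < θ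
    rw [e1, w1, w2]
    exact a'.cl _ (close_of he (k := ⟨⟨b, L, R, x⟩, (⟨⟨b, L, R, x⟩, W⟩ : PtF).ls,
      Lf (⟨⟨b, L, R, x⟩, W⟩ : PtF).Un, Rf (⟨⟨b, L, R, x⟩, W⟩ : PtF).Un, M⟩) h a.wl c2 a'.wln
      a'.ERn a'.R hx')
  · intro x hx
    rw [(hR x hx).2.2]
    have a := (hA x hx).1.q
    rw [sub_eq_add_neg]
    exact (sqrt_of a rfl).1
  · intro x hx
    rw [(hR x hx).2.1, Complex.mem_slitPlane_iff]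
    exact Or.inl (hA x hx).1.SH

/-- **The last near node.** -/
theorem yLG_of (he : 0 < e) {D : LamT} {n : ℕ} {p Q y : ℂ}
    (hy : y = (e : ℂ) * (1 - (Q ^ 2)⁻¹)) {b : PtB} {U L R M Ae xa C2 : ℂ}
    {A x0 B1 a0 c2 : ℝ}
    (h : ∀ x : ℂ, MR e κ s B ⟨⟨b, L, R, x⟩, U⟩ Q)
    (hl : D.l n p (b.se * U) = b.s * L) (hr : D.r n p (b.se * U) = b.s * R)
    (hM : D.M n p (b.se * U) = M)
    (hA0 : 0 ≤ A) (hAe : Ae = ((A / e : ℝ) : ℂ)) (hxa : xa = (a0 : ℂ))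
    (ha0 : 0 ≤ a0) (hax : a0 ≤ x0) (hC2 : C2 = (c2 : ℂ)) (hB1 : B1 < x0 + 2)
    (hc2 : (1 + 1 / (2 * (x0 + 2))) / (1 - B1 / (x0 + 2)) ≤ c2)
    {tk : ℂ} (hτ : tk = (τ : ℂ)) (hτ0 : 0 ≤ τ)
    (hA : ∀ x : ℂ, ‖x‖ ≤ 1 → StW ⟨⟨b, L, R, x⟩, U⟩ (mG ⟨⟨b, L, R, x⟩, U⟩ tk) ∧
      ClL ⟨⟨b, L, R, x⟩, U⟩ (fun F2 => ⟨⟨⟨b, L, R, x⟩, U⟩, M, Ae, xa, C2, F2⟩) B1 θ) :
    YLG e κ θ τ A x0 B1 ((D.toN e κ).l n p y) ((D.toN e κ).r n p y) ((D.toN e κ).M n p y)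
      (fun x => Sn e κ y ((D.toN e κ).l n p y) ((D.toN e κ).r n p y * x)) Q := by
  have hre := (h 0).re
  have hc := Real.cosh_pos κ
  obtain ⟨v1, v2, v3⟩ := D.eval he (κ := κ) (n := n) (p := p) (hc.trans hre) hy
  have hT : Q - (Real.cosh κ : ℂ) = b.se * U := by
    have := (h 0).hQ
    rw [this]
    show (Real.cosh κ : ℂ) + b.se * U - (Real.cosh κ : ℂ) = b.se * U
    ring
  rw [hT] at v1 v2 v3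
  rw [v1, v2, v3, hl, hr, hM]
  have hS : ∀ x : ℂ, ‖x‖ ≤ 1 → Sn e κ y (b.s * L) (b.s * R * x) =
      1 + (⟨⟨b, L, R, x⟩, U⟩ : PtM).Sm := by
    intro x hx
    obtain ⟨a, a'⟩ := hA x hx
    rw [hy]
    have r1 := a.wb
    have r2 := a.wl
    have r3 := a.ER
    have r4 := a.Rx
    have r := (h x).rad he r1 r2 r3 r4
    exact r
  have hD : ∀ x : ℂ, ‖x‖ ≤ 1 →
      (1 + (⟨⟨b, L, R, x⟩, U⟩ : PtM).Sm) ^ ((1 / 2 : ℝ) : ℂ) ≠ (Real.exp (-κ) : ℂ) ∧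
      ‖om κ ((1 + (⟨⟨b, L, R, x⟩, U⟩ : PtM).Sm) ^ ((1 / 2 : ℝ) : ℂ)) - (kk κ : ℂ) * om κ Q‖ ≤
        κ * τ ∧ e * ‖(1 + (⟨⟨b, L, R, x⟩, U⟩ : PtM).Sm) ^ ((1 / 2 : ℝ) : ℂ) -
          (Real.cosh κ : ℂ)‖ < 1 / 2 := by
    intro x hx
    obtain ⟨a, a'⟩ := hA x hx
    obtain ⟨-, -, -, c4, c5⟩ := (h x).link he a.Sm a.iq
    have hstep := om_step κ (h x).Q_ne (ne_exp_neg ((h x).b.kap_pos he) (h x).re)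
    have hk : (kk κ : ℂ) * om κ Q = om κ (2 * (Real.cosh κ : ℂ) - Q⁻¹) := by
      rw [hstep]
      rfl
    rw [hk]
    exact disp_w he (g := mG ⟨⟨b, L, R, x⟩, U⟩ tk) (h x).b c5 c4 rfl hτ hτ0 a.KK a.dq a.sU
  refine ⟨?_, ?_, ?_, ?_, ?_⟩
  · intro x hx
    obtain ⟨a, a'⟩ := hA x hx
    obtain ⟨c1, -⟩ := (h x).link he a.Sm a.iq
    obtain ⟨d1, -⟩ := node_logs he (h x).b a.wb a.wl a.ER a.Rx
    have hs0 : b.s ≠ 0 := by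
      rw [(h 0).b.hs]
      exact_mod_cast (h 0).b.s0.ne'
    refine ⟨mul_ne_zero hs0 a'.R, a'.M, d1, ?_⟩
    show Sn e κ y (b.s * L) (b.s * R * x) ∈ slitPlane
    rw [hS x hx]
    exact c1
  · intro x hx
    obtain ⟨a, a'⟩ := hA x hx
    show Sn e κ y (b.s * L) (b.s * R * x) ^ ((1 / 2 : ℝ) : ℂ) ≠ _
    rw [hS x hx]
    exact (hD x hx).1
  · intro x hx
    obtain ⟨a, a'⟩ := hA x hx
    show ‖om κ (Sn e κ y (b.s * L) (b.s * R * x) ^ ((1 / 2 : ℝ) : ℂ)) - (kk κ : ℂ) * om κ Q‖ ≤ _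
    rw [hS x hx]
    exact (hD x hx).2.1
  · intro x hx
    show e * ‖Sn e κ y (b.s * L) (b.s * R * x) ^ ((1 / 2 : ℝ) : ℂ) - _‖ < _
    rw [hS x hx]
    exact (hD x hx).2.2
  · intro x hx
    obtain ⟨a, a'⟩ := hA x hx
    obtain ⟨c1, c2', c3, -, c5⟩ := (h x).link he a.Sm a.iq
    have r2 := a.wl
    have r := last_close he (h x).b (M := M) (Ae := Ae) (xa := xa) (C2 := C2) (θ := θ) _ rfl r2
      a.Sm c3 c2' c5 a'.R hA0 hAe hxa ha0 hax hC2 hB1 hc2 a'.n1 a'.n2 a'.n3 a'.n4 a'.n5 a'.n6 a'.n7 a'.cl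
    intro Q' Q1 Q2 q2 q3 g1 g2 g3 g4 g5
    have g1' : Q' = (1 + (⟨⟨b, L, R, x⟩, U⟩ : PtM).Sm) ^ ((1 / 2 : ℝ) : ℂ) := by
      rw [g1]
      show Sn e κ y (b.s * L) (b.s * R * x) ^ ((1 / 2 : ℝ) : ℂ) = _
      rw [hS x hx]
    obtain ⟨k1, k2, k3⟩ := r Q' Q1 Q2 q2 q3 g1' g2 g3 g4 g5
    refine ⟨k1, k2, ?_⟩
    intro f2 χ hf hχ
    show ‖x - M * (x - (1 - exp (b.s * L + lc (b.s * L) - (e : ℂ) / 2 *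
      log (Sn e κ y (b.s * L) (b.s * R * x))) * (1 - q2 * f2 * (1 - χ))) / (b.s * R))‖ < θ
    rw [hS x hx]
    exact k3 f2 χ hf hχ

end Pool.Agent.helper12.RS
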