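import Pool.Agent.helper12.RS.CMD
import Pool.Agent.helper12.RS.PtW
import Pool.Agent.helper12.RS.Asm
import Pool.Agent.helper63.NF.SpecMid

/-!
# Facts of a near node from the assertions of a corner program
-/

namespace Pool.Agent.helper12.RS

open Complex ComplexConjugate Set Filter Topology
open Pool.Agent.helper31.EQ.Y Pool.Agent.helper31.EQ.R
open Pool.Agent.helper12.RP Pool.Agent.helper12.FF Pool.Agent.helper63.RG
open Pool.Agent.helper63.NF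

variable {e κ s B θ τ : ℝ}

theorem omT_om (κ : ℝ) (T : ℂ) : omT κ T = om κ ((Real.cosh κ : ℂ) + T) := by
  have h1 : (Real.exp κ : ℂ) = (Real.cosh κ : ℂ) + (Real.sinh κ : ℂ) := by
    rw [← ofReal_add, Real.cosh_add_sinh]
  have h2 : (Real.exp (-κ) : ℂ) = (Real.cosh κ : ℂ) - (Real.sinh κ : ℂ) := by
    rw [← ofReal_sub, Real.cosh_sub_sinh]
  unfold omT om
  rw [h1, h2]
  congr 1 <;> ring

/-- the principal root -/
theorem root_re {S : ℂ} (hS : S ∈ slitPlane) : 0 < (S ^ ((1 / 2 : ℝ) : ℂ)).re ∧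
    log (S ^ ((1 / 2 : ℝ) : ℂ)) = 1 / 2 * log S := by
  have h0 := slitPlane_ne_zero hS
  have h1 : S ^ ((1 / 2 : ℝ) : ℂ) = exp (1 / 2 * log S) := by
    rw [cpow_def_of_ne_zero h0]
    congr 1
    push_cast
    ring
  have h2 : (1 / 2 * log S).im = arg S / 2 := by
    have : (1 / 2 : ℂ) * log S = ((1 / 2 : ℝ) : ℂ) * log S := by push_cast; ring
    rw [this, Complex.im_ofReal_mul, Complex.log_im]
    ring
  have h3 := Complex.neg_pi_lt_arg S
  have h4 := Complex.arg_le_pi S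
  have h5 : arg S ≠ Real.pi := Complex.slitPlane_arg_ne_pi hS
  have h6 : arg S < Real.pi := lt_of_le_of_ne h4 h5
  have hpi := Real.pi_pos
  refine ⟨?_, ?_⟩
  · rw [h1, Complex.exp_re, h2]
    apply mul_pos (Real.exp_pos _)
    apply Real.cos_pos_of_mem_Ioo
    constructor <;> linarith
  · rw [h1, Complex.log_exp]
    · rw [h2]; linarith
    · rw [h2]; linarith

/-- the small next state satisfies the cut -/
theorem cut_of_small (he : 0 < e) {κ Y : ℝ} {T : ℂ} (h : e * ‖T‖ < 1 / 2) (hY : 1 / (4 * e ^ 2) ≤ Y) :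
    ‖T ^ 2 - (Real.sinh κ : ℂ) ^ 2‖ ≤ Real.sinh κ ^ 2 + Y := by
  have h1 : ‖T‖ ≤ 1 / (2 * e) := by
    rw [le_div_iff₀ (by positivity)]
    nlinarith
  have h2 : ‖T ^ 2‖ ≤ 1 / (4 * e ^ 2) := by
    rw [norm_pow]
    calc ‖T‖ ^ 2 ≤ (1 / (2 * e)) ^ 2 := pow_le_pow_left₀ (norm_nonneg _) h1 2
      _ = _ := by
        rw [div_pow, mul_pow]
        norm_num
  have h3 : ‖(Real.sinh κ : ℂ) ^ 2‖ = Real.sinh κ ^ 2 := by
    rw [norm_pow, Complex.norm_real, Real.norm_eq_abs, sq_abs]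
  have h4 := norm_sub_le (T ^ 2) ((Real.sinh κ : ℂ) ^ 2)
  rw [h3] at h4
  linarith

section
variable {t : Tb} {n : ℕ} {b : PtB} {U : ℂ}

/-- values of the functions of the record -/
theorem lT_val (he : 0 < e) (ht : t.IsReal) (hb : BR e κ s B b) (U : ℂ) :
    t.lT e κ (b.se * U) = b.s * t.nf.Lf n b U := (Tb.nf_ok he ht).l hb n 0 U

theorem rT_val (he : 0 < e) (ht : t.IsReal) (hb : BR e κ s B b) (U : ℂ) :
    t.rT e κ n (b.se * U) = b.s * t.nf.Rf n b U := (Tb.nf_ok he ht).r hb n 0 U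

theorem MT_val (he : 0 < e) (ht : t.IsReal) (hb : BR e κ s B b) (U : ℂ) :
    t.MT e κ n (b.se * U) = t.nf.Mf n b U := (Tb.nf_ok he ht).M hb n 0 U

/-- the node facts -/
theorem nodeP_of (he : 0 < e) (ht : t.IsReal) (hb : BR e κ s B b)
    (hre : 0 < (b.se * U).re) (hc : ∃ c : ℝ, 0 ≤ c ∧ t.c n = (c : ℂ))
    (hpol : podom t.pol (t.de e) (Tb.yT e κ (b.se * U)))
    (hwl : ‖b.s * (ptM t.nf n b U 0).c.wl‖ < 1) (hR : t.nf.Rf n b U ≠ 0)
    (hM : t.nf.Mf n b U ≠ 0) : NodeP t e κ n (b.se * U) := by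
  have hs0 : b.s ≠ 0 := by
    rw [hb.hs]
    exact_mod_cast hb.s0.ne'
  refine ⟨?_, ?_, hpol, ?_, ?_, ?_⟩
  · rw [add_re, ofReal_re]
    have := Real.cosh_pos κ
    linarith
  · obtain ⟨c, hc0, hc1⟩ := hc
    intro h0
    have h1 := congrArg Complex.re h0
    rw [hc1, add_re, ofReal_re, Complex.re_ofReal_mul, zero_re] at h1
    have h2 : 0 < 1 / e := by positivity
    have h3 := mul_nonneg hc0 hre.le
    linarith
  · rw [rT_val he ht hb]
    exact mul_ne_zero hs0 hR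
  · rw [MT_val he ht hb]
    exact hM
  · rw [lT_val (n := n) he ht hb]
    exact (BR.lc_of (s := b.s) (L := t.nf.Lf n b U) (wl := (ptM t.nf n b U 0).c.wl) rfl hwl).2.1

/-- the step facts -/
theorem stepP_of (he : 0 < e) (ht : t.IsReal) (hb : BR e κ s B b)
    (hre : 0 < (b.se * U).re) {tk : ℂ} {δ Y : ℝ} (hτ : tk = (τ : ℂ)) (hτ0 : 0 ≤ τ)
    (hδ : κ * τ ≤ δ) (hY : 1 / (4 * e ^ 2) ≤ Y) {x : ℂ}
    (a : StW (ptM t.nf n b U x) (mG (ptM t.nf n b U x) tk)) :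
    StepP t e κ δ Y n (b.se * U) x (b.se * (ptM t.nf n b U x).Un) ∧
    log ((Real.cosh κ : ℂ) + b.se * (ptM t.nf n b U x).Un) =
      1 / 2 * (b.se * (ptM t.nf n b U x).ls) := by
  obtain ⟨m, hm⟩ : ∃ m, m = ptM t.nf n b U x := ⟨_, rfl⟩
  rw [← hm] at a ⊢
  have hmb : m.c.b = b := by rw [hm]; rfl
  have hmU : m.U = U := by rw [hm]; rfl
  have hmL : m.c.L = t.nf.Lf n b U := by rw [hm]; rfl
  have hmR : m.c.R = t.nf.Rf n b U := by rw [hm]; rfl
  have hmx : m.c.x = x := by rw [hm]; rfl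
  obtain ⟨Q, hQ⟩ : ∃ Q, Q = (Real.cosh κ : ℂ) + b.se * U := ⟨_, rfl⟩
  have hMR : MR e κ s B m Q := by
    refine ⟨?_, ?_, ?_⟩
    · rw [hmb]; exact hb
    · rw [hmb, hmU]; exact hQ
    · rw [hQ, add_re, ofReal_re]
      linarith
  have hκ := hb.kap_pos he
  have hQne := hMR.Q_ne
  have hQ0 : (Real.cosh κ : ℂ) + b.se * U ≠ 0 := by rw [← hQ]; exact hQne
  have e1 := hMR.rad he a.wb a.wl a.ER a.Rx
  obtain ⟨c1, c2, c3, c4, c5⟩ := hMR.link he a.Sm a.iq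
  obtain ⟨d1, -⟩ := node_logs he hMR.b a.wb a.wl a.ER a.Rx
  rw [hmb, hmL, hmR, hmx] at e1 d1
  rw [hmb] at c2 c5
  have hy : Tb.yT e κ (b.se * U) = (e : ℂ) * (1 - (Q ^ 2)⁻¹) := by
    unfold Tb.yT
    rw [Tb.YT_eq' hQ0]
    unfold Tb.uT
    rw [← hQ, inv_pow]
  obtain ⟨r1, r2⟩ := root_re c1
  rw [c5] at r1 r2
  have hse : b.se ≠ 0 := by
    rw [hb.se_eq]
    exact_mod_cast (hb.se_pos he).ne'
  obtain ⟨f1, f2, f3⟩ := disp_w he (g := mG m tk) (Q' := (Real.cosh κ : ℂ) + b.se * m.Un)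
    (Qs := 2 * (Real.cosh κ : ℂ) - Q⁻¹) (by
      show BR e κ s B m.c.b
      rw [hmb]; exact hb) (by
      show _ = (Real.cosh κ : ℂ) + m.c.b.se * m.Un
      rw [hmb]) c4 rfl hτ hτ0 a.KK a.dq a.sU
  have hstep := om_step κ hQne (ne_exp_neg hκ hMR.re)
  have hk : (kk κ : ℂ) * om κ Q = om κ (2 * (Real.cosh κ : ℂ) - Q⁻¹) := by
    rw [hstep]
    rfl
  refine ⟨⟨?_, ?_, ?_, r1, ?_, ?_, ?_⟩, ?_⟩
  · have := d1.F
    rw [lT_val (n := n) he ht hb, rT_val he ht hb]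
    exact this
  · rw [rT_val he ht hb]
    have h3 := a.Rx
    have h4 : 1 - b.s * t.nf.Rf n b U * x = 1 + -(m.c.b.s * m.c.Rx) := by
      unfold PtC.Rx
      rw [hmb, hmR, hmx]
      ring
    rw [h4, add_re, one_re]
    have := (abs_lt.1 ((Complex.abs_re_le_norm _).trans_lt h3)).1
    linarith
  · rw [hy, lT_val (n := n) he ht hb, rT_val he ht hb, e1, ← c5]
    exact (half_sq (slitPlane_ne_zero c1)).symm
  · intro h0
    apply f1
    have h2 : (Real.exp (-κ) : ℂ) = (Real.cosh κ : ℂ) - (Real.sinh κ : ℂ) := by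
      rw [← ofReal_sub, Real.cosh_sub_sinh]
    rw [h2]
    linear_combination h0
  · rw [omT_om, omT_om, ← hQ, hk]
    exact f2.trans hδ
  · apply cut_of_small he _ hY
    have : (Real.cosh κ : ℂ) + b.se * m.Un - (Real.cosh κ : ℂ) = b.se * m.Un := by ring
    rwa [this] at f3
  · rw [r2, c2]

/-- **A middle node.** -/
theorem midQ_of (he : 0 < e) (ht : t.IsReal) (hb : BR e κ s B b)
    (hre : 0 < (b.se * U).re) (hc : ∃ c : ℝ, 0 ≤ c ∧ t.c n = (c : ℂ))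
    (hpol : podom t.pol (t.de e) (Tb.yT e κ (b.se * U)))
    {tk : ℂ} {δ Y θ' : ℝ} (hτ : tk = (τ : ℂ)) (hτ0 : 0 ≤ τ)
    (hδ : κ * τ ≤ δ) (hY : 1 / (4 * e ^ 2) ≤ Y) (hθ : θ' ≤ θ)
    (hA : ∀ x : ℂ, ‖x‖ ≤ 1 → StW (ptM t.nf n b U x) (mG (ptM t.nf n b U x) tk) ∧
      ClA (ptM t.nf n b U x) (ptK t.nf n b U x) θ') :
    MidQ t e κ θ δ Y n (b.se * U) := by
  obtain ⟨a0, a0'⟩ := hA 0 (by simp)
  refine ⟨nodeP_of he ht hb hre hc hpol a0.wl a0'.R a0'.M, ?_⟩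
  intro x hx
  obtain ⟨a, a'⟩ := hA x hx
  obtain ⟨h1, h2⟩ := stepP_of he ht hb hre hτ hτ0 hδ hY a
  refine ⟨_, h1, ?_, ?_⟩
  · rw [lT_val (n := n + 1) he ht hb]
    exact (BR.lc_of (s := b.s) (L := (ptK t.nf n b U x).Ln) (wl := (ptK t.nf n b U x).wln) rfl
      a'.wln).2.1
  · intro x' hx'
    obtain ⟨k, hk⟩ : ∃ k, k = ptK t.nf n b U x := ⟨_, rfl⟩
    rw [← hk] at a'
    have hkb : k.c.b = b := by rw [hk]; rfl
    have hkL : k.c.L = t.nf.Lf n b U := by rw [hk]; rfl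
    have hkR : k.c.R = t.nf.Rf n b U := by rw [hk]; rfl
    have hkx : k.c.x = x := by rw [hk]; rfl
    have hkM : k.M = t.nf.Mf n b U := by rw [hk]; rfl
    have hkl : k.ls = (ptM t.nf n b U x).ls := by rw [hk]; rfl
    have hkLn : k.Ln = t.nf.Lf (n + 1) b (ptM t.nf n b U x).Un := by rw [hk]; rfl
    have hkRn : k.Rn = t.nf.Rf (n + 1) b (ptM t.nf n b U x).Un := by rw [hk]; rfl
    obtain ⟨S, hS⟩ : ∃ S, S = (1 : ℂ) + (ptM t.nf n b U x).Sm := ⟨_, rfl⟩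
    have hlog : log S = k.c.b.se * k.ls := by
      rw [hS, ← mul_LmF, hkb, hkl]
      show (b.se * (ptM t.nf n b U x).Dl) * LmF (ptM t.nf n b U x).Sm = b.se *
        ((ptM t.nf n b U x).Dl * LmF (ptM t.nf n b U x).Sm)
      ring
    have hwl : ‖k.c.b.s * k.c.wl‖ < 1 := by
      have := a.wl
      have h4 : k.c.wl = (ptM t.nf n b U x).c.wl := by rw [hk]; rfl
      rw [h4, hkb]
      exact this
    have hcl := close_of he (k := k) (by rw [hkb]; exact hb) hwl hlog a'.wln a'.ERn (by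
      rw [hkR]
      exact a'.R) hx'
    have hne : 0 < (1 + exp (-(k.c.b.s * k.Ln)) * (k.c.b.s * k.Rn * x')).re := by
      obtain ⟨b1, -⟩ := BR.lc_of (s := k.c.b.s) (L := k.Ln) (wl := k.wln) rfl a'.wln
      have hEn : exp (-(k.c.b.s * k.Ln)) = k.En := by
        unfold PtK.En
        linear_combination b1
      have hχ : exp (-(k.c.b.s * k.Ln)) * (k.c.b.s * k.Rn * x') = k.c.b.s * k.ERn * x' := by
        rw [hEn]
        unfold PtK.ERn
        ring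
      rw [hχ, add_re, one_re]
      have h5 : ‖k.c.b.s * k.ERn * x'‖ < 1 := by
        rw [norm_mul]
        exact (mul_le_of_le_one_right (norm_nonneg _) hx').trans_lt a'.ERn
      have := (abs_lt.1 ((Complex.abs_re_le_norm _).trans_lt h5)).1
      linarith
    have h6 := a'.cl _ hcl
    have hL2 : (e : ℂ) / 2 * log S = (e : ℂ) * log ((Real.cosh κ : ℂ) + b.se *
        (ptM t.nf n b U x).Un) := by
      rw [h2, hlog, hkb, hkl]
      ring
    rw [hL2, exp_close (fun h0 => by rw [h0, zero_re] at hne; exact lt_irrefl _ hne)] at h6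
    unfold clo
    rw [lT_val (n := n) he ht hb, rT_val he ht hb, MT_val he ht hb, lT_val (n := n + 1) he ht hb,
      rT_val he ht hb]
    rw [hkb, hkL, hkR, hkx, hkM, hkLn, hkRn] at h6
    exact h6.trans_le hθ

end

end Pool.Agent.helper12.RS
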