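import Pool.Agent.helper12.RS.LastQ
import Pool.Agent.helper12.RS.MidQ
import Pool.Agent.helper72.EQR.ZeroW

/-!
# The first node from the assertions of a corner program
-/

namespace Pool.Agent.helper12.RS

open Complex ComplexConjugate Set Filter Topology
open Pool.Agent.helper31.EQ.Y Pool.Agent.helper31.EQ.R
open Pool.Agent.helper12.RP Pool.Agent.helper12.FF Pool.Agent.helper63.RG
open Pool.Agent.helper63.NF

variable {e κ s B θ τ : ℝ}

section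
variable {t : Tb} {b : PtB}

/-- the value of `i v` -/
theorem iv_I (he : 0 < e) (η : ℝ) :
    Tb.iv e κ ((η : ℂ) * I) = (Tab.vv e κ (Tb.gR e) η : ℂ) * I := by
  have he0 : (e : ℂ) ≠ 0 := by exact_mod_cast he.ne'
  obtain ⟨g, hgg⟩ : ∃ g, g = Tb.gR e := ⟨_, rfl⟩
  have hg : 0 < g := by
    rw [hgg]
    exact Tb.gR_pos e
  rw [← hgg]
  have hg0 : (g : ℂ) ≠ 0 := by exact_mod_cast hg.ne'
  obtain ⟨v, hv⟩ : ∃ v, v = Tab.vv e κ g η := ⟨_, rfl⟩
  have hd : 0 < 1 + (3 / 2) * Real.sinh (κ / 2) ^ 2 := by positivity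
  have hvr : Real.sinh (κ / 2) * Real.tan (κ * η) =
      v * (1 / e * g * (1 + (3 / 2) * Real.sinh (κ / 2) ^ 2)) := by
    rw [hv]
    unfold Tab.vv
    field_simp
  have hth : tanh (κ * ((η : ℂ) * I)) = (Real.tan (κ * η) : ℂ) * I := tanh_I κ η
  have h5 : (Real.sinh (κ / 2) : ℂ) * (Real.tan (κ * η) : ℂ) =
      v * (((1 / e : ℝ) : ℂ) * g * (1 + (3 / 2) * (Real.sinh (κ / 2) : ℂ) ^ 2)) := by
    have := congrArg (fun x : ℝ => (x : ℂ)) hvr
    simp only [ofReal_mul, ofReal_add, ofReal_pow, ofReal_one, ofReal_div, ofReal_ofNat] at this ⊢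
    exact this
  rw [← hv]
  unfold Tb.iv
  rw [hth, ← hgg]
  have h2 : ((1 / e : ℝ) : ℂ) * g * (1 + (3 / 2) * (Real.sinh (κ / 2) : ℂ) ^ 2) ≠ 0 := by
    have : ((1 / e * g * (1 + (3 / 2) * Real.sinh (κ / 2) ^ 2) : ℝ) : ℂ) ≠ 0 := by
      exact_mod_cast (show 1 / e * g * (1 + (3 / 2) * Real.sinh (κ / 2) ^ 2) ≠ 0 by positivity)
    simp only [ofReal_mul, ofReal_add, ofReal_pow, ofReal_one, ofReal_div, ofReal_ofNat] at this ⊢
    exact this
  rw [div_eq_iff h2]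
  linear_combination I * h5

/-- the start is in the domain -/
theorem dom_I (he : 0 < e) (hκ : 0 < κ) {η : ℝ} (hη : |κ * η| < Real.pi / 2)
    (hc : ∃ c : ℝ, 0 ≤ c ∧ t.c0 = (c : ℂ)) : (η : ℂ) * I ∈ t.DN e κ := by
  obtain ⟨v, hv⟩ : ∃ v, v = Tab.vv e κ (Tb.gR e) η := ⟨_, rfl⟩
  have h1 := iv_I (κ := κ) he η
  rw [← hv] at h1
  have h2 : 1 + Tb.iv e κ ((η : ℂ) * I) / 2 ≠ 0 := by
    rw [h1]
    intro h0
    have := congrArg Complex.re h0
    have h3 : (v : ℂ) * I / 2 = ((v / 2 : ℝ) : ℂ) * I := by push_cast; ring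
    rw [h3, add_re, one_re, Complex.re_ofReal_mul, I_re, zero_re] at this
    norm_num at this
  refine ⟨?_, h2, ?_⟩
  · have h3 : (κ : ℂ) * ((η : ℂ) * I) = ((κ * η : ℝ) : ℂ) * I := by push_cast; ring
    rw [h3, Complex.cosh_mul_I]
    obtain ⟨a, b⟩ := abs_lt.1 hη
    have h4 := Real.cos_pos_of_mem_Ioo ⟨a, b⟩
    rw [← Complex.ofReal_cos]
    exact_mod_cast h4.ne'
  · obtain ⟨c, hc0, hc1⟩ := hc
    obtain ⟨g, hg⟩ : ∃ g, g = Tb.gR e := ⟨_, rfl⟩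
    have hg0 : 0 < g := by
      rw [hg]
      exact Tb.gR_pos e
    have hφ : 0 ≤ (Tb.ph e κ ((η : ℂ) * I)).re := by
      unfold Tb.ph
      rw [h1, Complex.div_re]
      have e1 : ((v : ℂ) * I).re = 0 := by simp
      have e2 : ((v : ℂ) * I).im = v := by simp
      have e3 : (1 + (v : ℂ) * I / 2).im = v / 2 := by
        have h3 : (v : ℂ) * I / 2 = ((v / 2 : ℝ) : ℂ) * I := by push_cast; ring
        rw [h3, add_im, one_im, Complex.im_ofReal_mul, I_im]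
        ring
      rw [e1, e2, e3, zero_mul, zero_div, zero_add]
      apply div_nonneg _ (normSq_nonneg _)
      nlinarith [sq_nonneg v]
    have hu : 0 ≤ (Tb.u0 e κ ((η : ℂ) * I)).re := by
      unfold Tb.u0
      rw [← hg]
      have h3 : (4 : ℂ) * ((e * κ / 2 : ℝ) : ℂ) + 4 * ((g : ℂ) * Tb.ph e κ ((η : ℂ) * I)) =
          ((4 * (e * κ / 2) : ℝ) : ℂ) + ((4 * g : ℝ) : ℂ) * Tb.ph e κ ((η : ℂ) * I) := by
        push_cast
        ring
      rw [h3, add_re, ofReal_re, Complex.re_ofReal_mul]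
      positivity
    intro h0
    have := congrArg Complex.re h0
    rw [hc1, add_re, one_re, Complex.re_ofReal_mul, zero_re] at this
    have h5 := mul_nonneg hc0 hu
    linarith

/-- **The first node.** -/
theorem zeroQ_of (he : 0 < e) (hκ : 0 < κ) (ht : t.IsReal) {η : ℝ}
    (hη : |κ * η| < Real.pi / 2) (hc : ∃ c : ℝ, 0 ≤ c ∧ t.c0 = (c : ℂ)) {V : ℝ}
    (hb : BR e κ s B b) (hV : s * V = Tab.vv e κ (Tb.gR e) η)
    {tk : ℂ} {δ Y θ' : ℝ} (hτ : tk = (τ : ℂ)) (hτ0 : 0 ≤ τ)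
    (hδ : κ * τ ≤ δ) (hY : 1 / (4 * e ^ 2) ≤ Y) (hθ : θ' ≤ θ)
    (hA : ∀ x : ℂ, ‖x‖ ≤ 1 → StX (ptF t.nf0 b V x) (fG (ptF t.nf0 b V x) tk) ∧
      ClA ⟨(ptF t.nf0 b V x).c, 0⟩ (ptF1 t.nf0 t.nf b V x) θ') :
    ZeroP t e κ θ δ Y ((η : ℂ) * I) ((t.lamT ht e κ).l0 ((η : ℂ) * I))
      ((t.lamT ht e κ).r0 ((η : ℂ) * I)) ((t.lamT ht e κ).M0 ((η : ℂ) * I)) := by
  have h0 : t.nf0.OK e κ (Tab.vv e κ (Tb.gR e) η) ((η : ℂ) * I) (t.lamT ht e κ) :=
    Tb.nf0_ok he hκ ht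
  have hW := h0.W hb hV
  have hl := h0.l hb hV
  have hr := h0.r hb hV
  have hM := h0.M hb hV
  rw [hl, hr, hM]
  obtain ⟨p, hp⟩ : ∃ p : ℂ, p = (η : ℂ) * I := ⟨_, rfl⟩
  have hdom : p ∈ t.DN e κ := by
    rw [hp]
    exact dom_I he hκ hη hc
  have hs0 : b.s ≠ 0 := by
    rw [hb.hs]
    exact_mod_cast hb.s0.ne'
  have hse : b.se ≠ 0 := by
    rw [hb.se_eq]
    exact_mod_cast (hb.se_pos he).ne'
  obtain ⟨a0, a0'⟩ := hA 0 (by simp)
  rw [← hp] at hW ⊢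
  refine ⟨hdom, mul_ne_zero hs0 a0'.R, a0'.M, ?_, ?_⟩
  · exact (BR.lc_of (s := b.s) (L := t.nf0.L b V) (wl := (ptF t.nf0 b V 0).c.wl) rfl a0.wl).2.1
  intro x hx
  obtain ⟨a, a'⟩ := hA x hx
  obtain ⟨f, hf⟩ : ∃ f, f = ptF t.nf0 b V x := ⟨_, rfl⟩
  obtain ⟨k, hk⟩ : ∃ k, k = ptF1 t.nf0 t.nf b V x := ⟨_, rfl⟩
  have hfb : f.c.b = b := by rw [hf]; rfl
  have hfL : f.c.L = t.nf0.L b V := by rw [hf]; rfl
  have hfR : f.c.R = t.nf0.R b V := by rw [hf]; rfl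
  have hfx : f.c.x = x := by rw [hf]; rfl
  have hfW : f.W = t.nf0.W b V := by rw [hf]; rfl
  have hkb : k.c.b = b := by rw [hk]; rfl
  have hkL : k.c.L = t.nf0.L b V := by rw [hk]; rfl
  have hkR : k.c.R = t.nf0.R b V := by rw [hk]; rfl
  have hkx : k.c.x = x := by rw [hk]; rfl
  have hkM : k.M = t.nf0.M b V := by rw [hk]; rfl
  have hkl : k.ls = f.ls := by rw [hk, hf]; rfl
  have hkLn : k.Ln = t.nf.Lf 0 b f.Un := by rw [hk, hf]; rfl
  have hkRn : k.Rn = t.nf.Rf 0 b f.Un := by rw [hk, hf]; rfl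
  have hkc : k.c.wl = f.c.wl := by rw [hk, hf]; rfl
  rw [← hf] at a a'
  rw [← hk] at a'
  have hfbr : BR e κ s B f.c.b := by rw [hfb]; exact hb
  obtain ⟨d1, -⟩ := node_logs he hfbr a.wb a.wl a.ER a.Rx
  have hWf : (Hh κ : ℂ) * tanh (κ * p) = f.c.b.se * f.W := by
    rw [hfb, hfW]
    exact hW
  obtain ⟨e1, e2, e3⟩ := first_rad he hfbr a.wb a.wl a.ER a.Rx a.q hWf
  obtain ⟨l1, l2, l3, l4⟩ := first_link he hfbr a.q a.Sm a.u a.iq hWf
  rw [hfb, hfL, hfR, hfx] at e1 e2 e3 d1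
  rw [hfb] at l2 l3 l4
  have hslit : 1 + f.Sm ∈ slitPlane := (sqrt_of a.Sm rfl).1
  obtain ⟨r1, r2⟩ := root_re hslit
  rw [l4] at r1 r2
  have hk0 : (kk κ : ℂ) * om0 κ p = om κ (Qe0 κ p) := by
    rw [hp]
    exact (om_Qe0_I hκ η).symm
  obtain ⟨f1, f2, f3⟩ := disp_w he (g := fG f tk) (Q' := (Real.cosh κ : ℂ) + b.se * f.Un)
    (Qs := Qe0 κ p) (by
      show BR e κ s B f.c.b
      exact hfbr) (by
      show _ = (Real.cosh κ : ℂ) + f.c.b.se * f.Un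
      rw [hfb]) (by
      show _ = (Real.cosh κ : ℂ) + f.c.b.se * f.Ts
      rw [hfb]
      exact l3) rfl hτ hτ0 a.KK a.dq a.sU
  have hre1 : 0 < (1 - b.s * t.nf0.R b V * x).re := by
    have h3 := a.Rx
    have h4 : 1 - b.s * t.nf0.R b V * x = 1 + -(f.c.b.s * f.c.Rx) := by
      unfold PtC.Rx
      rw [hfb, hfR, hfx]
      ring
    rw [h4, add_re, one_re]
    have := (abs_lt.1 ((Complex.abs_re_le_norm _).trans_lt h3)).1
    linarith
  refine ⟨b.se * f.Un, d1.F, ?_, ?_, ?_, ?_, r1, ?_, ?_, ?_, ?_⟩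
  · rw [Complex.mem_slitPlane_iff]
    exact Or.inl hre1
  · rw [e3, sub_eq_add_neg]
    exact (sqrt_of a.q rfl).1
  · rw [e2, Complex.mem_slitPlane_iff]
    exact Or.inl a.SH
  · rw [e1, ← l4]
    exact (half_sq (slitPlane_ne_zero hslit)).symm
  · intro h0
    apply f1
    have h2 : (Real.exp (-κ) : ℂ) = (Real.cosh κ : ℂ) - (Real.sinh κ : ℂ) := by
      rw [← ofReal_sub, Real.cosh_sub_sinh]
    rw [h2]
    linear_combination h0
  · rw [omT_om, hk0]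
    exact f2.trans hδ
  · apply cut_of_small he _ hY
    have : (Real.cosh κ : ℂ) + b.se * f.Un - (Real.cosh κ : ℂ) = b.se * f.Un := by ring
    rwa [this] at f3
  · intro x' hx' _
    rw [lT_val (n := 0) he ht hb, rT_val he ht hb]
    refine ⟨?_, ?_⟩
    · have hw := a'.wln
      rw [hkb] at hw
      have h5 := (BR.lc_of (s := b.s) (L := k.Ln) (wl := k.wln) (by
        rw [← hkb]
        rfl) hw).2.1
      rw [hkLn] at h5
      exact h5
    · have hlog : log (1 + f.Sm) = k.c.b.se * k.ls := by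
        rw [hkb, hkl]
        exact l2
      have hwl : ‖k.c.b.s * k.c.wl‖ < 1 := by
        have := a.wl
        rw [hkc, hkb, ← hfb]
        exact this
      have hcl := close_of he (k := k) (by rw [hkb]; exact hb) hwl hlog a'.wln a'.ERn (by
        rw [hkR, ← hfR]
        exact a'.R) hx'
      have h6 := a'.cl _ hcl
      have hL2 : (e : ℂ) / 2 * log (1 + f.Sm) = (e : ℂ) * log ((Real.cosh κ : ℂ) + b.se * f.Un) := by
        rw [r2]
        ring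
      rw [hL2, hkb, hkL, hkR, hkx, hkM, hkLn, hkRn] at h6
      exact h6.trans_le hθ

end

end Pool.Agent.helper12.RS
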