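import Pool.Agent.helper12.RS.CMD
import Pool.Agent.helper20.EQR.Out

/-!
# The circle `‖om‖ = R` in normalised coordinates

`T = (K² ρ + i η (1 + R))/((1 + R) + i η ρ)`, `ρ = (1 - R)/K`, `η` real.
-/

namespace Pool.Agent.helper12.RS

noncomputable section

/-- numerator, up to the factor `b.kh`; `X = (1 - R)/κ`, `et = η/(s ε)` -/
def cN (b : PtB) (et X : ℂ) : ℂ :=
  (((4 : ℂ) * (b.se * ((b.B * b.B) * (b.kh * X)))) +
    ((1 * Complex.I : ℂ) * (et * ((2 : ℂ) - (((2 : ℂ) * b.z) * X)))))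

def cDn (b : PtB) (et X : ℂ) : ℂ :=
  ((((2 : ℂ) - (((2 : ℂ) * b.z) * X)) * b.kh) + ((1 * Complex.I : ℂ) * ((b.se * et) * X)))

/-- the point of the circle -/
def cU (b : PtB) (et X : ℂ) : ℂ := ((b.kh * cN b et X) * (cDn b et X)⁻¹)

end

end Pool.Agent.helper12.RS
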