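import Pool.Agent.helper12.RS.Node
import Pool.Agent.helper12.RS.PtW

/-!
# Near nodes of the corner from the two charts, absolute displacement
-/

namespace Pool.Agent.helper12.RS

open Complex ComplexConjugate Set Filter Topology
open Pool.Agent.helper31.EQ.Y Pool.Agent.helper31.EQ.R
open Pool.Agent.helper12.RP Pool.Agent.helper12.FF Pool.Agent.helper63.RG

variable {e κ s B θ τ : ℝ}

/-- the premise of the programs from the state -/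
theorem om_prem (he : 0 < e) {m : PtM} {Q : ℂ} (h : MR e κ s B m Q) {ρ : ℝ}
    (hρ : ‖om κ Q‖ ≤ ρ) : ‖m.c.b.K - m.U‖ ≤ ρ * ‖m.c.b.K + m.U‖ := by
  have hK := h.b.sinh_c
  have hse : m.c.b.se ≠ 0 := by
    rw [h.b.se_eq]
    exact_mod_cast (h.b.se_pos he).ne'
  have hem : (Real.exp (-κ) : ℂ) = (Real.cosh κ : ℂ) - (Real.sinh κ : ℂ) := by
    rw [← ofReal_sub, Real.cosh_sub_sinh]
  have hep : (Real.exp κ : ℂ) = (Real.cosh κ : ℂ) + (Real.sinh κ : ℂ) := by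
    rw [← ofReal_add, Real.cosh_add_sinh]
  have e1 : Q - (Real.exp (-κ) : ℂ) = m.c.b.se * (m.c.b.K + m.U) := by
    rw [h.hQ, hem, hK]
    ring
  have e2 : (Real.exp κ : ℂ) - Q = m.c.b.se * (m.c.b.K - m.U) := by
    rw [h.hQ, hep, hK]
    ring
  have hne : Q - (Real.exp (-κ) : ℂ) ≠ 0 :=
    sub_ne_zero.2 (ne_exp_neg (h.b.kap_pos he) h.re)
  have hne2 : m.c.b.K + m.U ≠ 0 := by
    intro h0
    rw [h0, mul_zero] at e1
    exact hne e1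
  have e3 : om κ Q = (m.c.b.K - m.U) / (m.c.b.K + m.U) := by
    unfold om
    rw [e1, e2, mul_div_mul_left _ _ hse]
  rw [e3, norm_div, div_le_iff₀ (norm_pos_iff.2 hne2)] at hρ
  exact hρ

/-- **A middle node in the corner.** `A`, `B`: the assertions of the programs in the two charts. -/
theorem mid_nodeW (he : 0 < e) (hκ : 0 < κ) {D : LamT} {t : NF} (ht : t.OK e κ D) {n : ℕ} {b1 s1 : ℝ}
    (hb : e * κ / 2 ≤ b1) {tkf : PtB → ℂ}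
    (hτ : ∀ {s B : ℝ} {b : PtB}, BR e κ s B b → tkf b = (τ : ℂ)) (hτ0 : 0 ≤ τ) {ρ : ℝ} {p Q y : ℂ}
    (hρ : ‖om κ Q‖ ≤ ρ)
    (hQ : Real.cosh κ < Q.re) (hT : e * ‖Q - (Real.cosh κ : ℂ)‖ ≤ s1)
    (hy : y = (e : ℂ) * (1 - (Q ^ 2)⁻¹))
    (A : ∀ s m ψ : ℝ, 0 < s → s ≤ s1 → 0 < m → m ≤ 1 → m * s ≤ 2 * b1 → 0 ≤ ψ → ψ ≤ 101 / 32 →
      ‖(bA ((1 / e : ℝ) : ℂ) s m).K - uA ψ‖ ≤ ρ * ‖(bA ((1 / e : ℝ) : ℂ) s m).K + uA ψ‖ →
      ∀ x : ℂ, ‖x‖ ≤ 1 →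
      StW (ptM t n (bA ((1 / e : ℝ) : ℂ) s m) (uA ψ) x)
        (mG (ptM t n (bA ((1 / e : ℝ) : ℂ) s m) (uA ψ) x) (tkf (bA ((1 / e : ℝ) : ℂ) s m))) ∧
      ClA (ptM t n (bA ((1 / e : ℝ) : ℂ) s m) (uA ψ) x)
        (ptK t n (bA ((1 / e : ℝ) : ℂ) s m) (uA ψ) x) θ)
    (B : ∀ s m ψ : ℝ, 0 < s → s ≤ b1 → 0 < m → m ≤ 1 → 0 ≤ ψ → ψ ≤ 101 / 32 →
      ‖(bB ((1 / e : ℝ) : ℂ) s).K - uB m ψ‖ ≤ ρ * ‖(bB ((1 / e : ℝ) : ℂ) s).K + uB m ψ‖ →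
      ∀ x : ℂ, ‖x‖ ≤ 1 →
      StW (ptM t n (bB ((1 / e : ℝ) : ℂ) s) (uB m ψ) x)
        (mG (ptM t n (bB ((1 / e : ℝ) : ℂ) s) (uB m ψ) x) (tkf (bB ((1 / e : ℝ) : ℂ) s))) ∧
      ClA (ptM t n (bB ((1 / e : ℝ) : ℂ) s) (uB m ψ) x)
        (ptK t n (bB ((1 / e : ℝ) : ℂ) s) (uB m ψ) x) θ) :
    YG e κ θ τ ((D.toN e κ).l n p y)
      ((D.toN e κ).r n p y) ((D.toN e κ).M n p y)
      (fun x => Sn e κ y ((D.toN e κ).l n p y)
        ((D.toN e κ).r n p y * x)) Q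
      ((D.toN e κ).l (n + 1) p) ((D.toN e κ).r (n + 1) p) := by
  have hpi : Real.pi / 2 ≤ 101 / 64 := by
    have := Real.pi_lt_d2
    linarith
  rcases le_total κ ‖Q - (Real.cosh κ : ℂ)‖ with hc | hc
  · -- chart A
    obtain ⟨s, B', φ, h1, h2, h3, h4, h5⟩ := chartA he hκ hQ
    have hs : 0 < s := by
      rw [h1]
      exact mul_pos he (hκ.trans_le hc)
    have hsB : s * B' ≤ s * (1 / 2) := by
      rw [h2, h1]
      have := mul_le_mul_of_nonneg_left hc he.le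
      linarith
    have hB : B' ≤ 1 / 2 := le_of_mul_le_mul_left hsB hs
    have h4' := abs_lt.1 h4
    obtain ⟨b, hb'⟩ : ∃ b, b = bA ((1 / e : ℝ) : ℂ) (s : ℂ) ((2 * B' : ℝ) : ℂ) := ⟨_, rfl⟩
    obtain ⟨U, hU⟩ : ∃ U, U = uA ((φ + 101 / 64 : ℝ) : ℂ) := ⟨_, rfl⟩
    have hbB : b.B = (B' : ℂ) := by
      rw [hb']
      show (((1 / 2) : ℂ) * ((2 * B' : ℝ) : ℂ)) = _
      push_cast
      ring
    have hUe : U = exp (I * (φ : ℂ)) := by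
      rw [hU]
      unfold uA
      congr 1
      push_cast
      ring
    have hMR : ∀ x : ℂ, MR e κ s B' ⟨⟨b, t.Lf n b U, t.Rf n b U, x⟩, U⟩ Q := fun x =>
      h5 b U (by rw [hb']; rfl) (by rw [hb']; rfl) hbB hUe _ _ x
    have hbr := (hMR 0).b
    refine yG_of he hy (b := b) (U := U) (L := t.Lf n b U) (R := t.Rf n b U) (M := t.Mf n b U)
      (Lf := fun U' => t.Lf (n + 1) b U') (Rf := fun U' => t.Rf (n + 1) b U') hMR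
      (ht.l hbr n p U) (ht.r hbr n p U) (ht.M hbr n p U)
      (fun U' => ht.l hbr (n + 1) p U') (fun U' => ht.r hbr (n + 1) p U')
      (hτ hbr) hτ0 ?_
    intro x hx
    have hA := A s (2 * B') (φ + 101 / 64) hs (by rw [h1]; exact hT) (by linarith) (by linarith)
      (by nlinarith) (by linarith [h4'.1]) (by linarith [h4'.2])
    rw [← hb', ← hU] at hA
    exact hA (om_prem he (hMR x) hρ) x hx
  · -- chart B
    obtain ⟨u, φ, h1, h2, h4, h5⟩ := chartB he hκ hQ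
    have hs : 0 < e * κ / 2 := by positivity
    have hu : u ≤ 2 := by
      have h6 : (e * κ / 2) * u ≤ (e * κ / 2) * 2 := by
        rw [h1]
        have := mul_le_mul_of_nonneg_left hc he.le
        linarith
      exact le_of_mul_le_mul_left h6 hs
    have h4' := abs_lt.1 h4
    obtain ⟨b, hb'⟩ : ∃ b, b = bB ((1 / e : ℝ) : ℂ) ((e * κ / 2 : ℝ) : ℂ) := ⟨_, rfl⟩
    obtain ⟨U, hU⟩ : ∃ U, U = uB ((u / 2 : ℝ) : ℂ) ((φ + 101 / 64 : ℝ) : ℂ) := ⟨_, rfl⟩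
    have hUe : U = (u : ℂ) * exp (I * (φ : ℂ)) := by
      rw [hU]
      unfold uB
      have e1 : (2 : ℂ) * ((u / 2 : ℝ) : ℂ) = (u : ℂ) := by
        push_cast
        ring
      rw [e1]
      congr 2
      push_cast
      ring
    have hMR : ∀ x : ℂ, MR e κ (e * κ / 2) 1 ⟨⟨b, t.Lf n b U, t.Rf n b U, x⟩, U⟩ Q := fun x =>
      h5 b U (by rw [hb']; rfl) (by rw [hb']; rfl) (by rw [hb']; rfl) hUe _ _ x
    have hbr := (hMR 0).b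
    refine yG_of he hy (b := b) (U := U) (L := t.Lf n b U) (R := t.Rf n b U) (M := t.Mf n b U)
      (Lf := fun U' => t.Lf (n + 1) b U') (Rf := fun U' => t.Rf (n + 1) b U') hMR
      (ht.l hbr n p U) (ht.r hbr n p U) (ht.M hbr n p U)
      (fun U' => ht.l hbr (n + 1) p U') (fun U' => ht.r hbr (n + 1) p U')
      (hτ hbr) hτ0 ?_
    intro x hx
    have hB := B (e * κ / 2) (u / 2) (φ + 101 / 64) hs hb (by linarith) (by linarith)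
      (by linarith [h4'.1]) (by linarith [h4'.2])
    rw [← hb', ← hU] at hB
    exact hB (om_prem he (hMR x) hρ) x hx

/-- **The last near node in the corner.** -/
theorem last_nodeW (he : 0 < e) (hκ : 0 < κ) {D : LamT} {t : NF} (ht : t.OK e κ D) {n : ℕ} {b1 s1 : ℝ}
    (hb : e * κ / 2 ≤ b1) {tkf : PtB → ℂ}
    (hτ : ∀ {s B : ℝ} {b : PtB}, BR e κ s B b → tkf b = (τ : ℂ)) (hτ0 : 0 ≤ τ) {ρ : ℝ} {p Q y : ℂ}
    (hρ : ‖om κ Q‖ ≤ ρ)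
    (hQ : Real.cosh κ < Q.re) (hT : e * ‖Q - (Real.cosh κ : ℂ)‖ ≤ s1)
    (hy : y = (e : ℂ) * (1 - (Q ^ 2)⁻¹)) {Ae xa C2 : ℂ} {A' x0 B1 a0 c2 : ℝ}
    (hA0 : 0 ≤ A') (hAe : Ae = ((A' / e : ℝ) : ℂ)) (hxa : xa = (a0 : ℂ))
    (ha0 : 0 ≤ a0) (hax : a0 ≤ x0) (hC2 : C2 = (c2 : ℂ)) (hB1 : B1 < x0 + 2)
    (hc2 : (1 + 1 / (2 * (x0 + 2))) / (1 - B1 / (x0 + 2)) ≤ c2)
    (A : ∀ s m ψ : ℝ, 0 < s → s ≤ s1 → 0 < m → m ≤ 1 → m * s ≤ 2 * b1 → 0 ≤ ψ → ψ ≤ 101 / 32 →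
      ‖(bA ((1 / e : ℝ) : ℂ) s m).K - uA ψ‖ ≤ ρ * ‖(bA ((1 / e : ℝ) : ℂ) s m).K + uA ψ‖ →
      ∀ x : ℂ, ‖x‖ ≤ 1 →
      StW (ptM t n (bA ((1 / e : ℝ) : ℂ) s m) (uA ψ) x)
        (mG (ptM t n (bA ((1 / e : ℝ) : ℂ) s m) (uA ψ) x) (tkf (bA ((1 / e : ℝ) : ℂ) s m))) ∧
      ClL (ptM t n (bA ((1 / e : ℝ) : ℂ) s m) (uA ψ) x)
        (fun F2 => ptL t n (bA ((1 / e : ℝ) : ℂ) s m) (uA ψ) x Ae xa C2 F2) B1 θ)
    (B : ∀ s m ψ : ℝ, 0 < s → s ≤ b1 → 0 < m → m ≤ 1 → 0 ≤ ψ → ψ ≤ 101 / 32 →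
      ‖(bB ((1 / e : ℝ) : ℂ) s).K - uB m ψ‖ ≤ ρ * ‖(bB ((1 / e : ℝ) : ℂ) s).K + uB m ψ‖ →
      ∀ x : ℂ, ‖x‖ ≤ 1 →
      StW (ptM t n (bB ((1 / e : ℝ) : ℂ) s) (uB m ψ) x)
        (mG (ptM t n (bB ((1 / e : ℝ) : ℂ) s) (uB m ψ) x) (tkf (bB ((1 / e : ℝ) : ℂ) s))) ∧
      ClL (ptM t n (bB ((1 / e : ℝ) : ℂ) s) (uB m ψ) x)
        (fun F2 => ptL t n (bB ((1 / e : ℝ) : ℂ) s) (uB m ψ) x Ae xa C2 F2) B1 θ) :
    YLG e κ θ τ A' x0 B1 ((D.toN e κ).l n p y)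
      ((D.toN e κ).r n p y) ((D.toN e κ).M n p y)
      (fun x => Sn e κ y ((D.toN e κ).l n p y)
        ((D.toN e κ).r n p y * x)) Q := by
  have hpi : Real.pi / 2 ≤ 101 / 64 := by
    have := Real.pi_lt_d2
    linarith
  rcases le_total κ ‖Q - (Real.cosh κ : ℂ)‖ with hc | hc
  · -- chart A
    obtain ⟨s, B', φ, h1, h2, h3, h4, h5⟩ := chartA he hκ hQ
    have hs : 0 < s := by
      rw [h1]
      exact mul_pos he (hκ.trans_le hc)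
    have hsB : s * B' ≤ s * (1 / 2) := by
      rw [h2, h1]
      have := mul_le_mul_of_nonneg_left hc he.le
      linarith
    have hB : B' ≤ 1 / 2 := le_of_mul_le_mul_left hsB hs
    have h4' := abs_lt.1 h4
    obtain ⟨b, hb'⟩ : ∃ b, b = bA ((1 / e : ℝ) : ℂ) (s : ℂ) ((2 * B' : ℝ) : ℂ) := ⟨_, rfl⟩
    obtain ⟨U, hU⟩ : ∃ U, U = uA ((φ + 101 / 64 : ℝ) : ℂ) := ⟨_, rfl⟩
    have hbB : b.B = (B' : ℂ) := by
      rw [hb']
      show (((1 / 2) : ℂ) * ((2 * B' : ℝ) : ℂ)) = _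
      push_cast
      ring
    have hUe : U = exp (I * (φ : ℂ)) := by
      rw [hU]
      unfold uA
      congr 1
      push_cast
      ring
    have hMR : ∀ x : ℂ, MR e κ s B' ⟨⟨b, t.Lf n b U, t.Rf n b U, x⟩, U⟩ Q := fun x =>
      h5 b U (by rw [hb']; rfl) (by rw [hb']; rfl) hbB hUe _ _ x
    have hbr := (hMR 0).b
    refine yLG_of he hy (b := b) (U := U) (L := t.Lf n b U) (R := t.Rf n b U) (M := t.Mf n b U)
      hMR (ht.l hbr n p U) (ht.r hbr n p U) (ht.M hbr n p U)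
      hA0 hAe hxa ha0 hax hC2 hB1 hc2 (hτ hbr) hτ0 ?_
    intro x hx
    have hA := A s (2 * B') (φ + 101 / 64) hs (by rw [h1]; exact hT) (by linarith) (by linarith)
      (by nlinarith) (by linarith [h4'.1]) (by linarith [h4'.2])
    rw [← hb', ← hU] at hA
    exact hA (om_prem he (hMR x) hρ) x hx
  · -- chart B
    obtain ⟨u, φ, h1, h2, h4, h5⟩ := chartB he hκ hQ
    have hs : 0 < e * κ / 2 := by positivity
    have hu : u ≤ 2 := by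
      have h6 : (e * κ / 2) * u ≤ (e * κ / 2) * 2 := by
        rw [h1]
        have := mul_le_mul_of_nonneg_left hc he.le
        linarith
      exact le_of_mul_le_mul_left h6 hs
    have h4' := abs_lt.1 h4
    obtain ⟨b, hb'⟩ : ∃ b, b = bB ((1 / e : ℝ) : ℂ) ((e * κ / 2 : ℝ) : ℂ) := ⟨_, rfl⟩
    obtain ⟨U, hU⟩ : ∃ U, U = uB ((u / 2 : ℝ) : ℂ) ((φ + 101 / 64 : ℝ) : ℂ) := ⟨_, rfl⟩
    have hUe : U = (u : ℂ) * exp (I * (φ : ℂ)) := by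
      rw [hU]
      unfold uB
      have e1 : (2 : ℂ) * ((u / 2 : ℝ) : ℂ) = (u : ℂ) := by
        push_cast
        ring
      rw [e1]
      congr 2
      push_cast
      ring
    have hMR : ∀ x : ℂ, MR e κ (e * κ / 2) 1 ⟨⟨b, t.Lf n b U, t.Rf n b U, x⟩, U⟩ Q := fun x =>
      h5 b U (by rw [hb']; rfl) (by rw [hb']; rfl) (by rw [hb']; rfl) hUe _ _ x
    have hbr := (hMR 0).b
    refine yLG_of he hy (b := b) (U := U) (L := t.Lf n b U) (R := t.Rf n b U) (M := t.Mf n b U)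
      hMR (ht.l hbr n p U) (ht.r hbr n p U) (ht.M hbr n p U)
      hA0 hAe hxa ha0 hax hC2 hB1 hc2 (hτ hbr) hτ0 ?_
    intro x hx
    have hB := B (e * κ / 2) (u / 2) (φ + 101 / 64) hs hb (by linarith) (by linarith)
      (by linarith [h4'.1]) (by linarith [h4'.2])
    rw [← hb', ← hU] at hB
    exact hB (om_prem he (hMR x) hρ) x hx

/-- **The first node in the corner.** -/
theorem first_nodeW (he : 0 < e) (hκ : 0 < κ) {D : LamT} {t : NF} (ht : t.OK e κ D) {t0 : NF0}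
    {v η : ℝ} {p : ℂ} (hp : p = (η : ℂ) * I) (ht0 : t0.OK e κ v p D) {b1 v1 : ℝ}
    (hb : e * κ / 2 ≤ b1) (hv0 : 0 ≤ v) (hv : v ≤ v1) {tkf : PtB → ℂ}
    (hτ : ∀ {s B : ℝ} {b : PtB}, BR e κ s B b → tkf b = (τ : ℂ)) (hτ0 : 0 ≤ τ) {W0 : Set ℂ}
    (hW0 : ∀ Q' : ℂ, Q' ≠ (Real.exp (-κ) : ℂ) → ‖om κ Q' - (kk κ : ℂ) * om0 κ p‖ ≤ κ * τ →
      e * ‖Q' - (Real.cosh κ : ℂ)‖ < 1 / 2 → om κ Q' ∈ W0)
    (A : ∀ s m : ℝ, 0 < s → s ≤ v1 → 0 < m → m ≤ 1 → 2 * (m * s) ≤ b1 →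
      ∀ x : ℂ, ‖x‖ ≤ 1 →
      StX (ptF t0 (b0A ((1 / e : ℝ) : ℂ) s m) 1 x)
        (fG (ptF t0 (b0A ((1 / e : ℝ) : ℂ) s m) 1 x) (tkf (b0A ((1 / e : ℝ) : ℂ) s m))) ∧
      ClA ⟨(ptF t0 (b0A ((1 / e : ℝ) : ℂ) s m) 1 x).c, 0⟩
        (ptF1 t0 t (b0A ((1 / e : ℝ) : ℂ) s m) 1 x) θ)
    (B : ∀ s m : ℝ, 0 < s → s ≤ b1 → 0 ≤ m → m ≤ 1 →
      ∀ x : ℂ, ‖x‖ ≤ 1 →
      StX (ptF t0 (bB ((1 / e : ℝ) : ℂ) s) (v0B m) x)
        (fG (ptF t0 (bB ((1 / e : ℝ) : ℂ) s) (v0B m) x) (tkf (bB ((1 / e : ℝ) : ℂ) s))) ∧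
      ClA ⟨(ptF t0 (bB ((1 / e : ℝ) : ℂ) s) (v0B m) x).c, 0⟩
        (ptF1 t0 t (bB ((1 / e : ℝ) : ℂ) s) (v0B m) x) θ) :
    YF e κ θ W0 ((D.toN e κ).l0 p) ((D.toN e κ).r0 p) ((D.toN e κ).M0 p)
      (fun x => S0 e κ (tanh (κ * p)) ((D.toN e κ).l0 p) ((D.toN e κ).r0 p * x))
      ((D.toN e κ).l 0 p) ((D.toN e κ).r 0 p) ∧
    (∀ x : ℂ, ‖x‖ ≤ 1 → 1 - (Hh κ : ℂ) ^ 2 *
      exp (-(2 * ((LA e κ : ℂ) + lF ((D.toN e κ).l0 p) ((D.toN e κ).r0 p * x))) / e) *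
        (1 - tanh (κ * p) ^ 2) ∈ slitPlane) ∧
    (∀ x : ℂ, ‖x‖ ≤ 1 → RS.SH e κ (tanh (κ * p)) ((D.toN e κ).l0 p)
      ((D.toN e κ).r0 p * x) ∈ slitPlane) := by
  have hbp : 0 < e * κ / 2 := by positivity
  rcases le_total (e * κ / 2) (2 * v) with hc | hc
  · -- chart A
    have hvp : 0 < v := by linarith
    obtain ⟨B', hB'⟩ : ∃ B', B' = (e * κ / 2) / v := ⟨_, rfl⟩
    have hB0 : 0 < B' := by rw [hB']; exact div_pos hbp hvp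
    have hvB : v * B' = e * κ / 2 := by rw [hB']; field_simp
    have hB2 : B' ≤ 2 := by
      rw [hB', div_le_iff₀ hvp]
      exact hc
    obtain ⟨b, hb'⟩ : ∃ b, b = b0A ((1 / e : ℝ) : ℂ) (v : ℂ) ((B' / 2 : ℝ) : ℂ) := ⟨_, rfl⟩
    have hbr : BR e κ v B' b := by
      refine ⟨by rw [hb']; rfl, by rw [hb']; rfl, ?_, hvp, hB0, ?_⟩
      · rw [hb']
        show (2 : ℂ) * ((B' / 2 : ℝ) : ℂ) = _
        push_cast
        ring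
      · rw [hvB]
        field_simp
    have hv1 : v * 1 = v := mul_one v
    have hW := ht0.W hbr hv1
    have hl := ht0.l hbr hv1
    have hr := ht0.r hbr hv1
    have hM := ht0.M hbr hv1
    rw [ofReal_one] at hW hl hr hM
    refine yFG_of he hp (b := b) (W := t0.W b 1) (L := t0.L b 1) (R := t0.R b 1) (M := t0.M b 1)
      (Lf := fun U' => t.Lf 0 b U') (Rf := fun U' => t.Rf 0 b U') hbr hW hl hr hM
      (fun U' => ht.l hbr 0 p U') (fun U' => ht.r hbr 0 p U') (hτ hbr) hτ0 hW0 ?_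
    intro x hx
    have hA := A v (B' / 2) hvp hv (by linarith) (by linarith) (by linarith) x hx
    rw [← hb'] at hA
    exact hA
  · -- chart B
    obtain ⟨V, hV⟩ : ∃ V, V = v / (e * κ / 2) := ⟨_, rfl⟩
    have hV0 : 0 ≤ V := by rw [hV]; exact div_nonneg hv0 hbp.le
    have hvV : (e * κ / 2) * V = v := by rw [hV]; field_simp
    have hV2 : V ≤ 1 / 2 := by
      rw [hV, div_le_iff₀ hbp]
      linarith
    obtain ⟨b, hb'⟩ : ∃ b, b = bB ((1 / e : ℝ) : ℂ) ((e * κ / 2 : ℝ) : ℂ) := ⟨_, rfl⟩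
    have hbr : BR e κ (e * κ / 2) 1 b := by
      refine ⟨by rw [hb']; rfl, by rw [hb']; rfl, ?_, hbp, one_pos, ?_⟩
      · rw [hb', ofReal_one]
        rfl
      · field_simp
    have hVc : (V : ℂ) = v0B ((2 * V : ℝ) : ℂ) := by
      unfold v0B
      push_cast
      ring
    have hW := ht0.W hbr hvV
    have hl := ht0.l hbr hvV
    have hr := ht0.r hbr hvV
    have hM := ht0.M hbr hvV
    refine yFG_of he hp (b := b) (W := t0.W b V) (L := t0.L b V) (R := t0.R b V) (M := t0.M b V)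
      (Lf := fun U' => t.Lf 0 b U') (Rf := fun U' => t.Rf 0 b U') hbr hW hl hr hM
      (fun U' => ht.l hbr 0 p U') (fun U' => ht.r hbr 0 p U') (hτ hbr) hτ0 hW0 ?_
    intro x hx
    have hB := B (e * κ / 2) (2 * V) hbp hb (by linarith) (by linarith) x hx
    rw [← hb', ← hVc] at hB
    exact hB

end Pool.Agent.helper12.RS
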