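import Pool.Agent.helper12.RS.Ser

/-!
# Polynomial approximations with dyadic coefficients (generated)
-/

namespace Pool.Agent.helper12.RS

open Complex

theorem Lm8_b {z : ℂ} (hz : ‖z‖ < ((1 / 8) : ℝ)) :
    ‖LmF z - ((((((219902325555 / 1099511627776) : ℂ) * z + ((-1 / 4) : ℂ)) * z + ((366503875925 / 1099511627776) : ℂ)) * z + ((-1 / 2) : ℂ)) * z + (1 : ℂ))‖ ≤ ((6391321 / 1099511627776) : ℝ) := by
  have hz1 : ‖z‖ ≤ 1 := hz.le.trans (by norm_num)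
  have h1 := LmF_bound (n := 5) (by norm_num) (r := (1 / 8)) (by norm_num) hz
  have e : (∑ k ∈ Finset.range 5, (-1 : ℂ) ^ k * z ^ k / (k + 1)) - ((((((219902325555 / 1099511627776) : ℂ) * z + ((-1 / 4) : ℂ)) * z + ((366503875925 / 1099511627776) : ℂ)) * z + ((-1 / 2) : ℂ)) * z + (1 : ℂ)) = (((1 / 3298534883328) : ℝ) : ℂ) * z ^ 2 + (((1 / 5497558138880) : ℝ) : ℂ) * z ^ 4 := by
    simp only [Finset.sum_range_succ, Finset.sum_range_zero, Nat.factorial]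
    push_cast
    ring
  have h2 : ‖(∑ k ∈ Finset.range 5, (-1 : ℂ) ^ k * z ^ k / (k + 1)) - ((((((219902325555 / 1099511627776) : ℂ) * z + ((-1 / 4) : ℂ)) * z + ((366503875925 / 1099511627776) : ℂ)) * z + ((-1 / 2) : ℂ)) * z + (1 : ℂ))‖ ≤ |((1 / 3298534883328) : ℝ)| + |((1 / 5497558138880) : ℝ)| := by
    rw [e]
    exact norm_add_le_of_le (tb hz1 _ _) (tb hz1 _ _)
  refine approx_of h1 h2 ?_
  norm_num [abs_of_nonneg, abs_of_neg, Nat.factorial]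

theorem Lm4_b {z : ℂ} (hz : ‖z‖ < ((1 / 4) : ℝ)) :
    ‖LmF z - ((((((((78536544841 / 549755813888) : ℂ) * z + ((-183251937963 / 1099511627776) : ℂ)) * z + ((219902325555 / 1099511627776) : ℂ)) * z + ((-1 / 4) : ℂ)) * z + ((366503875925 / 1099511627776) : ℂ)) * z + ((-1 / 2) : ℂ)) * z + (1 : ℂ))‖ ≤ ((2796203 / 274877906944) : ℝ) := by
  have hz1 : ‖z‖ ≤ 1 := hz.le.trans (by norm_num)
  have h1 := LmF_bound (n := 7) (by norm_num) (r := (1 / 4)) (by norm_num) hz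
  have e : (∑ k ∈ Finset.range 7, (-1 : ℂ) ^ k * z ^ k / (k + 1)) - ((((((((78536544841 / 549755813888) : ℂ) * z + ((-183251937963 / 1099511627776) : ℂ)) * z + ((219902325555 / 1099511627776) : ℂ)) * z + ((-1 / 4) : ℂ)) * z + ((366503875925 / 1099511627776) : ℂ)) * z + ((-1 / 2) : ℂ)) * z + (1 : ℂ)) = (((1 / 3298534883328) : ℝ) : ℂ) * z ^ 2 + (((1 / 5497558138880) : ℝ) : ℂ) * z ^ 4 + (((1 / 3298534883328) : ℝ) : ℂ) * z ^ 5 + (((1 / 3848290697216) : ℝ) : ℂ) * z ^ 6 := by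
    simp only [Finset.sum_range_succ, Finset.sum_range_zero, Nat.factorial]
    push_cast
    ring
  have h2 : ‖(∑ k ∈ Finset.range 7, (-1 : ℂ) ^ k * z ^ k / (k + 1)) - ((((((((78536544841 / 549755813888) : ℂ) * z + ((-183251937963 / 1099511627776) : ℂ)) * z + ((219902325555 / 1099511627776) : ℂ)) * z + ((-1 / 4) : ℂ)) * z + ((366503875925 / 1099511627776) : ℂ)) * z + ((-1 / 2) : ℂ)) * z + (1 : ℂ))‖ ≤ |((1 / 3298534883328) : ℝ)| + |((1 / 5497558138880) : ℝ)| + |((1 / 3298534883328) : ℝ)| + |((1 / 3848290697216) : ℝ)| := by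
    rw [e]
    exact norm_add_le_of_le (norm_add_le_of_le (norm_add_le_of_le (tb hz1 _ _) (tb hz1 _ _)) (tb hz1 _ _)) (tb hz1 _ _)
  refine approx_of h1 h2 ?_
  norm_num [abs_of_nonneg, abs_of_neg, Nat.factorial]

theorem Lm3_b {z : ℂ} (hz : ‖z‖ < ((3 / 8) : ℝ)) :
    ‖LmF z - ((((((((((61083979321 / 549755813888) : ℂ) * z + ((-1 / 8) : ℂ)) * z + ((78536544841 / 549755813888) : ℂ)) * z + ((-183251937963 / 1099511627776) : ℂ)) * z + ((219902325555 / 1099511627776) : ℂ)) * z + ((-1 / 4) : ℂ)) * z + ((366503875925 / 1099511627776) : ℂ)) * z + ((-1 / 2) : ℂ)) * z + (1 : ℂ))‖ ≤ ((3224863 / 137438953472) : ℝ) := by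
  have hz1 : ‖z‖ ≤ 1 := hz.le.trans (by norm_num)
  have h1 := LmF_bound (n := 9) (by norm_num) (r := (3 / 8)) (by norm_num) hz
  have e : (∑ k ∈ Finset.range 9, (-1 : ℂ) ^ k * z ^ k / (k + 1)) - ((((((((((61083979321 / 549755813888) : ℂ) * z + ((-1 / 8) : ℂ)) * z + ((78536544841 / 549755813888) : ℂ)) * z + ((-183251937963 / 1099511627776) : ℂ)) * z + ((219902325555 / 1099511627776) : ℂ)) * z + ((-1 / 4) : ℂ)) * z + ((366503875925 / 1099511627776) : ℂ)) * z + ((-1 / 2) : ℂ)) * z + (1 : ℂ)) = (((1 / 3298534883328) : ℝ) : ℂ) * z ^ 2 + (((1 / 5497558138880) : ℝ) : ℂ) * z ^ 4 + (((1 / 3298534883328) : ℝ) : ℂ) * z ^ 5 + (((1 / 3848290697216) : ℝ) : ℂ) * z ^ 6 + (((-1 / 4947802324992) : ℝ) : ℂ) * z ^ 8 := by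
    simp only [Finset.sum_range_succ, Finset.sum_range_zero, Nat.factorial]
    push_cast
    ring
  have h2 : ‖(∑ k ∈ Finset.range 9, (-1 : ℂ) ^ k * z ^ k / (k + 1)) - ((((((((((61083979321 / 549755813888) : ℂ) * z + ((-1 / 8) : ℂ)) * z + ((78536544841 / 549755813888) : ℂ)) * z + ((-183251937963 / 1099511627776) : ℂ)) * z + ((219902325555 / 1099511627776) : ℂ)) * z + ((-1 / 4) : ℂ)) * z + ((366503875925 / 1099511627776) : ℂ)) * z + ((-1 / 2) : ℂ)) * z + (1 : ℂ))‖ ≤ |((1 / 3298534883328) : ℝ)| + |((1 / 5497558138880) : ℝ)| + |((1 / 3298534883328) : ℝ)| + |((1 / 3848290697216) : ℝ)| + |((-1 / 4947802324992) : ℝ)| := by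
    rw [e]
    exact norm_add_le_of_le (norm_add_le_of_le (norm_add_le_of_le (norm_add_le_of_le (tb hz1 _ _) (tb hz1 _ _)) (tb hz1 _ _)) (tb hz1 _ _)) (tb hz1 _ _)
  refine approx_of h1 h2 ?_
  norm_num [abs_of_nonneg, abs_of_neg, Nat.factorial]

theorem Ex12_b {z : ℂ} (hz : ‖z‖ < ((1 / 12) : ℝ)) :
    ‖E1F z - (((((45812984491 / 1099511627776) : ℂ) * z + ((183251937963 / 1099511627776) : ℂ)) * z + ((1 / 2) : ℂ)) * z + (1 : ℂ))‖ ≤ ((132561 / 274877906944) : ℝ) := by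
  have hz1 : ‖z‖ ≤ 1 := hz.le.trans (by norm_num)
  have h1 := E1F_bound (n := 4) (r := (1 / 12)) (by norm_num) hz (by norm_num)
  have e : (∑ k ∈ Finset.range 4, z ^ k / ((k + 1).factorial : ℂ)) - (((((45812984491 / 1099511627776) : ℂ) * z + ((183251937963 / 1099511627776) : ℂ)) * z + ((1 / 2) : ℂ)) * z + (1 : ℂ)) = (((-1 / 3298534883328) : ℝ) : ℂ) * z ^ 2 + (((-1 / 3298534883328) : ℝ) : ℂ) * z ^ 3 := by
    simp only [Finset.sum_range_succ, Finset.sum_range_zero, Nat.factorial]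
    push_cast
    ring
  have h2 : ‖(∑ k ∈ Finset.range 4, z ^ k / ((k + 1).factorial : ℂ)) - (((((45812984491 / 1099511627776) : ℂ) * z + ((183251937963 / 1099511627776) : ℂ)) * z + ((1 / 2) : ℂ)) * z + (1 : ℂ))‖ ≤ |((-1 / 3298534883328) : ℝ)| + |((-1 / 3298534883328) : ℝ)| := by
    rw [e]
    exact norm_add_le_of_le (tb hz1 _ _) (tb hz1 _ _)
  refine approx_of h1 h2 ?_
  norm_num [abs_of_nonneg, abs_of_neg, Nat.factorial]

theorem Ex8_b {z : ℂ} (hz : ‖z‖ < ((1 / 8) : ℝ)) :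
    ‖E1F z - (((((45812984491 / 1099511627776) : ℂ) * z + ((183251937963 / 1099511627776) : ℂ)) * z + ((1 / 2) : ℂ)) * z + (1 : ℂ))‖ ≤ ((671089 / 274877906944) : ℝ) := by
  have hz1 : ‖z‖ ≤ 1 := hz.le.trans (by norm_num)
  have h1 := E1F_bound (n := 4) (r := (1 / 8)) (by norm_num) hz (by norm_num)
  have e : (∑ k ∈ Finset.range 4, z ^ k / ((k + 1).factorial : ℂ)) - (((((45812984491 / 1099511627776) : ℂ) * z + ((183251937963 / 1099511627776) : ℂ)) * z + ((1 / 2) : ℂ)) * z + (1 : ℂ)) = (((-1 / 3298534883328) : ℝ) : ℂ) * z ^ 2 + (((-1 / 3298534883328) : ℝ) : ℂ) * z ^ 3 := by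
    simp only [Finset.sum_range_succ, Finset.sum_range_zero, Nat.factorial]
    push_cast
    ring
  have h2 : ‖(∑ k ∈ Finset.range 4, z ^ k / ((k + 1).factorial : ℂ)) - (((((45812984491 / 1099511627776) : ℂ) * z + ((183251937963 / 1099511627776) : ℂ)) * z + ((1 / 2) : ℂ)) * z + (1 : ℂ))‖ ≤ |((-1 / 3298534883328) : ℝ)| + |((-1 / 3298534883328) : ℝ)| := by
    rw [e]
    exact norm_add_le_of_le (tb hz1 _ _) (tb hz1 _ _)
  refine approx_of h1 h2 ?_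
  norm_num [abs_of_nonneg, abs_of_neg, Nat.factorial]

theorem Ex4_b {z : ℂ} (hz : ‖z‖ < ((1 / 4) : ℝ)) :
    ‖E1F z - (((((45812984491 / 1099511627776) : ℂ) * z + ((183251937963 / 1099511627776) : ℂ)) * z + ((1 / 2) : ℂ)) * z + (1 : ℂ))‖ ≤ ((21474837 / 549755813888) : ℝ) := by
  have hz1 : ‖z‖ ≤ 1 := hz.le.trans (by norm_num)
  have h1 := E1F_bound (n := 4) (r := (1 / 4)) (by norm_num) hz (by norm_num)
  have e : (∑ k ∈ Finset.range 4, z ^ k / ((k + 1).factorial : ℂ)) - (((((45812984491 / 1099511627776) : ℂ) * z + ((183251937963 / 1099511627776) : ℂ)) * z + ((1 / 2) : ℂ)) * z + (1 : ℂ)) = (((-1 / 3298534883328) : ℝ) : ℂ) * z ^ 2 + (((-1 / 3298534883328) : ℝ) : ℂ) * z ^ 3 := by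
    simp only [Finset.sum_range_succ, Finset.sum_range_zero, Nat.factorial]
    push_cast
    ring
  have h2 : ‖(∑ k ∈ Finset.range 4, z ^ k / ((k + 1).factorial : ℂ)) - (((((45812984491 / 1099511627776) : ℂ) * z + ((183251937963 / 1099511627776) : ℂ)) * z + ((1 / 2) : ℂ)) * z + (1 : ℂ))‖ ≤ |((-1 / 3298534883328) : ℝ)| + |((-1 / 3298534883328) : ℝ)| := by
    rw [e]
    exact norm_add_le_of_le (tb hz1 _ _) (tb hz1 _ _)
  refine approx_of h1 h2 ?_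
  norm_num [abs_of_nonneg, abs_of_neg, Nat.factorial]

theorem Ex2_b {z : ℂ} (hz : ‖z‖ < ((1 / 2) : ℝ)) :
    ‖E1F z - ((((((4581298449 / 549755813888) : ℂ) * z + ((45812984491 / 1099511627776) : ℂ)) * z + ((183251937963 / 1099511627776) : ℂ)) * z + ((1 / 2) : ℂ)) * z + (1 : ℂ))‖ ≤ ((55675503 / 1099511627776) : ℝ) := by
  have hz1 : ‖z‖ ≤ 1 := hz.le.trans (by norm_num)
  have h1 := E1F_bound (n := 5) (r := (1 / 2)) (by norm_num) hz (by norm_num)
  have e : (∑ k ∈ Finset.range 5, z ^ k / ((k + 1).factorial : ℂ)) - ((((((4581298449 / 549755813888) : ℂ) * z + ((45812984491 / 1099511627776) : ℂ)) * z + ((183251937963 / 1099511627776) : ℂ)) * z + ((1 / 2) : ℂ)) * z + (1 : ℂ)) = (((-1 / 3298534883328) : ℝ) : ℂ) * z ^ 2 + (((-1 / 3298534883328) : ℝ) : ℂ) * z ^ 3 + (((1 / 8246337208320) : ℝ) : ℂ) * z ^ 4 := by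
    simp only [Finset.sum_range_succ, Finset.sum_range_zero, Nat.factorial]
    push_cast
    ring
  have h2 : ‖(∑ k ∈ Finset.range 5, z ^ k / ((k + 1).factorial : ℂ)) - ((((((4581298449 / 549755813888) : ℂ) * z + ((45812984491 / 1099511627776) : ℂ)) * z + ((183251937963 / 1099511627776) : ℂ)) * z + ((1 / 2) : ℂ)) * z + (1 : ℂ))‖ ≤ |((-1 / 3298534883328) : ℝ)| + |((-1 / 3298534883328) : ℝ)| + |((1 / 8246337208320) : ℝ)| := by
    rw [e]
    exact norm_add_le_of_le (norm_add_le_of_le (tb hz1 _ _) (tb hz1 _ _)) (tb hz1 _ _)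
  refine approx_of h1 h2 ?_
  norm_num [abs_of_nonneg, abs_of_neg, Nat.factorial]

theorem Ex1_b {z : ℂ} (hz : ‖z‖ < (1 : ℝ)) :
    ‖E1F z - ((((((((218157069 / 1099511627776) : ℂ) * z + ((1527099483 / 1099511627776) : ℂ)) * z + ((4581298449 / 549755813888) : ℂ)) * z + ((45812984491 / 1099511627776) : ℂ)) * z + ((183251937963 / 1099511627776) : ℂ)) * z + ((1 / 2) : ℂ)) * z + (1 : ℂ))‖ ≤ ((30678339 / 1099511627776) : ℝ) := by
  have hz1 : ‖z‖ ≤ 1 := hz.le.trans (by norm_num)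
  have h1 := E1F_bound (n := 7) (r := 1) (by norm_num) hz (by norm_num)
  have e : (∑ k ∈ Finset.range 7, z ^ k / ((k + 1).factorial : ℂ)) - ((((((((218157069 / 1099511627776) : ℂ) * z + ((1527099483 / 1099511627776) : ℂ)) * z + ((4581298449 / 549755813888) : ℂ)) * z + ((45812984491 / 1099511627776) : ℂ)) * z + ((183251937963 / 1099511627776) : ℂ)) * z + ((1 / 2) : ℂ)) * z + (1 : ℂ)) = (((-1 / 3298534883328) : ℝ) : ℂ) * z ^ 2 + (((-1 / 3298534883328) : ℝ) : ℂ) * z ^ 3 + (((1 / 8246337208320) : ℝ) : ℂ) * z ^ 4 + (((1 / 49478023249920) : ℝ) : ℂ) * z ^ 5 + (((1 / 346346162749440) : ℝ) : ℂ) * z ^ 6 := by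
    simp only [Finset.sum_range_succ, Finset.sum_range_zero, Nat.factorial]
    push_cast
    ring
  have h2 : ‖(∑ k ∈ Finset.range 7, z ^ k / ((k + 1).factorial : ℂ)) - ((((((((218157069 / 1099511627776) : ℂ) * z + ((1527099483 / 1099511627776) : ℂ)) * z + ((4581298449 / 549755813888) : ℂ)) * z + ((45812984491 / 1099511627776) : ℂ)) * z + ((183251937963 / 1099511627776) : ℂ)) * z + ((1 / 2) : ℂ)) * z + (1 : ℂ))‖ ≤ |((-1 / 3298534883328) : ℝ)| + |((-1 / 3298534883328) : ℝ)| + |((1 / 8246337208320) : ℝ)| + |((1 / 49478023249920) : ℝ)| + |((1 / 346346162749440) : ℝ)| := by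
    rw [e]
    exact norm_add_le_of_le (norm_add_le_of_le (norm_add_le_of_le (norm_add_le_of_le (tb hz1 _ _) (tb hz1 _ _)) (tb hz1 _ _)) (tb hz1 _ _)) (tb hz1 _ _)
  refine approx_of h1 h2 ?_
  norm_num [abs_of_nonneg, abs_of_neg, Nat.factorial]

end Pool.Agent.helper12.RS
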