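import Pool.Agent.helper12.RS.Tb

/-!
# Coefficients without the factor `exp (-j κ)`
-/

namespace Pool.Agent.helper12.RS

theorem Tb.anb0 {t : Tb} {n : ℕ} {b : PtB} (h : t.j n = 0) :
    t.anb n b = (2 : ℂ) * P2 (t.a n) (t.deb b) (t.dbb b) := by
  unfold Tb.anb
  rw [h, zero_mul, neg_zero, Complex.exp_zero, mul_one]

theorem Tb.an0b0 {t : Tb} {b : PtB} (h : t.j0 = 0) :
    t.an0b b = P2 t.a0 (t.deb b) (t.dbb b) := by
  unfold Tb.an0b
  rw [h, zero_mul, neg_zero, Complex.exp_zero, mul_one]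

end Pool.Agent.helper12.RS
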