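import Pool.Agent.helper12.RS.PtB

/-!
# Meaning of the normalised quantities: middle link, displacement, closing
-/

namespace Pool.Agent.helper12.RS

open Complex ComplexConjugate Set Filter Topology
open Pool.Agent.helper31.EQ.Y Pool.Agent.helper31.EQ.R
open Pool.Agent.helper12.RP Pool.Agent.helper12.FF

variable {e κ s B : ℝ}

/-- square root of `1 + z` for `log (1 + z) = 2 h` -/
theorem sqrt_of {z h : ℂ} (hz : ‖z‖ < 1) (hh : h = (1 / 2 : ℂ) * (z * LmF z)) :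
    1 + z ∈ slitPlane ∧ log (1 + z) = 2 * h ∧
      (1 + z) ^ ((1 / 2 : ℝ) : ℂ) = 1 + h * E1F h ∧ (1 + h * E1F h) * (1 + h * E1F h) = 1 + z := by
  have h1 : 1 + z ∈ slitPlane := by
    rw [Complex.mem_slitPlane_iff]
    left
    rw [add_re, one_re]
    have := (abs_lt.1 ((Complex.abs_re_le_norm _).trans_lt hz)).1
    linarith
  have h0 := slitPlane_ne_zero h1
  have h2 : log (1 + z) = 2 * h := by
    rw [← mul_LmF, hh]
    ring
  have h3 : (1 + z) ^ ((1 / 2 : ℝ) : ℂ) = exp h := by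
    rw [cpow_def_of_ne_zero h0, h2]
    congr 1
    push_cast
    ring
  refine ⟨h1, h2, ?_, ?_⟩
  · rw [h3, mul_E1F]
    ring
  · rw [← exp_eq_E1F, ← exp_add, ← two_mul, ← h2, exp_log h0]

/-- **The displacement** in the coordinate `om`. -/
theorem disp_of (hκ : 0 < κ) {Q' Qs se K T' Ts X kh : ℂ} {δ : ℝ}
    (hK : (Real.sinh κ : ℂ) = se * K) (hkh : (κ : ℂ) * kh = (Real.sinh κ : ℂ))
    (hQ' : Q' = (Real.cosh κ : ℂ) + se * T') (hQs : Qs = (Real.cosh κ : ℂ) + se * Ts)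
    (hT : T' = Ts + se * (Ts * X)) (hKT : K + T' ≠ 0) (hse : se ≠ 0) (hTs : K + Ts ≠ 0)
    (hd : ‖(kh * X) * (K + T')⁻¹‖ < δ) :
    Q' ≠ (Real.exp (-κ) : ℂ) ∧
    ‖om κ Q' - om κ Qs‖ ≤ κ * δ * ‖((1 : ℝ) : ℂ) - om κ Qs‖ := by
  have hem : (Real.exp (-κ) : ℂ) = (Real.cosh κ : ℂ) - (Real.sinh κ : ℂ) := by
    rw [← ofReal_sub, Real.cosh_sub_sinh]
  have hep : (Real.exp κ : ℂ) = (Real.cosh κ : ℂ) + (Real.sinh κ : ℂ) := by
    rw [← ofReal_add, Real.cosh_add_sinh]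
  have e1 : Q' - (Real.exp (-κ) : ℂ) = se * (K + T') := by
    rw [hQ', hem, hK]
    ring
  have e2 : Qs - (Real.exp (-κ) : ℂ) = se * (K + Ts) := by
    rw [hQs, hem, hK]
    ring
  have n1 : Q' ≠ (Real.exp (-κ) : ℂ) := by
    intro h
    rw [h, sub_self] at e1
    exact mul_ne_zero hse hKT e1.symm
  have n2 : Qs ≠ (Real.exp (-κ) : ℂ) := by
    intro h
    rw [h, sub_self] at e2
    exact mul_ne_zero hse hTs e2.symm
  refine ⟨n1, ?_⟩
  have e3 : Q' - Qs = se * se * (Ts * X) := by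
    rw [hQ', hQs, hT]
    ring
  have e4 : ((1 : ℝ) : ℂ) - om κ Qs = 2 * Ts / (K + Ts) := by
    unfold om
    rw [e2]
    have e5 : (Real.exp κ : ℂ) - Qs = se * (K - Ts) := by
      rw [hQs, hep, hK]
      ring
    rw [e5]
    push_cast
    field_simp
    ring
  have e6 : om κ Q' - om κ Qs = -((κ : ℂ) * ((kh * X) * (K + T')⁻¹)) * (2 * Ts / (K + Ts)) := by
    rw [om_sub κ n2 n1, e1, e2, e3, ← hkh]
    field_simp
  rw [e6, e4, norm_mul, norm_neg, norm_mul, Complex.norm_real, Real.norm_of_nonneg hκ.le]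
  gcongr

/-- Data of the ratio `Q` of a middle link. -/
structure MR (e κ s B : ℝ) (m : PtM) (Q : ℂ) : Prop where
  b : BR e κ s B m.c.b
  hQ : Q = (Real.cosh κ : ℂ) + m.c.b.se * m.U
  re : Real.cosh κ < Q.re

namespace MR

variable {m : PtM} {Q : ℂ}

theorem se_ne (he : 0 < e) (h : MR e κ s B m Q) : m.c.b.se ≠ 0 := by
  rw [h.b.se_eq]
  exact_mod_cast (h.b.se_pos he).ne'

theorem Q_ne (h : MR e κ s B m Q) : Q ≠ 0 := ne_zero_of_cosh h.re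

theorem Q_eq (h : MR e κ s B m Q) : Q = m.c.b.se * m.q1 + 1 := by
  rw [h.hQ, h.b.cosh_c]
  unfold PtM.q1
  ring

theorem u_eq (h : MR e κ s B m Q) : m.u = Q⁻¹ := by
  rw [h.Q_eq]
  rfl

theorem um_rel (h : MR e κ s B m Q) : m.c.b.se * m.um = 1 - m.u := by
  have h1 := h.Q_ne
  have h2 := h.Q_eq
  have h3 := h.u_eq
  have h4 : m.u * Q = 1 := by
    rw [h3, inv_mul_cancel₀ h1]
  unfold PtM.um
  linear_combination (-m.u) * h2 + h4

theorem w_eq (m : PtM) : m.w = exp (m.c.x3) := by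
  unfold PtM.w PtM.wm
  have h1 := mul_E1F m.c.x3
  have h2 : m.c.b.se * (m.c.Lam * E1F m.c.x3) = m.c.x3 * E1F m.c.x3 := by
    have : m.c.x3 = m.c.b.se * m.c.Lam := rfl
    rw [this]
    ring
  rw [h2, h1]
  ring

theorem A2_eq (m : PtM) : m.A2 = exp (m.a2) := by
  unfold PtM.A2
  rw [mul_E1F]
  ring

/-- the radicand -/
theorem rad (he : 0 < e) (h : MR e κ s B m Q) (hb : ‖m.c.b.s * m.c.b.wb‖ < 1)
    (h1 : ‖m.c.b.s * m.c.wl‖ < 1) (h2 : ‖m.c.b.s * m.c.ER‖ < 1) (h3 : ‖-(m.c.b.s * m.c.Rx)‖ < 1) :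
    Sn e κ ((e : ℂ) * (1 - (Q ^ 2)⁻¹)) (m.c.b.s * m.c.L) (m.c.b.s * m.c.R * m.c.x) =
      1 + m.Sm := by
  obtain ⟨-, -, a3, a4, -⟩ := node_logs he h.b hb h1 h2 h3
  have he0 : (e : ℂ) ≠ 0 := by exact_mod_cast he.ne'
  have hse : m.c.b.s / e = m.c.b.se := by
    unfold PtB.se
    rw [h.b.hep]
    push_cast
    ring
  have hu := h.u_eq
  have hum := h.um_rel
  obtain ⟨G, hG⟩ : ∃ G, G = lG (m.c.b.s * m.c.L) (m.c.b.s * m.c.R * m.c.x) := ⟨_, rfl⟩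
  obtain ⟨F, hF⟩ : ∃ F, F = lF (m.c.b.s * m.c.L) (m.c.b.s * m.c.R * m.c.x) := ⟨_, rfl⟩
  rw [← hG] at a3 a4
  rw [← hF] at a4
  have e1 : exp (-(2 * ((LA e κ : ℂ) + G)) / e) = m.A2 * m.w := by
    rw [a3, A2_eq, w_eq, ← exp_add]
    congr 1
    unfold PtM.a2 PtM.g2 PtC.x3
    rw [← hse]
    ring
  have e2 : exp (-(2 * (LA e κ : ℂ) + G + F) / e) = m.A2 := by
    rw [A2_eq]
    congr 1
    have h5 : 2 * (LA e κ : ℂ) + G + F = 2 * ((LA e κ : ℂ) + G) + (F - G) := by ring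
    rw [h5, a3, a4]
    unfold PtM.a2 PtM.g2
    rw [← hse]
    ring
  have e3 : exp ((F - G) / e) = m.w := by
    rw [a4, w_eq]
    congr 1
    unfold PtC.x3
    rw [← hse]
    ring
  have e4 : (e : ℂ) * (1 - (Q ^ 2)⁻¹) / e = m.c.b.se * m.Y := by
    rw [mul_div_cancel_left₀ _ he0]
    have h6 : (Q ^ 2)⁻¹ = m.u ^ 2 := by
      rw [hu, inv_pow]
    rw [h6]
    unfold PtM.Y
    linear_combination (-(m.u + 1)) * hum
  unfold Sn
  rw [← hG, ← hF, e1, e2, e3, e4, h.b.H_sq]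
  unfold PtM.Sm PtM.Dl
  ring

/-- the next link -/
theorem link (he : 0 < e) (h : MR e κ s B m Q) (hS : ‖m.Sm‖ < 1)
    (hiq : m.Qp + (m.c.b.se * (m.c.b.gs + m.Ts) + 2) ≠ 0) :
    1 + m.Sm ∈ slitPlane ∧ log (1 + m.Sm) = m.c.b.se * m.ls ∧
    (1 + m.Sm) ^ ((1 / 2 : ℝ) : ℂ) = 1 + m.Qp ∧
    2 * (Real.cosh κ : ℂ) - Q⁻¹ = (Real.cosh κ : ℂ) + m.c.b.se * m.Ts ∧
    (1 + m.Sm) ^ ((1 / 2 : ℝ) : ℂ) = (Real.cosh κ : ℂ) + m.c.b.se * m.Un := by
  have hse := h.se_ne he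
  have hhs : m.hs = (1 / 2 : ℂ) * (m.Sm * LmF m.Sm) := by
    unfold PtM.hs PtM.ls
    have : m.Sm = m.c.b.se * m.Dl := rfl
    rw [this]
    ring
  obtain ⟨a1, a2, a3, a4⟩ := sqrt_of hS hhs
  have hQp : (1 + m.Sm) ^ ((1 / 2 : ℝ) : ℂ) = 1 + m.Qp := a3
  have hQ2 : (1 + m.Qp) * (1 + m.Qp) = 1 + m.Sm := a4
  have hc := h.b.cosh_c
  have hum := h.um_rel
  have hu := h.u_eq
  have hQs : 2 * (Real.cosh κ : ℂ) - Q⁻¹ = (Real.cosh κ : ℂ) + m.c.b.se * m.Ts := by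
    rw [← hu, hc]
    unfold PtM.Ts
    linear_combination -hum
  refine ⟨a1, ?_, hQp, hQs, ?_⟩
  · rw [a2]
    unfold PtM.hs
    ring
  · -- difference of squares
    have hw : m.w = m.c.b.se * m.wm + 1 := rfl
    have hA2 : m.A2 = m.a2 * E1F m.a2 + 1 := rfl
    have ha2 : m.a2 = -(m.c.b.se * m.g2) := rfl
    have hgs : 2 * m.c.b.gs = m.c.b.Z4 * m.c.b.se := by
      unfold PtB.gs
      ring
    have hD : 1 + m.Sm - (1 + m.c.b.se * (m.c.b.gs + m.Ts)) ^ 2 = m.c.b.se ^ 2 * m.D := by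
      unfold PtM.D PtM.X1 PtM.Bk PtM.Sm PtM.Dl PtM.Y PtM.Ts
      obtain ⟨E, hE⟩ : ∃ E, E = E1F m.a2 := ⟨_, rfl⟩
      rw [← hE] at hA2
      rw [← hE, hA2, hw]
      rw [ha2]
      obtain ⟨se, hse'⟩ : ∃ se, se = m.c.b.se := ⟨_, rfl⟩
      obtain ⟨um, hum'⟩ : ∃ um, um = m.um := ⟨_, rfl⟩
      obtain ⟨gs, hgs'⟩ : ∃ gs, gs = m.c.b.gs := ⟨_, rfl⟩
      obtain ⟨Z4, hZ4'⟩ : ∃ Z4, Z4 = m.c.b.Z4 := ⟨_, rfl⟩
      obtain ⟨u, hu'⟩ : ∃ u, u = m.u := ⟨_, rfl⟩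
      obtain ⟨wm, hwm'⟩ : ∃ wm, wm = m.wm := ⟨_, rfl⟩
      obtain ⟨g2, hg2'⟩ : ∃ g2, g2 = m.g2 := ⟨_, rfl⟩
      rw [← hse', ← hum', ← hu'] at hum
      rw [← hse', ← hgs', ← hZ4'] at hgs
      rw [← hse', ← hum', ← hu', ← hgs', ← hwm', ← hg2', ← hZ4']
      have hu2 : u = 1 - se * um := by linear_combination hum
      rw [hu2]
      have hgs2 : gs = Z4 * se / 2 := by linear_combination hgs / 2
      rw [hgs2]
      ring
    have h5 : (1 + m.Qp - (1 + m.c.b.se * (m.c.b.gs + m.Ts))) *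
        (m.Qp + (m.c.b.se * (m.c.b.gs + m.Ts) + 2)) = m.c.b.se ^ 2 * m.D := by
      rw [← hD, ← hQ2]
      ring
    have h6 : 1 + m.Qp - (1 + m.c.b.se * (m.c.b.gs + m.Ts)) = m.c.b.se ^ 2 * m.Di := by
      unfold PtM.Di PtM.iq
      rw [← mul_assoc, ← h5, mul_inv_cancel_right₀ hiq]
    rw [hQp, hc]
    unfold PtM.Un
    linear_combination h6

theorem D_eq {m : PtM} (hT : m.Ts ≠ 0) : m.D = m.Ts * m.Dt := by
  unfold PtM.D PtM.Dt PtM.th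
  field_simp

theorem um_re (he : 0 < e) (h : MR e κ s B m Q) : 0 < m.um.re := by
  have h1 := h.um_rel
  have h2 := h.b.se_pos he
  rw [h.b.se_eq, h.u_eq] at h1
  have h3 := congrArg Complex.re h1
  rw [re_ofReal_mul, sub_re, one_re] at h3
  have h4 : (Q⁻¹).re < 1 := by
    have h5 : ‖Q⁻¹‖ < 1 := by
      rw [norm_inv]
      apply inv_lt_one_of_one_lt₀
      have h6 := Complex.re_le_norm Q
      have h7 := Real.one_le_cosh κ
      have h8 := h.re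
      linarith
    exact (Complex.re_le_norm _).trans_lt h5
  have h5 : 0 < s / e * m.um.re := by linarith
  exact (mul_pos_iff_of_pos_left h2).1 h5

theorem gs_real (he : 0 < e) (h : BR e κ s B m.c.b) : ∃ g : ℝ, 0 < g ∧ m.c.b.gs = (g : ℂ) := by
  have h1 := h.cosh_c
  have h2 := h.se_pos he
  have h3 := h.kap_pos he
  refine ⟨(Real.cosh κ - 1) / (s / e), ?_, ?_⟩
  · apply div_pos _ h2
    have := Real.one_lt_cosh.2 h3.ne'
    linarith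
  · have h4 : ((s / e : ℝ) : ℂ) ≠ 0 := by exact_mod_cast h2.ne'
    rw [h.se_eq] at h1
    rw [ofReal_div, ofReal_sub, h1, eq_div_iff h4]
    push_cast
    ring

theorem K_real (he : 0 < e) (h : BR e κ s B m.c.b) : ∃ g : ℝ, 0 < g ∧ m.c.b.K = (g : ℂ) := by
  have h1 := h.sinh_c
  have h2 := h.se_pos he
  have h3 := h.kap_pos he
  refine ⟨(Real.sinh κ) / (s / e), ?_, ?_⟩
  · exact div_pos (Real.sinh_pos_iff.2 h3) h2
  · have h4 : ((s / e : ℝ) : ℂ) ≠ 0 := by exact_mod_cast h2.ne'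
    rw [h.se_eq] at h1
    rw [ofReal_div, h1, eq_div_iff h4]
    ring

theorem Ts_re (he : 0 < e) (h : MR e κ s B m Q) : 0 < m.Ts.re := by
  obtain ⟨g, hg, hg2⟩ := gs_real he h.b
  have h1 := h.um_re he
  unfold PtM.Ts
  rw [add_re, hg2, ofReal_re]
  linarith

theorem Ts_ne (he : 0 < e) (h : MR e κ s B m Q) : m.Ts ≠ 0 := by
  intro h0
  have := h.Ts_re he
  rw [h0, zero_re] at this
  exact lt_irrefl _ this

theorem KTs_ne (he : 0 < e) (h : MR e κ s B m Q) : m.c.b.K + m.Ts ≠ 0 := by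
  intro h0
  obtain ⟨g, hg, hg2⟩ := K_real he h.b
  have h1 := h.Ts_re he
  have h2 := congrArg Complex.re h0
  rw [add_re, hg2, ofReal_re, zero_re] at h2
  linarith

theorem inv_disc {z : ℂ} (h : 1 ≤ z.re) : ‖z⁻¹ - ((1 / 2) : ℂ)‖ ≤ 1 / 2 := by
  have h0 : z ≠ 0 := by
    intro h0
    rw [h0, zero_re] at h
    linarith
  have hz : 0 < ‖z‖ := norm_pos_iff.2 h0
  have e1 : z⁻¹ - ((1 / 2) : ℂ) = (2 - z) / (2 * z) := by
    field_simp
  have h2 : ‖(2 : ℂ)‖ = 2 := by norm_num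
  rw [e1, norm_div, norm_mul, h2, div_le_div_iff₀ (by positivity) (by norm_num)]
  have h3 : ‖2 - z‖ ≤ ‖z‖ := by
    apply le_of_sq_le_sq _ (norm_nonneg _)
    rw [Complex.sq_norm, Complex.sq_norm, normSq_apply, normSq_apply, sub_re, sub_im]
    simp only [re_ofNat, im_ofNat]
    nlinarith
  linarith

theorem th_disc (he : 0 < e) (h : MR e κ s B m Q) : ‖m.th - ((1 / 2) : ℂ)‖ ≤ 1 / 2 := by
  obtain ⟨g, hg, hg2⟩ := gs_real he h.b
  have hg0 : (g : ℂ) ≠ 0 := by exact_mod_cast hg.ne'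
  have h1 := h.um_re he
  have h2 : m.th = (1 + m.um / g)⁻¹ := by
    unfold PtM.th PtM.Ts
    rw [hg2]
    have h3 : (g : ℂ) + m.um ≠ 0 := by
      have := h.Ts_ne he
      unfold PtM.Ts at this
      rwa [hg2] at this
    have h4 : 1 + m.um / g = (g + m.um) / g := by
      field_simp
    rw [h4, inv_div]
    rfl
  rw [h2]
  apply inv_disc
  rw [add_re, one_re, div_ofReal_re]
  have : 0 ≤ m.um.re / g := by positivity
  linarith

/-- **The displacement at a middle link.** -/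
theorem disp (he : 0 < e) (h : MR e κ s B m Q) (hS : ‖m.Sm‖ < 1)
    (hiq : m.Qp + (m.c.b.se * (m.c.b.gs + m.Ts) + 2) ≠ 0) (hKU : m.c.b.K + m.Un ≠ 0) {δ : ℝ}
    (hd : ‖m.dq‖ < δ) :
    (1 + m.Sm) ^ ((1 / 2 : ℝ) : ℂ) ≠ (Real.exp (-κ) : ℂ) ∧
    ‖om κ ((1 + m.Sm) ^ ((1 / 2 : ℝ) : ℂ)) - (kk κ : ℂ) * om κ Q‖ ≤
      κ * δ * ‖((1 : ℝ) : ℂ) - (kk κ : ℂ) * om κ Q‖ := by
  obtain ⟨-, -, -, c4, c5⟩ := h.link he hS hiq
  have hκ := h.b.kap_pos he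
  have hstep := om_step κ h.Q_ne (ne_exp_neg hκ h.re)
  have hk : (kk κ : ℂ) * om κ Q = om κ (2 * (Real.cosh κ : ℂ) - Q⁻¹) := by
    rw [hstep]
    rfl
  rw [hk]
  refine disp_of hκ h.b.sinh_c h.b.kh_eq c5 c4 (X := m.Dt * m.iq) ?_ hKU (h.se_ne he)
    (h.KTs_ne he) hd
  have := D_eq (h.Ts_ne he)
  unfold PtM.Un PtM.Di
  rw [this]
  ring

end MR

/-- **Closing**, next node near: the quantity lies in the disc `‖w - A‖ ≤ ‖G‖`. -/
theorem close_of (he : 0 < e) {k : PtK} (h : BR e κ s B k.c.b) (h1 : ‖k.c.b.s * k.c.wl‖ < 1)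
    {S : ℂ} (hS : log S = k.c.b.se * k.ls) (hn : ‖k.c.b.s * k.wln‖ < 1)
    (hE : ‖k.c.b.s * k.ERn‖ < 1) (hR : k.c.R ≠ 0) {x' : ℂ} (hx : ‖x'‖ ≤ 1) :
    ‖(k.c.x - k.M * (k.c.x - (1 - exp (CL (k.c.b.s * k.c.L) - (e : ℂ) / 2 * log S +
      lF (k.c.b.s * k.Ln) (k.c.b.s * k.Rn * x'))) / (k.c.b.s * k.c.R))) - k.A‖ ≤ ‖k.G‖ := by
  obtain ⟨-, -, a3, -⟩ := BR.lc_of (s := k.c.b.s) (L := k.c.L) (wl := k.c.wl) rfl h1
  obtain ⟨b1, -, b3, -⟩ := BR.lc_of (s := k.c.b.s) (L := k.Ln) (wl := k.wln) rfl hn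
  have hEn : exp (-(k.c.b.s * k.Ln)) = k.En := by
    unfold PtK.En
    linear_combination b1
  have hχ : exp (-(k.c.b.s * k.Ln)) * (k.c.b.s * k.Rn * x') = k.c.b.s * k.ERn * x' := by
    rw [hEn]
    unfold PtK.ERn
    ring
  have hne : 1 + k.c.b.s * k.ERn * x' ≠ 0 := by
    intro h0
    have h2 : ‖k.c.b.s * k.ERn * x'‖ < 1 := by
      rw [norm_mul]
      exact (mul_le_of_le_one_right (norm_nonneg _) hx).trans_lt hE
    have h3 : k.c.b.s * k.ERn * x' = -1 := by linear_combination h0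
    rw [h3, norm_neg, norm_one] at h2
    exact lt_irrefl _ h2
  have hee : (e : ℂ) * k.c.b.se = k.c.b.s := by
    unfold PtB.se
    rw [h.hep]
    have : (e : ℂ) ≠ 0 := by exact_mod_cast he.ne'
    push_cast
    field_simp
  have hs : k.c.b.s ≠ 0 := by
    rw [h.hs]
    exact_mod_cast h.s0.ne'
  have hexp : exp (CL (k.c.b.s * k.c.L) - (e : ℂ) / 2 * log S +
      lF (k.c.b.s * k.Ln) (k.c.b.s * k.Rn * x')) = k.Ez * (1 + k.c.b.s * k.ERn * x') := by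
    have h4 : CL (k.c.b.s * k.c.L) - (e : ℂ) / 2 * log S +
        lF (k.c.b.s * k.Ln) (k.c.b.s * k.Rn * x') = k.sz +
        log (1 + k.c.b.s * k.ERn * x') := by
      unfold CL lF
      rw [a3, b3, hχ, hS]
      unfold PtK.sz PtK.Zc PtK.lamn PtC.lam
      linear_combination (-(k.ls / 2)) * hee
    rw [h4, exp_add, exp_log hne]
    congr 1
    unfold PtK.Ez
    rw [mul_E1F]
    ring
  rw [hexp]
  have hfin : (k.c.x - k.M * (k.c.x - (1 - k.Ez * (1 + k.c.b.s * k.ERn * x')) /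
      (k.c.b.s * k.c.R))) - k.A = -(k.G * x') := by
    have h5 : k.Ez = 1 + -(k.c.b.s * k.Zc) * E1F k.sz := by
      unfold PtK.Ez
      have : k.sz = -(k.c.b.s * k.Zc) := rfl
      rw [this]
      ring
    unfold PtK.A PtK.G PtK.law PtK.iR
    have h6 : (1 - k.Ez * (1 + k.c.b.s * k.ERn * x')) / (k.c.b.s * k.c.R) =
        (k.Zc * E1F k.sz - k.Ez * k.ERn * x') / k.c.R := by
      rw [div_eq_div_iff (mul_ne_zero hs hR) hR]
      linear_combination (-k.c.R) * h5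
    rw [h6]
    field_simp
    ring
  rw [hfin, norm_neg, norm_mul]
  exact mul_le_of_le_one_right (norm_nonneg _) hx

end Pool.Agent.helper12.RS
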