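import Pool.Agent.helper12.RS.PtF
import Pool.Agent.helper12.RS.PtM

/-!
# Displacement relative to `h - om`, `h = 1 + 2 ce b`
-/

namespace Pool.Agent.helper12.RS

open Complex ComplexConjugate Set Filter Topology
open Pool.Agent.helper31.EQ.Y Pool.Agent.helper31.EQ.R
open Pool.Agent.helper12.RP Pool.Agent.helper12.FF

variable {e κ s B : ℝ}

/-- what is needed of the rigid link -/
structure DQ (e κ s B ce : ℝ) (d : PtD) : Prop where
  b : BR e κ s B d.b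
  hce : d.ce = (ce : ℂ)
  ce0 : 0 ≤ ce
  Ts : ∃ g : ℝ, 0 < g ∧ d.b.gs = (g : ℂ) ∧ g ≤ d.Ts.re
  K : ∃ k : ℝ, 0 < k ∧ d.b.K = (k : ℂ)

/-- what is needed of a link -/
structure DR (e κ s B ce : ℝ) (d : PtD) (Q' Qs : ℂ) : Prop where
  q : DQ e κ s B ce d
  hQ' : Q' = (Real.cosh κ : ℂ) + d.b.se * d.Un
  hQs : Qs = (Real.cosh κ : ℂ) + d.b.se * d.Ts
  Un : d.Un = d.Ts + d.b.se * d.Di
  KU : d.b.K + d.Un ≠ 0

/-- `h` -/
noncomputable def hh (e κ ce : ℝ) : ℝ := 1 + 2 * (ce * (e * κ / 2))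

namespace DQ

variable {ce : ℝ} {d : PtD} {Q' Qs : ℂ}

theorem et_eq (he : 0 < e) (h : DQ e κ s B ce d) : d.et = ((ce * (e * κ / 2) : ℝ) : ℂ) := by
  unfold PtD.et PtB.b
  rw [h.hce, h.b.hs, h.b.hB, h.b.kap]
  have : (e : ℂ) ≠ 0 := by exact_mod_cast he.ne'
  push_cast
  field_simp

theorem et_nonneg (he : 0 < e) (h : DQ e κ s B ce d) : 0 ≤ ce * (e * κ / 2) := by
  have h1 := h.b.kap_pos he
  have h2 := h.ce0
  positivity

theorem Tq_re (he : 0 < e) (h : DQ e κ s B ce d) : 0 < d.Tq.re := by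
  obtain ⟨g, hg, hg2, hg3⟩ := h.Ts
  obtain ⟨k, hk, hk2⟩ := h.K
  unfold PtD.Tq
  rw [h.et_eq he, hk2, add_re, re_ofReal_mul, add_re, ofReal_re]
  have h1 := h.et_nonneg he
  have h2 : 0 ≤ ce * (e * κ / 2) * (k + d.Ts.re) := by
    apply mul_nonneg h1
    linarith
  linarith

theorem Tq_ne (he : 0 < e) (h : DQ e κ s B ce d) : d.Tq ≠ 0 := by
  intro h0
  have := h.Tq_re he
  rw [h0, zero_re] at this
  exact lt_irrefl _ this

theorem KTs_ne (h : DQ e κ s B ce d) : d.b.K + d.Ts ≠ 0 := by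
  intro h0
  obtain ⟨g, hg, hg2, hg3⟩ := h.Ts
  obtain ⟨k, hk, hk2⟩ := h.K
  have h2 := congrArg Complex.re h0
  rw [add_re, hk2, ofReal_re, zero_re] at h2
  linarith

theorem de_pos (he : 0 < e) (h : DQ e κ s B ce d) :
    ∃ D : ℝ, 0 < D ∧ d.de = (D : ℂ) ∧ s * D ≤ d.Tq.re := by
  obtain ⟨g, hg, hg2, hg3⟩ := h.Ts
  obtain ⟨k, hk, hk2⟩ := h.K
  have hs := h.b.s0
  have hB := h.b.B0
  have h1 := h.et_nonneg he
  have hga : (s : ℂ) * d.ga = (g : ℂ) := by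
    rw [← hg2, ← h.b.hs]
    unfold PtD.ga PtB.gs PtB.se
    ring
  have hga2 : d.ga = ((g / s : ℝ) : ℂ) := by
    have : (s : ℂ) ≠ 0 := by exact_mod_cast hs.ne'
    rw [ofReal_div, eq_div_iff this, mul_comm]
    exact hga
  have hka : d.ka = ((ce * (B * k) : ℝ) : ℂ) := by
    unfold PtD.ka
    rw [h.hce, h.b.hB, hk2]
    push_cast
    ring
  refine ⟨(ce * (e * κ / 2) + 1) * (g / s) + ce * (B * k), ?_, ?_, ?_⟩
  · have h2 := h.ce0
    have h3 : 0 < g / s := div_pos hg hs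
    positivity
  · unfold PtD.de
    rw [h.et_eq he, hga2, hka]
    push_cast
    ring
  · unfold PtD.Tq
    rw [h.et_eq he, hk2, add_re, re_ofReal_mul, add_re, ofReal_re]
    have h4 : e * κ / 2 = s * B := by
      rw [h.b.kap]
      field_simp
    have h5 : s * ((ce * (e * κ / 2) + 1) * (g / s) + ce * (B * k)) =
        g + ce * (e * κ / 2) * (k + g) := by
      rw [h4]
      field_simp
      ring
    rw [h5]
    have h6 : ce * (e * κ / 2) * (k + g) ≤ ce * (e * κ / 2) * (k + d.Ts.re) := by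
      gcongr
    linarith

theorem om_disc (he : 0 < e) (h : DQ e κ s B ce d) : ‖d.om - ((1 / 2) : ℂ)‖ ≤ 1 / 2 := by
  obtain ⟨D, hD, hD2, hD3⟩ := h.de_pos he
  have hs := h.b.s0
  have hsD : 0 < D * s := mul_pos hD hs
  have h1 : d.om = (d.Tq / ((D * s : ℝ) : ℂ))⁻¹ := by
    unfold PtD.om
    rw [hD2, h.b.hs, inv_div, div_eq_mul_inv]
    push_cast
    ring
  rw [h1]
  apply MR.inv_disc
  rw [Complex.div_ofReal_re, le_div_iff₀ hsD]
  linarith

/-- the two forms agree -/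
theorem dqB_eq (he : 0 < e) (h : DQ e κ s B ce d)
    (hD : d.Di = (d.Ts * d.X1 + d.b.gs * d.Bk) * d.iq) (h1 : d.et + 1 ≠ 0) : d.dqB = d.dqA := by
  obtain ⟨D, hD', hD2, hD3⟩ := h.de_pos he
  have hs0 : d.b.s ≠ 0 := by
    rw [h.b.hs]
    exact_mod_cast h.b.s0.ne'
  have hde : d.de ≠ 0 := by
    rw [hD2]
    exact_mod_cast hD'.ne'
  have hTq := h.Tq_ne he
  have e1 : d.b.gs = d.b.s * d.ga := by
    unfold PtD.ga PtB.gs PtB.se
    ring
  have e2 : d.et * d.b.K = d.b.s * d.ka := by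
    unfold PtD.et PtD.ka PtB.b
    ring
  have e3 : (d.et + 1) * d.Ts = d.Tq - d.b.s * d.ka := by
    unfold PtD.Tq
    linear_combination -e2
  have e4 : d.X * d.iq = d.Di * (d.Tq)⁻¹ := by
    rw [hD]
    unfold PtD.X PtD.om PtD.id
    have e5 : d.Ts = (d.Tq - d.b.s * d.ka) / (d.et + 1) := by
      rw [eq_div_iff h1, mul_comm]
      exact e3
    rw [e5, e1]
    field_simp
  unfold PtD.dqB PtD.dqA
  rw [e4, mul_inv]
  ring

end DQ

namespace DR

variable {ce : ℝ} {d : PtD} {Q' Qs : ℂ}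

/-- **The displacement.** -/
theorem dispA (he : 0 < e) (h : DR e κ s B ce d Q' Qs) {δ : ℝ} (hd : ‖d.dqA‖ < δ) :
    Q' ≠ (Real.exp (-κ) : ℂ) ∧
    ‖om κ Q' - om κ Qs‖ ≤ κ * δ * ‖((hh e κ ce : ℝ) : ℂ) - om κ Qs‖ := by
  have hκ := h.q.b.kap_pos he
  have hK := h.q.b.sinh_c
  have hkh := h.q.b.kh_eq
  have hTs := h.q.KTs_ne
  have hKT := h.KU
  have hTq := h.q.Tq_ne he
  have hse : d.b.se ≠ 0 := by
    rw [h.q.b.se_eq]
    exact_mod_cast (h.q.b.se_pos he).ne'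
  have hem : (Real.exp (-κ) : ℂ) = (Real.cosh κ : ℂ) - (Real.sinh κ : ℂ) := by
    rw [← ofReal_sub, Real.cosh_sub_sinh]
  have hep : (Real.exp κ : ℂ) = (Real.cosh κ : ℂ) + (Real.sinh κ : ℂ) := by
    rw [← ofReal_add, Real.cosh_add_sinh]
  have e1 : Q' - (Real.exp (-κ) : ℂ) = d.b.se * (d.b.K + d.Un) := by
    rw [h.hQ', hem, hK]
    ring
  have e2 : Qs - (Real.exp (-κ) : ℂ) = d.b.se * (d.b.K + d.Ts) := by
    rw [h.hQs, hem, hK]
    ring
  have n1 : Q' ≠ (Real.exp (-κ) : ℂ) := by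
    intro h
    rw [h, sub_self] at e1
    exact mul_ne_zero hse hKT e1.symm
  have n2 : Qs ≠ (Real.exp (-κ) : ℂ) := by
    intro h
    rw [h, sub_self] at e2
    exact mul_ne_zero hse hTs e2.symm
  refine ⟨n1, ?_⟩
  have e3 : Q' - Qs = d.b.se * d.b.se * d.Di := by
    rw [h.hQ', h.hQs, h.Un]
    ring
  have e4 : ((hh e κ ce : ℝ) : ℂ) - om κ Qs = 2 * d.Tq / (d.b.K + d.Ts) := by
    unfold om
    rw [e2]
    have e5 : (Real.exp κ : ℂ) - Qs = d.b.se * (d.b.K - d.Ts) := by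
      rw [h.hQs, hep, hK]
      ring
    have e6 : ((hh e κ ce : ℝ) : ℂ) = 1 + 2 * d.et := by
      rw [h.q.et_eq he]
      unfold hh
      push_cast
      ring
    rw [e5, e6]
    unfold PtD.Tq
    field_simp
    ring
  have e6 : om κ Q' - om κ Qs = -((κ : ℂ) * d.dqA) * (2 * d.Tq / (d.b.K + d.Ts)) := by
    rw [om_sub κ n2 n1, e1, e2, e3, ← hkh]
    unfold PtD.dqA
    field_simp
  rw [e6, e4, norm_mul, norm_neg, norm_mul, Complex.norm_real, Real.norm_of_nonneg hκ.le]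
  gcongr

end DR

end Pool.Agent.helper12.RS
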