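import Pool.Agent.helper12.RS.PtB

/-!
# Meaning of the normalised quantities: the first link
-/

namespace Pool.Agent.helper12.RS

open Complex ComplexConjugate Set Filter Topology
open Pool.Agent.helper31.EQ.Y Pool.Agent.helper31.EQ.R
open Pool.Agent.helper12.RP Pool.Agent.helper12.FF

variable {e κ s B : ℝ}

theorem one_add_ne_zero_of_norm {z : ℂ} (h : ‖z‖ < 1) : 1 + z ≠ 0 := by
  intro h1
  have h2 : z = -1 := by linear_combination h1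
  rw [h2, norm_neg, norm_one] at h
  exact lt_irrefl _ h

/-- `exp (se * lq) = (1 + z)^(1/2)` -/
theorem half_pow_exp {z x : ℂ} (h : ‖z‖ < 1) (hx : x = ((1 / 2) : ℂ) * log (1 + z)) :
    exp x = (1 + z) ^ ((1 / 2 : ℝ) : ℂ) := by
  rw [cpow_def_of_ne_zero (one_add_ne_zero_of_norm h), hx]
  congr 1
  push_cast
  ring

namespace PtF

variable {f : PtF}

theorem a_eq (f : PtF) : f.a = exp f.a1 := by
  have h := mul_E1F f.a1
  unfold PtF.a PtF.am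
  have h3 : f.a1 = -(f.c.b.se * f.c.g1) := rfl
  linear_combination h - E1F f.a1 * h3

theorem se_am (f : PtF) : f.c.b.se * f.am = f.a - 1 := by
  unfold PtF.a
  ring

theorem wi_eq (f : PtF) : f.wi = exp (-f.c.x3) := by
  have h := mul_E1F (-f.c.x3)
  unfold PtF.wi PtF.wim
  have h3 : f.c.x3 = f.c.b.se * f.c.Lam := rfl
  linear_combination h + E1F (-f.c.x3) * h3

theorem se_wim (f : PtF) : f.c.b.se * f.wim = f.wi - 1 := by
  unfold PtF.wi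
  ring

theorem f_eq (f : PtF) : f.f = exp (f.a1 - f.c.x3) := by
  unfold PtF.f
  rw [a_eq, wi_eq, ← exp_add]
  rfl

theorem se_fm (f : PtF) : f.c.b.se * f.fm = f.f - 1 := by
  unfold PtF.fm PtF.f
  linear_combination f.wi * f.se_am + f.se_wim

theorem se_A2m (f : PtF) : f.c.b.se * f.A2m = f.A2 - 1 := by
  unfold PtF.A2m PtF.A2
  linear_combination f.f * f.se_am + f.se_fm

theorem se_sqm (f : PtF) : f.c.b.se * f.sqm = f.sq - 1 := by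
  unfold PtF.sq
  ring

theorem sq_exp (f : PtF) : f.sq = exp (f.c.b.se * f.lq) := by
  have h := mul_E1F (f.c.b.se * f.lq)
  unfold PtF.sq PtF.sqm
  linear_combination h

theorem se_lq (f : PtF) : f.c.b.se * f.lq = ((1 / 2) : ℂ) * log (1 + -f.q) := by
  have h := mul_LmF (-f.q)
  rw [← h]
  unfold PtF.lq
  have h3 : f.q = f.c.b.se * f.q1 := rfl
  obtain ⟨X, hX⟩ : ∃ X, X = LmF (-f.q) := ⟨_, rfl⟩
  rw [← hX, h3]
  ring

theorem sq_eq (hq : ‖-f.q‖ < 1) : f.sq = (1 + -f.q) ^ ((1 / 2 : ℝ) : ℂ) := by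
  rw [sq_exp]
  exact half_pow_exp hq f.se_lq

theorem se_chm (f : PtF) : f.c.b.se * f.chm = f.c.b.ch - 1 := by
  unfold PtF.chm PtB.ch
  have h : f.c.b.z = f.c.b.se * f.c.b.B := by
    unfold PtB.z PtB.b PtB.se
    ring
  obtain ⟨X, hX⟩ : ∃ X, X = E1F f.c.b.z - E1F (-f.c.b.z) := ⟨_, rfl⟩
  rw [← hX, h]
  ring

theorem se_um0 (hu : f.c.b.se * f.q0 + 1 ≠ 0) : f.c.b.se * f.um0 = 1 - f.u0 := by
  have h : (f.c.b.se * f.q0 + 1) * f.u0 = 1 := by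
    unfold PtF.u0
    exact mul_inv_cancel₀ hu
  unfold PtF.um0
  linear_combination h

theorem se_ls (f : PtF) : f.c.b.se * f.ls = log (1 + f.Sm) := by
  have h := mul_LmF f.Sm
  rw [← h]
  unfold PtF.ls
  have h3 : f.Sm = f.c.b.se * f.Dl := rfl
  obtain ⟨X, hX⟩ : ∃ X, X = LmF f.Sm := ⟨_, rfl⟩
  rw [← hX, h3]
  ring

theorem Qp_eq (hS : ‖f.Sm‖ < 1) : (1 + f.Sm) ^ ((1 / 2 : ℝ) : ℂ) = 1 + f.Qp := by
  have h := mul_E1F f.hs
  have h1 : f.hs = ((1 / 2) : ℂ) * log (1 + f.Sm) := by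
    rw [← se_ls]
    rfl
  rw [← half_pow_exp hS h1]
  unfold PtF.Qp
  linear_combination -h

/-- the exact expansion of the radicand -/
theorem Dl_eq (hu : f.c.b.se * f.q0 + 1 ≠ 0) :
    f.Dl - f.e1 * (2 + f.c.b.se * f.e1) = f.c.b.se * f.D := by
  have h1 := f.se_am
  have h2 := f.se_sqm
  have h3 := f.se_chm
  have h4 := se_um0 hu
  have h5 := f.se_A2m
  have h6 : f.c.b.se * f.c.b.Z4 = 2 * f.c.b.gs := by
    unfold PtB.gs
    ring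
  have h7 : f.e1 = f.c.b.gs * (2 + f.u0) + f.c.b.ch * f.W * f.u0 := by
    unfold PtF.e1 PtF.um0 PtF.q0
    ring
  have h8 : f.N = f.c.b.Z4 - f.W * f.W := rfl
  have h9 : f.Dl = f.c.b.se * (f.c.b.Z4 * (f.a * f.a) + 2 * (f.A2 * f.N)) +
    2 * (f.W * (f.a * f.sq)) := rfl
  have h10 : f.D = f.W * (2 * (f.am * f.sq + f.sqm - f.chm + f.c.b.ch * f.um0) -
      (2 * (f.A2 * f.W) + f.e1 * (f.c.b.ch * f.u0))) +
      f.c.b.gs * (2 * (f.am * (f.a + 1) + 2 * f.A2m + f.um0) - f.e1 * (f.u0 + 2)) := by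
    unfold PtF.D PtF.XW PtF.XG PtF.chu
    ring
  rw [h9, h10, h8]
  obtain ⟨se, hse⟩ : ∃ x, x = f.c.b.se := ⟨_, rfl⟩
  obtain ⟨Z4, hZ4⟩ : ∃ x, x = f.c.b.Z4 := ⟨_, rfl⟩
  obtain ⟨gs, hgs⟩ : ∃ x, x = f.c.b.gs := ⟨_, rfl⟩
  obtain ⟨ch, hch⟩ : ∃ x, x = f.c.b.ch := ⟨_, rfl⟩
  obtain ⟨a, ha⟩ : ∃ x, x = f.a := ⟨_, rfl⟩
  obtain ⟨A2, hA2⟩ : ∃ x, x = f.A2 := ⟨_, rfl⟩
  obtain ⟨sq, hsq⟩ : ∃ x, x = f.sq := ⟨_, rfl⟩
  obtain ⟨u0, hu0⟩ : ∃ x, x = f.u0 := ⟨_, rfl⟩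
  obtain ⟨e1, he1⟩ : ∃ x, x = f.e1 := ⟨_, rfl⟩
  obtain ⟨am, ham⟩ : ∃ x, x = f.am := ⟨_, rfl⟩
  obtain ⟨A2m, hA2m⟩ : ∃ x, x = f.A2m := ⟨_, rfl⟩
  obtain ⟨sqm, hsqm⟩ : ∃ x, x = f.sqm := ⟨_, rfl⟩
  obtain ⟨chm, hchm⟩ : ∃ x, x = f.chm := ⟨_, rfl⟩
  obtain ⟨um0, hum0⟩ : ∃ x, x = f.um0 := ⟨_, rfl⟩
  obtain ⟨W, hW⟩ : ∃ x, x = f.W := ⟨_, rfl⟩
  rw [← hse, ← ham, ← ha] at h1
  rw [← hse, ← hsqm, ← hsq] at h2
  rw [← hse, ← hchm, ← hch] at h3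
  rw [← hse, ← hum0, ← hu0] at h4
  rw [← hse, ← hA2m, ← hA2] at h5
  rw [← hse, ← hZ4, ← hgs] at h6
  rw [← he1, ← hgs, ← hu0, ← hch, ← hW] at h7
  rw [← hse, ← hZ4, ← hgs, ← hch, ← ha, ← hA2, ← hsq, ← hu0, ← he1, ← ham, ← hA2m, ← hsqm,
    ← hchm, ← hum0, ← hW]
  linear_combination (a * a + 2 * A2) * h6 - (2 + se * e1) * h7 -
    (W * 2 * sq + gs * 2 * (a + 1)) * h1 - W * 2 * h2 + W * 2 * h3 -
    (W * 2 * ch + gs * 2) * h4 - gs * 4 * h5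

end PtF

/-- The first link; `t = tanh (κ p)`, `l = f.c.b.s * f.c.L`, `χ = f.c.b.s * f.c.R * f.c.x`. -/
theorem first_rad (he : 0 < e) {f : PtF} (h : BR e κ s B f.c.b)
    (hb : ‖f.c.b.s * f.c.b.wb‖ < 1) (h1 : ‖f.c.b.s * f.c.wl‖ < 1) (h2 : ‖f.c.b.s * f.c.ER‖ < 1)
    (h3 : ‖-(f.c.b.s * f.c.Rx)‖ < 1) (hq : ‖-f.q‖ < 1)
    {t : ℂ} (ht : (Hh κ : ℂ) * t = f.c.b.se * f.W) :
    S0 e κ t (f.c.b.s * f.c.L) (f.c.b.s * f.c.R * f.c.x) = 1 + f.Sm ∧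
    SH e κ t (f.c.b.s * f.c.L) (f.c.b.s * f.c.R * f.c.x) = f.SH ∧
    1 - (Hh κ : ℂ) ^ 2 * exp (-(2 * ((LA e κ : ℂ) +
      lF (f.c.b.s * f.c.L) (f.c.b.s * f.c.R * f.c.x))) / e) * (1 - t ^ 2) = 1 - f.q := by
  have he0 : (e : ℂ) ≠ 0 := by exact_mod_cast he.ne'
  obtain ⟨-, -, b1, b2, -⟩ := node_logs he h hb h1 h2 h3
  have hse : f.c.b.se = f.c.b.s / e := by
    rw [h.se_eq, h.hs]
    push_cast
    rfl
  have hH := h.H_sq
  obtain ⟨G, hG⟩ : ∃ G, G = lG (f.c.b.s * f.c.L) (f.c.b.s * f.c.R * f.c.x) := ⟨_, rfl⟩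
  obtain ⟨F, hF⟩ : ∃ F, F = lF (f.c.b.s * f.c.L) (f.c.b.s * f.c.R * f.c.x) := ⟨_, rfl⟩
  rw [← hG] at b1
  rw [← hG, ← hF] at b2
  have ea : exp (-((LA e κ : ℂ) + G) / e) = f.a := by
    rw [f.a_eq]
    congr 1
    rw [b1]
    unfold PtF.a1
    rw [hse]
    ring
  have ef : exp (-((LA e κ : ℂ) + F) / e) = f.f := by
    rw [f.f_eq]
    congr 1
    have b3 : (LA e κ : ℂ) + F = f.c.b.s * f.c.g1 + f.c.b.s * f.c.Lam := by
      linear_combination b1 + b2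
    rw [b3]
    unfold PtF.a1 PtC.x3
    rw [hse]
    ring
  have e1 : exp (-(2 * ((LA e κ : ℂ) + G)) / e) = f.a * f.a := by
    rw [← ea, ← exp_add]
    congr 1
    ring
  have e2 : exp (-(2 * (LA e κ : ℂ) + G + F) / e) = f.a * f.f := by
    rw [← ea, ← ef, ← exp_add]
    congr 1
    ring
  have e3 : exp (-(2 * ((LA e κ : ℂ) + F)) / e) = f.f * f.f := by
    rw [← ef, ← exp_add]
    congr 1
    ring
  have hN : (Hh κ : ℂ) ^ 2 * (1 - t ^ 2) = f.c.b.se ^ 2 * f.N := by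
    unfold PtF.N
    linear_combination hH - ((Hh κ : ℂ) * t + f.c.b.se * f.W) * ht
  have hqq : (Hh κ : ℂ) ^ 2 * (f.f * f.f) * (1 - t ^ 2) = f.q := by
    have : f.q = f.c.b.se ^ 2 * f.N * (f.f * f.f) := by
      unfold PtF.q PtF.q1 PtF.A3
      ring
    rw [this]
    linear_combination (f.f * f.f) * hN
  have hsq : (1 - (Hh κ : ℂ) ^ 2 * (f.f * f.f) * (1 - t ^ 2)) ^ ((1 / 2 : ℝ) : ℂ) = f.sq := by
    rw [hqq, PtF.sq_eq hq, sub_eq_add_neg]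
  refine ⟨?_, ?_, ?_⟩
  · unfold S0
    rw [← hG, ← hF, e1, e2, e3, ea, hsq]
    unfold PtF.Sm PtF.Dl PtF.A2
    linear_combination (f.a * f.a) * hH + 2 * (f.a * f.f) * hN + 2 * f.a * f.sq * ht
  · unfold SH
    rw [← hF, e3, ef, hsq]
    unfold PtF.SH PtF.A3
    linear_combination (f.f * f.f) * hH - 2 * (f.f * f.f) * hN - 2 * f.f * f.sq * ht
  · rw [← hF, e3, hqq]

/-- The rigid link after the start and the difference to it. -/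
theorem first_link (he : 0 < e) {f : PtF} (h : BR e κ s B f.c.b)
    (hq : ‖-f.q‖ < 1) (hS : ‖f.Sm‖ < 1) (hu : f.c.b.se * f.q0 + 1 ≠ 0)
    (hiq : f.Qp + (f.c.b.se * f.e1 + 2) ≠ 0) {p : ℂ}
    (ht : (Hh κ : ℂ) * tanh (κ * p) = f.c.b.se * f.W) :
    (1 + f.Sm) ^ ((1 / 2 : ℝ) : ℂ) = 1 + f.Qp ∧
    log (1 + f.Sm) = f.c.b.se * f.ls ∧
    Qe0 κ p = (Real.cosh κ : ℂ) + f.c.b.se * f.Ts ∧
    (1 + f.Sm) ^ ((1 / 2 : ℝ) : ℂ) = (Real.cosh κ : ℂ) + f.c.b.se * f.Un := by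
  have hQ := PtF.Qp_eq hS
  have hsinh : (Real.sinh κ : ℂ) * tanh (κ * p) = f.c.b.ch * (f.c.b.se * f.W) := by
    have h3 : (Real.sinh κ : ℂ) = (Hh κ : ℂ) * f.c.b.ch := by
      have := Real.sinh_two_mul (κ / 2)
      rw [show 2 * (κ / 2) = κ by ring] at this
      rw [this, h.ch_eq]
      unfold Hh
      push_cast
      ring
    rw [h3]
    linear_combination f.c.b.ch * ht
  have hu0 : (f.c.b.se * f.q0 + 1) * f.u0 = 1 := by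
    unfold PtF.u0
    exact mul_inv_cancel₀ hu
  have hum := PtF.se_um0 hu
  have hQe : Qe0 κ p = (Real.cosh κ : ℂ) + f.c.b.se * f.Ts := by
    unfold Qe0
    have h4 : (Real.cosh κ : ℂ) + (Real.sinh κ : ℂ) * tanh (κ * p) = f.c.b.se * f.q0 + 1 := by
      rw [hsinh, h.cosh_c]
      unfold PtF.q0
      ring
    rw [h4, h.cosh_c]
    have h5 : (f.c.b.se * f.q0 + 1)⁻¹ = f.u0 := rfl
    rw [h5]
    unfold PtF.Ts
    linear_combination -hum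
  refine ⟨hQ, (PtF.se_ls f).symm, hQe, ?_⟩
  rw [hQ]
  have hS2 : (1 + f.Qp) ^ 2 = 1 + f.Sm := by
    rw [← hQ]
    exact half_sq (one_add_ne_zero_of_norm hS)
  have hDl := PtF.Dl_eq hu
  have hiq2 : (f.Qp + (f.c.b.se * f.e1 + 2)) * f.iq = 1 := by
    unfold PtF.iq
    exact mul_inv_cancel₀ hiq
  have hD : (f.Qp - f.c.b.se * f.e1) * (f.Qp + (f.c.b.se * f.e1 + 2)) =
      f.c.b.se ^ 2 * f.D := by
    have h6 : f.Sm = f.c.b.se * f.Dl := rfl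
    rw [h6] at hS2
    linear_combination hS2 + f.c.b.se * hDl
  have h7 : f.Qp - f.c.b.se * f.e1 = f.c.b.se ^ 2 * f.D * f.iq := by
    rw [← hD, mul_assoc, hiq2, mul_one]
  rw [h.cosh_c]
  unfold PtF.Un PtF.Di PtF.Ts
  unfold PtF.e1 at h7
  linear_combination h7

/-- the relation of `th` -/
theorem first_disp {f : PtF} (hT : f.Ts ≠ 0) (hc : f.chu ≠ 0) : f.D = f.Ts * f.Dt := by
  have h1 : f.Y1 * f.chu = f.XW := by
    unfold PtF.Y1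
    rw [mul_assoc, inv_mul_cancel₀ hc, mul_one]
  have h2 : f.th * f.Ts = f.c.b.gs := by
    unfold PtF.th
    rw [mul_assoc, inv_mul_cancel₀ hT, mul_one]
  have h3 : f.Ts = f.c.b.gs * (1 + f.u0) + f.chu * f.W := by
    unfold PtF.Ts PtF.um0 PtF.q0 PtF.chu
    ring
  unfold PtF.D PtF.Dt
  linear_combination (-f.W) * h1 - (f.XG - f.Y1 * (f.u0 + 1)) * h2 - f.Y1 * h3

/-- `Re Ts ≥ 16/9 gs`, `gs` real -/
theorem first_Ts_re (he : 0 < e) {f : PtF} (h : BR e κ s B f.c.b) (hκ : Real.cosh κ ≤ 9 / 8)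
    {v : ℝ} (hW : f.W = (v : ℂ) * I) :
    ∃ g : ℝ, 0 < g ∧ f.c.b.gs = (g : ℂ) ∧ (16 / 9 : ℝ) * g ≤ f.Ts.re := by
  have hκ0 := h.kap_pos he
  have hC0 := Real.cosh_pos κ
  have hC1 : 1 < Real.cosh κ := Real.one_lt_cosh.2 hκ0.ne'
  have hsp := h.se_pos he
  obtain ⟨σ, hσ⟩ : ∃ σ, σ = s / e := ⟨_, rfl⟩
  rw [← hσ] at hsp
  have hse : f.c.b.se = (σ : ℂ) := by rw [h.se_eq, hσ]
  -- `gs` is real
  obtain ⟨g, hg⟩ : ∃ g : ℝ, g = (Real.cosh κ - 1) / σ := ⟨_, rfl⟩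
  have hgpos : 0 < g := by
    rw [hg]
    exact div_pos (by linarith) hsp
  have hσg : σ * g = Real.cosh κ - 1 := by
    rw [hg]
    field_simp
  have hgs : f.c.b.gs = (g : ℂ) := by
    have h1 := h.cosh_c
    rw [hse] at h1
    have h2 : (σ : ℂ) * f.c.b.gs = (σ : ℂ) * (g : ℂ) := by
      rw [← ofReal_mul, hσg, ofReal_sub, ofReal_one]
      linear_combination -h1
    exact mul_left_cancel₀ (by exact_mod_cast hsp.ne') h2
  obtain ⟨c, hc⟩ : ∃ c, c = Real.cosh (κ / 2) := ⟨_, rfl⟩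
  have hch : f.c.b.ch = (c : ℂ) := by rw [h.ch_eq, hc]
  -- `u0 = 1/(C + i σ ω)`
  obtain ⟨C, hC⟩ : ∃ C, C = Real.cosh κ := ⟨_, rfl⟩
  rw [← hC] at hC0 hC1 hσg hκ
  obtain ⟨ω, hω⟩ : ∃ ω, ω = c * v := ⟨_, rfl⟩
  have hq0 : f.q0 = (g : ℂ) + (ω : ℂ) * I := by
    unfold PtF.q0
    rw [hgs, hch, hW, hω]
    push_cast
    ring
  have hden : f.c.b.se * f.q0 + 1 = (C : ℂ) + ((σ * ω : ℝ) : ℂ) * I := by
    rw [hse, hq0]
    have : (C : ℂ) = (σ : ℂ) * (g : ℂ) + 1 := by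
      rw [← ofReal_mul, hσg]
      push_cast
      ring
    rw [this]
    push_cast
    ring
  obtain ⟨N, hN⟩ : ∃ N, N = C ^ 2 + (σ * ω) ^ 2 := ⟨_, rfl⟩
  have hNpos : 0 < N := by
    rw [hN]
    positivity
  have hNc : (N : ℂ) ≠ 0 := by exact_mod_cast hNpos.ne'
  have hu0 : f.u0 = ((C / N : ℝ) : ℂ) - ((σ * ω / N : ℝ) : ℂ) * I := by
    unfold PtF.u0
    rw [hden]
    apply inv_eq_of_mul_eq_one_right
    have h5 : ((C : ℂ) + ((σ * ω : ℝ) : ℂ) * I) * (((C / N : ℝ) : ℂ) - ((σ * ω / N : ℝ) : ℂ) * I) =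
        (C ^ 2 + (σ * ω) ^ 2) / N := by
      push_cast
      field_simp
      ring_nf
      rw [I_sq]
      ring
    rw [h5]
    have : ((C : ℂ) ^ 2 + (σ * ω) ^ 2) = (N : ℂ) := by
      rw [hN]
      push_cast
      ring
    rw [this, div_self hNc]
  -- `Ts`
  have hTs : f.Ts = ((g + (g * C + σ * ω ^ 2) / N : ℝ) : ℂ) +
      (((C * ω - σ * ω * g) / N : ℝ) : ℂ) * I := by
    unfold PtF.Ts PtF.um0
    rw [hgs, hq0, hu0]
    push_cast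
    field_simp
    ring_nf
    rw [I_sq]
    ring
  have hre : (16 / 9 : ℝ) * g ≤ f.Ts.re := by
    rw [hTs]
    simp only [add_re, mul_re, ofReal_re, ofReal_im, I_re, I_im, mul_zero, zero_mul, sub_zero,
      add_zero, mul_one]
    have h6 : g / C ≤ (g * C + σ * ω ^ 2) / N := by
      rw [div_le_div_iff₀ hC0 hNpos, hN]
      have h7 : g * σ ≤ C := by linarith
      have h8 : (g * σ) * (σ * ω ^ 2) ≤ C * (σ * ω ^ 2) :=
        mul_le_mul_of_nonneg_right h7 (by positivity)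
      nlinarith
    have h9 : (8 / 9 : ℝ) * g ≤ g / C := by
      rw [le_div_iff₀ hC0]
      nlinarith
    linarith
  exact ⟨g, hgpos, hgs, hre⟩

/-- `th` lies in the disc used by the programs -/
theorem first_th (he : 0 < e) {f : PtF} (h : BR e κ s B f.c.b) (hκ : Real.cosh κ ≤ 9 / 8) {v : ℝ}
    (hW : f.W = (v : ℂ) * I) : f.Ts ≠ 0 ∧ ‖f.th - ((9 / 32) : ℂ)‖ ≤ 9 / 32 := by
  obtain ⟨g, hgpos, hgs, hre⟩ := first_Ts_re he h hκ hW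
  have hT0 : f.Ts ≠ 0 := by
    intro h0
    rw [h0, zero_re] at hre
    linarith [mul_pos (by norm_num : (0 : ℝ) < 16 / 9) hgpos]
  refine ⟨hT0, ?_⟩
  have hnT : 0 < ‖f.Ts‖ := norm_pos_iff.2 hT0
  have h10 : f.th - ((9 / 32) : ℂ) = ((g : ℂ) - ((9 / 32 : ℝ) : ℂ) * f.Ts) / f.Ts := by
    unfold PtF.th
    rw [hgs]
    field_simp
    push_cast
    ring
  rw [h10, norm_div, div_le_iff₀ hnT]
  apply le_of_sq_le_sq ?_ (by positivity)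
  · rw [mul_pow, ← normSq_eq_norm_sq, ← normSq_eq_norm_sq, normSq_apply, normSq_apply]
    simp only [sub_re, sub_im, mul_re, mul_im, ofReal_re, ofReal_im, zero_mul, sub_zero, add_zero]
    nlinarith [mul_nonneg hgpos.le (sub_nonneg.2 hre)]

theorem first_KTs (he : 0 < e) {f : PtF} (h : BR e κ s B f.c.b) (hκ : Real.cosh κ ≤ 9 / 8) {v : ℝ}
    (hW : f.W = (v : ℂ) * I) : f.c.b.K + f.Ts ≠ 0 := by
  obtain ⟨g, hgpos, hgs, hre⟩ := first_Ts_re he h hκ hW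
  have h1 := h.sinh_c
  have h2 := h.se_pos he
  have h3 := Real.sinh_pos_iff.2 (h.kap_pos he)
  rw [h.se_eq] at h1
  intro h0
  have h4 : (Real.sinh κ : ℂ) + ((s / e : ℝ) : ℂ) * f.Ts = 0 := by
    rw [h1, ← mul_add, h0, mul_zero]
  have h5 := congrArg Complex.re h4
  rw [add_re, ofReal_re, re_ofReal_mul, zero_re] at h5
  have h6 : 0 < s / e * f.Ts.re := by
    apply mul_pos h2
    linarith [mul_pos (by norm_num : (0 : ℝ) < 16 / 9) hgpos]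
  linarith

end Pool.Agent.helper12.RS
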