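import Pool.Agent.helper12.RS.PtB

/-!
# Meaning of the normalised quantities: closing at the last near node
-/

namespace Pool.Agent.helper12.RS

open Complex ComplexConjugate Set Filter Topology
open Pool.Agent.helper31.EQ.Y Pool.Agent.helper31.EQ.R
open Pool.Agent.helper12.RP Pool.Agent.helper12.FF

variable {e κ s B : ℝ}

namespace PtL

theorem q3_exp (l : PtL) : l.q3 = exp (-(l.m.c.b.s * l.p3)) := by
  have h := mul_E1F (-(l.m.c.b.s * l.p3))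
  unfold PtL.q3 PtL.P3
  linear_combination h

theorem P2_exp (l : PtL) : 1 - l.m.c.b.s * l.P2 = exp (-(l.m.c.b.s * l.p2)) := by
  have h := mul_E1F (-(l.m.c.b.s * l.p2))
  unfold PtL.P2
  linear_combination h

theorem se_p2 (l : PtL) : l.m.c.b.se * l.p2 = log (1 + l.m.c.b.se * l.r1) := by
  have h := mul_LmF (l.m.c.b.se * l.r1)
  unfold PtL.p2
  linear_combination h

theorem se_p3 (l : PtL) : l.m.c.b.se * l.p3 = log (1 + l.m.c.b.se * l.r2) := by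
  have h := mul_LmF (l.m.c.b.se * l.r2)
  unfold PtL.p3
  linear_combination h

theorem Ez_exp (l : PtL) : l.Ez = exp (-(l.m.c.b.s * l.ze)) := by
  have h := mul_E1F l.sz
  have h2 : l.sz = -(l.m.c.b.s * l.ze) := rfl
  rw [← h2]
  unfold PtL.Ez
  linear_combination h

/-- `s (Ez - 1)` -/
theorem s_ze (l : PtL) : l.m.c.b.s * (l.ze * E1F l.sz) = 1 - l.Ez := by
  have h2 : l.sz = -(l.m.c.b.s * l.ze) := rfl
  unfold PtL.Ez
  linear_combination E1F l.sz * h2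

end PtL

/-- decreasing -/
theorem exp_div_sinh_anti {κ a x : ℝ} (hκ : 0 < κ) (ha : 0 ≤ a) (hax : a ≤ x) :
    Real.exp (-(κ * x)) / Real.sinh (κ * (x + 1)) ≤
      Real.exp (-(κ * a)) / Real.sinh (κ * (a + 1)) := by
  have h1 : 0 < Real.sinh (κ * (a + 1)) := Real.sinh_pos_iff.2 (by positivity)
  have h2 : Real.sinh (κ * (a + 1)) ≤ Real.sinh (κ * (x + 1)) :=
    Real.sinh_le_sinh.2 (by nlinarith)
  have h3 : Real.exp (-(κ * x)) ≤ Real.exp (-(κ * a)) := Real.exp_le_exp.2 (by nlinarith)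
  exact div_le_div₀ (Real.exp_pos _).le h3 h1 h2

/-- **Closing at the last near node** (field `close` of `YL`), `S = 1 + m.Sm`. -/
theorem last_close (he : 0 < e) {m : PtM} (h : BR e κ s B m.c.b) {M Ae xa C2 : ℂ}
    {A x0 B1 θ a0 c2 : ℝ} (L : ℂ → PtL) (hL : L = fun F2 => ⟨m, M, Ae, xa, C2, F2⟩)
    (h1 : ‖m.c.b.s * m.c.wl‖ < 1) (hS : ‖m.Sm‖ < 1)
    (hQp : (1 + m.Sm) ^ ((1 / 2 : ℝ) : ℂ) = 1 + m.Qp)
    (hlog : log (1 + m.Sm) = m.c.b.se * m.ls)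
    (hUn : (1 + m.Sm) ^ ((1 / 2 : ℝ) : ℂ) = (Real.cosh κ : ℂ) + m.c.b.se * m.Un)
    (hR : m.c.R ≠ 0) (hA : 0 ≤ A) (hAe : Ae = ((A / e : ℝ) : ℂ)) (hxa : xa = (a0 : ℂ))
    (ha0 : 0 ≤ a0) (hax : a0 ≤ x0) (hC2 : C2 = (c2 : ℂ)) (hB1 : B1 < x0 + 2)
    (hc2 : (1 + 1 / (2 * (x0 + 2))) / (1 - B1 / (x0 + 2)) ≤ c2)
    (n1 : m.Qp + 1 ≠ 0) (n2 : ‖m.c.b.se * (L 0).r1‖ < 1) (n3 : m.c.b.se * (L 0).r1 + 1 ≠ 0)
    (n4 : ‖m.c.b.se * (L 0).r2‖ < 1) (n5 : (L 0).q3 + 1 ≠ 0) (n6 : ‖(L 0).q3 * (L 0).i3‖ < B1)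
    (n7 : (L 0).shc * (xa + 1) ≠ 0)
    (hprog : ∀ F2 : ℂ, ‖F2 - (L F2).F2c‖ ≤ ‖(L F2).er‖ →
      ∀ w : ℂ, ‖w - (L F2).A‖ ≤ ‖(L F2).G‖ → ‖w‖ < θ) :
    ∀ Q' Q1 Q2 q2 q3 : ℂ, Q' = (1 + m.Sm) ^ ((1 / 2 : ℝ) : ℂ) →
    Q1 = 2 * (Real.cosh κ : ℂ) - Q'⁻¹ → Q2 = 2 * (Real.cosh κ : ℂ) - Q1⁻¹ →
    q2 = Q1 ^ (-(e : ℂ)) → q3 = Q2 ^ (-(e : ℂ)) →
    ‖q3‖ ≤ B1 * ‖1 + q3‖ ∧ 1 + q3 ≠ 0 ∧
    ∀ f2 χ : ℂ, ‖f2 - 1 / (1 + q3)‖ ≤
      (1 + 1 / (2 * (x0 + 2))) / (1 - B1 / (x0 + 2)) *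
      (e * ‖(Q2 - (Real.cosh κ : ℂ)) ^ 2 - (Real.sinh κ : ℂ) ^ 2‖) * ‖q3‖ / ‖1 + q3‖ ^ 3 →
      ‖χ‖ ≤ A * Real.sinh κ * Real.exp (-(κ * x0)) / Real.sinh (κ * (x0 + 1)) *
        ‖(Q' - (Real.exp (-κ) : ℂ)) / Q'‖ →
      ‖m.c.x - M * (m.c.x - (1 - exp (m.c.b.s * m.c.L + lc (m.c.b.s * m.c.L) -
        (e : ℂ) / 2 * log (1 + m.Sm)) * (1 - q2 * f2 * (1 - χ))) / (m.c.b.s * m.c.R))‖ < θ := by
  have he0 : (e : ℂ) ≠ 0 := by exact_mod_cast he.ne'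
  have hκ0 := h.kap_pos he
  have hs0 := h.s0
  have hsc : m.c.b.s = (s : ℂ) := h.hs
  have hscne : m.c.b.s ≠ 0 := by rw [hsc]; exact_mod_cast hs0.ne'
  have hse : m.c.b.se = m.c.b.s / e := by
    rw [h.se_eq, h.hs]
    push_cast
    rfl
  have hese : (e : ℂ) * m.c.b.se = m.c.b.s := by
    rw [hse]
    field_simp
  obtain ⟨l, hl⟩ : ∃ l, l = L 0 := ⟨_, rfl⟩
  have hlm : l.m = m := by rw [hl, hL]
  rw [← hl] at n2 n3 n4 n5 n6 n7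
  intro Q' Q1 Q2 q2 q3 hQ' hQ1 hQ2 hq2 hq3
  have hQ'p : Q' = 1 + m.Qp := by rw [hQ', hQp]
  have hQ'0 : Q' ≠ 0 := by rw [hQ'p, add_comm]; exact n1
  have hiQ : l.iQ = Q'⁻¹ := by
    unfold PtL.iQ
    rw [hlm, hQ'p, add_comm]
  have hQ'u : Q' = (Real.cosh κ : ℂ) + m.c.b.se * m.Un := by rw [hQ', hUn]
  have hC := h.cosh_c
  have hinv : Q' * Q'⁻¹ = 1 := mul_inv_cancel₀ hQ'0
  -- `Q1`
  have hQ1r : Q1 = 1 + m.c.b.se * l.r1 := by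
    rw [hQ1]
    unfold PtL.r1
    rw [hiQ, hlm]
    have h4 : m.c.b.se * (m.c.b.gs + m.Un) = Q' - 1 := by
      rw [hQ'u, hC]
      ring
    linear_combination 2 * hC - Q'⁻¹ * h4 - hinv
  have hQ10 : Q1 ≠ 0 := by rw [hQ1r, add_comm]; exact n3
  have hiQ1 : l.iQ1 = Q1⁻¹ := by
    unfold PtL.iQ1
    rw [hlm, hQ1r, add_comm]
  have hinv1 : Q1 * Q1⁻¹ = 1 := mul_inv_cancel₀ hQ10
  have hQ2r : Q2 = 1 + m.c.b.se * l.r2 := by
    rw [hQ2]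
    unfold PtL.r2
    rw [hiQ1, hlm]
    have h4 : m.c.b.se * l.r1 = Q1 - 1 := by
      rw [hQ1r]
      ring
    linear_combination 2 * hC - Q1⁻¹ * h4 - hinv1
  have hQ20 : Q2 ≠ 0 := by
    rw [hQ2r]
    intro h5
    have h6 : m.c.b.se * l.r2 = -1 := by linear_combination h5
    rw [h6, norm_neg, norm_one] at n4
    exact lt_irrefl _ n4
  -- powers
  have hq2e : q2 = 1 - m.c.b.s * l.P2 := by
    have h5 := l.P2_exp
    have h6 := l.se_p2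
    rw [hlm] at h5 h6
    rw [h5, hq2, cpow_def_of_ne_zero hQ10, hQ1r, ← h6, ← hese]
    congr 1
    ring
  have hq3e : q3 = l.q3 := by
    have h5 := l.q3_exp
    have h6 := l.se_p3
    rw [hlm] at h5 h6
    rw [h5, hq3, cpow_def_of_ne_zero hQ20, hQ2r, ← h6, ← hese]
    congr 1
    ring
  have h1q3 : 1 + q3 ≠ 0 := by
    rw [hq3e, add_comm]
    exact n5
  have hi3 : l.i3 = (1 + q3)⁻¹ := by
    unfold PtL.i3
    rw [hq3e, add_comm]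
  have hn1q3 : 0 < ‖1 + q3‖ := norm_pos_iff.2 h1q3
  refine ⟨?_, h1q3, ?_⟩
  · rw [← hq3e, hi3, norm_mul, norm_inv, ← div_eq_mul_inv, div_lt_iff₀ hn1q3] at n6
    exact n6.le
  intro f2 χ hf2 hχ
  -- the unknown `F2`
  obtain ⟨F2, hF2⟩ : ∃ F2 : ℂ, F2 = (f2 - 1 / 2) / m.c.b.s := ⟨_, rfl⟩
  have hf2e : f2 = 1 / 2 + m.c.b.s * F2 := by
    rw [hF2]
    field_simp
    ring
  obtain ⟨k, hk⟩ : ∃ k, k = L F2 := ⟨_, rfl⟩
  have hkm : k.m = m := by rw [hk, hL]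
  have hkF : k.F2 = F2 := by rw [hk, hL]
  have hkM : k.M = M := by rw [hk, hL]
  have hkxa : k.xa = (a0 : ℂ) := by rw [hk, hL, hxa]
  have hkAe : k.Ae = ((A / e : ℝ) : ℂ) := by rw [hk, hL, hAe]
  have hkC2 : k.C2 = (c2 : ℂ) := by rw [hk, hL, hC2]
  have t1 : k.iQ = l.iQ := by rw [hk, hl, hL]; rfl
  have t2 : k.r1 = l.r1 := by rw [hk, hl, hL]; rfl
  have t3 : k.r2 = l.r2 := by rw [hk, hl, hL]; rfl
  have t4 : k.P2 = l.P2 := by rw [hk, hl, hL]; rfl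
  have t5 : k.P3 = l.P3 := by rw [hk, hl, hL]; rfl
  have t6 : k.q3 = l.q3 := by rw [hk, hl, hL]; rfl
  have t7 : k.i3 = l.i3 := by rw [hk, hl, hL]; rfl
  have t8 : k.shc = l.shc := by rw [hk, hl, hL]; rfl
  have t9 : k.xa = xa := by rw [hk, hL]
  have hsnorm : ‖m.c.b.s‖ = s := by
    rw [hsc, Complex.norm_real, Real.norm_of_nonneg hs0.le]
  have hsenorm : ‖m.c.b.se‖ = s / e := by
    rw [h.se_eq, Complex.norm_real, Real.norm_of_nonneg (h.se_pos he).le]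
  -- `F2` is close to `F2c`
  have hF2c : 1 / (1 + q3) = 1 / 2 + m.c.b.s * k.F2c := by
    have h5 : m.c.b.s * k.P3 = 1 - q3 := by
      rw [hq3e, ← t6]
      unfold PtL.q3
      rw [hkm]
      ring
    have h6 : (1 + q3) * k.i3 = 1 := by
      rw [t7, hi3, mul_inv_cancel₀ h1q3]
    have h7 : 1 / (1 + q3) = k.i3 := by
      rw [t7, hi3, one_div]
    rw [h7]
    unfold PtL.F2c
    linear_combination (-(1 / 2) * k.i3) * h5 + (1 / 2) * h6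
  have hc0 : 0 ≤ (e * ‖(Q2 - (Real.cosh κ : ℂ)) ^ 2 - (Real.sinh κ : ℂ) ^ 2‖) * ‖q3‖ /
      ‖1 + q3‖ ^ 3 := by positivity
  have hx2 : 0 < x0 + 2 := by linarith
  have hF2near : ‖F2 - k.F2c‖ ≤ ‖k.er‖ := by
    have h5 : f2 - 1 / (1 + q3) = m.c.b.s * (F2 - k.F2c) := by
      rw [hf2e, hF2c]
      ring
    rw [h5, norm_mul, hsnorm] at hf2
    have h6 : (Q2 - (Real.cosh κ : ℂ)) ^ 2 - (Real.sinh κ : ℂ) ^ 2 =
        m.c.b.se * m.c.b.se * ((l.r2 - m.c.b.gs) * (l.r2 - m.c.b.gs) - m.c.b.K * m.c.b.K) := by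
      rw [hQ2r, hC, h.sinh_c]
      ring
    have h7 : k.er = (m.c.b.se * ((l.r2 - m.c.b.gs) * (l.r2 - m.c.b.gs) - m.c.b.K * m.c.b.K) *
        (q3 * ((1 + q3)⁻¹ * ((1 + q3)⁻¹ * (1 + q3)⁻¹)))) * (c2 : ℂ) := by
      unfold PtL.er
      rw [hkm, t3, t6, t7, hi3, ← hq3e, hkC2]
    obtain ⟨Z, hZ⟩ : ∃ Z, Z = (l.r2 - m.c.b.gs) * (l.r2 - m.c.b.gs) - m.c.b.K * m.c.b.K :=
      ⟨_, rfl⟩
    rw [← hZ] at h6 h7
    have hc2' : 0 ≤ c2 := by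
      refine le_trans ?_ hc2
      apply div_nonneg
      · positivity
      · rw [sub_nonneg, div_le_one hx2]
        exact hB1.le
    have h8 : ‖k.er‖ = c2 * ((s / e) * ‖Z‖ * ‖q3‖ / ‖1 + q3‖ ^ 3) := by
      rw [h7]
      simp only [norm_mul, norm_inv, hsenorm, Complex.norm_real, Real.norm_of_nonneg hc2']
      field_simp
    have h9 : (1 + 1 / (2 * (x0 + 2))) / (1 - B1 / (x0 + 2)) *
      (e * ‖(Q2 - (Real.cosh κ : ℂ)) ^ 2 - (Real.sinh κ : ℂ) ^ 2‖) * ‖q3‖ / ‖1 + q3‖ ^ 3 =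
      (1 + 1 / (2 * (x0 + 2))) / (1 - B1 / (x0 + 2)) *
        (s * ((s / e) * ‖Z‖ * ‖q3‖ / ‖1 + q3‖ ^ 3)) := by
      rw [h6]
      simp only [norm_mul, hsenorm]
      field_simp
    rw [h9] at hf2
    rw [h8]
    have h10 : s * ‖F2 - k.F2c‖ ≤ s * (c2 * ((s / e) * ‖Z‖ * ‖q3‖ / ‖1 + q3‖ ^ 3)) := by
      refine hf2.trans ?_
      have h11 : 0 ≤ s * ((s / e) * ‖Z‖ * ‖q3‖ / ‖1 + q3‖ ^ 3) := by positivity
      have := mul_le_mul_of_nonneg_right hc2 h11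
      calc _ ≤ c2 * (s * ((s / e) * ‖Z‖ * ‖q3‖ / ‖1 + q3‖ ^ 3)) := this
        _ = _ := by ring
    exact le_of_mul_le_mul_left h10 hs0
  -- the law
  obtain ⟨-, -, a3, a4⟩ := BR.lc_of (s := m.c.b.s) (L := m.c.L) (wl := m.c.wl) rfl h1
  have hEz : exp (m.c.b.s * m.c.L + lc (m.c.b.s * m.c.L) - (e : ℂ) / 2 * log (1 + m.Sm)) =
      2 * k.Ez := by
    have h5 := k.Ez_exp
    rw [h5, hkm, a3, hlog]
    have h6 : k.ze = ((((1 / 2) : ℂ) * m.ls) - m.c.L) - m.c.lam := by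
      unfold PtL.ze
      rw [hkm]
    have h7 : m.c.b.s * m.c.L + ((Real.log 2 : ℂ) + m.c.b.s * (m.c.wl * LmF (m.c.b.s * m.c.wl))) -
        (e : ℂ) / 2 * (m.c.b.se * m.ls) = (Real.log 2 : ℂ) + -(m.c.b.s * k.ze) := by
      rw [h6]
      unfold PtC.lam
      linear_combination (-(1 / 2) * m.ls) * hese
    rw [h7, exp_add, ← ofReal_exp, Real.exp_log (by norm_num)]
    push_cast
    ring
  have hqf : q2 * f2 = (1 - m.c.b.s * k.Pt) / 2 := by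
    unfold PtL.Pt
    rw [hq2e, hf2e, hkF, t4, hkm]
    ring
  have hw : m.c.x - M * (m.c.x - (1 - exp (m.c.b.s * m.c.L + lc (m.c.b.s * m.c.L) -
      (e : ℂ) / 2 * log (1 + m.Sm)) * (1 - q2 * f2 * (1 - χ))) / (m.c.b.s * m.c.R)) - k.A =
      -(M * (k.Ez * ((1 - m.c.b.s * k.Pt) * (χ / m.c.b.s * k.iR)))) := by
    rw [hEz, hqf]
    have h5 : k.iR = (m.c.R)⁻¹ := by
      unfold PtL.iR
      rw [hkm]
    have h6 := k.s_ze
    rw [hkm] at h6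
    unfold PtL.A PtL.law
    rw [hkm, hkM, h5]
    obtain ⟨T, hT⟩ : ∃ T, T = k.ze * E1F k.sz := ⟨_, rfl⟩
    rw [← hT] at h6 ⊢
    field_simp
    linear_combination (-M) * h6
  apply hprog F2 (by rw [← hk]; exact hF2near)
  rw [← hk, hw, norm_neg]
  -- comparison of `χ` and `X`
  have hχX : ‖χ / m.c.b.s‖ ≤ ‖k.X‖ := by
    rw [norm_div, hsnorm, div_le_iff₀ hs0]
    refine hχ.trans ?_
    have hz2 : 2 * m.c.b.z = (κ : ℂ) := by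
      rw [h.z_eq]
      push_cast
      ring
    have hy : k.y = ((κ * (a0 + 1) : ℝ) : ℂ) := by
      unfold PtL.y
      rw [hkm, hz2, hkxa]
      push_cast
      ring
    have hshc : k.y * k.shc = (Real.sinh (κ * (a0 + 1)) : ℂ) := by
      have h5 := mul_E1F k.y
      have h6 := mul_E1F (-k.y)
      have h7 : k.y * k.shc = (exp k.y - exp (-k.y)) / 2 := by
        unfold PtL.shc
        linear_combination (1 / 2) * h5 - (1 / 2) * h6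
      rw [h7, hy, ofReal_sinh, Complex.sinh]
    have hsh0 : 0 < Real.sinh (κ * (a0 + 1)) := Real.sinh_pos_iff.2 (by positivity)
    have hex : k.ex = (Real.exp (-(κ * a0)) : ℂ) := by
      unfold PtL.ex
      rw [hkm, hz2, hkxa]
      push_cast
      rfl
    have hkh := h.kh_eq
    have hX : k.X = ((A / e : ℝ) : ℂ) * ((Real.sinh κ : ℂ) * ((Real.exp (-(κ * a0)) : ℂ) *
        (Real.sinh (κ * (a0 + 1)) : ℂ)⁻¹)) * ((m.Un + m.c.b.K) * Q'⁻¹) := by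
      unfold PtL.X
      rw [hkm, hkAe, hex, t1, hiQ, ← hkh, ← hshc, hy, hkxa]
      have ha1 : ((a0 : ℂ) + 1) ≠ 0 := by
        have : (0 : ℝ) < a0 + 1 := by linarith
        exact_mod_cast this.ne'
      have hκc : (κ : ℂ) ≠ 0 := by exact_mod_cast hκ0.ne'
      have hshc0 : k.shc ≠ 0 := by
        rw [t8]
        exact left_ne_zero_of_mul n7
      push_cast
      field_simp
    have hQd : (Q' - (Real.exp (-κ) : ℂ)) / Q' = m.c.b.se * ((m.Un + m.c.b.K) * Q'⁻¹) := by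
      have h5 : (Real.exp (-κ) : ℂ) = (Real.cosh κ : ℂ) - (Real.sinh κ : ℂ) := by
        rw [← ofReal_sub, Real.cosh_sub_sinh]
      have h6 : Q' - (Real.exp (-κ) : ℂ) = m.c.b.se * (m.Un + m.c.b.K) := by
        rw [h5, hQ'u, h.sinh_c]
        ring
      rw [h6, div_eq_mul_inv]
      ring
    rw [hQd, hX]
    have hsκ : 0 < Real.sinh κ := Real.sinh_pos_iff.2 hκ0
    have hsa : 0 < Real.sinh (κ * (x0 + 1)) := Real.sinh_pos_iff.2 (by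
      have : 0 < x0 + 1 := by linarith
      positivity)
    simp only [norm_mul, norm_inv, hsenorm, Complex.norm_real, Real.norm_of_nonneg hsκ.le,
      Real.norm_of_nonneg hsh0.le, Real.norm_of_nonneg (Real.exp_pos (-(κ * a0))).le,
      Real.norm_of_nonneg (div_nonneg hA he.le)]
    have hmono := exp_div_sinh_anti hκ0 ha0 hax
    have hV : 0 ≤ A * Real.sinh κ * ((s / e) * (‖m.Un + m.c.b.K‖ * ‖Q'‖⁻¹)) := by positivity
    have h12 := mul_le_mul_of_nonneg_left hmono hV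
    calc A * Real.sinh κ * Real.exp (-(κ * x0)) / Real.sinh (κ * (x0 + 1)) *
          (s / e * (‖m.Un + m.c.b.K‖ * ‖Q'‖⁻¹))
        = A * Real.sinh κ * ((s / e) * (‖m.Un + m.c.b.K‖ * ‖Q'‖⁻¹)) *
          (Real.exp (-(κ * x0)) / Real.sinh (κ * (x0 + 1))) := by ring
      _ ≤ A * Real.sinh κ * ((s / e) * (‖m.Un + m.c.b.K‖ * ‖Q'‖⁻¹)) *
          (Real.exp (-(κ * a0)) / Real.sinh (κ * (a0 + 1))) := h12
      _ = _ := by ring
  have hG : k.G = M * (k.Ez * ((1 - m.c.b.s * k.Pt) * (k.X * k.iR))) := by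
    unfold PtL.G
    rw [hkm, hkM]
  rw [hG]
  simp only [norm_mul]
  have h13 : ‖χ / m.c.b.s‖ * ‖k.iR‖ ≤ ‖k.X‖ * ‖k.iR‖ :=
    mul_le_mul_of_nonneg_right hχX (norm_nonneg _)
  gcongr

end Pool.Agent.helper12.RS
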