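import Pool.Agent.helper12.RS.PtM
import Pool.Agent.helper12.RS.PtF
import Pool.Agent.helper12.RS.PtD
import Pool.Agent.helper12.RS.PtL

/-!
# From the assertions of the programs to the conditions of the nodes
-/

namespace Pool.Agent.helper12.RS

open Complex ComplexConjugate Set Filter Topology
open Pool.Agent.helper31.EQ.Y Pool.Agent.helper31.EQ.R
open Pool.Agent.helper12.RP Pool.Agent.helper12.FF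

variable {e κ s B θ δ : ℝ}

/-- the displacement quantities of a middle link -/
noncomputable def mD (m : PtM) (ce : ℂ) : PtD := ⟨m.c.b, m.Di, m.X1, m.Bk, m.iq, m.Un, m.Ts, ce⟩

/-- the displacement quantities of the first link -/
noncomputable def fD (f : PtF) (ce : ℂ) : PtD := ⟨f.c.b, f.Di, f.Y1, f.Bk, f.iq, f.Un, f.Ts, ce⟩

theorem MR.dQ (he : 0 < e) {m : PtM} {Q : ℂ} (h : MR e κ s B m Q) {ce : ℝ} (hce : 0 ≤ ce) :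
    DQ e κ s B ce (mD m (ce : ℂ)) := by
  obtain ⟨g, hg, hg2⟩ := MR.gs_real he h.b
  obtain ⟨k, hk, hk2⟩ := MR.K_real he h.b
  refine ⟨h.b, rfl, hce, ⟨g, hg, hg2, ?_⟩, k, hk, hk2⟩
  show g ≤ m.Ts.re
  have h1 := h.um_re he
  unfold PtM.Ts
  rw [add_re, hg2, ofReal_re]
  linarith

/-- **The displacement at a middle link.** -/
theorem MR.disp_h (he : 0 < e) {m : PtM} {Q : ℂ} (h : MR e κ s B m Q) (hS : ‖m.Sm‖ < 1)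
    (hiq : m.Qp + (m.c.b.se * (m.c.b.gs + m.Ts) + 2) ≠ 0) (hKU : m.c.b.K + m.Un ≠ 0) {ce : ℝ}
    (hce : 0 ≤ ce) {δ : ℝ}
    (hd : ‖(mD m (ce : ℂ)).dqA‖ < δ ∨ (‖(mD m (ce : ℂ)).dqB‖ < δ ∧ (mD m (ce : ℂ)).et + 1 ≠ 0)) :
    (1 + m.Sm) ^ ((1 / 2 : ℝ) : ℂ) ≠ (Real.exp (-κ) : ℂ) ∧
    ‖om κ ((1 + m.Sm) ^ ((1 / 2 : ℝ) : ℂ)) - (kk κ : ℂ) * om κ Q‖ ≤
      κ * δ * ‖((hh e κ ce : ℝ) : ℂ) - (kk κ : ℂ) * om κ Q‖ := by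
  obtain ⟨-, -, -, c4, c5⟩ := h.link he hS hiq
  have hstep := om_step κ h.Q_ne (ne_exp_neg (h.b.kap_pos he) h.re)
  have hk : (kk κ : ℂ) * om κ Q = om κ (2 * (Real.cosh κ : ℂ) - Q⁻¹) := by
    rw [hstep]
    rfl
  rw [hk]
  have hdq := h.dQ he hce
  have hdr : DR e κ s B ce (mD m (ce : ℂ)) ((1 + m.Sm) ^ ((1 / 2 : ℝ) : ℂ))
      (2 * (Real.cosh κ : ℂ) - Q⁻¹) := ⟨hdq, c5, c4, rfl, hKU⟩
  refine hdr.dispA he ?_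
  rcases hd with hd | ⟨hd, hd2⟩
  · exact hd
  · rw [← hdq.dqB_eq he ?_ hd2]
    · exact hd
    · rfl

theorem first_dQ (he : 0 < e) {f : PtF} (h : BR e κ s B f.c.b) (hκ : Real.cosh κ ≤ 9 / 8) {v : ℝ}
    (hW : f.W = (v : ℂ) * I) {ce : ℝ} (hce : 0 ≤ ce) : DQ e κ s B ce (fD f (ce : ℂ)) := by
  obtain ⟨g, hg, hg2, hg3⟩ := first_Ts_re he h hκ hW
  obtain ⟨k, hk, hk2⟩ := MR.K_real (m := ⟨f.c, 0⟩) he h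
  refine ⟨h, rfl, hce, ⟨g, hg, hg2, ?_⟩, k, hk, hk2⟩
  show g ≤ f.Ts.re
  linarith

/-- what a program of a middle node asserts -/
structure MidA (m : PtM) (k : PtK) (d : PtD) (δ θ : ℝ) : Prop where
  wb : ‖m.c.b.s * m.c.b.wb‖ < 1
  wl : ‖m.c.b.s * m.c.wl‖ < 1
  ER : ‖m.c.b.s * m.c.ER‖ < 1
  Rx : ‖-(m.c.b.s * m.c.Rx)‖ < 1
  Sm : ‖m.Sm‖ < 1
  iq : m.Qp + (m.c.b.se * (m.c.b.gs + m.Ts) + 2) ≠ 0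
  KU : m.c.b.K + m.Un ≠ 0
  dq : ‖d.dqA‖ < δ ∨ (‖d.dqB‖ < δ ∧ d.et + 1 ≠ 0)
  M : k.M ≠ 0
  R : m.c.R ≠ 0
  wln : ‖k.c.b.s * k.wln‖ < 1
  ERn : ‖k.c.b.s * k.ERn‖ < 1
  cl : ∀ w : ℂ, ‖w - k.A‖ ≤ ‖k.G‖ → ‖w‖ < θ

/-- assertions of a state program -/
structure StA (m : PtM) (d : PtD) (δ : ℝ) : Prop where
  wb : ‖m.c.b.s * m.c.b.wb‖ < 1
  wl : ‖m.c.b.s * m.c.wl‖ < 1
  ER : ‖m.c.b.s * m.c.ER‖ < 1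
  Rx : ‖-(m.c.b.s * m.c.Rx)‖ < 1
  Sm : ‖m.Sm‖ < 1
  iq : m.Qp + (m.c.b.se * (m.c.b.gs + m.Ts) + 2) ≠ 0
  KU : m.c.b.K + m.Un ≠ 0
  dq : ‖d.dqA‖ < δ ∨ (‖d.dqB‖ < δ ∧ d.et + 1 ≠ 0)

/-- assertions of a closing program -/
structure ClA (m : PtM) (k : PtK) (θ : ℝ) : Prop where
  M : k.M ≠ 0
  R : m.c.R ≠ 0
  wln : ‖k.c.b.s * k.wln‖ < 1
  ERn : ‖k.c.b.s * k.ERn‖ < 1
  cl : ∀ w : ℂ, ‖w - k.A‖ ≤ ‖k.G‖ → ‖w‖ < θ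

theorem MidA.of {m : PtM} {k : PtK} {d : PtD} (h : StA m d δ) (h2 : ClA m k θ) :
    MidA m k d δ θ :=
  ⟨h.wb, h.wl, h.ER, h.Rx, h.Sm, h.iq, h.KU, h.dq, h2.M, h2.R, h2.wln, h2.ERn, h2.cl⟩

/-- **A middle node.** -/
theorem yR_of (he : 0 < e) {D : LamT} {n : ℕ} {p Q y : ℂ}
    (hy : y = (e : ℂ) * (1 - (Q ^ 2)⁻¹)) {b : PtB} {U L R M : ℂ} {Lf Rf : ℂ → ℂ}
    (h : ∀ x : ℂ, MR e κ s B ⟨⟨b, L, R, x⟩, U⟩ Q)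
    (hl : D.l n p (b.se * U) = b.s * L) (hr : D.r n p (b.se * U) = b.s * R)
    (hM : D.M n p (b.se * U) = M)
    (hl' : ∀ U', D.l (n + 1) p (b.se * U') = b.s * Lf U')
    (hr' : ∀ U', D.r (n + 1) p (b.se * U') = b.s * Rf U')
    {ce : ℝ} (hce : 0 ≤ ce) {cc : ℂ} (hcc : cc = (ce : ℂ))
    (hA : ∀ x : ℂ, ‖x‖ ≤ 1 → MidA ⟨⟨b, L, R, x⟩, U⟩ ⟨⟨b, L, R, x⟩, (⟨⟨b, L, R, x⟩, U⟩ : PtM).ls,
      Lf (⟨⟨b, L, R, x⟩, U⟩ : PtM).Un, Rf (⟨⟨b, L, R, x⟩, U⟩ : PtM).Un, M⟩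
      (mD ⟨⟨b, L, R, x⟩, U⟩ cc) δ θ) :
    YR e κ (hh e κ ce) θ δ ((D.toN e κ).l n p y) ((D.toN e κ).r n p y) ((D.toN e κ).M n p y)
      (fun x => Sn e κ y ((D.toN e κ).l n p y) ((D.toN e κ).r n p y * x)) Q
      ((D.toN e κ).l (n + 1) p) ((D.toN e κ).r (n + 1) p) := by
  subst hcc
  have hre := (h 0).re
  have hc := Real.cosh_pos κ
  obtain ⟨v1, v2, v3⟩ := D.eval he (κ := κ) (n := n) (p := p) (hc.trans hre) hy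
  have hT : Q - (Real.cosh κ : ℂ) = b.se * U := by
    have := (h 0).hQ
    rw [this]
    show (Real.cosh κ : ℂ) + b.se * U - (Real.cosh κ : ℂ) = b.se * U
    ring
  rw [hT] at v1 v2 v3
  rw [v1, v2, v3, hl, hr, hM]
  have hS : ∀ x : ℂ, ‖x‖ ≤ 1 → Sn e κ y (b.s * L) (b.s * R * x) =
      1 + (⟨⟨b, L, R, x⟩, U⟩ : PtM).Sm := by
    intro x hx
    have a := hA x hx
    rw [hy]
    have r1 := a.wb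
    have r2 := a.wl
    have r3 := a.ER
    have r4 := a.Rx
    have r := (h x).rad he r1 r2 r3 r4
    exact r
  refine ⟨?_, ?_, ?_, ?_⟩
  · intro x hx
    have a := hA x hx
    obtain ⟨c1, -⟩ := (h x).link he a.Sm a.iq
    obtain ⟨d1, -⟩ := node_logs he (h x).b a.wb a.wl a.ER a.Rx
    have hs0 : b.s ≠ 0 := by
      rw [(h 0).b.hs]
      exact_mod_cast (h 0).b.s0.ne'
    refine ⟨mul_ne_zero hs0 a.R, a.M, d1, ?_⟩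
    show Sn e κ y (b.s * L) (b.s * R * x) ∈ slitPlane
    rw [hS x hx]
    exact c1
  · intro x hx
    have a := hA x hx
    show Sn e κ y (b.s * L) (b.s * R * x) ^ ((1 / 2 : ℝ) : ℂ) ≠ _
    rw [hS x hx]
    exact ((h x).disp_h he a.Sm a.iq a.KU hce a.dq).1
  · intro x hx
    have a := hA x hx
    show ‖om κ (Sn e κ y (b.s * L) (b.s * R * x) ^ ((1 / 2 : ℝ) : ℂ)) - (kk κ : ℂ) * om κ Q‖ ≤ _
    rw [hS x hx]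
    exact ((h x).disp_h he a.Sm a.iq a.KU hce a.dq).2
  · intro x x' hx hx'
    have a := hA x hx
    obtain ⟨c1, c2, -, -, c5⟩ := (h x).link he a.Sm a.iq
    have e1 := hS x hx
    obtain ⟨w1, w2, -⟩ := D.eval_S he (κ := κ) (n := n + 1) (p := p) c1
    have hTn : (1 + (⟨⟨b, L, R, x⟩, U⟩ : PtM).Sm) ^ ((1 / 2 : ℝ) : ℂ) - (Real.cosh κ : ℂ) =
        b.se * (⟨⟨b, L, R, x⟩, U⟩ : PtM).Un := by
      rw [c5]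
      show (Real.cosh κ : ℂ) + b.se * (⟨⟨b, L, R, x⟩, U⟩ : PtM).Un - (Real.cosh κ : ℂ) = _
      ring
    rw [hTn] at w1 w2
    rw [hl'] at w1
    rw [hr'] at w2
    show ‖x - M * (x - (1 - exp (CL (b.s * L) - (e : ℂ) / 2 *
      log (Sn e κ y (b.s * L) (b.s * R * x)) +
      lF ((D.toN e κ).l (n + 1) p ((e : ℂ) * (1 - (Sn e κ y (b.s * L) (b.s * R * x))⁻¹)))
        ((D.toN e κ).r (n + 1) p ((e : ℂ) * (1 - (Sn e κ y (b.s * L) (b.s * R * x))⁻¹)) *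
          x'))) / (b.s * R))‖ < θ
    rw [e1, w1, w2]
    exact a.cl _ (close_of he (k := ⟨⟨b, L, R, x⟩, (⟨⟨b, L, R, x⟩, U⟩ : PtM).ls,
      Lf (⟨⟨b, L, R, x⟩, U⟩ : PtM).Un, Rf (⟨⟨b, L, R, x⟩, U⟩ : PtM).Un, M⟩) (h x).b a.wl c2 a.wln
      a.ERn a.R hx')

/-- what a program of the first node asserts -/
structure FirstA (f : PtF) (k : PtK) (d : PtD) (δ θ : ℝ) : Prop where
  wb : ‖f.c.b.s * f.c.b.wb‖ < 1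
  wl : ‖f.c.b.s * f.c.wl‖ < 1
  ER : ‖f.c.b.s * f.c.ER‖ < 1
  Rx : ‖-(f.c.b.s * f.c.Rx)‖ < 1
  q : ‖-f.q‖ < 1
  Sm : ‖f.Sm‖ < 1
  SH : 0 < f.SH.re
  u : f.c.b.se * f.q0 + 1 ≠ 0
  iq : f.Qp + (f.c.b.se * f.e1 + 2) ≠ 0
  KU : f.c.b.K + f.Un ≠ 0
  dq : ‖d.dqA‖ < δ ∨ (‖d.dqB‖ < δ ∧ d.et + 1 ≠ 0 ∧ f.chu ≠ 0)
  M : k.M ≠ 0
  R : f.c.R ≠ 0
  wln : ‖k.c.b.s * k.wln‖ < 1
  ERn : ‖k.c.b.s * k.ERn‖ < 1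
  cl : ∀ w : ℂ, ‖w - k.A‖ ≤ ‖k.G‖ → ‖w‖ < θ

/-- assertions of a state program of the first node -/
structure StF (f : PtF) (d : PtD) (δ : ℝ) : Prop where
  wb : ‖f.c.b.s * f.c.b.wb‖ < 1
  wl : ‖f.c.b.s * f.c.wl‖ < 1
  ER : ‖f.c.b.s * f.c.ER‖ < 1
  Rx : ‖-(f.c.b.s * f.c.Rx)‖ < 1
  q : ‖-f.q‖ < 1
  Sm : ‖f.Sm‖ < 1
  SH : 0 < f.SH.re
  u : f.c.b.se * f.q0 + 1 ≠ 0
  iq : f.Qp + (f.c.b.se * f.e1 + 2) ≠ 0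
  KU : f.c.b.K + f.Un ≠ 0
  dq : ‖d.dqA‖ < δ ∨ (‖d.dqB‖ < δ ∧ d.et + 1 ≠ 0 ∧ f.chu ≠ 0)

theorem FirstA.of {f : PtF} {k : PtK} {d : PtD} (h : StF f d δ) (h2 : ClA ⟨f.c, 0⟩ k θ) :
    FirstA f k d δ θ :=
  ⟨h.wb, h.wl, h.ER, h.Rx, h.q, h.Sm, h.SH, h.u, h.iq, h.KU, h.dq, h2.M, h2.R, h2.wln, h2.ERn,
    h2.cl⟩

/-- the set of the first states -/
def C0h (κ h δ : ℝ) (p : ℂ) : Set ℂ :=
  {w | ‖w - (kk κ : ℂ) * om0 κ p‖ ≤ κ * δ * ‖(h : ℂ) - (kk κ : ℂ) * om0 κ p‖}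

theorem om_Qe0_I (hκ : 0 < κ) (η : ℝ) :
    om κ (Qe0 κ ((η : ℂ) * I)) = (kk κ : ℂ) * om0 κ ((η : ℂ) * I) := by
  have h1t : 1 + tanh (κ * ((η : ℂ) * I)) ≠ 0 := by
    rw [tanh_I]
    obtain ⟨t, ht⟩ : ∃ t, t = Real.tan (κ * η) := ⟨_, rfl⟩
    rw [← ht]
    intro h
    have := congrArg Complex.re h
    simp at this
  have hct : (Real.cosh κ : ℂ) + (Real.sinh κ : ℂ) * tanh (κ * ((η : ℂ) * I)) ≠ 0 := by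
    rw [tanh_I]
    intro h
    have h2 := congrArg Complex.re h
    rw [add_re, ofReal_re, ← mul_assoc, ← ofReal_mul, re_ofReal_mul, I_re, mul_zero, add_zero,
      zero_re] at h2
    exact (Real.cosh_pos κ).ne' h2
  exact om_Qe0 hκ hct h1t

/-- **The first node.** -/
theorem yF_of (he : 0 < e) {D : LamT} {η : ℝ} {p : ℂ} (hp : p = (η : ℂ) * I) {b : PtB}
    {W L R M : ℂ} {v : ℝ} {Lf Rf : ℂ → ℂ}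
    (h : BR e κ s B b) (hc98 : Real.cosh κ ≤ 9 / 8) (hW : W = (v : ℂ) * I)
    (ht : (Hh κ : ℂ) * tanh (κ * p) = b.se * W)
    (hl : D.l0 p = b.s * L) (hr : D.r0 p = b.s * R) (hM : D.M0 p = M)
    (hl' : ∀ U', D.l 0 p (b.se * U') = b.s * Lf U')
    (hr' : ∀ U', D.r 0 p (b.se * U') = b.s * Rf U')
    {ce : ℝ} (hce : 0 ≤ ce) {cc : ℂ} (hcc : cc = (ce : ℂ))
    (hA : ∀ x : ℂ, ‖x‖ ≤ 1 → FirstA ⟨⟨b, L, R, x⟩, W⟩ ⟨⟨b, L, R, x⟩,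
      (⟨⟨b, L, R, x⟩, W⟩ : PtF).ls, Lf (⟨⟨b, L, R, x⟩, W⟩ : PtF).Un,
      Rf (⟨⟨b, L, R, x⟩, W⟩ : PtF).Un, M⟩ (fD ⟨⟨b, L, R, x⟩, W⟩ cc) δ θ) :
    YF e κ θ (C0h κ (hh e κ ce) δ p) ((D.toN e κ).l0 p) ((D.toN e κ).r0 p) ((D.toN e κ).M0 p)
      (fun x => S0 e κ (tanh (κ * p)) ((D.toN e κ).l0 p) ((D.toN e κ).r0 p * x))
      ((D.toN e κ).l 0 p) ((D.toN e κ).r 0 p) ∧
    (∀ x : ℂ, ‖x‖ ≤ 1 → 1 - (Hh κ : ℂ) ^ 2 *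
      exp (-(2 * ((LA e κ : ℂ) + lF ((D.toN e κ).l0 p) ((D.toN e κ).r0 p * x))) / e) *
        (1 - tanh (κ * p) ^ 2) ∈ slitPlane) ∧
    (∀ x : ℂ, ‖x‖ ≤ 1 → RS.SH e κ (tanh (κ * p)) ((D.toN e κ).l0 p)
      ((D.toN e κ).r0 p * x) ∈ slitPlane) := by
  subst hcc
  have hκ := h.kap_pos he
  have v1 : (D.toN e κ).l0 p = b.s * L := hl
  have v2 : (D.toN e κ).r0 p = b.s * R := hr
  have v3 : (D.toN e κ).M0 p = M := hM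
  rw [v1, v2, v3]
  have hse : b.se ≠ 0 := by
    rw [h.se_eq]
    exact_mod_cast (h.se_pos he).ne'
  have hR : ∀ x : ℂ, ‖x‖ ≤ 1 → S0 e κ (tanh (κ * p)) (b.s * L) (b.s * R * x) =
      1 + (⟨⟨b, L, R, x⟩, W⟩ : PtF).Sm ∧
      RS.SH e κ (tanh (κ * p)) (b.s * L) (b.s * R * x) = (⟨⟨b, L, R, x⟩, W⟩ : PtF).SH ∧
      1 - (Hh κ : ℂ) ^ 2 * exp (-(2 * ((LA e κ : ℂ) + lF (b.s * L) (b.s * R * x))) / e) *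
        (1 - tanh (κ * p) ^ 2) = 1 - (⟨⟨b, L, R, x⟩, W⟩ : PtF).q := by
    intro x hx
    have a := hA x hx
    have r1 := a.wb
    have r2 := a.wl
    have r3 := a.ER
    have r4 := a.Rx
    have r5 := a.q
    have r := first_rad he (f := ⟨⟨b, L, R, x⟩, W⟩) h r1 r2 r3 r4 r5 ht
    exact r
  have hLk : ∀ x : ℂ, ‖x‖ ≤ 1 →
      (1 + (⟨⟨b, L, R, x⟩, W⟩ : PtF).Sm) ^ ((1 / 2 : ℝ) : ℂ) =
        1 + (⟨⟨b, L, R, x⟩, W⟩ : PtF).Qp ∧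
      log (1 + (⟨⟨b, L, R, x⟩, W⟩ : PtF).Sm) = b.se * (⟨⟨b, L, R, x⟩, W⟩ : PtF).ls ∧
      Qe0 κ p = (Real.cosh κ : ℂ) + b.se * (⟨⟨b, L, R, x⟩, W⟩ : PtF).Ts ∧
      (1 + (⟨⟨b, L, R, x⟩, W⟩ : PtF).Sm) ^ ((1 / 2 : ℝ) : ℂ) =
        (Real.cosh κ : ℂ) + b.se * (⟨⟨b, L, R, x⟩, W⟩ : PtF).Un := by
    intro x hx
    have a := hA x hx
    have r1 := a.q
    have r2 := a.Sm
    have r3 := a.u
    have r4 := a.iq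
    have r := first_link he (f := ⟨⟨b, L, R, x⟩, W⟩) h r1 r2 r3 r4 ht
    exact r
  have hslit : ∀ x : ℂ, ‖x‖ ≤ 1 → 1 + (⟨⟨b, L, R, x⟩, W⟩ : PtF).Sm ∈ slitPlane := by
    intro x hx
    have a := (hA x hx).Sm
    exact (sqrt_of a rfl).1
  have hdisp : ∀ x : ℂ, ‖x‖ ≤ 1 →
      (1 + (⟨⟨b, L, R, x⟩, W⟩ : PtF).Sm) ^ ((1 / 2 : ℝ) : ℂ) ≠ (Real.exp (-κ) : ℂ) ∧
      ‖om κ ((1 + (⟨⟨b, L, R, x⟩, W⟩ : PtF).Sm) ^ ((1 / 2 : ℝ) : ℂ)) -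
        (kk κ : ℂ) * om0 κ p‖ ≤ κ * δ * ‖((hh e κ ce : ℝ) : ℂ) - (kk κ : ℂ) * om0 κ p‖ := by
    intro x hx
    have a := hA x hx
    obtain ⟨c1, c2, c3, c4⟩ := hLk x hx
    have hk : (kk κ : ℂ) * om0 κ p = om κ (Qe0 κ p) := by
      rw [hp]
      exact (om_Qe0_I hκ η).symm
    rw [hk]
    have hdq := first_dQ he (f := ⟨⟨b, L, R, x⟩, W⟩) h hc98 hW hce
    obtain ⟨t1, t2⟩ := first_th he (f := ⟨⟨b, L, R, x⟩, W⟩) h hc98 hW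
    have hdr : DR e κ s B ce (fD ⟨⟨b, L, R, x⟩, W⟩ (ce : ℂ))
        ((1 + (⟨⟨b, L, R, x⟩, W⟩ : PtF).Sm) ^ ((1 / 2 : ℝ) : ℂ)) (Qe0 κ p) :=
      ⟨hdq, c4, c3, rfl, a.KU⟩
    refine hdr.dispA he ?_
    rcases a.dq with hd | ⟨hd, hd2, hd3⟩
    · exact hd
    · rw [← hdq.dqB_eq he ?_ hd2]
      · exact hd
      · have hD := first_disp t1 hd3
        have e2 : (⟨⟨b, L, R, x⟩, W⟩ : PtF).Di = (⟨⟨b, L, R, x⟩, W⟩ : PtF).D *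
            (⟨⟨b, L, R, x⟩, W⟩ : PtF).iq := rfl
        show (⟨⟨b, L, R, x⟩, W⟩ : PtF).Di = ((⟨⟨b, L, R, x⟩, W⟩ : PtF).Ts *
          (⟨⟨b, L, R, x⟩, W⟩ : PtF).Y1 + b.gs * (⟨⟨b, L, R, x⟩, W⟩ : PtF).Bk) *
          (⟨⟨b, L, R, x⟩, W⟩ : PtF).iq
        have e3 : (⟨⟨b, L, R, x⟩, W⟩ : PtF).Ts * (⟨⟨b, L, R, x⟩, W⟩ : PtF).th = b.gs := by
          unfold PtF.th
          rw [mul_comm, mul_assoc, inv_mul_cancel₀ t1, mul_one]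
        have e4 : (⟨⟨b, L, R, x⟩, W⟩ : PtF).Dt = (⟨⟨b, L, R, x⟩, W⟩ : PtF).Y1 +
            (⟨⟨b, L, R, x⟩, W⟩ : PtF).th * (⟨⟨b, L, R, x⟩, W⟩ : PtF).Bk := rfl
        rw [e2, hD, e4]
        linear_combination (⟨⟨b, L, R, x⟩, W⟩ : PtF).Bk * (⟨⟨b, L, R, x⟩, W⟩ : PtF).iq * e3
  refine ⟨⟨?_, ?_, ?_, ?_⟩, ?_, ?_⟩
  · intro x hx
    have a := hA x hx
    have r1 := a.wb
    have r2 := a.wl
    have r3 := a.ER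
    have r4 := a.Rx
    obtain ⟨d1, -⟩ := node_logs he (c := ⟨b, L, R, x⟩) h r1 r2 r3 r4
    have hs0 : b.s ≠ 0 := by
      rw [h.hs]
      exact_mod_cast h.s0.ne'
    refine ⟨mul_ne_zero hs0 a.R, a.M, d1, ?_⟩
    show S0 e κ (tanh (κ * p)) (b.s * L) (b.s * R * x) ∈ slitPlane
    rw [(hR x hx).1]
    exact hslit x hx
  · intro x hx
    show S0 e κ (tanh (κ * p)) (b.s * L) (b.s * R * x) ^ ((1 / 2 : ℝ) : ℂ) ≠ _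
    rw [(hR x hx).1]
    exact (hdisp x hx).1
  · intro x hx
    show om κ (S0 e κ (tanh (κ * p)) (b.s * L) (b.s * R * x) ^ ((1 / 2 : ℝ) : ℂ)) ∈ C0h κ (hh e κ ce) δ p
    rw [(hR x hx).1]
    exact (hdisp x hx).2
  · intro x x' hx hx'
    have a := hA x hx
    obtain ⟨c1, c2, -, c5⟩ := hLk x hx
    have e1 := (hR x hx).1
    obtain ⟨w1, w2, -⟩ := D.eval_S he (κ := κ) (n := 0) (p := p) (hslit x hx)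
    have hTn : (1 + (⟨⟨b, L, R, x⟩, W⟩ : PtF).Sm) ^ ((1 / 2 : ℝ) : ℂ) - (Real.cosh κ : ℂ) =
        b.se * (⟨⟨b, L, R, x⟩, W⟩ : PtF).Un := by
      rw [c5]
      ring
    rw [hTn] at w1 w2
    rw [hl'] at w1
    rw [hr'] at w2
    show ‖x - M * (x - (1 - exp (CL (b.s * L) - (e : ℂ) / 2 *
      log (S0 e κ (tanh (κ * p)) (b.s * L) (b.s * R * x)) +
      lF ((D.toN e κ).l 0 p ((e : ℂ) * (1 - (S0 e κ (tanh (κ * p)) (b.s * L)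
        (b.s * R * x))⁻¹)))
        ((D.toN e κ).r 0 p ((e : ℂ) * (1 - (S0 e κ (tanh (κ * p)) (b.s * L)
        (b.s * R * x))⁻¹)) * x'))) / (b.s * R))‖ < θ
    rw [e1, w1, w2]
    exact a.cl _ (close_of he (k := ⟨⟨b, L, R, x⟩, (⟨⟨b, L, R, x⟩, W⟩ : PtF).ls,
      Lf (⟨⟨b, L, R, x⟩, W⟩ : PtF).Un, Rf (⟨⟨b, L, R, x⟩, W⟩ : PtF).Un, M⟩) h a.wl c2 a.wln
      a.ERn a.R hx')
  · intro x hx
    rw [(hR x hx).2.2]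
    have a := (hA x hx).q
    rw [sub_eq_add_neg]
    exact (sqrt_of a rfl).1
  · intro x hx
    rw [(hR x hx).2.1, Complex.mem_slitPlane_iff]
    exact Or.inl (hA x hx).SH

/-- what a program of the last near node asserts; `L F2` the quantities -/
structure LastA (m : PtM) (L : ℂ → PtL) (d : PtD) (B1 δ θ : ℝ) : Prop where
  wb : ‖m.c.b.s * m.c.b.wb‖ < 1
  wl : ‖m.c.b.s * m.c.wl‖ < 1
  ER : ‖m.c.b.s * m.c.ER‖ < 1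
  Rx : ‖-(m.c.b.s * m.c.Rx)‖ < 1
  Sm : ‖m.Sm‖ < 1
  iq : m.Qp + (m.c.b.se * (m.c.b.gs + m.Ts) + 2) ≠ 0
  KU : m.c.b.K + m.Un ≠ 0
  dq : ‖d.dqA‖ < δ ∨ (‖d.dqB‖ < δ ∧ d.et + 1 ≠ 0)
  M : (L 0).M ≠ 0
  R : m.c.R ≠ 0
  n1 : m.Qp + 1 ≠ 0
  n2 : ‖m.c.b.se * (L 0).r1‖ < 1
  n3 : m.c.b.se * (L 0).r1 + 1 ≠ 0
  n4 : ‖m.c.b.se * (L 0).r2‖ < 1
  n5 : (L 0).q3 + 1 ≠ 0
  n6 : ‖(L 0).q3 * (L 0).i3‖ < B1
  n7 : (L 0).shc * ((L 0).xa + 1) ≠ 0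
  cl : ∀ F2 : ℂ, ‖F2 - (L F2).F2c‖ ≤ ‖(L F2).er‖ →
      ∀ w : ℂ, ‖w - (L F2).A‖ ≤ ‖(L F2).G‖ → ‖w‖ < θ

/-- assertions of a closing program of the last near node -/
structure ClL (m : PtM) (L : ℂ → PtL) (B1 θ : ℝ) : Prop where
  M : (L 0).M ≠ 0
  R : m.c.R ≠ 0
  n1 : m.Qp + 1 ≠ 0
  n2 : ‖m.c.b.se * (L 0).r1‖ < 1
  n3 : m.c.b.se * (L 0).r1 + 1 ≠ 0
  n4 : ‖m.c.b.se * (L 0).r2‖ < 1
  n5 : (L 0).q3 + 1 ≠ 0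
  n6 : ‖(L 0).q3 * (L 0).i3‖ < B1
  n7 : (L 0).shc * ((L 0).xa + 1) ≠ 0
  cl : ∀ F2 : ℂ, ‖F2 - (L F2).F2c‖ ≤ ‖(L F2).er‖ →
      ∀ w : ℂ, ‖w - (L F2).A‖ ≤ ‖(L F2).G‖ → ‖w‖ < θ

theorem LastA.of {m : PtM} {L : ℂ → PtL} {d : PtD} {B1 : ℝ} (h : StA m d δ)
    (h2 : ClL m L B1 θ) : LastA m L d B1 δ θ :=
  ⟨h.wb, h.wl, h.ER, h.Rx, h.Sm, h.iq, h.KU, h.dq, h2.M, h2.R, h2.n1, h2.n2, h2.n3, h2.n4, h2.n5,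
    h2.n6, h2.n7, h2.cl⟩

/-- **The last near node.** -/
theorem yL_of (he : 0 < e) {D : LamT} {n : ℕ} {p Q y : ℂ}
    (hy : y = (e : ℂ) * (1 - (Q ^ 2)⁻¹)) {b : PtB} {U L R M Ae xa C2 : ℂ}
    {A x0 B1 a0 c2 : ℝ}
    (h : ∀ x : ℂ, MR e κ s B ⟨⟨b, L, R, x⟩, U⟩ Q)
    (hl : D.l n p (b.se * U) = b.s * L) (hr : D.r n p (b.se * U) = b.s * R)
    (hM : D.M n p (b.se * U) = M)
    (hA0 : 0 ≤ A) (hAe : Ae = ((A / e : ℝ) : ℂ)) (hxa : xa = (a0 : ℂ))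
    (ha0 : 0 ≤ a0) (hax : a0 ≤ x0) (hC2 : C2 = (c2 : ℂ)) (hB1 : B1 < x0 + 2)
    (hc2 : (1 + 1 / (2 * (x0 + 2))) / (1 - B1 / (x0 + 2)) ≤ c2)
    {ce : ℝ} (hce : 0 ≤ ce) {cc : ℂ} (hcc : cc = (ce : ℂ))
    (hA : ∀ x : ℂ, ‖x‖ ≤ 1 → LastA ⟨⟨b, L, R, x⟩, U⟩
      (fun F2 => ⟨⟨⟨b, L, R, x⟩, U⟩, M, Ae, xa, C2, F2⟩) (mD ⟨⟨b, L, R, x⟩, U⟩ cc) B1 δ θ) :
    YL e κ (hh e κ ce) θ δ A x0 B1 ((D.toN e κ).l n p y) ((D.toN e κ).r n p y) ((D.toN e κ).M n p y)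
      (fun x => Sn e κ y ((D.toN e κ).l n p y) ((D.toN e κ).r n p y * x)) Q := by
  subst hcc
  have hre := (h 0).re
  have hc := Real.cosh_pos κ
  obtain ⟨v1, v2, v3⟩ := D.eval he (κ := κ) (n := n) (p := p) (hc.trans hre) hy
  have hT : Q - (Real.cosh κ : ℂ) = b.se * U := by
    have := (h 0).hQ
    rw [this]
    show (Real.cosh κ : ℂ) + b.se * U - (Real.cosh κ : ℂ) = b.se * U
    ring
  rw [hT] at v1 v2 v3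
  rw [v1, v2, v3, hl, hr, hM]
  have hS : ∀ x : ℂ, ‖x‖ ≤ 1 → Sn e κ y (b.s * L) (b.s * R * x) =
      1 + (⟨⟨b, L, R, x⟩, U⟩ : PtM).Sm := by
    intro x hx
    have a := hA x hx
    rw [hy]
    have r1 := a.wb
    have r2 := a.wl
    have r3 := a.ER
    have r4 := a.Rx
    have r := (h x).rad he r1 r2 r3 r4
    exact r
  refine ⟨?_, ?_, ?_, ?_⟩
  · intro x hx
    have a := hA x hx
    obtain ⟨c1, -⟩ := (h x).link he a.Sm a.iq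
    obtain ⟨d1, -⟩ := node_logs he (h x).b a.wb a.wl a.ER a.Rx
    have hs0 : b.s ≠ 0 := by
      rw [(h 0).b.hs]
      exact_mod_cast (h 0).b.s0.ne'
    refine ⟨mul_ne_zero hs0 a.R, a.M, d1, ?_⟩
    show Sn e κ y (b.s * L) (b.s * R * x) ∈ slitPlane
    rw [hS x hx]
    exact c1
  · intro x hx
    have a := hA x hx
    show Sn e κ y (b.s * L) (b.s * R * x) ^ ((1 / 2 : ℝ) : ℂ) ≠ _
    rw [hS x hx]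
    exact ((h x).disp_h he a.Sm a.iq a.KU hce a.dq).1
  · intro x hx
    have a := hA x hx
    show ‖om κ (Sn e κ y (b.s * L) (b.s * R * x) ^ ((1 / 2 : ℝ) : ℂ)) - (kk κ : ℂ) * om κ Q‖ ≤ _
    rw [hS x hx]
    exact ((h x).disp_h he a.Sm a.iq a.KU hce a.dq).2
  · intro x hx
    have a := hA x hx
    obtain ⟨c1, c2', c3, -, c5⟩ := (h x).link he a.Sm a.iq
    have r2 := a.wl
    have r := last_close he (h x).b (M := M) (Ae := Ae) (xa := xa) (C2 := C2) (θ := θ) _ rfl r2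
      a.Sm c3 c2' c5 a.R hA0 hAe hxa ha0 hax hC2 hB1 hc2 a.n1 a.n2 a.n3 a.n4 a.n5 a.n6 a.n7 a.cl
    intro Q' Q1 Q2 q2 q3 g1 g2 g3 g4 g5
    have g1' : Q' = (1 + (⟨⟨b, L, R, x⟩, U⟩ : PtM).Sm) ^ ((1 / 2 : ℝ) : ℂ) := by
      rw [g1]
      show Sn e κ y (b.s * L) (b.s * R * x) ^ ((1 / 2 : ℝ) : ℂ) = _
      rw [hS x hx]
    obtain ⟨k1, k2, k3⟩ := r Q' Q1 Q2 q2 q3 g1' g2 g3 g4 g5
    refine ⟨k1, k2, ?_⟩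
    intro f2 χ hf hχ
    show ‖x - M * (x - (1 - exp (b.s * L + lc (b.s * L) - (e : ℂ) / 2 *
      log (Sn e κ y (b.s * L) (b.s * R * x))) * (1 - q2 * f2 * (1 - χ))) / (b.s * R))‖ < θ
    rw [hS x hx]
    exact k3 f2 χ hf hχ

end Pool.Agent.helper12.RS
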