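import Pool.Agent.helper12.RS.OmChain
import Pool.Agent.helper12.RS.PtY

/-!
# Crude bounds of the chains: `‖w‖` and the position `T = Q - cosh κ`
-/

namespace Pool.Agent.helper12.RS

open Complex ComplexConjugate Set Filter Topology
open Pool.Agent.helper31.EQ.Y Pool.Agent.helper31.EQ.R
open Pool.Agent.helper12.RP Pool.Agent.helper12.FF

variable {e κ : ℝ}

/-- numeric conditions for `‖w‖ ≤ exp (-2κ x n)`: `x (n+1) ≤ x n + 1 - δ (n+1) (1 + hm E)/2` with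
`exp (2 κm (x n + 1)) ≤ E`; the link number `0` starts from `‖w‖ = 1`, `x = 0`. -/
structure CX (κm hm : ℝ) (δ x : ℕ → ℝ) (L : ℕ) : Prop where
  zero : ∃ E, Real.exp (2 * κm) ≤ E ∧ x 0 ≤ 1 - δ 0 * (1 + hm * E) / 2
  nonneg : ∀ n, n ≤ L → 0 ≤ x n ∧ 0 ≤ δ n
  succ : ∀ n, n < L → ∃ E, Real.exp (2 * κm * (x n + 1)) ≤ E ∧
    x (n + 1) ≤ x n + 1 - δ (n + 1) * (1 + hm * E) / 2

/-- one step of the bound of `‖w‖` -/
theorem norm_step {κm X x' δ E h hm : ℝ} (hκ : 0 < κ) (hκm : κ ≤ κm) (h1 : 1 ≤ h) (h2 : h ≤ hm)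
    (hX : 0 ≤ X) (hδ : 0 ≤ δ)
    (hE : Real.exp (2 * κm * (X + 1)) ≤ E) (hx : x' ≤ X + 1 - δ * (1 + hm * E) / 2) {w w' : ℂ}
    (hw : ‖w‖ ≤ Real.exp (-(2 * κ * X)))
    (hw' : ‖w' - (kk κ : ℂ) * w‖ ≤ κ * δ * ‖(h : ℂ) - (kk κ : ℂ) * w‖) :
    ‖w'‖ ≤ Real.exp (-(2 * κ * x')) := by
  have hk : 0 < kk κ := Real.exp_pos _
  have hkn : ‖(kk κ : ℂ) * w‖ ≤ kk κ * Real.exp (-(2 * κ * X)) := by
    rw [norm_mul, Complex.norm_real, Real.norm_of_nonneg hk.le]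
    exact mul_le_mul_of_nonneg_left hw hk.le
  have h1' : ‖(h : ℂ) - (kk κ : ℂ) * w‖ ≤ h + kk κ * Real.exp (-(2 * κ * X)) := by
    refine (norm_sub_le _ _).trans ?_
    rw [Complex.norm_real, Real.norm_of_nonneg (by linarith)]
    linarith
  have h2' : ‖w'‖ ≤ ‖w' - (kk κ : ℂ) * w‖ + ‖(kk κ : ℂ) * w‖ := by
    have := norm_add_le (w' - (kk κ : ℂ) * w) ((kk κ : ℂ) * w)
    rwa [sub_add_cancel] at this
  have h3 : κ * δ * ‖(h : ℂ) - (kk κ : ℂ) * w‖ ≤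
      κ * δ * (h + kk κ * Real.exp (-(2 * κ * X))) :=
    mul_le_mul_of_nonneg_left h1' (by positivity)
  have h4 : ‖w'‖ ≤ κ * δ * (h + kk κ * Real.exp (-(2 * κ * X))) +
      kk κ * Real.exp (-(2 * κ * X)) := by linarith
  refine h4.trans ?_
  have h5 : kk κ * Real.exp (-(2 * κ * X)) = Real.exp (-(2 * κ * (X + 1))) := by
    unfold kk
    rw [← Real.exp_add]
    congr 1
    ring
  rw [h5]
  have h6 : Real.exp (-(2 * κ * x')) = Real.exp (-(2 * κ * (X + 1))) *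
      Real.exp (2 * κ * (X + 1 - x')) := by
    rw [← Real.exp_add]
    congr 1
    ring
  have h7 : 2 * κ * (X + 1 - x') + 1 ≤ Real.exp (2 * κ * (X + 1 - x')) :=
    Real.add_one_le_exp _
  have h8 : Real.exp (2 * κ * (X + 1)) ≤ E := by
    refine le_trans (Real.exp_le_exp.2 ?_) hE
    have : 0 ≤ X + 1 := by linarith
    nlinarith
  have hp := Real.exp_pos (-(2 * κ * (X + 1)))
  have h9 : Real.exp (-(2 * κ * (X + 1))) * Real.exp (2 * κ * (X + 1)) = 1 := by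
    rw [← Real.exp_add, neg_add_cancel, Real.exp_zero]
  have h10 : 1 ≤ Real.exp (-(2 * κ * (X + 1))) * E :=
    h9.symm.le.trans (mul_le_mul_of_nonneg_left h8 hp.le)
  rw [h6]
  have h11 : 1 + κ * δ * (1 + hm * E) ≤ Real.exp (2 * κ * (X + 1 - x')) := by
    refine le_trans ?_ h7
    have : δ * (1 + hm * E) / 2 ≤ X + 1 - x' := by linarith
    nlinarith
  have h12 : Real.exp (-(2 * κ * (X + 1))) * (1 + κ * δ * (1 + hm * E)) ≤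
      Real.exp (-(2 * κ * (X + 1))) * Real.exp (2 * κ * (X + 1 - x')) :=
    mul_le_mul_of_nonneg_left h11 hp.le
  refine le_trans ?_ h12
  have h0 : 0 ≤ κ * δ * h := by positivity
  have h13 : κ * δ * h ≤ κ * δ * h * (Real.exp (-(2 * κ * (X + 1))) * E) :=
    le_mul_of_one_le_right h0 h10
  have h14 : κ * δ * h * (Real.exp (-(2 * κ * (X + 1))) * E) ≤
      κ * δ * hm * (Real.exp (-(2 * κ * (X + 1))) * E) := by
    have : 0 ≤ κ * δ * (Real.exp (-(2 * κ * (X + 1))) * E) :=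
      mul_nonneg (by positivity) (by linarith)
    nlinarith
  nlinarith

theorem Ch_norm {κm h hm : ℝ} (hκ : 0 < κ) (hκm : κ ≤ κm) (h1 : 1 ≤ h) (h2 : h ≤ hm)
    {δ x : ℕ → ℝ} {L : ℕ} (hc : CX κm hm δ x L)
    (η : ℝ) : ∀ n, n ≤ L → ∀ w ∈ Ch κ h (C0h κ h (δ 0) ((η : ℂ) * I)) δ n,
      ‖w‖ ≤ Real.exp (-(2 * κ * x n)) := by
  intro n
  induction n with
  | zero =>
    intro h0 w hw
    obtain ⟨E, hE, hx⟩ := hc.zero
    refine norm_step (X := 0) hκ hκm h1 h2 le_rfl (hc.nonneg 0 h0).2 (by simpa using hE)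
      (by linarith) (w := om0 κ ((η : ℂ) * I)) ?_ hw
    rw [norm_om0, mul_zero, neg_zero, Real.exp_zero]
  | succ n ih =>
    intro hn w' hw'
    obtain ⟨w, hw, h3⟩ := hw'
    obtain ⟨E, hE, hx⟩ := hc.succ n (by omega)
    exact norm_step hκ hκm h1 h2 (hc.nonneg n (by omega)).1 (hc.nonneg (n + 1) hn).2 hE hx
      (ih (by omega) w hw) h3

/-- `‖w‖ < 1` and the entry condition -/
theorem Ch_ent {κm h hm : ℝ} (hκ : 0 < κ) (hκm : κ ≤ κm) (h1 : 1 ≤ h) (h2 : h ≤ hm)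
    {δ x : ℕ → ℝ} {L : ℕ} (hc : CX κm hm δ x L)
    (hx : ∀ n, n ≤ L → 0 < x n) {x0 : ℝ} (hL : x0 < x L) (η : ℝ) :
    (∀ n, n < L → ∀ w ∈ Ch κ h (C0h κ h (δ 0) ((η : ℂ) * I)) δ n, ‖w‖ < 1) ∧
    ∀ w ∈ Ch κ h (C0h κ h (δ 0) ((η : ℂ) * I)) δ L, ‖w‖ < Real.exp (-(2 * κ * x0)) := by
  constructor
  · intro n hn w hw
    refine (Ch_norm hκ hκm h1 h2 hc η n hn.le w hw).trans_lt ?_
    rw [Real.exp_lt_one_iff]
    have := hx n hn.le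
    have : 0 < 2 * κ * x n := by positivity
    linarith
  · intro w hw
    refine (Ch_norm hκ hκm h1 h2 hc η L le_rfl w hw).trans_lt ?_
    rw [Real.exp_lt_exp]
    nlinarith

/-- numeric conditions for `e ‖T‖ ≤ τ n`: `Km` bounds `e sinh κ`, `h ≤ 1 + 2 ηm`,
`σ` bounds `e ‖c - 1/(c + T)‖`. All `T` are divided by `1/e`, `ε ≤ εm`;
`G n = (1 + ηm) σ n + ηm Km`. -/
structure CT (εm Km ηm : ℝ) (δ τ σ : ℕ → ℝ) (τs : ℝ) (L : ℕ) : Prop where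
  /-- the start `e ‖K t‖ ≤ τs` -/
  pos : 0 < τs ∧ 0 < Km ∧ 0 < εm ∧ 0 ≤ ηm
  pn : ∀ n, n ≤ L → 0 < τ n ∧ 0 ≤ δ n ∧ δ n * (εm * ((1 + ηm) * σ n + ηm * Km)) < 1
  s0 : τs ≤ σ 0 ∧ (Km ≤ σ 0 ∨ τs + εm * (Km ^ 2 - τs ^ 2) ≤ σ 0)
  sn : ∀ n, n < L → τ n ≤ σ (n + 1) ∧
    (Km ≤ σ (n + 1) ∨ τ n + εm * (Km ^ 2 - τ n ^ 2) ≤ σ (n + 1))
  tn : ∀ n, n ≤ L → σ n + δ n * (εm * ((1 + ηm) * σ n + ηm * Km)) * Km ≤
    τ n * (1 - δ n * (εm * ((1 + ηm) * σ n + ηm * Km)))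

/-- `‖T_s‖ ≤ ρ` for `ρ ≥ K`, `ρ ≥ ‖T‖` -/
theorem Ts_bound1 {K c ρ : ℝ} (hc : c ^ 2 - K ^ 2 = 1) (hc0 : 0 < c) (hK : 0 < K) {T : ℂ}
    (hT : 0 ≤ T.re) (h1 : K ≤ ρ) (h2 : ‖T‖ ≤ ρ) :
    ‖(K : ℂ) ^ 2 + (c : ℂ) * T‖ ≤ ρ * ‖(c : ℂ) + T‖ := by
  have hρ : 0 < ρ := by linarith
  apply le_of_sq_le_sq _ (by positivity)
  rw [mul_pow, Complex.sq_norm, Complex.sq_norm, normSq_apply, normSq_apply]
  have e1 : ((K : ℂ) ^ 2 + (c : ℂ) * T).re = K ^ 2 + c * T.re := by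
    rw [add_re, re_ofReal_mul, ← ofReal_pow, ofReal_re]
  have e2 : ((K : ℂ) ^ 2 + (c : ℂ) * T).im = c * T.im := by
    rw [add_im, im_ofReal_mul, ← ofReal_pow, ofReal_im, zero_add]
  rw [e1, e2, add_re, add_im, ofReal_re, ofReal_im, zero_add]
  have h3 : T.re ^ 2 + T.im ^ 2 ≤ ρ ^ 2 := by
    have := pow_le_pow_left₀ (norm_nonneg T) h2 2
    rw [Complex.sq_norm, normSq_apply] at this
    nlinarith
  obtain ⟨r2, hr2⟩ : ∃ r2, r2 = T.re ^ 2 + T.im ^ 2 := ⟨_, rfl⟩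
  rw [← hr2] at h3
  have h4 : K ^ 2 ≤ ρ ^ 2 := pow_le_pow_left₀ hK.le h1 2
  have hr0 : 0 ≤ r2 := by rw [hr2]; positivity
  have a1 : 0 ≤ (ρ ^ 2 - K ^ 2) * (c * T.re) := mul_nonneg (by linarith) (by positivity)
  have a2 : 0 ≤ (ρ ^ 2 - K ^ 2) * K ^ 2 := mul_nonneg (by linarith) (by positivity)
  have a3 : 0 ≤ (ρ ^ 2 - K ^ 2) * r2 := mul_nonneg (by linarith) hr0
  have e3 : (K ^ 2 + c * T.re) * (K ^ 2 + c * T.re) + c * T.im * (c * T.im) =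
      K ^ 4 + 2 * (K ^ 2 * (c * T.re)) + c ^ 2 * r2 := by rw [hr2]; ring
  have e4 : ρ ^ 2 * ((c + T.re) * (c + T.re) + T.im * T.im) =
      ρ ^ 2 * (c ^ 2 + 2 * (c * T.re) + r2) := by rw [hr2]; ring
  have hc2 : c ^ 2 = 1 + K ^ 2 := by linarith
  rw [e3, e4, hc2]
  nlinarith

/-- `‖T_s‖ ≤ (K² + c r)/(c + r)` for `‖T‖ ≤ r ≤ K` -/
theorem Ts_bound2 {K c r : ℝ} (hc : c ^ 2 - K ^ 2 = 1) (hc0 : 0 < c) (hK : 0 < K) {T : ℂ}
    (hr0 : 0 ≤ r) (h1 : r ≤ K) (h2 : ‖T‖ ≤ r) :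
    ‖(K : ℂ) ^ 2 + (c : ℂ) * T‖ * (c + r) ≤ (K ^ 2 + c * r) * ‖(c : ℂ) + T‖ := by
  have hcr : 0 ≤ c + r := by linarith
  have hKr : 0 ≤ K ^ 2 + c * r := by positivity
  apply le_of_sq_le_sq _ (by positivity)
  rw [mul_pow, mul_pow, Complex.sq_norm, Complex.sq_norm, normSq_apply, normSq_apply]
  have e1 : ((K : ℂ) ^ 2 + (c : ℂ) * T).re = K ^ 2 + c * T.re := by
    rw [add_re, re_ofReal_mul, ← ofReal_pow, ofReal_re]
  have e2 : ((K : ℂ) ^ 2 + (c : ℂ) * T).im = c * T.im := by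
    rw [add_im, im_ofReal_mul, ← ofReal_pow, ofReal_im, zero_add]
  rw [e1, e2, add_re, add_im, ofReal_re, ofReal_im, zero_add]
  have h3 : T.re ^ 2 + T.im ^ 2 ≤ r ^ 2 := by
    have := pow_le_pow_left₀ (norm_nonneg T) h2 2
    rw [Complex.sq_norm, normSq_apply] at this
    nlinarith
  have hx : T.re ≤ r := by
    have := (Complex.re_le_norm T).trans h2
    exact this
  obtain ⟨r2, hr2⟩ : ∃ r2, r2 = T.re ^ 2 + T.im ^ 2 := ⟨_, rfl⟩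
  rw [← hr2] at h3
  have hrr : 0 ≤ r2 := by rw [hr2]; positivity
  have e3 : (K ^ 2 + c * T.re) * (K ^ 2 + c * T.re) + c * T.im * (c * T.im) =
      K ^ 4 + 2 * (K ^ 2 * (c * T.re)) + c ^ 2 * r2 := by rw [hr2]; ring
  have e4 : ((c + T.re) * (c + T.re) + T.im * T.im) =
      (c ^ 2 + 2 * (c * T.re) + r2) := by rw [hr2]; ring
  rw [e3, e4]
  obtain ⟨x, hxe⟩ : ∃ x, x = T.re := ⟨_, rfl⟩
  rw [← hxe] at hx ⊢
  have hc2 : c ^ 2 = 1 + K ^ 2 := by linarith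
  -- the difference is `(r² - r2) (...) + (r - x) (...)`
  have h5 : r ^ 2 ≤ K ^ 2 := pow_le_pow_left₀ hr0 h1 2
  have key : (K ^ 2 + c * r) ^ 2 * (c ^ 2 + 2 * (c * x) + r2) -
      (K ^ 4 + 2 * (K ^ 2 * (c * x)) + c ^ 2 * r2) * (c + r) ^ 2 =
      (r ^ 2 - r2) * (c ^ 2 * (c + r) ^ 2 - (K ^ 2 + c * r) ^ 2) +
      2 * c * (r - x) * (K ^ 2 * (c + r) ^ 2 - (K ^ 2 + c * r) ^ 2) := by ring
  have f1 : c ^ 2 * (c + r) ^ 2 - (K ^ 2 + c * r) ^ 2 = (c ^ 2 - K ^ 2) *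
      (c ^ 2 + K ^ 2 + 2 * c * r) := by ring
  have f2 : K ^ 2 * (c + r) ^ 2 - (K ^ 2 + c * r) ^ 2 = (c ^ 2 - K ^ 2) * (K ^ 2 - r ^ 2) := by
    ring
  rw [f1, f2, hc, one_mul, one_mul] at key
  have g1 : 0 ≤ (r ^ 2 - r2) * (c ^ 2 + K ^ 2 + 2 * c * r) :=
    mul_nonneg (by linarith) (by positivity)
  have g2 : 0 ≤ 2 * c * (r - x) * (K ^ 2 - r ^ 2) :=
    mul_nonneg (mul_nonneg (by positivity) (by linarith)) (by linarith)
  linarith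

/-- the exact step in terms of `T` -/
theorem Ts_bound {K c e εm Km τ σ : ℝ} (he : 0 < e) (hε : 1 / e ≤ εm) (hc : c ^ 2 - K ^ 2 = 1)
    (hc0 : 0 < c) (hK : 0 < K) (hKm : e * K ≤ Km) (hτ : 0 < τ) {T : ℂ}
    (hT : 0 ≤ T.re) (h1 : e * ‖T‖ ≤ τ) (h2 : τ ≤ σ)
    (h3 : Km ≤ σ ∨ τ + εm * (Km ^ 2 - τ ^ 2) ≤ σ) :
    e * ‖(c : ℂ) - ((c : ℂ) + T)⁻¹‖ ≤ σ := by
  have hcT : (c : ℂ) + T ≠ 0 := by
    intro h
    have := congrArg Complex.re h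
    rw [add_re, ofReal_re, zero_re] at this
    linarith
  have hn : 0 < ‖(c : ℂ) + T‖ := norm_pos_iff.2 hcT
  have e1 : (c : ℂ) - ((c : ℂ) + T)⁻¹ = ((K : ℂ) ^ 2 + (c : ℂ) * T) / ((c : ℂ) + T) := by
    have hcc : (c : ℂ) ^ 2 - (K : ℂ) ^ 2 = 1 := by exact_mod_cast congrArg (fun r : ℝ => (r : ℂ)) hc
    rw [eq_div_iff hcT, sub_mul, inv_mul_cancel₀ hcT]
    linear_combination hcc
  rw [e1, norm_div]
  have hTr : ‖T‖ ≤ τ / e := by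
    rw [le_div_iff₀ he]
    linarith
  by_cases hcase : K ≤ σ / e
  · have := Ts_bound1 hc hc0 hK hT hcase (hTr.trans (by gcongr))
    rw [mul_div_assoc', div_le_iff₀ hn]
    have h4 := mul_le_mul_of_nonneg_left this he.le
    calc e * ‖(K : ℂ) ^ 2 + (c : ℂ) * T‖ ≤ e * (σ / e * ‖(c : ℂ) + T‖) := h4
      _ = σ * ‖(c : ℂ) + T‖ := by field_simp
  · rw [not_le] at hcase
    have hσK : σ < Km := by
      rw [div_lt_iff₀ he] at hcase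
      linarith
    have h3' : τ + εm * (Km ^ 2 - τ ^ 2) ≤ σ := by
      rcases h3 with h | h
      · linarith
      · exact h
    have hr0 : 0 ≤ τ / e := by positivity
    have hrK : τ / e ≤ K := by
      have : τ / e ≤ σ / e := by gcongr
      linarith
    have h5 := Ts_bound2 hc hc0 hK hr0 hrK hTr
    rw [mul_div_assoc', div_le_iff₀ hn]
    have hcr : 0 < c + τ / e := by positivity
    have hc1 : 1 ≤ c := by nlinarith [sq_nonneg K]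
    have h6 : ‖(K : ℂ) ^ 2 + (c : ℂ) * T‖ ≤ (K ^ 2 + c * (τ / e)) / (c + τ / e) *
        ‖(c : ℂ) + T‖ := by
      rw [div_mul_eq_mul_div, le_div_iff₀ hcr]
      exact h5
    have h7 : e * ((K ^ 2 + c * (τ / e)) / (c + τ / e)) ≤ σ := by
      have e5 : (K ^ 2 + c * (τ / e)) / (c + τ / e) = τ / e + (K ^ 2 - (τ / e) ^ 2) /
          (c + τ / e) := by
        field_simp
        ring
      have h8 : (K ^ 2 - (τ / e) ^ 2) / (c + τ / e) ≤ K ^ 2 - (τ / e) ^ 2 := by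
        apply div_le_self
        · nlinarith
        · linarith
      have h9 : e * (τ / e + (K ^ 2 - (τ / e) ^ 2)) = τ + (1 / e) * ((e * K) ^ 2 - τ ^ 2) := by
        field_simp
      have h10 : (e * K) ^ 2 ≤ Km ^ 2 := pow_le_pow_left₀ (by positivity) hKm 2
      have h11 : (1 / e) * ((e * K) ^ 2 - τ ^ 2) ≤ εm * (Km ^ 2 - τ ^ 2) := by
        have h12 : 0 ≤ Km ^ 2 - τ ^ 2 := by nlinarith
        have h13 : (1 / e) * ((e * K) ^ 2 - τ ^ 2) ≤ (1 / e) * (Km ^ 2 - τ ^ 2) :=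
          mul_le_mul_of_nonneg_left (by linarith) (by positivity)
        exact h13.trans (mul_le_mul_of_nonneg_right hε h12)
      rw [e5]
      calc e * (τ / e + (K ^ 2 - (τ / e) ^ 2) / (c + τ / e))
          ≤ e * (τ / e + (K ^ 2 - (τ / e) ^ 2)) := by gcongr
        _ ≤ σ := by rw [h9]; linarith
    calc e * ‖(K : ℂ) ^ 2 + (c : ℂ) * T‖
        ≤ e * ((K ^ 2 + c * (τ / e)) / (c + τ / e) * ‖(c : ℂ) + T‖) := by gcongr
      _ = e * ((K ^ 2 + c * (τ / e)) / (c + τ / e)) * ‖(c : ℂ) + T‖ := by ring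
      _ ≤ σ * ‖(c : ℂ) + T‖ := by gcongr

/-- the true step in terms of `T` -/
theorem T_step {e εm Km ηm τ σ τ' δ h0 : ℝ} (he : 0 < e) (hκ : 0 < κ) (hε : 1 / e ≤ εm)
    (hKm : e * Real.sinh κ ≤ Km) (hh1 : 1 ≤ h0) (hh2 : h0 ≤ 1 + 2 * ηm) (hτ : 0 < τ)
    (hδ : 0 ≤ δ) {T Q' : ℂ}
    (hT : 0 ≤ T.re) (h1 : e * ‖T‖ ≤ τ) (h2 : τ ≤ σ)
    (h3 : Km ≤ σ ∨ τ + εm * (Km ^ 2 - τ ^ 2) ≤ σ)
    (h4 : δ * (εm * ((1 + ηm) * σ + ηm * Km)) < 1)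
    (h5 : σ + δ * (εm * ((1 + ηm) * σ + ηm * Km)) * Km ≤
      τ' * (1 - δ * (εm * ((1 + ηm) * σ + ηm * Km)))) (hQ' : Real.cosh κ < Q'.re)
    (h : ‖om κ Q' - om κ (2 * (Real.cosh κ : ℂ) - ((Real.cosh κ : ℂ) + T)⁻¹)‖ ≤
      κ * δ * ‖(h0 : ℂ) - om κ (2 * (Real.cosh κ : ℂ) - ((Real.cosh κ : ℂ) + T)⁻¹)‖) :
    e * ‖Q' - (Real.cosh κ : ℂ)‖ ≤ τ' := by
  have hc0 := Real.cosh_pos κ
  have hK0 := Real.sinh_pos_iff.2 hκ
  have hcK : Real.cosh κ ^ 2 - Real.sinh κ ^ 2 = 1 := Real.cosh_sq_sub_sinh_sq κ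
  have hc1 : 1 ≤ Real.cosh κ := Real.one_le_cosh κ
  have hb := Ts_bound he hε hcK hc0 hK0 hKm hτ hT h1 h2 h3
  have hem : (Real.exp (-κ) : ℂ) = (Real.cosh κ : ℂ) - (Real.sinh κ : ℂ) := by
    rw [← ofReal_sub, Real.cosh_sub_sinh]
  have hep : (Real.exp κ : ℂ) = (Real.cosh κ : ℂ) + (Real.sinh κ : ℂ) := by
    rw [← ofReal_add, Real.cosh_add_sinh]
  have hcT : 0 < ((Real.cosh κ : ℂ) + T).re := by
    rw [add_re, ofReal_re]
    linarith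
  obtain ⟨Ts, hTs⟩ : ∃ Ts : ℂ, Ts = (Real.cosh κ : ℂ) - ((Real.cosh κ : ℂ) + T)⁻¹ := ⟨_, rfl⟩
  rw [← hTs] at hb
  have hQs : 2 * (Real.cosh κ : ℂ) - ((Real.cosh κ : ℂ) + T)⁻¹ = (Real.cosh κ : ℂ) + Ts := by
    rw [hTs]
    ring
  rw [hQs] at h
  have hTre : 0 ≤ Ts.re := by
    rw [hTs, sub_re, ofReal_re]
    have h6 : ‖((Real.cosh κ : ℂ) + T)⁻¹‖ ≤ 1 := by
      rw [norm_inv]
      apply inv_le_one_of_one_le₀
      have h7 := Complex.re_le_norm ((Real.cosh κ : ℂ) + T)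
      rw [add_re, ofReal_re] at h7
      linarith
    have h8 := (Complex.re_le_norm (((Real.cosh κ : ℂ) + T)⁻¹)).trans h6
    linarith
  have hKTs : (Real.sinh κ : ℂ) + Ts ≠ 0 := by
    intro h0
    have := congrArg Complex.re h0
    rw [add_re, ofReal_re, zero_re] at this
    linarith
  obtain ⟨T', hT'⟩ : ∃ T' : ℂ, T' = Q' - (Real.cosh κ : ℂ) := ⟨_, rfl⟩
  have hQ'T : Q' = (Real.cosh κ : ℂ) + T' := by rw [hT']; ring
  have hKT' : (Real.sinh κ : ℂ) + T' ≠ 0 := by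
    intro h0
    have h9 := congrArg Complex.re h0
    rw [add_re, ofReal_re, zero_re] at h9
    rw [hQ'T, add_re, ofReal_re] at hQ'
    linarith
  have e1 : Q' - (Real.exp (-κ) : ℂ) = (Real.sinh κ : ℂ) + T' := by
    rw [hQ'T, hem]
    ring
  have e2 : (Real.cosh κ : ℂ) + Ts - (Real.exp (-κ) : ℂ) = (Real.sinh κ : ℂ) + Ts := by
    rw [hem]
    ring
  have n1 : Q' ≠ (Real.exp (-κ) : ℂ) := ne_exp_neg hκ hQ'
  have n2 : (Real.cosh κ : ℂ) + Ts ≠ (Real.exp (-κ) : ℂ) := by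
    intro h0
    rw [h0, sub_self] at e2
    exact hKTs e2.symm
  obtain ⟨η, hη⟩ : ∃ η, η = (h0 - 1) / 2 := ⟨_, rfl⟩
  have hη0 : 0 ≤ η := by rw [hη]; linarith
  have hηm : η ≤ ηm := by rw [hη]; linarith
  have hh0 : h0 = 1 + 2 * η := by rw [hη]; ring
  have e3 : (h0 : ℂ) - om κ ((Real.cosh κ : ℂ) + Ts) =
      2 * (Ts + (η : ℂ) * (Ts + (Real.sinh κ : ℂ))) / ((Real.sinh κ : ℂ) + Ts) := by
    unfold om
    rw [e2]
    have e5 : (Real.exp κ : ℂ) - ((Real.cosh κ : ℂ) + Ts) = (Real.sinh κ : ℂ) - Ts := by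
      rw [hep]
      ring
    rw [e5, hh0]
    push_cast
    have hK' : (Real.sinh κ : ℂ) + Ts ≠ 0 := hKTs
    rw [← ofReal_sinh]
    field_simp
    ring
  rw [om_sub κ n2 n1, e3, e1, e2] at h
  have e4 : Q' - ((Real.cosh κ : ℂ) + Ts) = T' - Ts := by
    rw [hQ'T]
    ring
  rw [e4] at h
  obtain ⟨g, hg⟩ : ∃ g : ℂ, g = Ts + (η : ℂ) * (Ts + (Real.sinh κ : ℂ)) := ⟨_, rfl⟩
  rw [← hg] at h
  simp only [norm_div, norm_neg, norm_mul, Complex.norm_real, Real.norm_of_nonneg hK0.le,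
    Complex.norm_ofNat] at h
  have p1 : 0 < ‖(Real.sinh κ : ℂ) + Ts‖ := norm_pos_iff.2 hKTs
  have p2 : 0 < ‖(Real.sinh κ : ℂ) + T'‖ := norm_pos_iff.2 hKT'
  have h6 : Real.sinh κ * ‖T' - Ts‖ ≤ κ * δ * ‖g‖ * ‖(Real.sinh κ : ℂ) + T'‖ := by
    rw [div_le_iff₀ (by positivity)] at h
    have h7 : κ * δ * (2 * ‖g‖ / ‖(Real.sinh κ : ℂ) + Ts‖) *
        (‖(Real.sinh κ : ℂ) + T'‖ * ‖(Real.sinh κ : ℂ) + Ts‖) =
        2 * (κ * δ * ‖g‖ * ‖(Real.sinh κ : ℂ) + T'‖) := by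
      field_simp
    rw [h7] at h
    linarith
  have hκK : κ ≤ Real.sinh κ := Real.self_le_sinh_iff.2 hκ.le
  have h8 : ‖T' - Ts‖ ≤ δ * ‖g‖ * (‖T'‖ + Real.sinh κ) := by
    have h9 : ‖(Real.sinh κ : ℂ) + T'‖ ≤ ‖T'‖ + Real.sinh κ := by
      refine (norm_add_le _ _).trans ?_
      rw [Complex.norm_real, Real.norm_of_nonneg hK0.le]
      linarith
    have h10 : Real.sinh κ * ‖T' - Ts‖ ≤ Real.sinh κ * (δ * ‖g‖ * (‖T'‖ + Real.sinh κ)) := by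
      refine h6.trans ?_
      calc κ * δ * ‖g‖ * ‖(Real.sinh κ : ℂ) + T'‖
          = κ * (δ * ‖g‖ * ‖(Real.sinh κ : ℂ) + T'‖) := by ring
        _ ≤ Real.sinh κ * (δ * ‖g‖ * (‖T'‖ + Real.sinh κ)) := by gcongr
    exact le_of_mul_le_mul_left h10 hK0
  have h9 : ‖T'‖ ≤ ‖Ts‖ + δ * ‖g‖ * (‖T'‖ + Real.sinh κ) := by
    have := norm_add_le (T' - Ts) Ts
    rw [sub_add_cancel] at this
    linarith
  rw [← hT']
  have hσ : 0 < σ := by linarith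
  have hKm0 : 0 < Km := lt_of_lt_of_le (by positivity) hKm
  have hεm : 0 < εm := lt_of_lt_of_le (by positivity) hε
  have q1 : ‖Ts‖ ≤ εm * σ := by
    have h11 : ‖Ts‖ ≤ (1 / e) * σ := by
      rw [one_div, inv_mul_eq_div, le_div_iff₀ he]
      linarith
    exact h11.trans (mul_le_mul_of_nonneg_right hε hσ.le)
  have q2 : Real.sinh κ ≤ εm * Km := by
    have h11 : Real.sinh κ ≤ (1 / e) * Km := by
      rw [one_div, inv_mul_eq_div, le_div_iff₀ he]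
      linarith
    exact h11.trans (mul_le_mul_of_nonneg_right hε hKm0.le)
  obtain ⟨G, hG⟩ : ∃ G, G = εm * ((1 + ηm) * σ + ηm * Km) := ⟨_, rfl⟩
  rw [← hG] at h4 h5
  have hg1 : ‖g‖ ≤ G := by
    have h11 : ‖g‖ ≤ ‖Ts‖ + η * (‖Ts‖ + Real.sinh κ) := by
      rw [hg]
      refine (norm_add_le _ _).trans ?_
      rw [norm_mul, Complex.norm_real, Real.norm_of_nonneg hη0]
      have h12 : ‖Ts + (Real.sinh κ : ℂ)‖ ≤ ‖Ts‖ + Real.sinh κ := by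
        refine (norm_add_le _ _).trans ?_
        rw [Complex.norm_real, Real.norm_of_nonneg hK0.le]
      have := mul_le_mul_of_nonneg_left h12 hη0
      linarith
    have h12 : η * (‖Ts‖ + Real.sinh κ) ≤ ηm * (εm * σ + εm * Km) :=
      mul_le_mul hηm (by linarith) (by positivity) (by linarith)
    rw [hG]
    nlinarith
  have hG0 : 0 ≤ G := (norm_nonneg g).trans hg1
  have h10 : ‖T'‖ ≤ ‖Ts‖ + δ * G * (‖T'‖ + Real.sinh κ) := by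
    refine h9.trans ?_
    have : δ * ‖g‖ * (‖T'‖ + Real.sinh κ) ≤ δ * G * (‖T'‖ + Real.sinh κ) := by gcongr
    linarith
  have h12 : e * ‖T'‖ * (1 - δ * G) ≤ e * ‖Ts‖ + δ * G * (e * Real.sinh κ) := by
    have := mul_le_mul_of_nonneg_left h10 he.le
    nlinarith
  have h13 : δ * G * (e * Real.sinh κ) ≤ δ * G * Km := by gcongr
  have h15 : e * ‖T'‖ * (1 - δ * G) ≤ τ' * (1 - δ * G) := by linarith
  exact le_of_mul_le_mul_right h15 (by linarith)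

theorem Ch_T {εm Km ηm τs h hm : ℝ} (he : 0 < e) (hκ : 0 < κ) (hε : 1 / e ≤ εm)
    (hK : e * Real.sinh κ ≤ Km) (h1 : 1 ≤ h) (hηm : h ≤ 1 + 2 * ηm) (hhm : h ≤ hm)
    {δ τ σ x : ℕ → ℝ} {κm : ℝ} (hκm : κ ≤ κm) {L : ℕ} (hc : CT εm Km ηm δ τ σ τs L)
    (hX : CX κm hm δ x L) (hx : ∀ n, n ≤ L → 0 < x n)
    {η : ℝ} (hs : e * (Real.sinh κ * |Real.tan (κ * η)|) ≤ τs) : ∀ n, n ≤ L →
    ∀ Q : ℂ, Real.cosh κ < Q.re → om κ Q ∈ Ch κ h (C0h κ h (δ 0) ((η : ℂ) * I)) δ n →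
      e * ‖Q - (Real.cosh κ : ℂ)‖ ≤ τ n := by
  have hK0 := Real.sinh_pos_iff.2 hκ
  obtain ⟨p1, -⟩ := hc.pos
  intro n
  induction n with
  | zero =>
    intro h0 Q hQ hw
    obtain ⟨a1, a2, a3⟩ := hc.pn 0 h0
    have hT : (Real.sinh κ : ℂ) * tanh (κ * ((η : ℂ) * I)) =
        ((Real.sinh κ * Real.tan (κ * η) : ℝ) : ℂ) * I := by
      rw [tanh_I]
      push_cast
      ring
    refine T_step (σ := σ 0) (T := (Real.sinh κ : ℂ) * tanh (κ * ((η : ℂ) * I))) he hκ hε hK h1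
      hηm p1 a2 ?_ ?_ hc.s0.1 hc.s0.2 a3 (hc.tn 0 h0) hQ ?_
    · rw [hT, re_ofReal_mul, I_re, mul_zero]
    · rw [hT, norm_mul, norm_I, mul_one, Complex.norm_real, Real.norm_eq_abs, abs_mul,
        abs_of_pos hK0]
      exact hs
    · have hw2 : ‖om κ Q - (kk κ : ℂ) * om0 κ ((η : ℂ) * I)‖ ≤
        κ * δ 0 * ‖(h : ℂ) - (kk κ : ℂ) * om0 κ ((η : ℂ) * I)‖ := hw
      rw [← om_Qe0_I hκ η] at hw2
      exact hw2
  | succ n ih =>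
    intro hn Q hQ hw
    obtain ⟨w, hwn, h2⟩ := hw
    obtain ⟨a1, a2, a3⟩ := hc.pn (n + 1) hn
    have hw1 : ‖w‖ < 1 := by
      refine (Ch_norm hκ hκm h1 hhm hX η n (by omega) w hwn).trans_lt ?_
      rw [Real.exp_lt_one_iff]
      have := hx n (by omega)
      have : 0 < 2 * κ * x n := by positivity
      linarith
    have hw0 : 1 + w ≠ 0 := by
      intro h3
      have h4 : w = -1 := by linear_combination h3
      rw [h4, norm_neg, norm_one] at hw1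
      exact lt_irrefl _ hw1
    obtain ⟨Q0, hQ0⟩ : ∃ Q0 : ℂ, Q0 = ((Real.exp κ : ℂ) + w * (Real.exp (-κ) : ℂ)) / (1 + w) :=
      ⟨_, rfl⟩
    have hts := two_sinh_c κ
    have hd : Q0 - (Real.exp (-κ) : ℂ) = 2 * (Real.sinh κ : ℂ) / (1 + w) := by
      rw [hQ0, hts]
      field_simp
      ring
    have hd0 : Q0 ≠ (Real.exp (-κ) : ℂ) := by
      intro h5
      rw [h5, sub_self] at hd
      have hne : (2 : ℂ) * (Real.sinh κ : ℂ) ≠ 0 :=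
        mul_ne_zero two_ne_zero (by exact_mod_cast hK0.ne')
      exact (div_ne_zero hne hw0) hd.symm
    have hom : om κ Q0 = w := by
      unfold om
      have h6 : (Real.exp κ : ℂ) - Q0 = w * (2 * (Real.sinh κ : ℂ) / (1 + w)) := by
        rw [hQ0, hts]
        field_simp
        ring
      rw [hd, h6]
      have hne : (2 : ℂ) * (Real.sinh κ : ℂ) / (1 + w) ≠ 0 :=
        div_ne_zero (mul_ne_zero two_ne_zero (by exact_mod_cast hK0.ne')) hw0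
      exact mul_div_cancel_right₀ _ hne
    have hre : Real.cosh κ < Q0.re := re_of_om hκ hd0 (by rw [hom]; exact hw1)
    have hIH := ih (by omega) Q0 hre (by rw [hom]; exact hwn)
    obtain ⟨T, hT⟩ : ∃ T : ℂ, T = Q0 - (Real.cosh κ : ℂ) := ⟨_, rfl⟩
    have hQ0T : Q0 = (Real.cosh κ : ℂ) + T := by rw [hT]; ring
    rw [← hT] at hIH
    obtain ⟨b1, b2, b3⟩ := hc.pn n (by omega)
    refine T_step (σ := σ (n + 1)) (T := T) he hκ hε hK h1 hηm b1 a2 ?_ hIH (hc.sn n (by omega)).1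
      (hc.sn n (by omega)).2 a3 (hc.tn (n + 1) hn) hQ ?_
    · rw [hQ0T, add_re, ofReal_re] at hre
      linarith
    · have hst := om_step κ (ne_zero_of_cosh hre) (ne_exp_neg hκ hre)
      rw [← hQ0T, hst, hom]
      exact h2

end Pool.Agent.helper12.RS
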