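import Pool.Agent.helper12.RS.Lam
import Pool.Agent.helper12.FF.Struct

/-!
# The near field in scaled variables

`LamN`: near data in the logit form.  `SPt`: the pointwise conditions in terms of the radicands
`S = Q²` of the links and `y = e (1 - 1/S)`.  `nPt_of`: `SPt → NPt`.
-/

namespace Pool.Agent.helper12.RS

open Complex ComplexConjugate Set Filter Topology
open Pool.Agent.helper31.EQ.Y Pool.Agent.helper31.EQ.R
open Pool.Agent.helper12.RP Pool.Agent.helper12.FF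

/-- Near data in the logit form; the functions of the nodes `n + 2` depend on `p` and
`y = e (1 - Q⁻²)`, they are defined on `DY n`. -/
structure LamN where
  DN : Set ℂ
  isOpen_DN : IsOpen DN
  conj_DN : ∀ p ∈ DN, conj p ∈ DN
  DY : ℕ → Set (ℂ × ℂ)
  isOpen_DY : ∀ n, IsOpen (DY n)
  conj_DY : ∀ n, ∀ p y : ℂ, (p, y) ∈ DY n → (conj p, conj y) ∈ DY n
  l0 : ℂ → ℂ
  r0 : ℂ → ℂ
  M0 : ℂ → ℂ
  l : ℕ → ℂ → ℂ → ℂ
  r : ℕ → ℂ → ℂ → ℂ
  M : ℕ → ℂ → ℂ → ℂ
  l0_diff : DifferentiableOn ℂ l0 DN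
  r0_diff : DifferentiableOn ℂ r0 DN
  M0_diff : DifferentiableOn ℂ M0 DN
  l_diff : ∀ n, ∀ p y : ℂ, (p, y) ∈ DY n →
    DifferentiableAt ℂ (fun q : ℂ × ℂ => l n q.1 q.2) (p, y)
  r_diff : ∀ n, ∀ p y : ℂ, (p, y) ∈ DY n →
    DifferentiableAt ℂ (fun q : ℂ × ℂ => r n q.1 q.2) (p, y)
  M_diff : ∀ n, ∀ p y : ℂ, (p, y) ∈ DY n →
    DifferentiableAt ℂ (fun q : ℂ × ℂ => M n q.1 q.2) (p, y)
  l0_conj : ∀ p ∈ DN, l0 (conj p) = conj (l0 p)
  r0_conj : ∀ p ∈ DN, r0 (conj p) = conj (r0 p)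
  M0_conj : ∀ p ∈ DN, M0 (conj p) = conj (M0 p)
  l_conj : ∀ n, ∀ p y : ℂ, (p, y) ∈ DY n → l n (conj p) (conj y) = conj (l n p y)
  r_conj : ∀ n, ∀ p y : ℂ, (p, y) ∈ DY n → r n (conj p) (conj y) = conj (r n p y)
  M_conj : ∀ n, ∀ p y : ℂ, (p, y) ∈ DY n → M n (conj p) (conj y) = conj (M n p y)

variable {e κ θ : ℝ}

theorem yv_diff (hκ : 0 < κ) {τ : ℂ} (h : 0 < τ.re) : DifferentiableAt ℂ (yv e κ) τ := by
  have h1 : DifferentiableAt ℂ (Qk κ) τ := by
    unfold Qk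
    exact (differentiableAt_id.const_mul _).const_add _
  have h2 := pow_ne_zero 2 (Qk_ne hκ h)
  unfold yv
  exact (((h1.pow 2).inv h2).const_sub _).const_mul _

theorem yv_conj (τ : ℂ) : yv e κ (conj τ) = conj (yv e κ τ) := by
  unfold yv
  rw [Qk_conj, map_mul, conj_ofReal, map_sub, map_one, map_inv₀, map_pow]

theorem CL_diff {f : ℂ → ℂ} {z : ℂ} (hf : DifferentiableAt ℂ f z)
    (h : 0 < (1 + exp (-(f z))).re) : DifferentiableAt ℂ (fun z => CL (f z)) z := by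
  have h1 : DifferentiableAt ℂ (fun z => 1 + exp (-(f z))) z := (hf.neg.cexp).const_add _
  unfold CL lc
  exact hf.add (h1.clog (Complex.mem_slitPlane_iff.2 (Or.inl h)))

theorem CL_diff2 {f : ℂ × ℂ → ℂ} {z : ℂ × ℂ} (hf : DifferentiableAt ℂ f z)
    (h : 0 < (1 + exp (-(f z))).re) : DifferentiableAt ℂ (fun z => CL (f z)) z := by
  have h1 : DifferentiableAt ℂ (fun z => 1 + exp (-(f z))) z := (hf.neg.cexp).const_add _
  unfold CL lc
  exact hf.add (h1.clog (Complex.mem_slitPlane_iff.2 (Or.inl h)))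

theorem CL_conj {l : ℂ} (h : 0 < (1 + exp (-l)).re) : CL (conj l) = conj (CL l) := by
  have h1 : 1 + exp (-(conj l)) = conj (1 + exp (-l)) := by
    rw [map_add, map_one, ← exp_conj, map_neg]
  unfold CL lc
  rw [h1, Complex.log_conj _ (slitPlane_arg_ne_pi (Complex.mem_slitPlane_iff.2 (Or.inl h))),
    map_add]

private theorem re_conj_exp (l : ℂ) : (1 + exp (-(conj l))).re = (1 + exp (-l)).re := by
  have h1 : 1 + exp (-(conj l)) = conj (1 + exp (-l)) := by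
    rw [map_add, map_one, ← exp_conj, map_neg]
  rw [h1, conj_re]

/-- the map `(p, τ) ↦ (p, y τ)` -/
theorem pair_yv (hκ : 0 < κ) {p τ : ℂ} (hτ : 0 < τ.re) :
    DifferentiableAt ℂ (fun q : ℂ × ℂ => ((q.1, yv e κ q.2) : ℂ × ℂ)) (p, τ) := by
  have h1 : DifferentiableAt ℂ (fun q : ℂ × ℂ => yv e κ q.2) (p, τ) :=
    DifferentiableAt.comp (f := fun q : ℂ × ℂ => q.2) (g := yv e κ) (p, τ) (yv_diff hκ hτ)
      differentiableAt_snd
  exact differentiableAt_fst.prodMk h1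

/-- composition with `(p, τ) ↦ (p, y τ)` -/
theorem comp_yv (hκ : 0 < κ) {f : ℂ → ℂ → ℂ} {p τ : ℂ} (hτ : 0 < τ.re)
    (h : DifferentiableAt ℂ (fun q : ℂ × ℂ => f q.1 q.2) (p, yv e κ τ)) :
    DifferentiableAt ℂ (fun q : ℂ × ℂ => f q.1 (yv e κ q.2)) (p, τ) := by
  have h2 := pair_yv (e := e) hκ (p := p) hτ
  exact DifferentiableAt.comp (f := fun q : ℂ × ℂ => ((q.1, yv e κ q.2) : ℂ × ℂ))
    (g := fun q : ℂ × ℂ => f q.1 q.2) (p, τ) h h2

/-- The near record. -/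
noncomputable def LamN.toNear (D : LamN) (e : ℝ) (hκ : 0 < κ) : NearN where
  DN := {p | p ∈ D.DN ∧ 0 < (1 + exp (-(D.l0 p))).re}
  isOpen_DN := by
    rw [isOpen_iff_mem_nhds]
    rintro p ⟨hp, h⟩
    have hc : ContinuousAt (fun p => (1 + exp (-(D.l0 p))).re) p := by
      have h1 := ((D.l0_diff p hp).differentiableAt (D.isOpen_DN.mem_nhds hp)).continuousAt
      have h2 : ContinuousAt (fun p => 1 + exp (-(D.l0 p))) p :=
        continuousAt_const.add (cont_exp h1.neg)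
      exact Complex.continuous_re.continuousAt.comp h2
    filter_upwards [D.isOpen_DN.mem_nhds hp, hc.eventually (isOpen_Ioi.mem_nhds h)] with q h1 h2
    exact ⟨h1, h2⟩
  conj_DN := by
    rintro p ⟨hp, h⟩
    refine ⟨D.conj_DN p hp, ?_⟩
    rw [D.l0_conj p hp, re_conj_exp]
    exact h
  C0 := fun p => CL (D.l0 p)
  X0 := D.r0
  M0 := D.M0
  S := fun n => {q | (q.1, yv e κ q.2) ∈ D.DY n ∧ 0 < q.2.re ∧
    0 < (1 + exp (-(D.l n q.1 (yv e κ q.2)))).re}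
  isOpen_S := by
    intro n
    rw [isOpen_iff_mem_nhds]
    rintro ⟨p, τ⟩ ⟨hp, hτ, h⟩
    have hc : ContinuousAt (fun q : ℂ × ℂ => (1 + exp (-(D.l n q.1 (yv e κ q.2)))).re) (p, τ) := by
      have h1 := (comp_yv hκ hτ (D.l_diff n p (yv e κ τ) hp)).continuousAt
      have h2 : ContinuousAt (fun q : ℂ × ℂ => 1 + exp (-(D.l n q.1 (yv e κ q.2)))) (p, τ) :=
        continuousAt_const.add (cont_exp h1.neg)
      exact Complex.continuous_re.continuousAt.comp h2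
    have hc2 : ContinuousAt (fun q : ℂ × ℂ => q.2.re) (p, τ) :=
      Complex.continuous_re.continuousAt.comp continuousAt_snd
    filter_upwards [(pair_yv (e := e) hκ (p := p) hτ).continuousAt.eventually
        ((D.isOpen_DY n).mem_nhds hp), hc2.eventually (isOpen_Ioi.mem_nhds hτ), hc.eventually (isOpen_Ioi.mem_nhds h)]
      with q h1 h2 h3
    exact ⟨h1, h2, h3⟩
  conj_S := by
    rintro n p τ ⟨hp, hτ, h⟩
    have hp' : (p, yv e κ τ) ∈ D.DY n := hp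
    have hτ' : 0 < τ.re := hτ
    have h' : 0 < (1 + exp (-(D.l n p (yv e κ τ)))).re := h
    refine ⟨?_, ?_, ?_⟩
    · show (conj p, yv e κ (conj τ)) ∈ D.DY n
      rw [yv_conj]
      exact D.conj_DY n p _ hp'
    · show 0 < (conj τ).re
      rw [conj_re]
      exact hτ'
    · show 0 < (1 + exp (-(D.l n (conj p) (yv e κ (conj τ))))).re
      rw [yv_conj, D.l_conj n p _ hp', re_conj_exp]
      exact h'
  C := fun n p τ => CL (D.l n p (yv e κ τ))
  X := fun n p τ => D.r n p (yv e κ τ)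
  M := fun n p τ => D.M n p (yv e κ τ)
  C0_diff := by
    rintro p ⟨hp, h⟩
    exact (CL_diff ((D.l0_diff p hp).differentiableAt (D.isOpen_DN.mem_nhds hp))
      h).differentiableWithinAt
  X0_diff := D.r0_diff.mono (fun p hp => hp.1)
  M0_diff := D.M0_diff.mono (fun p hp => hp.1)
  C_diff := by
    rintro n p τ ⟨hp, hτ, h⟩
    exact CL_diff2 (f := fun q : ℂ × ℂ => D.l n q.1 (yv e κ q.2))
      (comp_yv hκ hτ (D.l_diff n p (yv e κ τ) hp)) h
  X_diff := by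
    rintro n p τ ⟨hp, hτ, -⟩
    exact comp_yv hκ hτ (D.r_diff n p (yv e κ τ) hp)
  M_diff := by
    rintro n p τ ⟨hp, hτ, -⟩
    exact comp_yv hκ hτ (D.M_diff n p (yv e κ τ) hp)
  C0_conj := by
    rintro p ⟨hp, h⟩
    rw [D.l0_conj p hp, CL_conj h]
  X0_conj := fun p hp => D.r0_conj p hp.1
  M0_conj := fun p hp => D.M0_conj p hp.1
  C_conj := by
    rintro n p τ ⟨hp, hτ, h⟩
    have hp' : (p, yv e κ τ) ∈ D.DY n := hp
    rw [yv_conj, D.l_conj n p _ hp', CL_conj h]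
  X_conj := by
    rintro n p τ ⟨hp, hτ, h⟩
    have hp' : (p, yv e κ τ) ∈ D.DY n := hp
    rw [yv_conj, D.r_conj n p _ hp']
  M_conj := by
    rintro n p τ ⟨hp, hτ, h⟩
    have hp' : (p, yv e κ τ) ∈ D.DY n := hp
    rw [yv_conj, D.M_conj n p _ hp']

noncomputable section

/-- the radicand of the link after the node number `n` (`n = 0` is the first near node) -/
def cS (D : LamN) (e κ : ℝ) (p : ℂ) (x : ℕ → ℂ) : ℕ → ℂ
  | 0 => S0 e κ (tanh (κ * p)) (D.l0 p) (D.r0 p * x 0)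
  | n + 1 => Sn e κ ((e : ℂ) * (1 - (cS D e κ p x n)⁻¹))
      (D.l n p ((e : ℂ) * (1 - (cS D e κ p x n)⁻¹)))
      (D.r n p ((e : ℂ) * (1 - (cS D e κ p x n)⁻¹)) * x (n + 1))

/-- `y = e (1 - 1/S)` of that link -/
def cY (D : LamN) (e κ : ℝ) (p : ℂ) (x : ℕ → ℂ) (n : ℕ) : ℂ :=
  (e : ℂ) * (1 - (cS D e κ p x n)⁻¹)

/-- position of that link -/
def cT (D : LamN) (e κ : ℝ) (p : ℂ) (x : ℕ → ℂ) (n : ℕ) : ℂ :=
  (cS D e κ p x n ^ ((1 / 2 : ℝ) : ℂ) - (Real.cosh κ : ℂ)) / (Real.sinh κ : ℂ)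

/-- logit centre, radius and preconditioner of the near node `n` -/
def nl (D : LamN) (e κ : ℝ) (p : ℂ) (x : ℕ → ℂ) : ℕ → ℂ
  | 0 => D.l0 p
  | n + 1 => D.l n p (cY D e κ p x n)

def nr (D : LamN) (e κ : ℝ) (p : ℂ) (x : ℕ → ℂ) : ℕ → ℂ
  | 0 => D.r0 p
  | n + 1 => D.r n p (cY D e κ p x n)

def nM (D : LamN) (e κ : ℝ) (p : ℂ) (x : ℕ → ℂ) : ℕ → ℂ
  | 0 => D.M0 p
  | n + 1 => D.M n p (cY D e κ p x n)

end

/-- **The pointwise conditions in scaled form.** The near nodes have the numbers `0, ..., L`. -/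
structure SPt (d : FarN e κ θ) (D : LamN) (L : ℕ) (p : ℂ) (x : ℕ → ℂ) : Prop where
  mem : p ∈ D.DN
  dom : ∀ n, n < L → (p, cY D e κ p x n) ∈ D.DY n
  strip : |p.im| < Real.pi / (2 * κ)
  r_ne : ∀ n, n < L + 1 → nr D e κ p x n ≠ 0
  M_ne : ∀ n, n < L + 1 → nM D e κ p x n ≠ 0
  lc : ∀ n, n < L + 1 → LC (nl D e κ p x n) (nr D e κ p x n * x n)
  w0 : 1 - (Hh κ : ℂ) ^ 2 * exp (-(2 * ((LA e κ : ℂ) + lF (D.l0 p) (D.r0 p * x 0))) / e) *
    (1 - tanh (κ * p) ^ 2) ∈ slitPlane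
  SH : SH e κ (tanh (κ * p)) (D.l0 p) (D.r0 p * x 0) ∈ slitPlane
  S : ∀ n, n < L + 1 → cS D e κ p x n ∈ slitPlane
  re : ∀ n, n < L → Real.cosh κ < (cS D e κ p x n ^ ((1 / 2 : ℝ) : ℂ)).re
  ent : cT D e κ p x L ∈ d.Ω 0
  close : ∀ n, n < L → ‖x n - nM D e κ p x n * (x n - (1 - exp (CL (nl D e κ p x n) -
    (e : ℂ) / 2 * log (cS D e κ p x n) +
    lF (nl D e κ p x (n + 1)) (nr D e κ p x (n + 1) * x (n + 1)))) / nr D e κ p x n)‖ < θ
  closeL : ∀ χ : ℂ, ‖χ‖ ≤ ‖d.X 0 (cT D e κ p x L)‖ →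
    ‖x L - nM D e κ p x L * (x L - (1 - exp (CL (nl D e κ p x L)) *
    ((1 - fT e κ (cT D e κ p x L)) * (1 + qq e κ (shf κ (cT D e κ p x L)) * χ))) /
      nr D e κ p x L)‖ < θ

section conv

variable {d : FarN e κ θ} {D : LamN} {L : ℕ} {p : ℂ} {x : ℕ → ℂ}

theorem cS_zero : cS D e κ p x 0 = S0 e κ (tanh (κ * p)) (nl D e κ p x 0)
    (nr D e κ p x 0 * x 0) := rfl

theorem cS_succ (n : ℕ) : cS D e κ p x (n + 1) = Sn e κ (cY D e κ p x n)
    (nl D e κ p x (n + 1)) (nr D e κ p x (n + 1) * x (n + 1)) := rfl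

theorem Qk_cT (hκ : 0 < κ) (n : ℕ) :
    Qk κ (cT D e κ p x n) = cS D e κ p x n ^ ((1 / 2 : ℝ) : ℂ) := by
  have hs : (Real.sinh κ : ℂ) ≠ 0 := by exact_mod_cast (Real.sinh_pos_iff.2 hκ).ne'
  unfold Qk cT
  field_simp
  ring

theorem cT_re (hκ : 0 < κ) {n : ℕ} (h : Real.cosh κ < (cS D e κ p x n ^ ((1 / 2 : ℝ) : ℂ)).re) :
    0 < (cT D e κ p x n).re := by
  have hs := Real.sinh_pos_iff.2 hκ
  unfold cT
  rw [Complex.div_ofReal_re]
  apply div_pos _ hs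
  rw [Complex.sub_re, Complex.ofReal_re]
  linarith

theorem yv_cT (hκ : 0 < κ) {n : ℕ} (h : cS D e κ p x n ∈ slitPlane) :
    yv e κ (cT D e κ p x n) = cY D e κ p x n :=
  yv_of (slitPlane_ne_zero h) (Qk_cT hκ n)

/-- positions agree -/
theorem aP_eq (he : 0 < e) (hκ : 0 < κ) (h : SPt d D L p x) : ∀ n, n ≤ L →
    aP (farF he hκ d) (D.toNear e hκ) L p x n = cT D e κ p x n := by
  intro n
  induction n with
  | zero =>
    intro _
    rw [aP_zero]
    unfold step0F cT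
    have h1 := h.lc 0 (by omega)
    have h2 := rad0F_L he hκ (p := p) h1
    rw [cS_zero, ← h2]
    rfl
  | succ n ih =>
    intro hn
    have hl : n < L := hn
    have h0 := ih hl.le
    rw [aP_succ hl, h0]
    have h1 := h.lc (n + 1) (by omega)
    have h2 := radF_L he hκ (τ := cT D e κ p x n) h1
    rw [yv_cT hκ (h.S n (by omega))] at h2
    have h3 : (D.toNear e hκ).C n p (cT D e κ p x n) = CL (nl D e κ p x (n + 1)) := by
      show CL (D.l n p (yv e κ (cT D e κ p x n))) = _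
      rw [yv_cT hκ (h.S n (by omega))]
      rfl
    have h4 : (D.toNear e hκ).X n p (cT D e κ p x n) = nr D e κ p x (n + 1) := by
      show D.r n p (yv e κ (cT D e κ p x n)) = _
      rw [yv_cT hκ (h.S n (by omega))]
      rfl
    rw [h3, h4]
    unfold stepF
    rw [h2]
    rfl

theorem near_C (hκ : 0 < κ) {n : ℕ} (h : cS D e κ p x n ∈ slitPlane) :
    (D.toNear e hκ).C n p (cT D e κ p x n) = CL (nl D e κ p x (n + 1)) ∧
    (D.toNear e hκ).X n p (cT D e κ p x n) = nr D e κ p x (n + 1) ∧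
    (D.toNear e hκ).M n p (cT D e κ p x n) = nM D e κ p x (n + 1) := by
  refine ⟨?_, ?_, ?_⟩
  · show CL (D.l n p (yv e κ (cT D e κ p x n))) = _
    rw [yv_cT hκ h]
    rfl
  · show D.r n p (yv e κ (cT D e κ p x n)) = _
    rw [yv_cT hκ h]
    rfl
  · show D.M n p (yv e κ (cT D e κ p x n)) = _
    rw [yv_cT hκ h]
    rfl

/-- the law of the last near node -/
theorem law_last (he : 0 < e) (hκ : 0 < κ) {l r τ' X y : ℂ} (hτ' : 0 < τ'.re) :
    lawF e κ (CL l) 1 r τ' (fF (cC e κ τ') (cv e κ τ' - cv e κ τ' * X * y)) =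
      (1 - exp (CL l) * ((1 - fT e κ τ') * (1 + qq e κ (shf κ τ') * (X * y)))) / r := by
  have hs' := shf_re hκ hτ'.le
  have h1 : cv e κ τ' - cv e κ τ' * X * y = cv e κ τ' * (1 - X * y) := by ring
  have h2 : fF (cC e κ τ') (cv e κ τ' * (1 - X * y)) =
      fT e κ (shf κ τ') * (1 + qq e κ (shf κ τ') * (X * y)) := fF_node he hκ hs'
  have h3 := one_sub_fT he hκ hτ'
  unfold lawF
  rw [h1, h2, h3]
  congr 1
  ring

/-- **`SPt → NPt`.** -/
theorem nPt_of (he : 0 < e) (hκ : 0 < κ) (hx : x ∈ KK) (h : SPt d D L p x) :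
    NPt (farF he hκ d) (D.toNear e hκ) L p x := by
  have hP := aP_eq he hκ h
  have h0 := h.lc 0 (by omega)
  have hE0 : 0 < (1 + exp (-(D.l0 p))).re := h0.E
  have hre : ∀ n, n < L → 0 < (cT D e κ p x n).re := fun n hn => cT_re hκ (h.re n hn)
  have hreL : 0 < (cT D e κ p x L).re := d.re 0 _ h.ent
  have hV : ∀ n, n < L → aV (farF he hκ d) (D.toNear e hκ) L p x n =
      fF (CL (nl D e κ p x (n + 1))) (1 - nr D e κ p x (n + 1) * x (n + 1)) := by
    intro n hn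
    obtain ⟨c1, c2, -⟩ := near_C hκ (h.S n (by omega)) (D := D) (e := e) (p := p) (x := x)
    rw [aV_lt hn, hP n hn.le, c1, c2]
  refine ⟨⟨h.mem, hE0⟩, mem_univ _, h.strip, h.r_ne 0 (by omega), h.M_ne 0 (by omega), ?_, ?_,
    h0.g, h0.slit, ?_, ?_, ?_, ?_, ?_, ?_, ?_, ?_, ?_, ?_⟩
  · intro n hn
    obtain ⟨-, c2, -⟩ := near_C hκ (h.S n (by omega)) (D := D) (e := e) (p := p) (x := x)
    rw [hP n hn.le, c2]
    exact h.r_ne (n + 1) (by omega)
  · intro n hn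
    obtain ⟨-, -, c3⟩ := near_C hκ (h.S n (by omega)) (D := D) (e := e) (p := p) (x := x)
    rw [hP n hn.le, c3]
    exact h.M_ne (n + 1) (by omega)
  · have h1 := h.w0
    have h2 := rho_L he hκ h0
    have h3 : rho e κ (fF ((D.toNear e hκ).C0 p) (1 - (D.toNear e hκ).X0 p * x 0)) =
      (Hh κ : ℂ) * exp (-((LA e κ : ℂ) + lF (D.l0 p) (D.r0 p * x 0)) / e) := h2
    rw [h3]
    have h4 : ((Hh κ : ℂ) * exp (-((LA e κ : ℂ) + lF (D.l0 p) (D.r0 p * x 0)) / e)) ^ 2 =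
        (Hh κ : ℂ) ^ 2 * exp (-(2 * ((LA e κ : ℂ) + lF (D.l0 p) (D.r0 p * x 0))) / e) := by
      rw [mul_pow, sq (exp _), ← exp_add]
      congr 2
      ring
    rw [h4]
    exact h1
  · have h1 := h.S 0 (by omega)
    rw [cS_zero, ← rad0F_L he hκ h0] at h1
    exact h1
  · have h1 : RS.SH e κ (tanh (κ * p)) (nl D e κ p x 0) (nr D e κ p x 0 * x 0) ∈ slitPlane := h.SH
    rw [← radH_L he hκ (p := p) h0] at h1
    exact h1
  · intro n hn
    rw [hP n hn.le]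
    exact hre n hn
  · intro n hn
    rw [hP n hn.le]
    refine ⟨?_, hre n hn, ?_⟩
    · show (p, yv e κ (cT D e κ p x n)) ∈ D.DY n
      rw [yv_cT hκ (h.S n (by omega))]
      exact h.dom n hn
    show 0 < (1 + exp (-(D.l n p (yv e κ (cT D e κ p x n))))).re
    rw [yv_cT hκ (h.S n (by omega))]
    exact (h.lc (n + 1) (by omega)).E
  · intro n hn
    obtain ⟨-, c2, -⟩ := near_C hκ (h.S n (by omega)) (D := D) (e := e) (p := p) (x := x)
    rw [hP n hn.le, c2]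
    exact (h.lc (n + 1) (by omega)).g
  · intro n hn
    obtain ⟨c1, c2, -⟩ := near_C hκ (h.S n (by omega)) (D := D) (e := e) (p := p) (x := x)
    rw [hP n hn.le, c1, c2]
    exact (h.lc (n + 1) (by omega)).slit
  · intro n hn
    obtain ⟨c1, c2, -⟩ := near_C hκ (h.S n (by omega)) (D := D) (e := e) (p := p) (x := x)
    rw [hP n hn.le, c1, c2, radF_L he hκ (h.lc (n + 1) (by omega)),
      yv_cT hκ (h.S n (by omega)), ← cS_succ]
    exact h.S (n + 1) (by omega)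
  · rw [hP L le_rfl]
    exact h.ent
  · intro n hn
    have hS := slitPlane_ne_zero (h.S n hn)
    -- centre, radius, preconditioner of the node `n`
    rcases Nat.lt_succ_iff_lt_or_eq.1 hn with hl | hl
    · -- next node is near
      have hc := h.close n hl
      have hlaw : lawF e κ (CL (nl D e κ p x n)) 1 (nr D e κ p x n) (cT D e κ p x n)
          (fF (CL (nl D e κ p x (n + 1))) (1 - nr D e κ p x (n + 1) * x (n + 1))) =
          (1 - exp (CL (nl D e κ p x n) - (e : ℂ) / 2 * log (cS D e κ p x n) +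
            lF (nl D e κ p x (n + 1)) (nr D e κ p x (n + 1) * x (n + 1)))) / nr D e κ p x n :=
        lawF_L hS (Qk_cT hκ n) (h.lc (n + 1) (by omega))
      rw [← hlaw] at hc
      rcases n with _ | m
      · rw [aPhi_zero, hV 0 hl, hP 0 (by omega)]
        exact hc
      · have hm : m < L := by omega
        obtain ⟨c1, c2, c3⟩ := near_C hκ (h.S m (by omega)) (D := D) (e := e) (p := p) (x := x)
        rw [aPhi_succ hm, hV (m + 1) hl, hP m (by omega), hP (m + 1) (by omega), c1, c2, c3]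
        exact hc
    · -- next node is far
      subst hl
      have hX : ‖d.X 0 (cT D e κ p x n) * x (n + 1)‖ ≤ ‖d.X 0 (cT D e κ p x n)‖ := by
        rw [norm_mul]
        exact mul_le_of_le_one_right (norm_nonneg _) (hx (n + 1))
      have hc := h.closeL _ hX
      rw [← law_last he hκ hreL] at hc
      have hVL : aV (farF he hκ d) (D.toNear e hκ) n p x n =
          fF (cC e κ (cT D e κ p x n)) (cv e κ (cT D e κ p x n) -
            cv e κ (cT D e κ p x n) * d.X 0 (cT D e κ p x n) * x (n + 1)) := by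
        rw [aV_last, hP n le_rfl]
        rfl
      rcases n with _ | m
      · rw [aPhi_zero, hVL, hP 0 le_rfl]
        exact hc
      · obtain ⟨c1, c2, c3⟩ := near_C hκ (h.S m (by omega)) (D := D) (e := e) (p := p) (x := x)
        rw [aPhi_succ (by omega), hVL, hP m (by omega), hP (m + 1) (by omega), c1, c2, c3]
        exact hc

end conv

/-- **The result for one pair `(e, κ)`.** -/
theorem rdataF_of_SPt (he : 0 < e) (hκ : 0 < κ) (hθ0 : 0 ≤ θ) (hθ1 : θ < 1) (d : FarN e κ θ)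
    (D : LamN) (L : ℕ) {η : ℝ} (hη : 0 < η)
    (hseg : ∀ y : ℝ, 0 ≤ y → y ≤ η → ∀ x ∈ KK, SPt d D L ((y : ℂ) * I) x)
    (h0 : ∀ x0 : ℂ, ‖x0‖ ≤ 1 →
      Hh κ * Real.exp (-(LA e κ + (lF (D.l0 0) (D.r0 0 * x0)).re) / e) < 1)
    (test : ∀ x0 : ℂ, ‖x0‖ < θ → (exp (lF (D.l0 ((η : ℂ) * I)) (D.r0 ((η : ℂ) * I) * x0) +
        (e : ℂ) / 2 * log (SH e κ (tanh (κ * ((η : ℂ) * I))) (D.l0 ((η : ℂ) * I))
          (D.r0 ((η : ℂ) * I) * x0)))).re ≠ 1 / 2) :
    Nonempty (RDataF e κ) := by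
  have hsp := hseg
  refine nonempty_RDataF_N hκ hθ0 hθ1 (farF he hκ d) (D.toNear e hκ) L hη
    (fun y hy hy2 x hx => nPt_of he hκ hx (hseg y hy hy2 x hx)) ?_ ?_
  · intro x0 hx0
    have h1 := hsp 0 le_rfl hη.le (fun _ => x0) (fun _ => hx0)
    rw [ofReal_zero, zero_mul] at h1
    have h2 : LC (D.l0 0) (D.r0 0 * x0) := h1.lc 0 (by omega)
    have h3 := rho_L he hκ h2
    show ‖rho e κ (fF (CL (D.l0 0)) (1 - D.r0 0 * x0))‖ < 1
    rw [h3, norm_mul, Complex.norm_real, Real.norm_of_nonneg (Hh_pos hκ).le, Complex.norm_exp]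
    have h4 : (-((LA e κ : ℂ) + lF (D.l0 0) (D.r0 0 * x0)) / e).re =
        -(LA e κ + (lF (D.l0 0) (D.r0 0 * x0)).re) / e := by
      rw [Complex.div_ofReal_re, Complex.neg_re, Complex.add_re, Complex.ofReal_re]
    rw [h4]
    exact h0 x0 hx0
  · intro x hx hfix
    have h1 := hsp η hη.le le_rfl x hx
    have h2 : LC (D.l0 ((η : ℂ) * I)) (D.r0 ((η : ℂ) * I) * x 0) := h1.lc 0 (by omega)
    have hx0 : ‖x 0‖ < θ := by
      rw [hfix 0]
      exact (nPt_of he hκ hx h1).close 0 (by omega)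
    have h3 := test (x 0) hx0
    have h4 := radH_L he hκ (p := (η : ℂ) * I) h2
    have h5 := h2.log
    have h6 := exp_log (slitPlane_ne_zero h2.slit)
    have h7 : SH e κ (tanh (κ * ((η : ℂ) * I))) (D.l0 ((η : ℂ) * I))
        (D.r0 ((η : ℂ) * I) * x 0) ≠ 0 := slitPlane_ne_zero h1.SH
    rw [exp_add, ← h5, h6] at h3
    have h8 : H0 e κ ((η : ℂ) * I) (fF ((D.toNear e hκ).C0 ((η : ℂ) * I))
        (1 - (D.toNear e hκ).X0 ((η : ℂ) * I) * x 0)) =
        fF (CL (D.l0 ((η : ℂ) * I))) (1 - D.r0 ((η : ℂ) * I) * x 0) *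
          exp ((e : ℂ) / 2 * log (SH e κ (tanh (κ * ((η : ℂ) * I))) (D.l0 ((η : ℂ) * I))
            (D.r0 ((η : ℂ) * I) * x 0))) := by
      show fF (CL (D.l0 ((η : ℂ) * I))) (1 - D.r0 ((η : ℂ) * I) * x 0) *
        radH e κ ((η : ℂ) * I) (fF (CL (D.l0 ((η : ℂ) * I)))
          (1 - D.r0 ((η : ℂ) * I) * x 0)) ^ ((e / 2 : ℝ) : ℂ) = _
      rw [h4, cpow_def_of_ne_zero h7]
      congr 2
      push_cast
      ring
    rw [h8]
    exact h3

end Pool.Agent.helper12.RS
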