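import Pool.Agent.helper12.RS.PtY

/-!
# The two charts of the corner
-/

namespace Pool.Agent.helper12.RS

open Complex ComplexConjugate Set Filter Topology
open Pool.Agent.helper31.EQ.Y Pool.Agent.helper31.EQ.R
open Pool.Agent.helper12.RP Pool.Agent.helper12.FF

variable {e κ : ℝ}

/-- polar form in the right half plane -/
theorem polar {T : ℂ} (h : 0 < T.re) :
    T = (‖T‖ : ℂ) * exp (I * (arg T : ℂ)) ∧ |arg T| < Real.pi / 2 ∧ 0 < ‖T‖ := by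
  refine ⟨?_, Complex.abs_arg_lt_pi_div_two_iff.2 (Or.inl h), ?_⟩
  · rw [mul_comm I]
    exact (Complex.norm_mul_exp_arg_mul_I T).symm
  · rw [norm_pos_iff]
    intro h0
    rw [h0, zero_re] at h
    exact lt_irrefl _ h

/-- chart A: `s = e ‖T‖` -/
theorem chartA (he : 0 < e) (hκ : 0 < κ) {Q : ℂ} (hQ : Real.cosh κ < Q.re) :
    ∃ s B φ : ℝ, s = e * ‖Q - (Real.cosh κ : ℂ)‖ ∧ s * B = e * κ / 2 ∧ 0 < B ∧
      |φ| < Real.pi / 2 ∧ ∀ (b : PtB) (U : ℂ), b.ep = ((1 / e : ℝ) : ℂ) → b.s = (s : ℂ) →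
      b.B = (B : ℂ) → U = exp (I * (φ : ℂ)) → ∀ L R x : ℂ, MR e κ s B ⟨⟨b, L, R, x⟩, U⟩ Q := by
  obtain ⟨T, hT⟩ : ∃ T, T = Q - (Real.cosh κ : ℂ) := ⟨_, rfl⟩
  have hTr : 0 < T.re := by
    rw [hT, sub_re, ofReal_re]
    linarith
  obtain ⟨p1, p2, p3⟩ := polar hTr
  have hs : 0 < e * ‖T‖ := mul_pos he p3
  refine ⟨e * ‖T‖, e * κ / 2 / (e * ‖T‖), arg T, by rw [hT], ?_, by positivity, p2, ?_⟩
  · field_simp
  · intro b U hb1 hb2 hb3 hU L R x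
    have hbr : BR e κ (e * ‖T‖) (e * κ / 2 / (e * ‖T‖)) b := by
      refine ⟨hb1, hb2, hb3, hs, by positivity, ?_⟩
      field_simp
    refine ⟨hbr, ?_, hQ⟩
    show Q = (Real.cosh κ : ℂ) + b.se * U
    rw [hbr.se_eq, hU]
    have h1 : ((e * ‖T‖ / e : ℝ) : ℂ) = (‖T‖ : ℂ) := by
      congr 1
      field_simp
    rw [h1, ← p1, hT]
    ring

/-- chart B: `s = e κ/2` -/
theorem chartB (he : 0 < e) (hκ : 0 < κ) {Q : ℂ} (hQ : Real.cosh κ < Q.re) :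
    ∃ u φ : ℝ, (e * κ / 2) * u = e * ‖Q - (Real.cosh κ : ℂ)‖ ∧ 0 < u ∧
      |φ| < Real.pi / 2 ∧ ∀ (b : PtB) (U : ℂ), b.ep = ((1 / e : ℝ) : ℂ) →
      b.s = ((e * κ / 2 : ℝ) : ℂ) → b.B = 1 → U = (u : ℂ) * exp (I * (φ : ℂ)) →
      ∀ L R x : ℂ, MR e κ (e * κ / 2) 1 ⟨⟨b, L, R, x⟩, U⟩ Q := by
  obtain ⟨T, hT⟩ : ∃ T, T = Q - (Real.cosh κ : ℂ) := ⟨_, rfl⟩
  have hTr : 0 < T.re := by
    rw [hT, sub_re, ofReal_re]
    linarith
  obtain ⟨p1, p2, p3⟩ := polar hTr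
  refine ⟨‖T‖ / (κ / 2), arg T, ?_, by positivity, p2, ?_⟩
  · rw [← hT]
    field_simp
  · intro b U hb1 hb2 hb3 hU L R x
    have hbr : BR e κ (e * κ / 2) 1 b := by
      refine ⟨hb1, hb2, by rw [hb3]; norm_num, by positivity, by norm_num, ?_⟩
      field_simp
    refine ⟨hbr, ?_, hQ⟩
    show Q = (Real.cosh κ : ℂ) + b.se * U
    rw [hbr.se_eq, hU]
    have h1 : ((e * κ / 2 / e : ℝ) : ℂ) * (((‖T‖ / (κ / 2) : ℝ) : ℂ) * exp (I * (arg T : ℂ))) =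
        (‖T‖ : ℂ) * exp (I * (arg T : ℂ)) := by
      rw [← mul_assoc, ← ofReal_mul]
      congr 2
      field_simp
    rw [h1, ← p1, hT]
    ring

/-- the rotation factors have modulus one -/
theorem rot_norm {c s φ : ℝ} {C H J X1 X3 : ℂ} (hC : C = (c : ℂ) * I) (hH : H = (-1 / 2) * I)
    (hJ : J = I) (h1 : X1 = (s : ℂ)) (h3 : X3 = (φ : ℂ)) :
    ‖exp (C * ((H * (exp (J * X3) - exp (-(J * X3)))) * X1))‖ = 1 := by
  have e1 : H * (exp (J * X3) - exp (-(J * X3))) = ((Real.sin φ : ℝ) : ℂ) := by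
    rw [hH, hJ, h3, Complex.ofReal_sin, Complex.sin]
    have e2 : I * (φ : ℂ) = (φ : ℂ) * I := mul_comm _ _
    rw [e2, neg_mul]
    have e3 : -((φ : ℂ) * I) = -(φ : ℂ) * I := by ring
    rw [e3]
    ring_nf
  rw [e1, hC, h1, Complex.norm_exp]
  have e4 : ((c : ℂ) * I * (((Real.sin φ : ℝ) : ℂ) * (s : ℂ))).re = 0 := by
    simp [Complex.mul_re]
  rw [e4, Real.exp_zero]

end Pool.Agent.helper12.RS
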