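import Pool.Agent.helper12.RS.Nodes
import Pool.Agent.helper12.FF.Last

/-!
# The entry into the far field in terms of `Q = √S`
-/

namespace Pool.Agent.helper12.RS

open Complex ComplexConjugate Set Filter Topology
open Pool.Agent.helper31.EQ.Y Pool.Agent.helper31.EQ.R
open Pool.Agent.helper12.RP Pool.Agent.helper12.FF

variable {e κ : ℝ}

/-- position for the ratio `Q` -/
noncomputable def tQ (κ : ℝ) (Q : ℂ) : ℂ := (Q - (Real.cosh κ : ℂ)) / (Real.sinh κ : ℂ)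

theorem tQ_sub (hκ : 0 < κ) (Q : ℂ) : tQ κ Q - 1 = (Q - (Real.exp κ : ℂ)) / (Real.sinh κ : ℂ) := by
  have hs : (Real.sinh κ : ℂ) ≠ 0 := by exact_mod_cast (Real.sinh_pos_iff.2 hκ).ne'
  have h1 : (Real.exp κ : ℂ) = (Real.cosh κ : ℂ) + (Real.sinh κ : ℂ) := by
    rw [← ofReal_add, Real.cosh_add_sinh]
  unfold tQ
  rw [h1]
  field_simp
  ring

theorem tQ_add (hκ : 0 < κ) (Q : ℂ) :
    tQ κ Q + 1 = (Q - (Real.exp (-κ) : ℂ)) / (Real.sinh κ : ℂ) := by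
  have hs : (Real.sinh κ : ℂ) ≠ 0 := by exact_mod_cast (Real.sinh_pos_iff.2 hκ).ne'
  have h1 : (Real.exp (-κ) : ℂ) = (Real.cosh κ : ℂ) - (Real.sinh κ : ℂ) := by
    rw [← ofReal_sub, Real.cosh_sub_sinh]
  unfold tQ
  rw [h1]
  field_simp
  ring

theorem Qk_tQ (hκ : 0 < κ) (Q : ℂ) : Qk κ (tQ κ Q) = Q := by
  have hs : (Real.sinh κ : ℂ) ≠ 0 := by exact_mod_cast (Real.sinh_pos_iff.2 hκ).ne'
  unfold Qk tQ
  field_simp
  ring

theorem tQ_re (hκ : 0 < κ) {Q : ℂ} (h : Real.cosh κ < Q.re) : 0 < (tQ κ Q).re := by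
  have hs := Real.sinh_pos_iff.2 hκ
  unfold tQ
  rw [Complex.div_ofReal_re]
  apply div_pos _ hs
  rw [Complex.sub_re, Complex.ofReal_re]
  linarith

theorem norm_sub_ofReal_sq (Q : ℂ) (c : ℝ) : ‖Q - (c : ℂ)‖ ^ 2 = ‖Q‖ ^ 2 - 2 * c * Q.re + c ^ 2 := by
  rw [← Complex.normSq_eq_norm_sq, ← Complex.normSq_eq_norm_sq, Complex.normSq_apply,
    Complex.normSq_apply, Complex.sub_re, Complex.sub_im, Complex.ofReal_re, Complex.ofReal_im]
  ring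

/-- **Entry condition.** -/
theorem entry_iff (hκ : 0 < κ) {Q : ℂ} (X : ℝ) :
    ‖tQ κ Q - 1‖ < Real.exp (-(2 * κ * X)) * ‖tQ κ Q + 1‖ ↔
      (Real.exp (4 * κ * X) - 1) * ‖Q - (Real.exp κ : ℂ)‖ ^ 2 <
        4 * Real.sinh κ * (Q.re - Real.cosh κ) := by
  have hs := Real.sinh_pos_iff.2 hκ
  rw [tQ_sub hκ, tQ_add hκ, norm_div, norm_div, Complex.norm_real, Real.norm_of_nonneg hs.le,
    ← mul_div_assoc, div_lt_div_iff_of_pos_right hs]
  have h1 := norm_sub_ofReal_sq Q (Real.exp κ)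
  have h2 := norm_sub_ofReal_sq Q (Real.exp (-κ))
  have ha := norm_nonneg (Q - (Real.exp κ : ℂ))
  have hb := norm_nonneg (Q - (Real.exp (-κ) : ℂ))
  have hE := Real.exp_pos (-(2 * κ * X))
  have hE4 : Real.exp (4 * κ * X) * Real.exp (-(2 * κ * X)) ^ 2 = 1 := by
    rw [sq, ← Real.exp_add, ← Real.exp_add, Real.exp_eq_one_iff]
    ring
  have hE4p := Real.exp_pos (4 * κ * X)
  have e1 : Real.exp κ ^ 2 - Real.exp (-κ) ^ 2 = 4 * Real.sinh κ * Real.cosh κ := by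
    rw [Real.sinh_eq, Real.cosh_eq]
    ring
  have e2 : Real.exp κ - Real.exp (-κ) = 2 * Real.sinh κ := by
    rw [Real.sinh_eq]
    ring
  -- difference of squares
  have h3 : ‖Q - (Real.exp (-κ) : ℂ)‖ ^ 2 - ‖Q - (Real.exp κ : ℂ)‖ ^ 2 =
      4 * Real.sinh κ * (Q.re - Real.cosh κ) := by
    rw [h1, h2]
    linear_combination (2 * Q.re) * e2 - e1
  constructor
  · intro h
    have h4 : ‖Q - (Real.exp κ : ℂ)‖ ^ 2 < (Real.exp (-(2 * κ * X)) *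
        ‖Q - (Real.exp (-κ) : ℂ)‖) ^ 2 := pow_lt_pow_left₀ h ha two_ne_zero
    have h5 : Real.exp (4 * κ * X) * ‖Q - (Real.exp κ : ℂ)‖ ^ 2 <
        Real.exp (4 * κ * X) * (Real.exp (-(2 * κ * X)) * ‖Q - (Real.exp (-κ) : ℂ)‖) ^ 2 :=
      mul_lt_mul_of_pos_left h4 hE4p
    have h6 : Real.exp (4 * κ * X) * (Real.exp (-(2 * κ * X)) * ‖Q - (Real.exp (-κ) : ℂ)‖) ^ 2 =
        ‖Q - (Real.exp (-κ) : ℂ)‖ ^ 2 := by
      rw [mul_pow, ← mul_assoc, hE4, one_mul]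
    rw [h6] at h5
    linarith
  · intro h
    apply lt_of_pow_lt_pow_left₀ 2 (mul_nonneg hE.le hb)
    have h5 : Real.exp (4 * κ * X) * ‖Q - (Real.exp κ : ℂ)‖ ^ 2 <
        ‖Q - (Real.exp (-κ) : ℂ)‖ ^ 2 := by linarith
    have h6 : ‖Q - (Real.exp κ : ℂ)‖ ^ 2 = Real.exp (-(2 * κ * X)) ^ 2 *
        (Real.exp (4 * κ * X) * ‖Q - (Real.exp κ : ℂ)‖ ^ 2) := by
      rw [← mul_assoc, mul_comm (Real.exp (-(2 * κ * X)) ^ 2), hE4, one_mul]
    rw [h6, mul_pow]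
    exact mul_lt_mul_of_pos_left h5 (by positivity)

/-- the shifted point in terms of `Q` -/
theorem shf_tQ (hκ : 0 < κ) {Q : ℂ} (h : Real.cosh κ < Q.re) :
    shf κ (tQ κ Q) = ((Real.cosh κ : ℂ) - Q⁻¹) / (Real.sinh κ : ℂ) := by
  have hs : (Real.sinh κ : ℂ) ≠ 0 := by exact_mod_cast (Real.sinh_pos_iff.2 hκ).ne'
  have h1 := Qk_shf hκ (tQ_re hκ h)
  rw [Qk_tQ hκ] at h1
  have h2 : Qk κ (shf κ (tQ κ Q)) = (Real.cosh κ : ℂ) + (Real.sinh κ : ℂ) * shf κ (tQ κ Q) := rfl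
  rw [h2] at h1
  rw [eq_div_iff hs]
  linear_combination h1

/-- the far radius at the entry -/
theorem Xr_tQ (hκ : 0 < κ) {Q : ℂ} (h : Real.cosh κ < Q.re) {A x : ℝ} (hx : 0 ≤ x) :
    Xr κ (2 * A * Real.sinh κ ^ 2) (Real.exp (-(2 * κ * (x + 1)))) (tQ κ Q) =
      ((A * Real.sinh κ * Real.exp (-(κ * x)) / Real.sinh (κ * (x + 1)) : ℝ) : ℂ) *
        ((Q - (Real.exp (-κ) : ℂ)) * Q⁻¹) := by
  have hs := Real.sinh_pos_iff.2 hκ
  have hs0 : (Real.sinh κ : ℂ) ≠ 0 := by exact_mod_cast hs.ne'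
  have hQ : Q ≠ 0 := by
    intro h0
    rw [h0, zero_re] at h
    have := Real.cosh_pos κ
    linarith
  have hx1 : 0 < κ * (x + 1) := by positivity
  have hsx := Real.sinh_pos_iff.2 hx1
  have h1 : shf κ (tQ κ Q) + 1 = (Real.exp κ : ℂ) * ((Q - (Real.exp (-κ) : ℂ)) * Q⁻¹) /
      (Real.sinh κ : ℂ) := by
    rw [shf_tQ hκ h]
    have e1 : (Real.exp κ : ℂ) = (Real.cosh κ : ℂ) + (Real.sinh κ : ℂ) := by
      rw [← ofReal_add, Real.cosh_add_sinh]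
    have e2 : (Real.exp κ : ℂ) * (Real.exp (-κ) : ℂ) = 1 := by
      rw [← ofReal_mul, ← Real.exp_add]
      simp
    rw [eq_div_iff hs0, add_mul, div_mul_cancel₀ _ hs0, one_mul]
    rw [sub_mul, mul_inv_cancel₀ hQ, mul_sub, mul_one, ← mul_assoc, e2, one_mul, e1]
    ring
  have h2 : 2 * A * Real.sinh κ ^ 2 * Real.exp (-(2 * κ * (x + 1))) /
      (1 - Real.exp (-(2 * κ * (x + 1)))) * (Real.exp κ / Real.sinh κ) =
      A * Real.sinh κ * Real.exp (-(κ * x)) / Real.sinh (κ * (x + 1)) := by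
    obtain ⟨z, hz⟩ : ∃ z, z = Real.exp (-(κ * (x + 1))) := ⟨_, rfl⟩
    have hz0 : 0 < z := by rw [hz]; exact Real.exp_pos _
    have hz1 : z < 1 := by
      rw [hz, Real.exp_lt_one_iff]
      linarith
    have e1 : Real.exp (-(2 * κ * (x + 1))) = z * z := by
      rw [hz, ← Real.exp_add]
      congr 1
      ring
    have e2 : Real.sinh (κ * (x + 1)) = (z⁻¹ - z) / 2 := by
      rw [Real.sinh_eq, hz, ← Real.exp_neg, neg_neg]
    have e3 : Real.exp (-(κ * x)) = z * Real.exp κ := by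
      rw [hz, ← Real.exp_add]
      congr 1
      ring
    have hz2 : 1 - z * z ≠ 0 := by nlinarith
    have e4 : z⁻¹ - z = (1 - z * z) / z := by field_simp
    rw [e1, e2, e3, e4]
    field_simp
  unfold Xr
  rw [h1, ← h2]
  push_cast
  ring

end Pool.Agent.helper12.RS
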