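import Pool.Agent.helper12.RS.Scale
import Pool.Agent.helper12.RP.AssemblyN

/-!
# Near nodes in the logit form

`C = l + log (1 + exp (-l))`, `1 - F = exp (-C)(1 - χ)`, so
`F = (1 + exp (-l) χ)/(1 + exp (-l))`.
-/

namespace Pool.Agent.helper12.RS

open Complex ComplexConjugate Set Filter Topology
open Pool.Agent.helper31.EQ.Y Pool.Agent.helper31.EQ.R
open Pool.Agent.helper12.RP

noncomputable section

/-- `log (1 + exp (-l))` -/
def lc (l : ℂ) : ℂ := log (1 + exp (-l))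

/-- centre for the logit `l` -/
def CL (l : ℂ) : ℂ := l + lc l

/-- logarithm of the node value -/
def lF (l χ : ℂ) : ℂ := log (1 + exp (-l) * χ) - lc l

/-- logarithm of one minus the node value -/
def lG (l χ : ℂ) : ℂ := log (1 - χ) - l - lc l

/-- the radicand of a link -/
def Sn (e κ : ℝ) (y l χ : ℂ) : ℂ :=
  1 + (Hh κ : ℂ) ^ 2 * (exp (-(2 * ((LA e κ : ℂ) + lG l χ)) / e) +
        exp (-(2 * (LA e κ : ℂ) + lG l χ + lF l χ) / e)) +
      y / e * exp ((lF l χ - lG l χ) / e)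

/-- the radicand of the first link, `T = tanh (κ p)` -/
def S0 (e κ : ℝ) (T l χ : ℂ) : ℂ :=
  1 + (Hh κ : ℂ) ^ 2 * (exp (-(2 * ((LA e κ : ℂ) + lG l χ)) / e) +
        2 * exp (-(2 * (LA e κ : ℂ) + lG l χ + lF l χ) / e) * (1 - T ^ 2)) +
      2 * (Hh κ : ℂ) * exp (-((LA e κ : ℂ) + lG l χ) / e) * (T *
        (1 - (Hh κ : ℂ) ^ 2 * exp (-(2 * ((LA e κ : ℂ) + lF l χ)) / e) *
          (1 - T ^ 2)) ^ ((1 / 2 : ℝ) : ℂ))

/-- `E0²/E1²` -/
def SH (e κ : ℝ) (T l χ : ℂ) : ℂ :=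
  1 + (Hh κ : ℂ) ^ 2 * exp (-(2 * ((LA e κ : ℂ) + lF l χ)) / e) * (1 - 2 * (1 - T ^ 2)) -
      2 * (Hh κ : ℂ) * exp (-((LA e κ : ℂ) + lF l χ) / e) * (T *
        (1 - (Hh κ : ℂ) ^ 2 * exp (-(2 * ((LA e κ : ℂ) + lF l χ)) / e) *
          (1 - T ^ 2)) ^ ((1 / 2 : ℝ) : ℂ))

end

variable {e κ : ℝ}

/-- Conditions at a node. -/
structure LC (l χ : ℂ) : Prop where
  E : 0 < (1 + exp (-l)).re
  F : 0 < (1 + exp (-l) * χ).re
  g : 1 - χ ∈ slitPlane

theorem fF_L {l χ : ℂ} (h : 0 < (1 + exp (-l)).re) :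
    fF (CL l) (1 - χ) = (1 + exp (-l) * χ) * (1 + exp (-l))⁻¹ := by
  have h0 : 1 + exp (-l) ≠ 0 := by
    intro h1
    rw [h1, zero_re] at h
    exact lt_irrefl _ h
  have h2 : exp (-(CL l)) = exp (-l) * (1 + exp (-l))⁻¹ := by
    unfold CL lc
    rw [neg_add, exp_add, exp_neg (log _), exp_log h0]
  unfold fF
  rw [h2]
  field_simp
  ring

theorem inv_re_pos {z : ℂ} (h : 0 < z.re) : 0 < (z⁻¹).re := by
  rw [inv_re]
  apply div_pos h
  rw [normSq_pos]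
  intro h1
  rw [h1, zero_re] at h
  exact lt_irrefl _ h

private theorem arg_lt_half {a : ℂ} (ha : 0 < a.re) : |arg a| < Real.pi / 2 :=
  Complex.abs_arg_lt_pi_div_two_iff.2 (Or.inl ha)

private theorem mul_log {a b : ℂ} (ha : 0 < a.re) (hb : 0 < b.re) :
    log (a * b) = log a + log b ∧ a * b ∈ slitPlane := by
  have h1 := abs_lt.1 (arg_lt_half ha)
  have h2 := abs_lt.1 (arg_lt_half hb)
  have ha0 : a ≠ 0 := by intro h; rw [h] at ha; simp at ha
  have hb0 : b ≠ 0 := by intro h; rw [h] at hb; simp at hb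
  have e1 : log (a * b) = log a + log b := by
    apply Complex.log_mul ha0 hb0
    constructor
    · linarith [h1.1, h2.1]
    · linarith [h1.2, h2.2]
  refine ⟨e1, ?_⟩
  rw [Complex.mem_slitPlane_iff_arg]
  refine ⟨?_, mul_ne_zero ha0 hb0⟩
  rw [← Complex.log_im, e1, Complex.add_im, Complex.log_im, Complex.log_im]
  intro h
  linarith [h1.2, h2.2]

theorem LC.slit {l χ : ℂ} (h : LC l χ) : fF (CL l) (1 - χ) ∈ slitPlane := by
  rw [fF_L h.E]
  exact (mul_log h.F (inv_re_pos h.E)).2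

theorem LC.log {l χ : ℂ} (h : LC l χ) : log (fF (CL l) (1 - χ)) = lF l χ := by
  rw [fF_L h.E, (mul_log h.F (inv_re_pos h.E)).1]
  unfold lF lc
  rw [Complex.log_inv]
  · ring
  · have h1 := abs_lt.1 (arg_lt_half h.E)
    have h2 := Real.pi_pos
    intro h3
    rw [h3] at h1
    linarith [h1.2]

theorem lG_eq (l χ : ℂ) : log (1 - χ) - CL l = lG l χ := by
  unfold CL lG
  ring

/-- **The radicand in the logit form.** -/
theorem radF_L (he : 0 < e) (hκ : 0 < κ) {τ l χ : ℂ} (h : LC l χ) :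
    radF e κ τ (CL l) (1 - χ) = Sn e κ (yv e κ τ) l χ := by
  have he0 : (e : ℂ) ≠ 0 := by exact_mod_cast he.ne'
  rw [radF_sc he hκ (slitPlane_ne_zero h.g) (slitPlane_ne_zero h.slit), h.log, lG_eq]
  unfold Sn yv
  rw [mul_div_right_comm, div_self he0, one_mul]

theorem rad0F_L (he : 0 < e) (hκ : 0 < κ) {p l χ : ℂ} (h : LC l χ) :
    rad0F e κ p (CL l) (1 - χ) = S0 e κ (tanh (κ * p)) l χ := by
  rw [rad0F_sc he hκ (slitPlane_ne_zero h.g) (slitPlane_ne_zero h.slit), h.log, lG_eq]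
  rfl

theorem radH_L (he : 0 < e) (hκ : 0 < κ) {p l χ : ℂ} (h : LC l χ) :
    radH e κ p (fF (CL l) (1 - χ)) = SH e κ (tanh (κ * p)) l χ := by
  rw [radH_sc he hκ (slitPlane_ne_zero h.slit), h.log]
  rfl

theorem rho_L (he : 0 < e) (hκ : 0 < κ) {l χ : ℂ} (h : LC l χ) :
    rho e κ (fF (CL l) (1 - χ)) = (Hh κ : ℂ) * exp (-((LA e κ : ℂ) + lF l χ) / e) := by
  rw [rho_exp he hκ (slitPlane_ne_zero h.slit), h.log]

/-- **The law in the logit form**, next node also in the logit form. -/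
theorem lawF_L {l r τ' S l' χ' : ℂ} (hS : S ≠ 0)
    (hQ : Qk κ τ' = S ^ ((1 / 2 : ℝ) : ℂ)) (h' : LC l' χ') :
    lawF e κ (CL l) 1 r τ' (fF (CL l') (1 - χ')) =
      (1 - exp (l + lc l - (e : ℂ) / 2 * log S + lF l' χ')) / r := by
  rw [lawF_sc hS hQ, ← h'.log]
  have h1 := exp_log (slitPlane_ne_zero h'.slit)
  rw [exp_add, h1]
  rfl

end Pool.Agent.helper12.RS
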