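import Pool.Agent.helper12.RS.Entry
import Pool.Agent.helper12.FF.Last2

/-!
# The last closing condition in explicit form
-/

namespace Pool.Agent.helper12.RS

open Complex ComplexConjugate Set Filter Topology
open Pool.Agent.helper31.EQ.Y Pool.Agent.helper31.EQ.R
open Pool.Agent.helper12.RP Pool.Agent.helper12.FF

variable {e κ θ : ℝ}

/-- ratio at the shifted point -/
noncomputable def Qs (κ : ℝ) (Q : ℂ) : ℂ := 2 * (Real.cosh κ : ℂ) - Q⁻¹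

theorem Qk_shf_tQ (hκ : 0 < κ) {Q : ℂ} (h : Real.cosh κ < Q.re) :
    Qk κ (shf κ (tQ κ Q)) = Qs κ Q := by
  rw [Qk_shf hκ (tQ_re hκ h), Qk_tQ hκ]
  rfl

theorem Qk_shf_shf_tQ (hκ : 0 < κ) {Q : ℂ} (h : Real.cosh κ < Q.re) :
    Qk κ (shf κ (shf κ (tQ κ Q))) = Qs κ (Qs κ Q) := by
  rw [Qk_shf hκ (shf_re hκ (tQ_re hκ h).le), Qk_shf_tQ hκ h]
  rfl

/-- **The last closing expression.** -/
theorem last_expr (he : 0 < e) (hκ : 0 < κ) {l S Q χ : ℂ} (hQ : Q = S ^ ((1 / 2 : ℝ) : ℂ))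
    (hS : S ≠ 0) (hre : Real.cosh κ < Q.re) :
    exp (CL l) * ((1 - fT e κ (tQ κ Q)) * (1 + qq e κ (shf κ (tQ κ Q)) * χ)) =
      exp (l + lc l - (e : ℂ) / 2 * log S) * (1 - Qs κ Q ^ (-(e : ℂ)) *
        fT e κ (shf κ (shf κ (tQ κ Q))) * (1 - χ)) := by
  have h0 := tQ_re hκ hre
  have h1 := shf_re hκ h0.le
  have e1 := one_sub_fT he hκ h0
  rw [Qk_tQ hκ, hQ, cpow_half hS] at e1
  rw [← hQ] at e1
  have e2 := one_sub_fT he hκ h1
  rw [Qk_shf_tQ hκ hre] at e2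
  have hf := fT_ne he hκ h1
  have e3 : fT e κ (shf κ (tQ κ Q)) * (1 + qq e κ (shf κ (tQ κ Q)) * χ) =
      1 - Qs κ Q ^ (-(e : ℂ)) * fT e κ (shf κ (shf κ (tQ κ Q))) * (1 - χ) := by
    unfold qq
    rw [← e2]
    field_simp
    ring
  rw [e1, mul_assoc, e3, ← mul_assoc, CL, ← exp_add]
  rw [show l + lc l + -((e : ℂ) / 2 * log S) = l + lc l - (e : ℂ) / 2 * log S by ring]

/-- **Value of the rigid sum two steps ahead.** -/
theorem last_f2 (he : 0 < e) (hκ : 0 < κ) {Q : ℂ} (hre : Real.cosh κ < Q.re) {x0 B1 : ℝ}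
    (hx0 : 0 ≤ x0)
    (hent : ‖tQ κ Q - 1‖ < Real.exp (-(2 * κ * x0)) * ‖tQ κ Q + 1‖) {Qu q3 : ℂ}
    (hQu : Qu = Qs κ (Qs κ Q)) (hq3 : q3 = Qu ^ (-(e : ℂ)))
    (hB : ‖q3‖ ≤ B1 * ‖1 + q3‖) (hB1 : B1 < x0 + 2) (h0 : 1 + q3 ≠ 0) :
    ‖fT e κ (shf κ (shf κ (tQ κ Q))) - 1 / (1 + q3)‖ ≤
      (1 + 1 / (2 * (x0 + 2))) / (1 - B1 / (x0 + 2)) *
      (e * ‖(Qu - (Real.cosh κ : ℂ)) ^ 2 - (Real.sinh κ : ℂ) ^ 2‖) * ‖q3‖ / ‖1 + q3‖ ^ 3 := by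
  have t0 := tQ_re hκ hre
  have t1 := shf_re hκ t0.le
  have t2 := shf_re hκ t1.le
  have hr : rt (tQ κ Q) ≤ Real.exp (-(2 * (κ * x0))) := by
    unfold rt
    rw [div_le_iff₀ (add_one_pos t0)]
    rw [show 2 * (κ * x0) = 2 * κ * x0 by ring]
    exact hent.le
  have r1 := rt_shf_le hκ t0 hr
  have r2 := rt_shf_le hκ t1 r1
  rw [show x0 + 1 + 1 = x0 + 2 by ring] at r2
  have hQ2 := Qk_shf_shf_tQ hκ hre
  rw [← hQu] at hQ2
  have h1 := fT_last_sq he hκ t2 (σ := x0 + 2) (B1 := B1) (by linarith) r2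
    (q := q3) (by rw [hQ2]; exact hq3) hB hB1 h0
  have hs := Real.sinh_pos_iff.2 hκ
  have e1 : (Qu - (Real.cosh κ : ℂ)) = (Real.sinh κ : ℂ) * shf κ (shf κ (tQ κ Q)) := by
    rw [← hQ2]
    unfold Qk
    ring
  have e2 : ‖(Qu - (Real.cosh κ : ℂ)) ^ 2 - (Real.sinh κ : ℂ) ^ 2‖ = Real.sinh κ ^ 2 *
      (‖shf κ (shf κ (tQ κ Q)) - 1‖ * ‖shf κ (shf κ (tQ κ Q)) + 1‖) := by
    rw [e1, ← norm_mul]
    have : ((Real.sinh κ : ℂ) * shf κ (shf κ (tQ κ Q))) ^ 2 - (Real.sinh κ : ℂ) ^ 2 =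
        (Real.sinh κ : ℂ) ^ 2 * ((shf κ (shf κ (tQ κ Q)) - 1) * (shf κ (shf κ (tQ κ Q)) + 1)) := by
      ring
    rw [this, norm_mul, norm_pow, Complex.norm_real, Real.norm_of_nonneg hs.le]
  rw [e2]
  exact h1

/-- the norm of the far radius at the entry -/
theorem norm_Xr_tQ (hκ : 0 < κ) {Q : ℂ} (h : Real.cosh κ < Q.re) {A x : ℝ} (hA : 0 ≤ A)
    (hx : 0 ≤ x) :
    ‖Xr κ (2 * A * Real.sinh κ ^ 2) (Real.exp (-(2 * κ * (x + 1)))) (tQ κ Q)‖ =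
      A * Real.sinh κ * Real.exp (-(κ * x)) / Real.sinh (κ * (x + 1)) *
        ‖(Q - (Real.exp (-κ) : ℂ)) / Q‖ := by
  have hs := Real.sinh_pos_iff.2 hκ
  have hx1 : 0 < κ * (x + 1) := by positivity
  have hsx := Real.sinh_pos_iff.2 hx1
  have hE := Real.exp_pos (-(κ * x))
  rw [Xr_tQ hκ h hx, norm_mul, Complex.norm_real, Real.norm_of_nonneg (by positivity),
    div_eq_mul_inv (Q - (Real.exp (-κ) : ℂ))]

/-- **Conditions at the last near node in explicit form.** -/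
theorem nL_of (he : 0 < e) (hκ : 0 < κ) {d : FarN e κ θ} {l r M S x : ℂ} {A x0 B1 : ℝ}
    (hA : 0 ≤ A) (hx0 : 0 ≤ x0) (hB1 : B1 < x0 + 2)
    (hX : ∀ τ, ‖d.X 0 τ‖ ≤ ‖Xr κ (2 * A * Real.sinh κ ^ 2) (Real.exp (-(2 * κ * (x0 + 1)))) τ‖)
    (nc : NC l r M S x) {Q Q1 Q2 q2 q3 : ℂ}
    (hQ : Q = S ^ ((1 / 2 : ℝ) : ℂ)) (hre : Real.cosh κ < Q.re)
    (hent : ‖tQ κ Q - 1‖ < Real.exp (-(2 * κ * x0)) * ‖tQ κ Q + 1‖) (hΩ : tQ κ Q ∈ d.Ω 0)
    (hQ1 : Q1 = 2 * (Real.cosh κ : ℂ) - Q⁻¹) (hQ2 : Q2 = 2 * (Real.cosh κ : ℂ) - Q1⁻¹)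
    (hq2 : q2 = Q1 ^ (-(e : ℂ))) (hq3 : q3 = Q2 ^ (-(e : ℂ)))
    (hB : ‖q3‖ ≤ B1 * ‖1 + q3‖) (h0 : 1 + q3 ≠ 0)
    (close : ∀ f2 χ : ℂ, ‖f2 - 1 / (1 + q3)‖ ≤
      (1 + 1 / (2 * (x0 + 2))) / (1 - B1 / (x0 + 2)) *
      (e * ‖(Q2 - (Real.cosh κ : ℂ)) ^ 2 - (Real.sinh κ : ℂ) ^ 2‖) * ‖q3‖ / ‖1 + q3‖ ^ 3 →
      ‖χ‖ ≤ A * Real.sinh κ * Real.exp (-(κ * x0)) / Real.sinh (κ * (x0 + 1)) *
        ‖(Q - (Real.exp (-κ) : ℂ)) / Q‖ →
      ‖x - M * (x - (1 - exp (l + lc l - (e : ℂ) / 2 * log S) *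
        (1 - q2 * f2 * (1 - χ))) / r)‖ < θ) :
    NL e κ θ d l r M S x := by
  have hτ : (S ^ ((1 / 2 : ℝ) : ℂ) - (Real.cosh κ : ℂ)) / (Real.sinh κ : ℂ) = tQ κ Q := by
    rw [hQ]
    rfl
  refine ⟨nc, by rw [hτ]; exact hΩ, ?_⟩
  intro τ hτ' χ hχ
  rw [hτ] at hτ'
  subst hτ'
  rw [last_expr he hκ hQ (slitPlane_ne_zero nc.S) hre]
  have hs : Qs κ Q = Q1 := hQ1.symm
  have h2 := last_f2 he hκ hre hx0 hent (Qu := Q2) (q3 := q3)
    (by rw [hs, hQ2]; rfl) hq3 hB hB1 h0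
  rw [hs, ← hq2]
  refine close _ χ h2 ?_
  rw [← norm_Xr_tQ hκ hre hA hx0]
  exact hχ.trans (hX _)

theorem hasDerivAt_tanh' (y : ℝ) : HasDerivAt Real.tanh (1 - Real.tanh y ^ 2) y := by
  have hc := (Real.cosh_pos y).ne'
  have h1 := (Real.hasDerivAt_sinh y).div (Real.hasDerivAt_cosh y) hc
  have h2 : Real.tanh = fun y => Real.sinh y / Real.cosh y := by
    funext z
    exact Real.tanh_eq_sinh_div_cosh z
  rw [h2]
  refine h1.congr_deriv ?_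
  rw [div_pow]
  field_simp

theorem tanh_ge3 {y : ℝ} (hy : 0 ≤ y) : y - y ^ 3 / 3 ≤ Real.tanh y := by
  have hd : ∀ y : ℝ, HasDerivAt (fun y => Real.tanh y - (y - y ^ 3 / 3))
      (1 - Real.tanh y ^ 2 - (1 - 3 * y ^ 2 / 3)) y := by
    intro y
    have h1 : HasDerivAt (fun y : ℝ => y ^ 3) (3 * y ^ 2) y := by
      simpa using hasDerivAt_pow 3 y
    exact (hasDerivAt_tanh' y).sub ((hasDerivAt_id y).sub (h1.div_const 3))
  have hmono : MonotoneOn (fun y => Real.tanh y - (y - y ^ 3 / 3)) (Set.Ici 0) := by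
    apply monotoneOn_of_deriv_nonneg (convex_Ici 0)
    · exact fun y _ => (hd y).continuousAt.continuousWithinAt
    · exact fun y _ => (hd y).differentiableAt.differentiableWithinAt
    · intro y hy
      rw [interior_Ici] at hy
      rw [(hd y).deriv]
      have h1 : 0 < y := hy
      have h2 := tanh_le' h1
      have h3 := tanh_pos' h1
      nlinarith
  have h2 := hmono (Set.mem_Ici.2 le_rfl) (Set.mem_Ici.2 hy) hy
  simp at h2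
  linarith

theorem tanh_le5 {y : ℝ} (hy : 0 ≤ y) : Real.tanh y ≤ y - y ^ 3 / 3 + 2 * y ^ 5 / 15 := by
  have hd : ∀ y : ℝ, HasDerivAt (fun y => (y - y ^ 3 / 3 + 2 * y ^ 5 / 15) - Real.tanh y)
      ((1 - 3 * y ^ 2 / 3 + 2 * (5 * y ^ 4) / 15) - (1 - Real.tanh y ^ 2)) y := by
    intro y
    have h1 : HasDerivAt (fun y : ℝ => y ^ 3) (3 * y ^ 2) y := by
      simpa using hasDerivAt_pow 3 y
    have h2 : HasDerivAt (fun y : ℝ => y ^ 5) (5 * y ^ 4) y := by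
      simpa using hasDerivAt_pow 5 y
    exact (((hasDerivAt_id y).sub (h1.div_const 3)).add ((h2.const_mul 2).div_const 15)).sub
      (hasDerivAt_tanh' y)
  have hmono : MonotoneOn (fun y => (y - y ^ 3 / 3 + 2 * y ^ 5 / 15) - Real.tanh y)
      (Set.Ici 0) := by
    apply monotoneOn_of_deriv_nonneg (convex_Ici 0)
    · exact fun y _ => (hd y).continuousAt.continuousWithinAt
    · exact fun y _ => (hd y).differentiableAt.differentiableWithinAt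
    · intro y hy
      rw [interior_Ici] at hy
      rw [(hd y).deriv]
      have h1 : 0 < y := hy
      have h2 := tanh_ge3 h1.le
      have h3 := tanh_pos' h1
      have h4 : y ^ 2 - 2 * y ^ 4 / 3 ≤ Real.tanh y ^ 2 := by
        rcases le_total 0 (y - y ^ 3 / 3) with h5 | h5
        · have h6 := pow_le_pow_left₀ h5 h2 2
          have h7 : (y - y ^ 3 / 3) ^ 2 = y ^ 2 - 2 * y ^ 4 / 3 + y ^ 6 / 9 := by ring
          have h8 : 0 ≤ y ^ 6 / 9 := by positivity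
          linarith
        · have h6 : y ^ 2 - 2 * y ^ 4 / 3 ≤ 0 := by
            have h9 : 3 ≤ y ^ 2 := by
              by_contra hc
              have hc' : y ^ 2 < 3 := lt_of_not_ge hc
              have : 0 < y - y ^ 3 / 3 := by nlinarith
              linarith
            nlinarith [sq_nonneg (y ^ 2)]
          have := sq_nonneg (Real.tanh y)
          linarith
      linarith
  have h2 := hmono (Set.mem_Ici.2 le_rfl) (Set.mem_Ici.2 hy) hy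
  simp at h2
  linarith

theorem le_sinh' {κ : ℝ} (hκ : 0 < κ) : κ ≤ Real.sinh κ := Real.self_le_sinh_iff.2 hκ.le

/-- the comparison for the explicit `w` -/
theorem tanh_le_w (hκ : 0 < κ) {x0 w : ℝ} (hx0 : 0 ≤ x0)
    (hw : w = x0 * (1 - (κ * x0) ^ 2 / 3 + 2 * (κ * x0) ^ 4 / 15)) :
    Real.tanh (κ * x0) ≤ w * Real.sinh κ := by
  have h1 := tanh_le5 (y := κ * x0) (by positivity)
  have h2 : 0 ≤ 1 - (κ * x0) ^ 2 / 3 + 2 * (κ * x0) ^ 4 / 15 := by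
    nlinarith [sq_nonneg ((κ * x0) ^ 2 - 5 / 4)]
  have h3 : κ * x0 - (κ * x0) ^ 3 / 3 + 2 * (κ * x0) ^ 5 / 15 = w * κ := by
    rw [hw]
    ring
  have h4 : 0 ≤ w := by
    rw [hw]
    positivity
  rw [h3] at h1
  exact h1.trans (mul_le_mul_of_nonneg_left (le_sinh' hκ) h4)

/-- `|t - 1| < exp (-2y) |t + 1|` from the real part -/
theorem entry_of_tanh {t : ℂ} {y u : ℝ} (hy : 0 ≤ y) (hu0 : Real.tanh y ≤ u) (hu1 : u ≤ 1)
    (h : u * (1 + ‖t‖ ^ 2) < (1 + u ^ 2) * t.re) :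
    ‖t - 1‖ < Real.exp (-(2 * y)) * ‖t + 1‖ := by
  have ht0 : 0 ≤ Real.tanh y := by
    rcases hy.eq_or_lt with h1 | h1
    · rw [← h1, Real.tanh_zero]
    · exact (tanh_pos' h1).le
  obtain ⟨v, hv⟩ : ∃ v, v = Real.tanh y := ⟨_, rfl⟩
  have hE := exp_tanh y
  rw [← hv] at hE ht0 hu0
  have hEp := Real.exp_pos (-(2 * y))
  obtain ⟨ρ, hρ⟩ : ∃ ρ, ρ = Real.exp (-(2 * y)) := ⟨_, rfl⟩
  rw [← hρ] at hE hEp ⊢
  have hu : 0 ≤ u := ht0.trans hu0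
  have hn := sq_nonneg ‖t‖
  have hre : 0 < t.re := by
    by_contra hc
    have hc' : t.re ≤ 0 := le_of_not_gt hc
    have h1 : 0 ≤ u * (1 + ‖t‖ ^ 2) := by positivity
    have h2 : (1 + u ^ 2) * t.re ≤ 0 := mul_nonpos_of_nonneg_of_nonpos (by positivity) hc'
    linarith
  -- v (1 + |t|²) < (1 + v²) Re t
  have h1 : v * (1 + ‖t‖ ^ 2) < (1 + v ^ 2) * t.re := by
    rcases ht0.eq_or_lt with h0 | h0
    · rw [← h0]
      simpa using hre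
    · have hup : 0 < u := h0.trans_le hu0
      have h2 : v * (u * (1 + ‖t‖ ^ 2)) < v * ((1 + u ^ 2) * t.re) := mul_lt_mul_of_pos_left h h0
      have h3 : v * (1 + u ^ 2) ≤ u * (1 + v ^ 2) := by
        have : 0 ≤ (u - v) * (1 - u * v) := by
          apply mul_nonneg (by linarith)
          have : u * v ≤ 1 * 1 := mul_le_mul hu1 (hu0.trans hu1) h0.le (by norm_num)
          linarith
        nlinarith
      have h4 : v * (1 + u ^ 2) * t.re ≤ u * (1 + v ^ 2) * t.re :=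
        mul_le_mul_of_nonneg_right h3 hre.le
      have h5 : u * (v * (1 + ‖t‖ ^ 2)) < u * ((1 + v ^ 2) * t.re) := by linarith
      exact lt_of_mul_lt_mul_left h5 hup.le
  apply lt_of_pow_lt_pow_left₀ 2 (by positivity)
  rw [mul_pow, sub_sq, add_sq']
  -- ρ (1 + v) = 1 - v
  have h6 : 0 < (1 + v) ^ 2 := by positivity
  have h7 : (1 + v) ^ 2 * (‖t‖ ^ 2 + 1 - 2 * t.re) <
      (1 + v) ^ 2 * (ρ ^ 2 * (‖t‖ ^ 2 + 1 + 2 * t.re)) := by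
    have e1 : (1 + v) ^ 2 * (ρ ^ 2 * (‖t‖ ^ 2 + 1 + 2 * t.re)) =
        (ρ * (1 + v)) ^ 2 * (‖t‖ ^ 2 + 1 + 2 * t.re) := by ring
    rw [e1, hE]
    nlinarith
  exact lt_of_mul_lt_mul_left h7 h6.le

/-- **Entry condition for small `κ`.** -/
theorem entry_small (hκ : 0 < κ) {Q T : ℂ} {w x0 : ℝ} (hx0 : 0 ≤ x0)
    (hw : Real.tanh (κ * x0) ≤ w * Real.sinh κ) (hw1 : w * Real.sinh κ ≤ 1)
    (hT : T = Q - (Real.cosh κ : ℂ))
    (h : 0 < ((1 - T * w) / (T - (Real.sinh κ : ℂ) ^ 2 * w)).re) :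
    ‖tQ κ Q - 1‖ < Real.exp (-(2 * κ * x0)) * ‖tQ κ Q + 1‖ := by
  have hs := Real.sinh_pos_iff.2 hκ
  have hs0 : (Real.sinh κ : ℂ) ≠ 0 := by exact_mod_cast hs.ne'
  obtain ⟨K, hK⟩ : ∃ K, K = Real.sinh κ := ⟨_, rfl⟩
  obtain ⟨t, ht⟩ : ∃ t, t = tQ κ Q := ⟨_, rfl⟩
  have hTt : T = (K : ℂ) * t := by
    rw [hT, hK, ht]
    unfold tQ
    field_simp
  rw [← ht]
  rw [← hK] at hw hw1 hs hs0 h
  have hden : T - (K : ℂ) ^ 2 * w ≠ 0 := by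
    intro h0
    rw [h0, div_zero, zero_re] at h
    exact lt_irrefl _ h
  have hn := normSq_pos.2 hden
  have h1 : ((1 - T * w) / (T - (K : ℂ) ^ 2 * w)).re * normSq (T - (K : ℂ) ^ 2 * w) =
      K * ((1 + (w * K) ^ 2) * t.re - (w * K) * (1 + ‖t‖ ^ 2)) := by
    rw [div_re, ← add_div, div_mul_cancel₀ _ hn.ne', hTt, ← Complex.normSq_eq_norm_sq,
      Complex.normSq_apply]
    simp only [sq, sub_re, sub_im, mul_re, mul_im, one_re, one_im, ofReal_re, ofReal_im]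
    ring
  have h2 : 0 < K * ((1 + (w * K) ^ 2) * t.re - (w * K) * (1 + ‖t‖ ^ 2)) := by
    rw [← h1]
    exact mul_pos h hn
  have h3 := (mul_pos_iff_of_pos_left hs).1 h2
  have h4 := entry_of_tanh (t := t) (y := κ * x0) (u := w * K) (by positivity) hw hw1
    (by linarith)
  rw [show 2 * κ * x0 = 2 * (κ * x0) by ring]
  exact h4

/-- the entry condition in terms of `T = Q - cosh κ` -/
theorem entry_T (hκ : 0 < κ) {Q T : ℂ} {x0 : ℝ} (hT : T = Q - (Real.cosh κ : ℂ))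
    (h : ‖T - (Real.sinh κ : ℂ)‖ * Real.exp (2 * κ * x0) < ‖T + (Real.sinh κ : ℂ)‖) :
    ‖tQ κ Q - 1‖ < Real.exp (-(2 * κ * x0)) * ‖tQ κ Q + 1‖ := by
  have hs := Real.sinh_pos_iff.2 hκ
  have hs0 : (Real.sinh κ : ℂ) ≠ 0 := by exact_mod_cast hs.ne'
  have e1 : T - (Real.sinh κ : ℂ) = (Real.sinh κ : ℂ) * (tQ κ Q - 1) := by
    rw [hT]
    unfold tQ
    field_simp
  have e2 : T + (Real.sinh κ : ℂ) = (Real.sinh κ : ℂ) * (tQ κ Q + 1) := by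
    rw [hT]
    unfold tQ
    field_simp
  rw [e1, e2, norm_mul, norm_mul, Complex.norm_real, Real.norm_of_nonneg hs.le, mul_assoc] at h
  have h1 := lt_of_mul_lt_mul_left h hs.le
  have h2 : Real.exp (-(2 * κ * x0)) * Real.exp (2 * κ * x0) = 1 := by
    rw [← Real.exp_add]
    simp
  have h3 := mul_lt_mul_of_pos_left h1 (Real.exp_pos (-(2 * κ * x0)))
  calc ‖tQ κ Q - 1‖ = Real.exp (-(2 * κ * x0)) * (‖tQ κ Q - 1‖ * Real.exp (2 * κ * x0)) := by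
        rw [mul_comm ‖tQ κ Q - 1‖, ← mul_assoc, h2, one_mul]
    _ < _ := h3

end Pool.Agent.helper12.RS
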