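import Pool.Agent.helper12.RS.MidQ
import Pool.Agent.helper63.NF.SpecLast

/-!
# The last near node from the assertions of a corner program
-/

namespace Pool.Agent.helper12.RS

open Complex ComplexConjugate Set Filter Topology
open Pool.Agent.helper31.EQ.Y Pool.Agent.helper31.EQ.R
open Pool.Agent.helper12.RP Pool.Agent.helper12.FF Pool.Agent.helper63.RG
open Pool.Agent.helper63.NF

variable {e κ s B θ τ : ℝ}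

section
variable {t : Tb} {n : ℕ} {b : PtB} {U : ℂ}

/-- **The last near node.** -/
theorem lastQ_of (he : 0 < e) (ht : t.IsReal) (hb : BR e κ s B b)
    (hre : 0 < (b.se * U).re) (hc : ∃ c : ℝ, 0 ≤ c ∧ t.c n = (c : ℂ))
    (hpol : podom t.pol (t.de e) (Tb.yT e κ (b.se * U)))
    {tk : ℂ} {δ Y θ' : ℝ} (hτ : tk = (τ : ℂ)) (hτ0 : 0 ≤ τ)
    (hδ : κ * τ ≤ δ) (hY : 1 / (4 * e ^ 2) ≤ Y) (hθ : θ' ≤ θ)
    {Ae xa C2 : ℂ} {A' x0 B1 a0 c2 : ℝ}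
    (hA0 : 0 ≤ A') (hAe : Ae = ((A' / e : ℝ) : ℂ)) (hxa : xa = (a0 : ℂ))
    (ha0 : 0 ≤ a0) (hax : a0 ≤ x0) (hC2 : C2 = (c2 : ℂ)) (hB1 : B1 < x0 + 2)
    (hc2 : (1 + 1 / (2 * (x0 + 2))) / (1 - B1 / (x0 + 2)) ≤ c2)
    (hA : ∀ x : ℂ, ‖x‖ ≤ 1 → StW (ptM t.nf n b U x) (mG (ptM t.nf n b U x) tk) ∧
      ClL (ptM t.nf n b U x) (fun F2 => ptL t.nf n b U x Ae xa C2 F2) B1 θ') :
    LastP t e κ θ δ Y A' x0 B1 n (b.se * U) := by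
  obtain ⟨a0, a0'⟩ := hA 0 (by simp)
  refine ⟨nodeP_of he ht hb hre hc hpol a0.wl a0'.R a0'.M, ?_⟩
  intro x hx
  obtain ⟨a, a'⟩ := hA x hx
  obtain ⟨h1, h2⟩ := stepP_of he ht hb hre hτ hτ0 hδ hY a
  refine ⟨_, h1, ?_⟩
  obtain ⟨m, hm⟩ : ∃ m, m = ptM t.nf n b U x := ⟨_, rfl⟩
  have hL : (fun F2 => ptL t.nf n b U x Ae xa C2 F2) =
      fun F2 => (⟨m, t.nf.Mf n b U, Ae, xa, C2, F2⟩ : PtL) := by
    rw [hm]
    rfl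
  rw [hL] at a'
  rw [← hm] at a a' h1 h2 ⊢
  have hmb : m.c.b = b := by rw [hm]; rfl
  have hmU : m.U = U := by rw [hm]; rfl
  have hmL : m.c.L = t.nf.Lf n b U := by rw [hm]; rfl
  have hmR : m.c.R = t.nf.Rf n b U := by rw [hm]; rfl
  have hmx : m.c.x = x := by rw [hm]; rfl
  have hMR : MR e κ s B m ((Real.cosh κ : ℂ) + b.se * U) := by
    refine ⟨?_, ?_, ?_⟩
    · rw [hmb]; exact hb
    · rw [hmb, hmU]
    · rw [add_re, ofReal_re]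
      linarith
  obtain ⟨c1, c2', c3, -, c5⟩ := hMR.link he a.Sm a.iq
  have hbm : BR e κ s B m.c.b := by rw [hmb]; exact hb
  have r := last_close he hbm (M := t.nf.Mf n b U) (Ae := Ae) (xa := xa) (C2 := C2) (θ := θ')
    _ rfl a.wl a.Sm c3 c2' c5 a'.R hA0 hAe hxa ha0 hax hC2 hB1 hc2 a'.n1 a'.n2 a'.n3 a'.n4 a'.n5
    a'.n6 a'.n7 a'.cl
  intro Q' Q1 Q2 q2 q3 g1 g2 g3 g4 g5
  have g1' : Q' = (1 + m.Sm) ^ ((1 / 2 : ℝ) : ℂ) := by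
    rw [g1, c5, hmb]
  obtain ⟨k1, k2, k3⟩ := r Q' Q1 Q2 q2 q3 g1' g2 g3 g4 g5
  refine ⟨k1, k2, ?_⟩
  intro f2 χ hf hχ
  have h4 := k3 f2 χ hf hχ
  have hLg : (e : ℂ) / 2 * log (1 + m.Sm) = (e : ℂ) * log Q' := by
    rw [g1', (root_re c1).2]
    ring
  rw [lT_val (n := n) he ht hb, rT_val he ht hb, MT_val he ht hb]
  rw [hLg, hmb, hmL, hmR, hmx] at h4
  exact h4.trans_le hθ

end

/-- monotone in the constants -/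
theorem LastP.mono {t : Tb} {e κ θ δ δ' Y A A' x0 B1 θ' : ℝ} {n : ℕ} {T : ℂ} (hκ : 0 < κ)
    (hx : 0 ≤ x0)
    (h : LastP t e κ θ' δ' Y A' x0 B1 n T) (hθ : θ' ≤ θ) (hδ : δ' ≤ δ) (hA : A ≤ A') :
    LastP t e κ θ δ Y A x0 B1 n T := by
  refine ⟨h.nd, ?_⟩
  intro x hx'
  obtain ⟨T', hS, hC⟩ := h.st x hx'
  refine ⟨T', ⟨hS.F, hS.g, hS.S, hS.re, hS.ne, hS.disp.trans hδ, hS.cut⟩, ?_⟩
  intro Q' Q1 Q2 q2 q3 g1 g2 g3 g4 g5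
  obtain ⟨k1, k2, k3⟩ := hC Q' Q1 Q2 q2 q3 g1 g2 g3 g4 g5
  refine ⟨k1, k2, fun f2 χ hf hχ => (k3 f2 χ hf (hχ.trans ?_)).trans_le hθ⟩
  have h1 : 0 < Real.sinh (κ * (x0 + 1)) := Real.sinh_pos_iff.2 (by positivity)
  have h2 : 0 < Real.sinh κ := Real.sinh_pos_iff.2 hκ
  gcongr

end Pool.Agent.helper12.RS
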