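import Pool.Agent.helper12.RS.PtY
import Pool.Agent.helper12.RS.Chart
import Pool.Agent.helper31.IX.Eng

/-!
# Near nodes of the corner from the two charts
-/

namespace Pool.Agent.helper12.RS

open Complex ComplexConjugate Set Filter Topology
open Pool.Agent.helper31.EQ.Y Pool.Agent.helper31.EQ.R
open Pool.Agent.helper12.RP Pool.Agent.helper12.FF

noncomputable section

/-- chart A: `B = m/2`, `U = exp (i (ψ - 101/64))` -/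
def bA (x0 x1 x2 : ℂ) : PtB := ⟨x0, x1, (((1 / 2) : ℂ) * x2)⟩

def uA (x3 : ℂ) : ℂ := (Complex.exp ((1 * Complex.I : ℂ) * (x3 - ((101 / 64) : ℂ))))

/-- chart B: `B = 1`, `U = 2 m exp (i (ψ - 101/64))` -/
def bB (x0 x1 : ℂ) : PtB := ⟨x0, x1, (1 : ℂ)⟩

def uB (x2 x3 : ℂ) : ℂ :=
  (((2 : ℂ) * x2) * (Complex.exp ((1 * Complex.I : ℂ) * (x3 - ((101 / 64) : ℂ)))))

/-- normalised near node functions: `l = s Lf`, `r = s Rf`, `M = Mf` at `T = s ep U` -/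
structure NF where
  Lf : ℕ → PtB → ℂ → ℂ
  Rf : ℕ → PtB → ℂ → ℂ
  Mf : ℕ → PtB → ℂ → ℂ

/-- the record `D` has these normalised functions -/
structure NF.OK (e κ : ℝ) (D : LamT) (t : NF) : Prop where
  l : ∀ {s B : ℝ} {b : PtB}, BR e κ s B b → ∀ (n : ℕ) (p U : ℂ),
    D.l n p (b.se * U) = b.s * t.Lf n b U
  r : ∀ {s B : ℝ} {b : PtB}, BR e κ s B b → ∀ (n : ℕ) (p U : ℂ),
    D.r n p (b.se * U) = b.s * t.Rf n b U
  M : ∀ {s B : ℝ} {b : PtB}, BR e κ s B b → ∀ (n : ℕ) (p U : ℂ),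
    D.M n p (b.se * U) = t.Mf n b U

/-- the quantities of a middle node -/
def ptM (t : NF) (n : ℕ) (b : PtB) (U x : ℂ) : PtM := ⟨⟨b, t.Lf n b U, t.Rf n b U, x⟩, U⟩

def ptK (t : NF) (n : ℕ) (b : PtB) (U x : ℂ) : PtK :=
  ⟨⟨b, t.Lf n b U, t.Rf n b U, x⟩, (ptM t n b U x).ls, t.Lf (n + 1) b (ptM t n b U x).Un,
    t.Rf (n + 1) b (ptM t n b U x).Un, t.Mf n b U⟩

def ptL (t : NF) (n : ℕ) (b : PtB) (U x Ae xa C2 F2 : ℂ) : PtL :=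
  ⟨ptM t n b U x, t.Mf n b U, Ae, xa, C2, F2⟩

/-- normalised functions of the first node: `H tanh (κp) = s ep W` -/
structure NF0 where
  W : PtB → ℂ → ℂ
  L : PtB → ℂ → ℂ
  R : PtB → ℂ → ℂ
  M : PtB → ℂ → ℂ

/-- the record `D` at the point `p` of the start has these functions, with `s V = v` -/
structure NF0.OK (e κ v : ℝ) (p : ℂ) (D : LamT) (t : NF0) : Prop where
  W : ∀ {s B V : ℝ} {b : PtB}, BR e κ s B b → s * V = v →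
    (Hh κ : ℂ) * tanh (κ * p) = b.se * t.W b V
  I : ∀ {s B V : ℝ} {b : PtB}, BR e κ s B b → s * V = v → ∃ w : ℝ, t.W b V = (w : ℂ) * I
  l : ∀ {s B V : ℝ} {b : PtB}, BR e κ s B b → s * V = v → D.l0 p = b.s * t.L b V
  r : ∀ {s B V : ℝ} {b : PtB}, BR e κ s B b → s * V = v → D.r0 p = b.s * t.R b V
  M : ∀ {s B V : ℝ} {b : PtB}, BR e κ s B b → s * V = v → D.M0 p = t.M b V

/-- chart A of the first node: `B = 2 m`, `V = 1` -/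
def b0A (x0 x1 x2 : ℂ) : PtB := ⟨x0, x1, ((2 : ℂ) * x2)⟩

/-- chart B of the first node: `B = 1`, `V = m/2` -/
def v0B (x2 : ℂ) : ℂ := (((1 / 2) : ℂ) * x2)

def ptF (t : NF0) (b : PtB) (V x : ℂ) : PtF := ⟨⟨b, t.L b V, t.R b V, x⟩, t.W b V⟩

def ptF1 (t0 : NF0) (t : NF) (b : PtB) (V x : ℂ) : PtK :=
  ⟨⟨b, t0.L b V, t0.R b V, x⟩, (ptF t0 b V x).ls, t.Lf 0 b (ptF t0 b V x).Un,
    t.Rf 0 b (ptF t0 b V x).Un, t0.M b V⟩

end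

variable {e κ θ δ : ℝ}

/-- **A middle node in the corner.** `A`, `B`: the assertions of the programs in the two charts. -/
theorem mid_node (he : 0 < e) (hκ : 0 < κ) {D : LamT} {t : NF} (ht : t.OK e κ D) {n : ℕ} {b1 s1 : ℝ}
    (hb : e * κ / 2 ≤ b1) {ce : ℝ} (hce : 0 ≤ ce) {cc : ℂ} (hcc : cc = (ce : ℂ)) {p Q y : ℂ}
    (hQ : Real.cosh κ < Q.re) (hT : e * ‖Q - (Real.cosh κ : ℂ)‖ ≤ s1)
    (hy : y = (e : ℂ) * (1 - (Q ^ 2)⁻¹))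
    (A : ∀ s m ψ : ℝ, 0 < s → s ≤ s1 → 0 < m → m ≤ 1 → m * s ≤ 2 * b1 → 0 ≤ ψ → ψ ≤ 101 / 32 →
      ∀ x : ℂ, ‖x‖ ≤ 1 →
      StA (ptM t n (bA ((1 / e : ℝ) : ℂ) s m) (uA ψ) x)
        (mD (ptM t n (bA ((1 / e : ℝ) : ℂ) s m) (uA ψ) x) cc) δ ∧
      ClA (ptM t n (bA ((1 / e : ℝ) : ℂ) s m) (uA ψ) x)
        (ptK t n (bA ((1 / e : ℝ) : ℂ) s m) (uA ψ) x) θ)
    (B : ∀ s m ψ : ℝ, 0 < s → s ≤ b1 → 0 < m → m ≤ 1 → 0 ≤ ψ → ψ ≤ 101 / 32 →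
      ∀ x : ℂ, ‖x‖ ≤ 1 →
      (‖(mD (ptM t n (bB ((1 / e : ℝ) : ℂ) s) (uB m ψ) x) cc).om - ((1 / 2) : ℂ)‖ ≤ 1 / 2 →
      StA (ptM t n (bB ((1 / e : ℝ) : ℂ) s) (uB m ψ) x)
        (mD (ptM t n (bB ((1 / e : ℝ) : ℂ) s) (uB m ψ) x) cc) δ) ∧
      ClA (ptM t n (bB ((1 / e : ℝ) : ℂ) s) (uB m ψ) x)
        (ptK t n (bB ((1 / e : ℝ) : ℂ) s) (uB m ψ) x) θ) :
    YR e κ (hh e κ ce) θ δ ((D.toN e κ).l n p y)
      ((D.toN e κ).r n p y) ((D.toN e κ).M n p y)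
      (fun x => Sn e κ y ((D.toN e κ).l n p y)
        ((D.toN e κ).r n p y * x)) Q
      ((D.toN e κ).l (n + 1) p) ((D.toN e κ).r (n + 1) p) := by
  have hpi : Real.pi / 2 ≤ 101 / 64 := by
    have := Real.pi_lt_d2
    linarith
  rcases le_total κ ‖Q - (Real.cosh κ : ℂ)‖ with hc | hc
  · -- chart A
    obtain ⟨s, B', φ, h1, h2, h3, h4, h5⟩ := chartA he hκ hQ
    have hs : 0 < s := by
      rw [h1]
      exact mul_pos he (hκ.trans_le hc)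
    have hsB : s * B' ≤ s * (1 / 2) := by
      rw [h2, h1]
      have := mul_le_mul_of_nonneg_left hc he.le
      linarith
    have hB : B' ≤ 1 / 2 := le_of_mul_le_mul_left hsB hs
    have h4' := abs_lt.1 h4
    obtain ⟨b, hb'⟩ : ∃ b, b = bA ((1 / e : ℝ) : ℂ) (s : ℂ) ((2 * B' : ℝ) : ℂ) := ⟨_, rfl⟩
    obtain ⟨U, hU⟩ : ∃ U, U = uA ((φ + 101 / 64 : ℝ) : ℂ) := ⟨_, rfl⟩
    have hbB : b.B = (B' : ℂ) := by
      rw [hb']
      show (((1 / 2) : ℂ) * ((2 * B' : ℝ) : ℂ)) = _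
      push_cast
      ring
    have hUe : U = exp (I * (φ : ℂ)) := by
      rw [hU]
      unfold uA
      congr 1
      push_cast
      ring
    have hMR : ∀ x : ℂ, MR e κ s B' ⟨⟨b, t.Lf n b U, t.Rf n b U, x⟩, U⟩ Q := fun x =>
      h5 b U (by rw [hb']; rfl) (by rw [hb']; rfl) hbB hUe _ _ x
    have hbr := (hMR 0).b
    refine yR_of he hy (b := b) (U := U) (L := t.Lf n b U) (R := t.Rf n b U) (M := t.Mf n b U)
      (Lf := fun U' => t.Lf (n + 1) b U') (Rf := fun U' => t.Rf (n + 1) b U') hMR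
      (ht.l hbr n p U) (ht.r hbr n p U) (ht.M hbr n p U)
      (fun U' => ht.l hbr (n + 1) p U') (fun U' => ht.r hbr (n + 1) p U')
      hce hcc ?_
    intro x hx
    have hA := A s (2 * B') (φ + 101 / 64) hs (by rw [h1]; exact hT) (by linarith) (by linarith)
      (by nlinarith) (by linarith [h4'.1]) (by linarith [h4'.2]) x hx
    rw [← hb', ← hU] at hA
    exact MidA.of hA.1 hA.2
  · -- chart B
    obtain ⟨u, φ, h1, h2, h4, h5⟩ := chartB he hκ hQ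
    have hs : 0 < e * κ / 2 := by positivity
    have hu : u ≤ 2 := by
      have h6 : (e * κ / 2) * u ≤ (e * κ / 2) * 2 := by
        rw [h1]
        have := mul_le_mul_of_nonneg_left hc he.le
        linarith
      exact le_of_mul_le_mul_left h6 hs
    have h4' := abs_lt.1 h4
    obtain ⟨b, hb'⟩ : ∃ b, b = bB ((1 / e : ℝ) : ℂ) ((e * κ / 2 : ℝ) : ℂ) := ⟨_, rfl⟩
    obtain ⟨U, hU⟩ : ∃ U, U = uB ((u / 2 : ℝ) : ℂ) ((φ + 101 / 64 : ℝ) : ℂ) := ⟨_, rfl⟩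
    have hUe : U = (u : ℂ) * exp (I * (φ : ℂ)) := by
      rw [hU]
      unfold uB
      have e1 : (2 : ℂ) * ((u / 2 : ℝ) : ℂ) = (u : ℂ) := by
        push_cast
        ring
      rw [e1]
      congr 2
      push_cast
      ring
    have hMR : ∀ x : ℂ, MR e κ (e * κ / 2) 1 ⟨⟨b, t.Lf n b U, t.Rf n b U, x⟩, U⟩ Q := fun x =>
      h5 b U (by rw [hb']; rfl) (by rw [hb']; rfl) (by rw [hb']; rfl) hUe _ _ x
    have hbr := (hMR 0).b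
    refine yR_of he hy (b := b) (U := U) (L := t.Lf n b U) (R := t.Rf n b U) (M := t.Mf n b U)
      (Lf := fun U' => t.Lf (n + 1) b U') (Rf := fun U' => t.Rf (n + 1) b U') hMR
      (ht.l hbr n p U) (ht.r hbr n p U) (ht.M hbr n p U)
      (fun U' => ht.l hbr (n + 1) p U') (fun U' => ht.r hbr (n + 1) p U')
      hce hcc ?_
    intro x hx
    have hB := B (e * κ / 2) (u / 2) (φ + 101 / 64) hs hb (by linarith) (by linarith)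
      (by linarith [h4'.1]) (by linarith [h4'.2]) x hx
    rw [← hb', ← hU] at hB
    have hdq := (hMR x).dQ he hce
    have hom := hdq.om_disc he
    rw [← hcc] at hom
    exact MidA.of (hB.1 hom) hB.2

/-- **The last near node in the corner.** -/
theorem last_node (he : 0 < e) (hκ : 0 < κ) {D : LamT} {t : NF} (ht : t.OK e κ D) {n : ℕ} {b1 s1 : ℝ}
    (hb : e * κ / 2 ≤ b1) {ce : ℝ} (hce : 0 ≤ ce) {cc : ℂ} (hcc : cc = (ce : ℂ)) {p Q y : ℂ}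
    (hQ : Real.cosh κ < Q.re) (hT : e * ‖Q - (Real.cosh κ : ℂ)‖ ≤ s1)
    (hy : y = (e : ℂ) * (1 - (Q ^ 2)⁻¹)) {Ae xa C2 : ℂ} {A' x0 B1 a0 c2 : ℝ}
    (hA0 : 0 ≤ A') (hAe : Ae = ((A' / e : ℝ) : ℂ)) (hxa : xa = (a0 : ℂ))
    (ha0 : 0 ≤ a0) (hax : a0 ≤ x0) (hC2 : C2 = (c2 : ℂ)) (hB1 : B1 < x0 + 2)
    (hc2 : (1 + 1 / (2 * (x0 + 2))) / (1 - B1 / (x0 + 2)) ≤ c2)
    (A : ∀ s m ψ : ℝ, 0 < s → s ≤ s1 → 0 < m → m ≤ 1 → m * s ≤ 2 * b1 → 0 ≤ ψ → ψ ≤ 101 / 32 →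
      ∀ x : ℂ, ‖x‖ ≤ 1 →
      StA (ptM t n (bA ((1 / e : ℝ) : ℂ) s m) (uA ψ) x)
        (mD (ptM t n (bA ((1 / e : ℝ) : ℂ) s m) (uA ψ) x) cc) δ ∧
      ClL (ptM t n (bA ((1 / e : ℝ) : ℂ) s m) (uA ψ) x)
        (fun F2 => ptL t n (bA ((1 / e : ℝ) : ℂ) s m) (uA ψ) x Ae xa C2 F2) B1 θ)
    (B : ∀ s m ψ : ℝ, 0 < s → s ≤ b1 → 0 < m → m ≤ 1 → 0 ≤ ψ → ψ ≤ 101 / 32 →
      ∀ x : ℂ, ‖x‖ ≤ 1 →
      (‖(mD (ptM t n (bB ((1 / e : ℝ) : ℂ) s) (uB m ψ) x) cc).om - ((1 / 2) : ℂ)‖ ≤ 1 / 2 →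
      StA (ptM t n (bB ((1 / e : ℝ) : ℂ) s) (uB m ψ) x)
        (mD (ptM t n (bB ((1 / e : ℝ) : ℂ) s) (uB m ψ) x) cc) δ) ∧
      ClL (ptM t n (bB ((1 / e : ℝ) : ℂ) s) (uB m ψ) x)
        (fun F2 => ptL t n (bB ((1 / e : ℝ) : ℂ) s) (uB m ψ) x Ae xa C2 F2) B1 θ) :
    YL e κ (hh e κ ce) θ δ A' x0 B1 ((D.toN e κ).l n p y)
      ((D.toN e κ).r n p y) ((D.toN e κ).M n p y)
      (fun x => Sn e κ y ((D.toN e κ).l n p y)
        ((D.toN e κ).r n p y * x)) Q := by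
  have hpi : Real.pi / 2 ≤ 101 / 64 := by
    have := Real.pi_lt_d2
    linarith
  rcases le_total κ ‖Q - (Real.cosh κ : ℂ)‖ with hc | hc
  · -- chart A
    obtain ⟨s, B', φ, h1, h2, h3, h4, h5⟩ := chartA he hκ hQ
    have hs : 0 < s := by
      rw [h1]
      exact mul_pos he (hκ.trans_le hc)
    have hsB : s * B' ≤ s * (1 / 2) := by
      rw [h2, h1]
      have := mul_le_mul_of_nonneg_left hc he.le
      linarith
    have hB : B' ≤ 1 / 2 := le_of_mul_le_mul_left hsB hs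
    have h4' := abs_lt.1 h4
    obtain ⟨b, hb'⟩ : ∃ b, b = bA ((1 / e : ℝ) : ℂ) (s : ℂ) ((2 * B' : ℝ) : ℂ) := ⟨_, rfl⟩
    obtain ⟨U, hU⟩ : ∃ U, U = uA ((φ + 101 / 64 : ℝ) : ℂ) := ⟨_, rfl⟩
    have hbB : b.B = (B' : ℂ) := by
      rw [hb']
      show (((1 / 2) : ℂ) * ((2 * B' : ℝ) : ℂ)) = _
      push_cast
      ring
    have hUe : U = exp (I * (φ : ℂ)) := by
      rw [hU]
      unfold uA
      congr 1
      push_cast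
      ring
    have hMR : ∀ x : ℂ, MR e κ s B' ⟨⟨b, t.Lf n b U, t.Rf n b U, x⟩, U⟩ Q := fun x =>
      h5 b U (by rw [hb']; rfl) (by rw [hb']; rfl) hbB hUe _ _ x
    have hbr := (hMR 0).b
    refine yL_of he hy (b := b) (U := U) (L := t.Lf n b U) (R := t.Rf n b U) (M := t.Mf n b U)
      hMR (ht.l hbr n p U) (ht.r hbr n p U) (ht.M hbr n p U)
      hA0 hAe hxa ha0 hax hC2 hB1 hc2 hce hcc ?_
    intro x hx
    have hA := A s (2 * B') (φ + 101 / 64) hs (by rw [h1]; exact hT) (by linarith) (by linarith)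
      (by nlinarith) (by linarith [h4'.1]) (by linarith [h4'.2]) x hx
    rw [← hb', ← hU] at hA
    exact LastA.of hA.1 hA.2
  · -- chart B
    obtain ⟨u, φ, h1, h2, h4, h5⟩ := chartB he hκ hQ
    have hs : 0 < e * κ / 2 := by positivity
    have hu : u ≤ 2 := by
      have h6 : (e * κ / 2) * u ≤ (e * κ / 2) * 2 := by
        rw [h1]
        have := mul_le_mul_of_nonneg_left hc he.le
        linarith
      exact le_of_mul_le_mul_left h6 hs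
    have h4' := abs_lt.1 h4
    obtain ⟨b, hb'⟩ : ∃ b, b = bB ((1 / e : ℝ) : ℂ) ((e * κ / 2 : ℝ) : ℂ) := ⟨_, rfl⟩
    obtain ⟨U, hU⟩ : ∃ U, U = uB ((u / 2 : ℝ) : ℂ) ((φ + 101 / 64 : ℝ) : ℂ) := ⟨_, rfl⟩
    have hUe : U = (u : ℂ) * exp (I * (φ : ℂ)) := by
      rw [hU]
      unfold uB
      have e1 : (2 : ℂ) * ((u / 2 : ℝ) : ℂ) = (u : ℂ) := by
        push_cast
        ring
      rw [e1]
      congr 2
      push_cast
      ring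
    have hMR : ∀ x : ℂ, MR e κ (e * κ / 2) 1 ⟨⟨b, t.Lf n b U, t.Rf n b U, x⟩, U⟩ Q := fun x =>
      h5 b U (by rw [hb']; rfl) (by rw [hb']; rfl) (by rw [hb']; rfl) hUe _ _ x
    have hbr := (hMR 0).b
    refine yL_of he hy (b := b) (U := U) (L := t.Lf n b U) (R := t.Rf n b U) (M := t.Mf n b U)
      hMR (ht.l hbr n p U) (ht.r hbr n p U) (ht.M hbr n p U)
      hA0 hAe hxa ha0 hax hC2 hB1 hc2 hce hcc ?_
    intro x hx
    have hB := B (e * κ / 2) (u / 2) (φ + 101 / 64) hs hb (by linarith) (by linarith)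
      (by linarith [h4'.1]) (by linarith [h4'.2]) x hx
    rw [← hb', ← hU] at hB
    have hdq := (hMR x).dQ he hce
    have hom := hdq.om_disc he
    rw [← hcc] at hom
    exact LastA.of (hB.1 hom) hB.2

/-- **The first node in the corner.** -/
theorem first_node (he : 0 < e) (hκ : 0 < κ) {D : LamT} {t : NF} (ht : t.OK e κ D) {t0 : NF0}
    {v η : ℝ} {p : ℂ} (hp : p = (η : ℂ) * I) (ht0 : t0.OK e κ v p D) {b1 v1 : ℝ}
    (hc98 : Real.cosh κ ≤ 9 / 8)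
    (hb : e * κ / 2 ≤ b1) (hv0 : 0 ≤ v) (hv : v ≤ v1)
    {ce : ℝ} (hce : 0 ≤ ce) {cc : ℂ} (hcc : cc = (ce : ℂ))
    (A : ∀ s m : ℝ, 0 < s → s ≤ v1 → 0 < m → m ≤ 1 → 2 * (m * s) ≤ b1 →
      ∀ x : ℂ, ‖x‖ ≤ 1 →
      StF (ptF t0 (b0A ((1 / e : ℝ) : ℂ) s m) 1 x)
        (fD (ptF t0 (b0A ((1 / e : ℝ) : ℂ) s m) 1 x) cc) δ ∧
      ClA ⟨(ptF t0 (b0A ((1 / e : ℝ) : ℂ) s m) 1 x).c, 0⟩
        (ptF1 t0 t (b0A ((1 / e : ℝ) : ℂ) s m) 1 x) θ)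
    (B : ∀ s m : ℝ, 0 < s → s ≤ b1 → 0 ≤ m → m ≤ 1 →
      ∀ x : ℂ, ‖x‖ ≤ 1 →
      (‖(fD (ptF t0 (bB ((1 / e : ℝ) : ℂ) s) (v0B m) x) cc).om - ((1 / 2) : ℂ)‖ ≤ 1 / 2 →
      StF (ptF t0 (bB ((1 / e : ℝ) : ℂ) s) (v0B m) x)
        (fD (ptF t0 (bB ((1 / e : ℝ) : ℂ) s) (v0B m) x) cc) δ) ∧
      ClA ⟨(ptF t0 (bB ((1 / e : ℝ) : ℂ) s) (v0B m) x).c, 0⟩
        (ptF1 t0 t (bB ((1 / e : ℝ) : ℂ) s) (v0B m) x) θ) :
    YF e κ θ (C0h κ (hh e κ ce) δ p) ((D.toN e κ).l0 p) ((D.toN e κ).r0 p) ((D.toN e κ).M0 p)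
      (fun x => S0 e κ (tanh (κ * p)) ((D.toN e κ).l0 p) ((D.toN e κ).r0 p * x))
      ((D.toN e κ).l 0 p) ((D.toN e κ).r 0 p) ∧
    (∀ x : ℂ, ‖x‖ ≤ 1 → 1 - (Hh κ : ℂ) ^ 2 *
      exp (-(2 * ((LA e κ : ℂ) + lF ((D.toN e κ).l0 p) ((D.toN e κ).r0 p * x))) / e) *
        (1 - tanh (κ * p) ^ 2) ∈ slitPlane) ∧
    (∀ x : ℂ, ‖x‖ ≤ 1 → RS.SH e κ (tanh (κ * p)) ((D.toN e κ).l0 p)
      ((D.toN e κ).r0 p * x) ∈ slitPlane) := by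
  have hbp : 0 < e * κ / 2 := by positivity
  rcases le_total (e * κ / 2) (2 * v) with hc | hc
  · -- chart A
    have hvp : 0 < v := by linarith
    obtain ⟨B', hB'⟩ : ∃ B', B' = (e * κ / 2) / v := ⟨_, rfl⟩
    have hB0 : 0 < B' := by rw [hB']; exact div_pos hbp hvp
    have hvB : v * B' = e * κ / 2 := by rw [hB']; field_simp
    have hB2 : B' ≤ 2 := by
      rw [hB', div_le_iff₀ hvp]
      exact hc
    obtain ⟨b, hb'⟩ : ∃ b, b = b0A ((1 / e : ℝ) : ℂ) (v : ℂ) ((B' / 2 : ℝ) : ℂ) := ⟨_, rfl⟩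
    have hbr : BR e κ v B' b := by
      refine ⟨by rw [hb']; rfl, by rw [hb']; rfl, ?_, hvp, hB0, ?_⟩
      · rw [hb']
        show (2 : ℂ) * ((B' / 2 : ℝ) : ℂ) = _
        push_cast
        ring
      · rw [hvB]
        field_simp
    have hv1 : v * 1 = v := mul_one v
    obtain ⟨w, hw⟩ := ht0.I hbr hv1
    rw [ofReal_one] at hw
    have hW := ht0.W hbr hv1
    have hl := ht0.l hbr hv1
    have hr := ht0.r hbr hv1
    have hM := ht0.M hbr hv1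
    rw [ofReal_one] at hW hl hr hM
    refine yF_of he hp (b := b) (W := t0.W b 1) (L := t0.L b 1) (R := t0.R b 1) (M := t0.M b 1)
      (Lf := fun U' => t.Lf 0 b U') (Rf := fun U' => t.Rf 0 b U') hbr hc98 hw hW hl hr hM
      (fun U' => ht.l hbr 0 p U') (fun U' => ht.r hbr 0 p U') hce hcc ?_
    intro x hx
    have hA := A v (B' / 2) hvp hv (by linarith) (by linarith) (by linarith) x hx
    rw [← hb'] at hA
    exact FirstA.of hA.1 hA.2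
  · -- chart B
    obtain ⟨V, hV⟩ : ∃ V, V = v / (e * κ / 2) := ⟨_, rfl⟩
    have hV0 : 0 ≤ V := by rw [hV]; exact div_nonneg hv0 hbp.le
    have hvV : (e * κ / 2) * V = v := by rw [hV]; field_simp
    have hV2 : V ≤ 1 / 2 := by
      rw [hV, div_le_iff₀ hbp]
      linarith
    obtain ⟨b, hb'⟩ : ∃ b, b = bB ((1 / e : ℝ) : ℂ) ((e * κ / 2 : ℝ) : ℂ) := ⟨_, rfl⟩
    have hbr : BR e κ (e * κ / 2) 1 b := by
      refine ⟨by rw [hb']; rfl, by rw [hb']; rfl, ?_, hbp, one_pos, ?_⟩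
      · rw [hb', ofReal_one]
        rfl
      · field_simp
    have hVc : (V : ℂ) = v0B ((2 * V : ℝ) : ℂ) := by
      unfold v0B
      push_cast
      ring
    obtain ⟨w, hw⟩ := ht0.I hbr hvV
    have hW := ht0.W hbr hvV
    have hl := ht0.l hbr hvV
    have hr := ht0.r hbr hvV
    have hM := ht0.M hbr hvV
    refine yF_of he hp (b := b) (W := t0.W b V) (L := t0.L b V) (R := t0.R b V) (M := t0.M b V)
      (Lf := fun U' => t.Lf 0 b U') (Rf := fun U' => t.Rf 0 b U') hbr hc98 hw hW hl hr hM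
      (fun U' => ht.l hbr 0 p U') (fun U' => ht.r hbr 0 p U') hce hcc ?_
    intro x hx
    have hB := B (e * κ / 2) (2 * V) hbp hb (by linarith) (by linarith) x hx
    rw [← hb', ← hVc] at hB
    have hdq := first_dQ he (f := ⟨⟨b, t0.L b V, t0.R b V, x⟩, t0.W b V⟩) hbr hc98 hw hce
    have hom := hdq.om_disc he
    rw [← hcc] at hom
    exact FirstA.of (hB.1 hom) hB.2

/-! ### Boxes -/

theorem in1 {c h : ℕ} {t lo hi : ℝ} (h1 : lo ≤ t) (h2 : t ≤ hi)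
    (h3 : ((c : ℝ) - h) / 2 ^ 40 ≤ lo) (h4 : hi ≤ ((c : ℝ) + h) / 2 ^ 40) :
    |t - (c : ℝ) / 2 ^ 40| ≤ (h : ℝ) / 2 ^ 40 := by
  rw [abs_le]
  have e1 : ((c : ℝ) - h) / 2 ^ 40 = (c : ℝ) / 2 ^ 40 - (h : ℝ) / 2 ^ 40 := sub_div _ _ _
  have e2 : ((c : ℝ) + h) / 2 ^ 40 = (c : ℝ) / 2 ^ 40 + (h : ℝ) / 2 ^ 40 := add_div _ _ _
  constructor <;> linarith

open Pool.Agent.helper31.IA Pool.Agent.helper31.IX in
theorem cov4 {ops : List Pool.Agent.helper31.IX.Op} {c0 h0 c1 h1 c2 h2 c3 h3 : ℕ}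
    (hc : Cov 1 ops [(c0, h0), (c1, h1), (c2, h2), (c3, h3)]) {t0 t1 t2 t3 : ℝ} {x : ℂ}
    (i0 : |t0 - (c0 : ℝ) / 2 ^ 40| ≤ (h0 : ℝ) / 2 ^ 40)
    (i1 : |t1 - (c1 : ℝ) / 2 ^ 40| ≤ (h1 : ℝ) / 2 ^ 40)
    (i2 : |t2 - (c2 : ℝ) / 2 ^ 40| ≤ (h2 : ℝ) / 2 ^ 40)
    (i3 : |t3 - (c3 : ℝ) / 2 ^ 40| ≤ (h3 : ℝ) / 2 ^ 40) (hx : ‖x‖ ≤ 1) :
    Asserts ops [(t0 : ℂ), (t1 : ℂ), (t2 : ℂ), (t3 : ℂ), x] := by
  have := hc [t0, t1, t2, t3] [x]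
    (List.Forall₂.cons i0 (List.Forall₂.cons i1 (List.Forall₂.cons i2
      (List.Forall₂.cons i3 List.Forall₂.nil)))) rfl
    (by intro z hz; rw [List.mem_singleton] at hz; rw [hz]; exact hx)
  exact this

open Pool.Agent.helper31.IA Pool.Agent.helper31.IX in
theorem covD4 {progs : List (List Pool.Agent.helper31.IX.Op)} {c0 h0 c1 h1 c2 h2 c3 h3 : ℕ}
    (hc : CovD 1 progs [(c0, h0), (c1, h1), (c2, h2), (c3, h3)]) {t0 t1 t2 t3 : ℝ} {x : ℂ}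
    (i0 : |t0 - (c0 : ℝ) / 2 ^ 40| ≤ (h0 : ℝ) / 2 ^ 40)
    (i1 : |t1 - (c1 : ℝ) / 2 ^ 40| ≤ (h1 : ℝ) / 2 ^ 40)
    (i2 : |t2 - (c2 : ℝ) / 2 ^ 40| ≤ (h2 : ℝ) / 2 ^ 40)
    (i3 : |t3 - (c3 : ℝ) / 2 ^ 40| ≤ (h3 : ℝ) / 2 ^ 40) (hx : ‖x‖ ≤ 1) :
    ∃ ops ∈ progs, Asserts ops [(t0 : ℂ), (t1 : ℂ), (t2 : ℂ), (t3 : ℂ), x] := by
  have := hc [t0, t1, t2, t3] [x]
    (List.Forall₂.cons i0 (List.Forall₂.cons i1 (List.Forall₂.cons i2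
      (List.Forall₂.cons i3 List.Forall₂.nil)))) rfl
    (by intro z hz; rw [List.mem_singleton] at hz; rw [hz]; exact hx)
  exact this

open Pool.Agent.helper31.IA Pool.Agent.helper31.IX in
theorem cov3 {ops : List Pool.Agent.helper31.IX.Op} {c0 h0 c1 h1 c2 h2 : ℕ}
    (hc : Cov 1 ops [(c0, h0), (c1, h1), (c2, h2)]) {t0 t1 t2 : ℝ} {x : ℂ}
    (i0 : |t0 - (c0 : ℝ) / 2 ^ 40| ≤ (h0 : ℝ) / 2 ^ 40)
    (i1 : |t1 - (c1 : ℝ) / 2 ^ 40| ≤ (h1 : ℝ) / 2 ^ 40)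
    (i2 : |t2 - (c2 : ℝ) / 2 ^ 40| ≤ (h2 : ℝ) / 2 ^ 40) (hx : ‖x‖ ≤ 1) :
    Asserts ops [(t0 : ℂ), (t1 : ℂ), (t2 : ℂ), x] := by
  have := hc [t0, t1, t2] [x]
    (List.Forall₂.cons i0 (List.Forall₂.cons i1 (List.Forall₂.cons i2 List.Forall₂.nil))) rfl
    (by intro z hz; rw [List.mem_singleton] at hz; rw [hz]; exact hx)
  exact this

open Pool.Agent.helper31.IA Pool.Agent.helper31.IX in
theorem covD3 {progs : List (List Pool.Agent.helper31.IX.Op)} {c0 h0 c1 h1 c2 h2 : ℕ}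
    (hc : CovD 1 progs [(c0, h0), (c1, h1), (c2, h2)]) {t0 t1 t2 : ℝ} {x : ℂ}
    (i0 : |t0 - (c0 : ℝ) / 2 ^ 40| ≤ (h0 : ℝ) / 2 ^ 40)
    (i1 : |t1 - (c1 : ℝ) / 2 ^ 40| ≤ (h1 : ℝ) / 2 ^ 40)
    (i2 : |t2 - (c2 : ℝ) / 2 ^ 40| ≤ (h2 : ℝ) / 2 ^ 40) (hx : ‖x‖ ≤ 1) :
    ∃ ops ∈ progs, Asserts ops [(t0 : ℂ), (t1 : ℂ), (t2 : ℂ), x] := by
  have := hc [t0, t1, t2] [x]
    (List.Forall₂.cons i0 (List.Forall₂.cons i1 (List.Forall₂.cons i2 List.Forall₂.nil))) rfl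
    (by intro z hz; rw [List.mem_singleton] at hz; rw [hz]; exact hx)
  exact this

end Pool.Agent.helper12.RS
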