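import Pool.Agent.helper12.RS.Chain

/-!
# `SPt` from conditions node by node

`B n` is the set of the admissible `y` of the link after the near node number `n`.
-/

namespace Pool.Agent.helper12.RS

open Complex ComplexConjugate Set Filter Topology
open Pool.Agent.helper31.EQ.Y Pool.Agent.helper31.EQ.R
open Pool.Agent.helper12.RP Pool.Agent.helper12.FF

/-- Conditions at a node with logit `l`, radius `r`, preconditioner `M`, radicand `S` of the next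
link, for the unknown `x`. -/
structure NC (l r M S x : ℂ) : Prop where
  r_ne : r ≠ 0
  M_ne : M ≠ 0
  lc : LC l (r * x)
  S : S ∈ slitPlane

/-- Conditions at a node whose next node is near, with the functions `l'`, `r'` of `y`. -/
structure NN (e κ θ : ℝ) (l r M S x : ℂ) (B : Set ℂ) (l' r' : ℂ → ℂ) : Prop where
  nc : NC l r M S x
  re : Real.cosh κ < (S ^ ((1 / 2 : ℝ) : ℂ)).re
  mem : (e : ℂ) * (1 - S⁻¹) ∈ B
  close : ∀ x' : ℂ, ‖x'‖ ≤ 1 → ‖x - M * (x - (1 - exp (CL l - (e : ℂ) / 2 * log S +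
    lF (l' ((e : ℂ) * (1 - S⁻¹))) (r' ((e : ℂ) * (1 - S⁻¹)) * x'))) / r)‖ < θ

/-- Conditions at the last near node. -/
structure NL (e κ θ : ℝ) (d : FarN e κ θ) (l r M S x : ℂ) : Prop where
  nc : NC l r M S x
  ent : (S ^ ((1 / 2 : ℝ) : ℂ) - (Real.cosh κ : ℂ)) / (Real.sinh κ : ℂ) ∈ d.Ω 0
  close : ∀ τ, τ = (S ^ ((1 / 2 : ℝ) : ℂ) - (Real.cosh κ : ℂ)) / (Real.sinh κ : ℂ) →
    ∀ χ : ℂ, ‖χ‖ ≤ ‖d.X 0 τ‖ → ‖x - M * (x - (1 - exp (CL l) *
      ((1 - fT e κ τ) * (1 + qq e κ (shf κ τ) * χ))) / r)‖ < θ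

variable {e κ θ : ℝ}

/-- The conditions of all near nodes at the start `p`; `L ≥ 1`. -/
structure NodesOK (d : FarN e κ θ) (D : LamN) (L : ℕ) (p : ℂ) (B : ℕ → Set ℂ) : Prop where
  mem : p ∈ D.DN
  dom : ∀ n, n < L → ∀ y ∈ B n, (p, y) ∈ D.DY n
  strip : |p.im| < Real.pi / (2 * κ)
  w0 : ∀ x : ℂ, ‖x‖ ≤ 1 → 1 - (Hh κ : ℂ) ^ 2 *
    exp (-(2 * ((LA e κ : ℂ) + lF (D.l0 p) (D.r0 p * x))) / e) * (1 - tanh (κ * p) ^ 2) ∈ slitPlane
  SH : ∀ x : ℂ, ‖x‖ ≤ 1 → SH e κ (tanh (κ * p)) (D.l0 p) (D.r0 p * x) ∈ slitPlane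
  first : ∀ x : ℂ, ‖x‖ ≤ 1 → NN e κ θ (D.l0 p) (D.r0 p) (D.M0 p)
    (S0 e κ (tanh (κ * p)) (D.l0 p) (D.r0 p * x)) x (B 0) (D.l 0 p) (D.r 0 p)
  mid : ∀ n, n + 1 < L → ∀ y ∈ B n, ∀ x : ℂ, ‖x‖ ≤ 1 → NN e κ θ (D.l n p y) (D.r n p y) (D.M n p y)
    (Sn e κ y (D.l n p y) (D.r n p y * x)) x (B (n + 1)) (D.l (n + 1) p) (D.r (n + 1) p)
  last : ∀ y ∈ B (L - 1), ∀ x : ℂ, ‖x‖ ≤ 1 → NL e κ θ d (D.l (L - 1) p y) (D.r (L - 1) p y)
    (D.M (L - 1) p y) (Sn e κ y (D.l (L - 1) p y) (D.r (L - 1) p y * x)) x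

section conv

variable {d : FarN e κ θ} {D : LamN} {L : ℕ} {p : ℂ} {x : ℕ → ℂ} {B : ℕ → Set ℂ}

/-- the states stay in the sets `B n` -/
theorem nodes_mem (h : NodesOK d D L p B) (hx : x ∈ KK) : ∀ n, n < L → cY D e κ p x n ∈ B n := by
  intro n
  induction n with
  | zero =>
    intro _
    exact (h.first (x 0) (hx 0)).mem
  | succ n ih =>
    intro hn
    have h1 := ih (by omega)
    exact (h.mid n hn _ h1 (x (n + 1)) (hx _)).mem

theorem sPt_of_nodes (hL : 0 < L) (h : NodesOK d D L p B) (hx : x ∈ KK) : SPt d D L p x := by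
  have hm := nodes_mem h hx
  have hnc : ∀ n, n < L + 1 → NC (nl D e κ p x n) (nr D e κ p x n) (nM D e κ p x n)
      (cS D e κ p x n) (x n) := by
    intro n hn
    rcases n with _ | n
    · exact (h.first (x 0) (hx 0)).nc
    · by_cases hn1 : n + 1 < L
      · exact (h.mid n hn1 _ (hm n (by omega)) (x (n + 1)) (hx _)).nc
      · have hL1 : n = L - 1 := by omega
        have h1 := (h.last _ (by rw [← hL1]; exact hm n (by omega)) (x (n + 1)) (hx _)).nc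
        rw [← hL1] at h1
        exact h1
  obtain ⟨m, rfl⟩ : ∃ m, L = m + 1 := ⟨L - 1, by omega⟩
  have hlast := h.last _ (hm m (by omega)) (x (m + 1)) (hx _)
  refine ⟨h.mem, fun n hn => h.dom n hn _ (hm n hn), h.strip, fun n hn => (hnc n hn).r_ne, fun n hn => (hnc n hn).M_ne,
    fun n hn => (hnc n hn).lc, h.w0 (x 0) (hx 0), h.SH (x 0) (hx 0), fun n hn => (hnc n hn).S,
    ?_, ?_, ?_, ?_⟩
  · intro n hn
    rcases n with _ | n
    · exact (h.first (x 0) (hx 0)).re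
    · exact (h.mid n hn _ (hm n (by omega)) (x (n + 1)) (hx _)).re
  · exact hlast.ent
  · intro n hn
    rcases n with _ | n
    · exact (h.first (x 0) (hx 0)).close (x 1) (hx 1)
    · exact (h.mid n hn _ (hm n (by omega)) (x (n + 1)) (hx _)).close (x (n + 2)) (hx _)
  · exact hlast.close _ rfl

/-- **The result for one pair `(e, κ)`, node by node.** -/
theorem rdataF_of_nodes (he : 0 < e) (hκ : 0 < κ) (hθ0 : 0 ≤ θ) (hθ1 : θ < 1) (d : FarN e κ θ)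
    (D : LamN) (hL : 0 < L) {η : ℝ} (hη : 0 < η) (B : ℝ → ℕ → Set ℂ)
    (hseg : ∀ y : ℝ, 0 ≤ y → y ≤ η → NodesOK d D L ((y : ℂ) * I) (B y))
    (h0 : ∀ x0 : ℂ, ‖x0‖ ≤ 1 →
      Hh κ * Real.exp (-(LA e κ + (lF (D.l0 0) (D.r0 0 * x0)).re) / e) < 1)
    (test : ∀ x0 : ℂ, ‖x0‖ < θ → (exp (lF (D.l0 ((η : ℂ) * I)) (D.r0 ((η : ℂ) * I) * x0) +
        (e : ℂ) / 2 * log (RS.SH e κ (tanh (κ * ((η : ℂ) * I))) (D.l0 ((η : ℂ) * I))
          (D.r0 ((η : ℂ) * I) * x0)))).re ≠ 1 / 2) :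
    Nonempty (RDataF e κ) :=
  rdataF_of_SPt he hκ hθ0 hθ1 d D L hη
    (fun y hy hy2 _ hx => sPt_of_nodes hL (hseg y hy hy2) hx) h0 test

end conv

end Pool.Agent.helper12.RS
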