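import Pool.Agent.helper12.RS.LastCl

/-!
# The states in the coordinate `ω = exp (-2κζ)`

`om κ Q = (exp κ - Q)/(Q - exp (-κ))`; the exact step multiplies `om` by `exp (-2κ)`.  The states of
the near nodes lie in discs `‖om κ Q - ω‖ ≤ R`.
-/

namespace Pool.Agent.helper12.RS

open Complex ComplexConjugate Set Filter Topology
open Pool.Agent.helper31.EQ.Y Pool.Agent.helper31.EQ.R
open Pool.Agent.helper12.RP Pool.Agent.helper12.FF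

variable {e κ θ : ℝ}

/-- `exp (-2κζ)` for the ratio `Q` -/
noncomputable def om (κ : ℝ) (Q : ℂ) : ℂ := ((Real.exp κ : ℂ) - Q) / (Q - (Real.exp (-κ) : ℂ))

theorem exp_mul_exp_neg (κ : ℝ) : (Real.exp κ : ℂ) * (Real.exp (-κ) : ℂ) = 1 := by
  rw [← ofReal_mul, ← Real.exp_add]
  simp

theorem two_cosh_c (κ : ℝ) :
    2 * (Real.cosh κ : ℂ) = (Real.exp κ : ℂ) + (Real.exp (-κ) : ℂ) := by
  rw [← ofReal_add, Real.cosh_eq]
  push_cast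
  ring

theorem two_sinh_c (κ : ℝ) :
    2 * (Real.sinh κ : ℂ) = (Real.exp κ : ℂ) - (Real.exp (-κ) : ℂ) := by
  rw [← ofReal_sub, Real.sinh_eq]
  push_cast
  ring

/-- the exact step -/
theorem om_step (κ : ℝ) {Q : ℂ} (hQ : Q ≠ 0) (h : Q ≠ (Real.exp (-κ) : ℂ)) :
    om κ (2 * (Real.cosh κ : ℂ) - Q⁻¹) = (Real.exp (-(2 * κ)) : ℂ) * om κ Q := by
  have he := exp_mul_exp_neg κ
  have h2 : (Real.exp (-(2 * κ)) : ℂ) = (Real.exp (-κ) : ℂ) * (Real.exp (-κ) : ℂ) := by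
    rw [← ofReal_mul, ← Real.exp_add]
    congr 2
    ring
  obtain ⟨a, ha⟩ : ∃ a : ℂ, a = (Real.exp κ : ℂ) := ⟨_, rfl⟩
  obtain ⟨b, hb⟩ : ∃ b : ℂ, b = (Real.exp (-κ) : ℂ) := ⟨_, rfl⟩
  unfold om
  rw [two_cosh_c, h2, ← ha, ← hb]
  rw [← ha, ← hb] at he
  rw [← hb] at h
  have h3 : Q - b ≠ 0 := sub_ne_zero.2 h
  have hb0 : b ≠ 0 := right_ne_zero_of_mul_eq_one he
  have ha0 : a ≠ 0 := left_ne_zero_of_mul_eq_one he
  have h4 : a + b - Q⁻¹ - b = a * (Q - b) / Q := by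
    field_simp
    linear_combination he
  have h5 : a - (a + b - Q⁻¹) = b * (a - Q) / Q := by
    field_simp
    linear_combination -he
  rw [h4, h5]
  have h6 : b * b = b / a := by
    rw [eq_div_iff ha0]
    linear_combination b * he
  rw [h6]
  field_simp

theorem norm_sub_exp_sq (Q : ℂ) : ‖Q - (Real.exp (-κ) : ℂ)‖ ^ 2 - ‖(Real.exp κ : ℂ) - Q‖ ^ 2 =
    4 * Real.sinh κ * (Q.re - Real.cosh κ) := by
  have h1 := norm_sub_ofReal_sq Q (Real.exp κ)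
  have h2 := norm_sub_ofReal_sq Q (Real.exp (-κ))
  have e1 : Real.exp κ ^ 2 - Real.exp (-κ) ^ 2 = 4 * Real.sinh κ * Real.cosh κ := by
    rw [Real.sinh_eq, Real.cosh_eq]
    ring
  have e2 : Real.exp κ - Real.exp (-κ) = 2 * Real.sinh κ := by
    rw [Real.sinh_eq]
    ring
  rw [norm_sub_rev (Real.exp κ : ℂ) Q, h1, h2]
  linear_combination (2 * Q.re) * e2 - e1

/-- `|om| < 1` is the right half plane -/
theorem re_of_om (hκ : 0 < κ) {Q : ℂ} (h0 : Q ≠ (Real.exp (-κ) : ℂ)) (h : ‖om κ Q‖ < 1) :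
    Real.cosh κ < Q.re := by
  have hs := Real.sinh_pos_iff.2 hκ
  have hn : 0 < ‖Q - (Real.exp (-κ) : ℂ)‖ := norm_pos_iff.2 (sub_ne_zero.2 h0)
  unfold om at h
  rw [norm_div, div_lt_one hn] at h
  have h1 := pow_lt_pow_left₀ h (norm_nonneg _) two_ne_zero
  have h2 := norm_sub_exp_sq (κ := κ) Q
  have h3 : 0 < 4 * Real.sinh κ * (Q.re - Real.cosh κ) := by
    rw [← h2]
    linarith
  have h4 := (mul_pos_iff_of_pos_left (by positivity)).1 h3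
  linarith

theorem om_lt_one (hκ : 0 < κ) {Q : ℂ} (h : Real.cosh κ < Q.re) : ‖om κ Q‖ < 1 := by
  have hs := Real.sinh_pos_iff.2 hκ
  have h2 := norm_sub_exp_sq (κ := κ) Q
  have h3 : 0 < 4 * Real.sinh κ * (Q.re - Real.cosh κ) := by
    have : 0 < Q.re - Real.cosh κ := by linarith
    positivity
  have h4 : ‖(Real.exp κ : ℂ) - Q‖ < ‖Q - (Real.exp (-κ) : ℂ)‖ := by
    apply lt_of_pow_lt_pow_left₀ 2 (norm_nonneg _)
    linarith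
  unfold om
  rw [norm_div, div_lt_one (lt_of_le_of_lt (norm_nonneg _) h4)]
  exact h4

/-- `om` in terms of the position -/
theorem om_eq_tQ (hκ : 0 < κ) {Q : ℂ} (h0 : Q ≠ (Real.exp (-κ) : ℂ)) :
    ‖tQ κ Q - 1‖ = ‖om κ Q‖ * ‖tQ κ Q + 1‖ := by
  have hs := Real.sinh_pos_iff.2 hκ
  have hn : ‖Q - (Real.exp (-κ) : ℂ)‖ ≠ 0 := norm_ne_zero_iff.2 (sub_ne_zero.2 h0)
  rw [tQ_sub hκ, tQ_add hκ, om, norm_div, norm_div, norm_div, norm_sub_rev (Real.exp κ : ℂ)]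
  field_simp

/-- **Entry** -/
theorem entry_om (hκ : 0 < κ) {Q : ℂ} (h0 : Q ≠ (Real.exp (-κ) : ℂ)) {x0 : ℝ} (hx0 : 0 ≤ x0)
    (h : ‖om κ Q‖ < Real.exp (-(2 * κ * x0))) :
    ‖tQ κ Q - 1‖ < Real.exp (-(2 * κ * x0)) * ‖tQ κ Q + 1‖ := by
  have h1 : ‖om κ Q‖ < 1 := lt_of_lt_of_le h (Real.exp_le_one_iff.2 (by
    have : 0 ≤ 2 * κ * x0 := by positivity
    linarith))
  rw [om_eq_tQ hκ h0]
  exact mul_lt_mul_of_pos_right h (add_one_pos (tQ_re hκ (re_of_om hκ h0 h1)))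

/-- difference of two values -/
theorem om_sub (κ : ℝ) {Q Q' : ℂ} (h : Q ≠ (Real.exp (-κ) : ℂ)) (h' : Q' ≠ (Real.exp (-κ) : ℂ)) :
    om κ Q' - om κ Q = -(2 * (Real.sinh κ : ℂ) * (Q' - Q)) /
      ((Q' - (Real.exp (-κ) : ℂ)) * (Q - (Real.exp (-κ) : ℂ))) := by
  have h1 : Q - (Real.exp (-κ) : ℂ) ≠ 0 := sub_ne_zero.2 h
  have h2 : Q' - (Real.exp (-κ) : ℂ) ≠ 0 := sub_ne_zero.2 h'
  unfold om
  rw [div_sub_div _ _ h2 h1, two_sinh_c]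
  congr 1
  ring

/-- the state set -/
def BO (e κ : ℝ) (w : ℂ) (R : ℝ) : Set ℂ :=
  {y | ∃ Q : ℂ, Real.cosh κ < Q.re ∧ y = (e : ℂ) * (1 - (Q ^ 2)⁻¹) ∧ ‖om κ Q - w‖ ≤ R}

theorem ne_exp_neg (hκ : 0 < κ) {Q : ℂ} (h : Real.cosh κ < Q.re) :
    Q ≠ (Real.exp (-κ) : ℂ) := by
  intro h0
  rw [h0, ofReal_re] at h
  have h1 := Real.exp_pos κ
  have h2 : Real.exp (-κ) < Real.exp κ := Real.exp_lt_exp.2 (by linarith)
  have h3 := Real.cosh_eq κ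
  linarith

theorem ne_zero_of_cosh {Q : ℂ} (h : Real.cosh κ < Q.re) : Q ≠ 0 := by
  intro h0
  rw [h0, zero_re] at h
  have := Real.cosh_pos κ
  linarith

/-- **The next state.** -/
theorem next_mem (hκ : 0 < κ) {Q S w : ℂ} {R R' δ : ℝ} (hQ : Real.cosh κ < Q.re)
    (hw : ‖om κ Q - w‖ ≤ R) (hS : S ≠ 0)
    (hne : S ^ ((1 / 2 : ℝ) : ℂ) ≠ (Real.exp (-κ) : ℂ))
    (hδ : ‖om κ (S ^ ((1 / 2 : ℝ) : ℂ)) - om κ (2 * (Real.cosh κ : ℂ) - Q⁻¹)‖ ≤ δ)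
    (hR : Real.exp (-(2 * κ)) * R + δ ≤ R')
    (h1 : ‖(Real.exp (-(2 * κ)) : ℂ) * w‖ + R' < 1) :
    Real.cosh κ < (S ^ ((1 / 2 : ℝ) : ℂ)).re ∧
      (e : ℂ) * (1 - S⁻¹) ∈ BO e κ ((Real.exp (-(2 * κ)) : ℂ) * w) R' := by
  have hk := Real.exp_pos (-(2 * κ))
  have e1 := om_step κ (ne_zero_of_cosh hQ) (ne_exp_neg hκ hQ)
  rw [e1] at hδ
  have h2 : ‖om κ (S ^ ((1 / 2 : ℝ) : ℂ)) - (Real.exp (-(2 * κ)) : ℂ) * w‖ ≤ R' := by
    have h3 : om κ (S ^ ((1 / 2 : ℝ) : ℂ)) - (Real.exp (-(2 * κ)) : ℂ) * w =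
        (om κ (S ^ ((1 / 2 : ℝ) : ℂ)) - (Real.exp (-(2 * κ)) : ℂ) * om κ Q) +
        (Real.exp (-(2 * κ)) : ℂ) * (om κ Q - w) := by ring
    rw [h3]
    refine (norm_add_le _ _).trans ?_
    rw [norm_mul, Complex.norm_real, Real.norm_of_nonneg hk.le]
    have := mul_le_mul_of_nonneg_left hw hk.le
    linarith
  have h4 : ‖om κ (S ^ ((1 / 2 : ℝ) : ℂ))‖ < 1 := by
    have := norm_le_norm_add_norm_sub' (om κ (S ^ ((1 / 2 : ℝ) : ℂ)))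
      ((Real.exp (-(2 * κ)) : ℂ) * w)
    have h5 : ‖om κ (S ^ ((1 / 2 : ℝ) : ℂ))‖ ≤ ‖(Real.exp (-(2 * κ)) : ℂ) * w‖ +
        ‖om κ (S ^ ((1 / 2 : ℝ) : ℂ)) - (Real.exp (-(2 * κ)) : ℂ) * w‖ := by
      have h6 := norm_add_le ((Real.exp (-(2 * κ)) : ℂ) * w)
        (om κ (S ^ ((1 / 2 : ℝ) : ℂ)) - (Real.exp (-(2 * κ)) : ℂ) * w)
      rw [add_sub_cancel] at h6
      exact h6
    linarith
  have h5 := re_of_om hκ hne h4
  refine ⟨h5, S ^ ((1 / 2 : ℝ) : ℂ), h5, ?_, h2⟩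
  rw [half_sq hS]

/-! ### Start -/

/-- `exp (-2κp)` -/
noncomputable def om0 (κ : ℝ) (p : ℂ) : ℂ := (1 - tanh (κ * p)) / (1 + tanh (κ * p))

/-- the rigid link after the start `p` -/
noncomputable def Qe0 (κ : ℝ) (p : ℂ) : ℂ :=
  2 * (Real.cosh κ : ℂ) - ((Real.cosh κ : ℂ) + (Real.sinh κ : ℂ) * tanh (κ * p))⁻¹

theorem om_start (hκ : 0 < κ) {t : ℂ} :
    om κ ((Real.cosh κ : ℂ) + (Real.sinh κ : ℂ) * t) = (1 - t) / (1 + t) := by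
  have hs0 : (Real.sinh κ : ℂ) ≠ 0 := by exact_mod_cast (Real.sinh_pos_iff.2 hκ).ne'
  have h1 : (Real.exp κ : ℂ) = (Real.cosh κ : ℂ) + (Real.sinh κ : ℂ) := by
    rw [← ofReal_add, Real.cosh_add_sinh]
  have h2 : (Real.exp (-κ) : ℂ) = (Real.cosh κ : ℂ) - (Real.sinh κ : ℂ) := by
    rw [← ofReal_sub, Real.cosh_sub_sinh]
  unfold om
  rw [h1, h2]
  have e1 : (Real.cosh κ : ℂ) + (Real.sinh κ : ℂ) - ((Real.cosh κ : ℂ) + (Real.sinh κ : ℂ) * t) =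
      (Real.sinh κ : ℂ) * (1 - t) := by ring
  have e2 : (Real.cosh κ : ℂ) + (Real.sinh κ : ℂ) * t - ((Real.cosh κ : ℂ) - (Real.sinh κ : ℂ)) =
      (Real.sinh κ : ℂ) * (1 + t) := by ring
  rw [e1, e2, mul_div_mul_left _ _ hs0]

theorem om_Qe0 (hκ : 0 < κ) {p : ℂ}
    (h0 : (Real.cosh κ : ℂ) + (Real.sinh κ : ℂ) * tanh (κ * p) ≠ 0)
    (h1 : 1 + tanh (κ * p) ≠ 0) : om κ (Qe0 κ p) = (Real.exp (-(2 * κ)) : ℂ) * om0 κ p := by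
  unfold Qe0
  rw [om_step κ h0, om_start hκ]
  · rfl
  · intro h
    have h2 : (Real.exp (-κ) : ℂ) = (Real.cosh κ : ℂ) - (Real.sinh κ : ℂ) := by
      rw [← ofReal_sub, Real.cosh_sub_sinh]
    have hs0 : (Real.sinh κ : ℂ) ≠ 0 := by exact_mod_cast (Real.sinh_pos_iff.2 hκ).ne'
    rw [h2] at h
    have h3 : (Real.sinh κ : ℂ) * (1 + tanh (κ * p)) = 0 := by linear_combination h
    rcases mul_eq_zero.1 h3 with h4 | h4
    · exact hs0 h4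
    · exact h1 h4

/-- at a start on the imaginary axis -/
theorem tanh_I (κ η : ℝ) : tanh ((κ : ℂ) * ((η : ℂ) * I)) = (Real.tan (κ * η) : ℂ) * I := by
  rw [← mul_assoc, ← ofReal_mul, Complex.tanh_mul_I, ofReal_tan]

theorem norm_om0 (κ η : ℝ) : ‖om0 κ ((η : ℂ) * I)‖ = 1 := by
  unfold om0
  rw [tanh_I]
  obtain ⟨t, ht⟩ : ∃ t, t = Real.tan (κ * η) := ⟨_, rfl⟩
  rw [← ht]
  have h1 : (1 : ℂ) - (t : ℂ) * I = conj (1 + (t : ℂ) * I) := by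
    rw [map_add, map_one, map_mul, conj_ofReal, conj_I]
    ring
  have h2 : (1 : ℂ) + (t : ℂ) * I ≠ 0 := by
    intro h
    have := congrArg Complex.re h
    simp at this
  rw [h1, norm_div, norm_conj, div_self (norm_ne_zero_iff.2 h2)]

end Pool.Agent.helper12.RS
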