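import Pool.Agent.helper12.RS.Om

/-!
# `NodesOK` from conditions on regions of `y`

The conditions of the middle nodes are stated for all ratios `Q` with `‖om κ Q - w‖ ≤ R`, they do not
contain the start.
-/

namespace Pool.Agent.helper12.RS

open Complex ComplexConjugate Set Filter Topology
open Pool.Agent.helper31.EQ.Y Pool.Agent.helper31.EQ.R
open Pool.Agent.helper12.RP Pool.Agent.helper12.FF

variable {e κ θ : ℝ}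

/-- Conditions at a near node with the centre, radius and preconditioner `l r M`, radicand `S x`
of the next link, the exact next link `Qe`, next node `l' r'` (functions of `y`). -/
structure YC (e κ θ δ : ℝ) (l r M : ℂ) (S : ℂ → ℂ) (Qe : ℂ) (l' r' : ℂ → ℂ) : Prop where
  nc : ∀ x : ℂ, ‖x‖ ≤ 1 → NC l r M (S x) x
  ne : ∀ x : ℂ, ‖x‖ ≤ 1 → S x ^ ((1 / 2 : ℝ) : ℂ) ≠ (Real.exp (-κ) : ℂ)
  disp : ∀ x : ℂ, ‖x‖ ≤ 1 → ‖om κ (S x ^ ((1 / 2 : ℝ) : ℂ)) - om κ Qe‖ ≤ δ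
  close : ∀ x x' : ℂ, ‖x‖ ≤ 1 → ‖x'‖ ≤ 1 → ‖x - M * (x - (1 - exp (CL l - (e : ℂ) / 2 * log (S x) +
    lF (l' ((e : ℂ) * (1 - (S x)⁻¹))) (r' ((e : ℂ) * (1 - (S x)⁻¹)) * x'))) / r)‖ < θ

/-- `exp (-2κ)` -/
noncomputable def kk (κ : ℝ) : ℝ := Real.exp (-(2 * κ))

theorem kk_pos (κ : ℝ) : 0 < kk κ := Real.exp_pos _

/-- centres of the states -/
noncomputable def wn (κ : ℝ) (p : ℂ) (n : ℕ) : ℂ := ((kk κ : ℂ)) ^ (n + 1) * om0 κ p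

theorem wn_succ (κ : ℝ) (p : ℂ) (n : ℕ) : wn κ p (n + 1) = (kk κ : ℂ) * wn κ p n := by
  unfold wn
  ring

theorem norm_wn (κ η : ℝ) (n : ℕ) : ‖wn κ ((η : ℂ) * I) n‖ = kk κ ^ (n + 1) := by
  unfold wn
  rw [norm_mul, norm_om0, mul_one, norm_pow, Complex.norm_real, Real.norm_of_nonneg (kk_pos κ).le]

/-- **`NodesOK` from the region conditions.** -/
theorem nodesOK_of_om (hκ : 0 < κ) {d : FarN e κ θ} {D : LamN} {L : ℕ} (hL : 0 < L) {η : ℝ}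
    {R δ : ℕ → ℝ} (mem : ((η : ℂ) * I) ∈ D.DN) (strip : |κ * η| < Real.pi / 2)
    (w0 : ∀ x : ℂ, ‖x‖ ≤ 1 → 1 - (Hh κ : ℂ) ^ 2 *
      exp (-(2 * ((LA e κ : ℂ) + lF (D.l0 ((η : ℂ) * I)) (D.r0 ((η : ℂ) * I) * x))) / e) *
        (1 - tanh (κ * ((η : ℂ) * I)) ^ 2) ∈ slitPlane)
    (hSH : ∀ x : ℂ, ‖x‖ ≤ 1 → RS.SH e κ (tanh (κ * ((η : ℂ) * I))) (D.l0 ((η : ℂ) * I))
      (D.r0 ((η : ℂ) * I) * x) ∈ slitPlane)
    (first : YC e κ θ (R 0) (D.l0 ((η : ℂ) * I)) (D.r0 ((η : ℂ) * I)) (D.M0 ((η : ℂ) * I))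
      (fun x => S0 e κ (tanh (κ * ((η : ℂ) * I))) (D.l0 ((η : ℂ) * I)) (D.r0 ((η : ℂ) * I) * x))
      (Qe0 κ ((η : ℂ) * I)) (D.l 0 ((η : ℂ) * I)) (D.r 0 ((η : ℂ) * I)))
    (hR1 : ∀ n, n < L → kk κ ^ (n + 1) + R n < 1)
    (hR : ∀ n, n + 1 < L → kk κ * R n + δ (n + 1) ≤ R (n + 1))
    (dom : ∀ n, n < L → ∀ Q : ℂ, Real.cosh κ < Q.re → ‖om κ Q - wn κ ((η : ℂ) * I) n‖ ≤ R n →
      (((η : ℂ) * I), (e : ℂ) * (1 - (Q ^ 2)⁻¹)) ∈ D.DY n)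
    (mid : ∀ n, n + 1 < L → ∀ Q : ℂ, Real.cosh κ < Q.re →
      ‖om κ Q - wn κ ((η : ℂ) * I) n‖ ≤ R n → ∀ y : ℂ, y = (e : ℂ) * (1 - (Q ^ 2)⁻¹) →
      YC e κ θ (δ (n + 1)) (D.l n ((η : ℂ) * I) y) (D.r n ((η : ℂ) * I) y)
        (D.M n ((η : ℂ) * I) y)
        (fun x => Sn e κ y (D.l n ((η : ℂ) * I) y) (D.r n ((η : ℂ) * I) y * x))
        (2 * (Real.cosh κ : ℂ) - Q⁻¹) (D.l (n + 1) ((η : ℂ) * I)) (D.r (n + 1) ((η : ℂ) * I)))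
    (last : ∀ Q : ℂ, Real.cosh κ < Q.re → ‖om κ Q - wn κ ((η : ℂ) * I) (L - 1)‖ ≤ R (L - 1) →
      ∀ y : ℂ, y = (e : ℂ) * (1 - (Q ^ 2)⁻¹) → ∀ x : ℂ, ‖x‖ ≤ 1 →
      NL e κ θ d (D.l (L - 1) ((η : ℂ) * I) y) (D.r (L - 1) ((η : ℂ) * I) y)
        (D.M (L - 1) ((η : ℂ) * I) y)
        (Sn e κ y (D.l (L - 1) ((η : ℂ) * I) y) (D.r (L - 1) ((η : ℂ) * I) y * x)) x) :
    NodesOK d D L ((η : ℂ) * I) (fun n => BO e κ (wn κ ((η : ℂ) * I) n) (R n)) := by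
  have hk := kk_pos κ
  have h1t : 1 + tanh (κ * ((η : ℂ) * I)) ≠ 0 := by
    rw [tanh_I]
    obtain ⟨t, ht⟩ : ∃ t, t = Real.tan (κ * η) := ⟨_, rfl⟩
    rw [← ht]
    intro h
    have := congrArg Complex.re h
    simp at this
  have hct : (Real.cosh κ : ℂ) + (Real.sinh κ : ℂ) * tanh (κ * ((η : ℂ) * I)) ≠ 0 := by
    rw [tanh_I]
    intro h
    have h2 := congrArg Complex.re h
    rw [add_re, ofReal_re, ← mul_assoc, ← ofReal_mul, re_ofReal_mul, I_re, mul_zero, add_zero,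
      zero_re] at h2
    exact (Real.cosh_pos κ).ne' h2
  have hstep0 : om κ (Qe0 κ ((η : ℂ) * I)) = wn κ ((η : ℂ) * I) 0 := by
    rw [om_Qe0 hκ hct h1t]
    unfold wn kk
    ring
  refine ⟨mem, ?_, ?_, w0, hSH, ?_, ?_, ?_⟩
  · rintro n hn y ⟨Q, hQ, rfl, hw⟩
    exact dom n hn Q hQ hw
  · have h2 : (((η : ℂ) * I)).im = η := by simp
    rw [h2, lt_div_iff₀ (by positivity)]
    rw [abs_mul, abs_of_pos hκ] at strip
    have h3 : |η| * (2 * κ) = 2 * (κ * |η|) := by ring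
    rw [h3]
    linarith
  · intro x hx
    have hn := first.nc x hx
    have hS := slitPlane_ne_zero hn.S
    have h4 := first.disp x hx
    rw [hstep0] at h4
    have h5 : ‖om κ (S0 e κ (tanh (κ * ((η : ℂ) * I))) (D.l0 ((η : ℂ) * I))
        (D.r0 ((η : ℂ) * I) * x) ^ ((1 / 2 : ℝ) : ℂ))‖ < 1 := by
      have h6 := norm_add_le (wn κ ((η : ℂ) * I) 0) (om κ (S0 e κ (tanh (κ * ((η : ℂ) * I)))
        (D.l0 ((η : ℂ) * I)) (D.r0 ((η : ℂ) * I) * x) ^ ((1 / 2 : ℝ) : ℂ)) - wn κ ((η : ℂ) * I) 0)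
      rw [add_sub_cancel, norm_wn] at h6
      exact (h6.trans (add_le_add le_rfl h4)).trans_lt (hR1 0 hL)
    have h6 := re_of_om hκ (first.ne x hx) h5
    refine ⟨hn, h6, ⟨_, h6, ?_, h4⟩, fun x' hx' => first.close x x' hx hx'⟩
    rw [half_sq hS]
  · rintro n hn y ⟨Q, hQ, hy, hw⟩ x hx
    have hY := mid n hn Q hQ hw y hy
    have hnc := hY.nc x hx
    have hS := slitPlane_ne_zero hnc.S
    have h1 : ‖(Real.exp (-(2 * κ)) : ℂ) * wn κ ((η : ℂ) * I) n‖ + R (n + 1) < 1 := by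
      have h2 : (Real.exp (-(2 * κ)) : ℂ) * wn κ ((η : ℂ) * I) n = wn κ ((η : ℂ) * I) (n + 1) :=
        (wn_succ κ _ n).symm
      rw [h2, norm_wn]
      exact hR1 (n + 1) hn
    obtain ⟨h2, h3⟩ := next_mem (e := e) hκ hQ hw hS (hY.ne x hx) (hY.disp x hx) (hR n hn) h1
    refine ⟨hnc, h2, ?_, fun x' hx' => hY.close x x' hx hx'⟩
    rw [wn_succ]
    exact h3
  · rintro y ⟨Q, hQ, hy, hw⟩ x hx
    exact last Q hQ hw y hy x hx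

end Pool.Agent.helper12.RS
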