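import Pool.Agent.helper12.RS.Ser

/-!
# Normalised coordinates of the corner: the quantities of the programs (generated)
-/

namespace Pool.Agent.helper12.RS

open Complex

noncomputable section

/-- parameters `1/e = ep`, `eκ/2 = s B` -/
structure PtB where
  ep : ℂ
  s : ℂ
  B : ℂ

def PtB.b (b : PtB) : ℂ := (b.s * b.B)

def PtB.z (b : PtB) : ℂ := (b.b * b.ep)

def PtB.se (b : PtB) : ℂ := (b.s * b.ep)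

def PtB.sg (b : PtB) : ℂ := (((1 / 2) : ℂ) * ((E1F b.z) + (E1F (-b.z))))

def PtB.ch (b : PtB) : ℂ := ((((1 / 2) : ℂ) * (b.z * ((E1F b.z) - (E1F (-b.z))))) + (1 : ℂ))

def PtB.kh (b : PtB) : ℂ := (b.sg * b.ch)

def PtB.Z4 (b : PtB) : ℂ := ((4 : ℂ) * ((b.sg * b.B) * (b.sg * b.B)))

def PtB.K (b : PtB) : ℂ := ((2 : ℂ) * (b.B * b.kh))

def PtB.gs (b : PtB) : ℂ := (((1 / 2) : ℂ) * (b.Z4 * b.se))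

def PtB.wb (b : PtB) : ℂ := (-(b.B * (E1F (-((2 : ℂ) * b.b)))))

def PtB.lb (b : PtB) : ℂ := (b.wb * (LmF (b.s * b.wb)))


/-- a node: logit `s L`, radius `s R`, unknown `x` -/
structure PtC where
  b : PtB
  L : ℂ
  R : ℂ
  x : ℂ

def PtC.wl (c : PtC) : ℂ := (((-1 / 2) : ℂ) * (c.L * (E1F (-(c.b.s * c.L)))))

def PtC.E (c : PtC) : ℂ := (((2 : ℂ) * (c.b.s * c.wl)) + (1 : ℂ))

def PtC.lam (c : PtC) : ℂ := (c.wl * (LmF (c.b.s * c.wl)))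

def PtC.Rx (c : PtC) : ℂ := (c.R * c.x)

def PtC.ER (c : PtC) : ℂ := (c.E * c.Rx)

def PtC.l1 (c : PtC) : ℂ := (c.ER * (LmF (c.b.s * c.ER)))

def PtC.l2 (c : PtC) : ℂ := (-(c.Rx * (LmF (-(c.b.s * c.Rx)))))

def PtC.Lam (c : PtC) : ℂ := ((c.l1 - c.l2) + c.L)

def PtC.g1 (c : PtC) : ℂ := ((((c.b.B + c.b.lb) + c.l2) - c.L) - c.lam)

def PtC.x3 (c : PtC) : ℂ := (c.b.se * c.Lam)


/-- a middle link, `Q = cosh κ + s ep U` -/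
structure PtM where
  c : PtC
  U : ℂ

def PtM.q1 (m : PtM) : ℂ := (m.c.b.gs + m.U)

def PtM.u (m : PtM) : ℂ := (((m.c.b.se * m.q1) + (1 : ℂ)))⁻¹

def PtM.um (m : PtM) : ℂ := (m.q1 * m.u)

def PtM.Y (m : PtM) : ℂ := (m.um * (m.u + (1 : ℂ)))

def PtM.wm (m : PtM) : ℂ := (m.c.Lam * (E1F m.c.x3))

def PtM.w (m : PtM) : ℂ := ((m.c.b.se * m.wm) + (1 : ℂ))

def PtM.g2 (m : PtM) : ℂ := (((2 : ℂ) * m.c.g1) + m.c.Lam)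

def PtM.a2 (m : PtM) : ℂ := (-(m.c.b.se * m.g2))

def PtM.A2 (m : PtM) : ℂ := ((m.a2 * (E1F m.a2)) + (1 : ℂ))

def PtM.Dl (m : PtM) : ℂ := ((m.c.b.se * ((m.c.b.Z4 * m.A2) * (m.w + (1 : ℂ)))) + (m.Y * m.w))

def PtM.Sm (m : PtM) : ℂ := (m.c.b.se * m.Dl)

def PtM.ls (m : PtM) : ℂ := (m.Dl * (LmF m.Sm))

def PtM.hs (m : PtM) : ℂ := (((1 / 2) : ℂ) * (m.c.b.se * m.ls))

def PtM.Qp (m : PtM) : ℂ := (m.hs * (E1F m.hs))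

def PtM.Ts (m : PtM) : ℂ := (m.c.b.gs + m.um)

def PtM.X1 (m : PtM) : ℂ := ((m.wm * (m.u + (1 : ℂ))) - ((2 : ℂ) * m.Ts))

def PtM.Bk (m : PtM) : ℂ := (((m.wm * (m.c.b.se * m.um)) - ((2 : ℂ) * ((m.g2 * (E1F m.a2)) * (m.w + (1 : ℂ))))) - ((2 : ℂ) * m.c.b.gs))

def PtM.D (m : PtM) : ℂ := ((m.Ts * m.X1) + (m.c.b.gs * m.Bk))

def PtM.iq (m : PtM) : ℂ := ((m.Qp + ((m.c.b.se * (m.c.b.gs + m.Ts)) + (2 : ℂ))))⁻¹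

def PtM.Di (m : PtM) : ℂ := (m.D * m.iq)

def PtM.Un (m : PtM) : ℂ := (m.Ts + (m.c.b.se * m.Di))

def PtM.th (m : PtM) : ℂ := (m.c.b.gs * (m.Ts)⁻¹)

def PtM.Dt (m : PtM) : ℂ := (m.X1 + (m.th * m.Bk))

def PtM.dq (m : PtM) : ℂ := ((m.c.b.kh * (m.Dt * m.iq)) * ((m.c.b.K + m.Un))⁻¹)


/-- the first link, `H tanh (κp) = s ep W` -/
structure PtF where
  c : PtC
  W : ℂ

def PtF.a1 (f : PtF) : ℂ := (-(f.c.b.se * f.c.g1))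

def PtF.am (f : PtF) : ℂ := (-(f.c.g1 * (E1F f.a1)))

def PtF.a (f : PtF) : ℂ := ((f.c.b.se * f.am) + (1 : ℂ))

def PtF.wim (f : PtF) : ℂ := (-(f.c.Lam * (E1F (-f.c.x3))))

def PtF.wi (f : PtF) : ℂ := ((f.c.b.se * f.wim) + (1 : ℂ))

def PtF.f (f : PtF) : ℂ := (f.a * f.wi)

def PtF.fm (f : PtF) : ℂ := ((f.am * f.wi) + f.wim)

def PtF.A2 (f : PtF) : ℂ := (f.a * f.f)

def PtF.A2m (f : PtF) : ℂ := ((f.am * f.f) + f.fm)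

def PtF.A3 (f : PtF) : ℂ := (f.f * f.f)

def PtF.N (f : PtF) : ℂ := (f.c.b.Z4 - (f.W * f.W))

def PtF.q1 (f : PtF) : ℂ := (f.c.b.se * (f.N * f.A3))

def PtF.q (f : PtF) : ℂ := (f.c.b.se * f.q1)

def PtF.lq (f : PtF) : ℂ := (((-1 / 2) : ℂ) * (f.q1 * (LmF (-f.q))))

def PtF.sqm (f : PtF) : ℂ := (f.lq * (E1F (f.c.b.se * f.lq)))

def PtF.sq (f : PtF) : ℂ := ((f.c.b.se * f.sqm) + (1 : ℂ))

def PtF.Dl (f : PtF) : ℂ := ((f.c.b.se * ((f.c.b.Z4 * (f.a * f.a)) + ((2 : ℂ) * (f.A2 * f.N)))) + ((2 : ℂ) * (f.W * (f.a * f.sq))))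

def PtF.Sm (f : PtF) : ℂ := (f.c.b.se * f.Dl)

def PtF.ls (f : PtF) : ℂ := (f.Dl * (LmF f.Sm))

def PtF.hs (f : PtF) : ℂ := (((1 / 2) : ℂ) * (f.c.b.se * f.ls))

def PtF.Qp (f : PtF) : ℂ := (f.hs * (E1F f.hs))

def PtF.SH (f : PtF) : ℂ := (((1 : ℂ) - ((f.c.b.se * f.c.b.se) * (f.A3 * (((2 : ℂ) * f.N) - f.c.b.Z4)))) - ((2 : ℂ) * (f.c.b.se * (f.W * (f.f * f.sq)))))

def PtF.q0 (f : PtF) : ℂ := (f.c.b.gs + (f.c.b.ch * f.W))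

def PtF.u0 (f : PtF) : ℂ := (((f.c.b.se * f.q0) + (1 : ℂ)))⁻¹

def PtF.um0 (f : PtF) : ℂ := (f.q0 * f.u0)

def PtF.e1 (f : PtF) : ℂ := (((2 : ℂ) * f.c.b.gs) + f.um0)

def PtF.chm (f : PtF) : ℂ := (((1 / 2) : ℂ) * (f.c.b.B * ((E1F f.c.b.z) - (E1F (-f.c.b.z)))))

def PtF.chu (f : PtF) : ℂ := (f.c.b.ch * f.u0)

def PtF.XW (f : PtF) : ℂ := (((2 : ℂ) * ((((f.am * f.sq) + f.sqm) - f.chm) + (f.c.b.ch * f.um0))) - (((2 : ℂ) * (f.A2 * f.W)) + (f.e1 * f.chu)))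

def PtF.XG (f : PtF) : ℂ := (((2 : ℂ) * (((f.am * (f.a + (1 : ℂ))) + ((2 : ℂ) * f.A2m)) + f.um0)) - (f.e1 * (f.u0 + (2 : ℂ))))

def PtF.D (f : PtF) : ℂ := ((f.W * f.XW) + (f.c.b.gs * f.XG))

def PtF.Ts (f : PtF) : ℂ := (f.c.b.gs + f.um0)

def PtF.iq (f : PtF) : ℂ := ((f.Qp + ((f.c.b.se * f.e1) + (2 : ℂ))))⁻¹

def PtF.Di (f : PtF) : ℂ := (f.D * f.iq)

def PtF.Un (f : PtF) : ℂ := (f.Ts + (f.c.b.se * f.Di))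

def PtF.Y1 (f : PtF) : ℂ := (f.XW * (f.chu)⁻¹)

def PtF.Bk (f : PtF) : ℂ := (f.XG - (f.Y1 * (f.u0 + (1 : ℂ))))

def PtF.th (f : PtF) : ℂ := (f.c.b.gs * (f.Ts)⁻¹)

def PtF.Dt (f : PtF) : ℂ := (f.Y1 + (f.th * (f.XG - (f.Y1 * (f.u0 + (1 : ℂ))))))

def PtF.dq (f : PtF) : ℂ := ((f.c.b.kh * (f.Dt * f.iq)) * ((f.c.b.K + f.Un))⁻¹)


/-- displacement, `Di = (Ts X1 + gs Bk) iq` -/
structure PtD where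
  b : PtB
  Di : ℂ
  X1 : ℂ
  Bk : ℂ
  iq : ℂ
  Un : ℂ
  Ts : ℂ
  ce : ℂ

def PtD.et (d : PtD) : ℂ := (d.ce * d.b.b)

def PtD.Tq (d : PtD) : ℂ := (d.Ts + (d.et * (d.b.K + d.Ts)))

def PtD.dqA (d : PtD) : ℂ := ((d.b.kh * d.Di) * (((d.b.K + d.Un) * d.Tq))⁻¹)

def PtD.ga (d : PtD) : ℂ := (((1 / 2) : ℂ) * (d.b.Z4 * d.b.ep))

def PtD.ka (d : PtD) : ℂ := (d.ce * (d.b.B * d.b.K))

def PtD.de (d : PtD) : ℂ := (((d.et + (1 : ℂ)) * d.ga) + d.ka)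

def PtD.id (d : PtD) : ℂ := (d.de)⁻¹

def PtD.om (d : PtD) : ℂ := ((d.de * d.b.s) * (d.Tq)⁻¹)

def PtD.X (d : PtD) : ℂ := (((d.X1 * ((1 : ℂ) - ((d.ka * d.id) * d.om))) * ((d.et + (1 : ℂ)))⁻¹) + (((d.ga * d.id) * d.Bk) * d.om))

def PtD.dqB (d : PtD) : ℂ := ((d.b.kh * (d.X * d.iq)) * ((d.b.K + d.Un))⁻¹)


/-- closing; `log S = s ep ls`, next node `Ln Rn`, preconditioner `M` -/
structure PtK where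
  c : PtC
  ls : ℂ
  Ln : ℂ
  Rn : ℂ
  M : ℂ

def PtK.wln (k : PtK) : ℂ := (((-1 / 2) : ℂ) * (k.Ln * (E1F (-(k.c.b.s * k.Ln)))))

def PtK.En (k : PtK) : ℂ := (((2 : ℂ) * (k.c.b.s * k.wln)) + (1 : ℂ))

def PtK.lamn (k : PtK) : ℂ := (k.wln * (LmF (k.c.b.s * k.wln)))

def PtK.ERn (k : PtK) : ℂ := (k.En * k.Rn)

def PtK.Zc (k : PtK) : ℂ := ((((((1 / 2) : ℂ) * k.ls) - k.c.L) - k.c.lam) + k.lamn)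

def PtK.sz (k : PtK) : ℂ := (-(k.c.b.s * k.Zc))

def PtK.Ez (k : PtK) : ℂ := ((k.sz * (E1F k.sz)) + (1 : ℂ))

def PtK.iR (k : PtK) : ℂ := (k.c.R)⁻¹

def PtK.law (k : PtK) : ℂ := ((k.Zc * (E1F k.sz)) * k.iR)

def PtK.A (k : PtK) : ℂ := (k.c.x - (k.M * (k.c.x - k.law)))

def PtK.G (k : PtK) : ℂ := (k.M * (k.Ez * (k.ERn * k.iR)))


/-- closing at the last near node -/
structure PtL where
  m : PtM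
  M : ℂ
  Ae : ℂ
  xa : ℂ
  C2 : ℂ
  F2 : ℂ

def PtL.iQ (l : PtL) : ℂ := ((l.m.Qp + (1 : ℂ)))⁻¹

def PtL.r1 (l : PtL) : ℂ := (((2 : ℂ) * l.m.c.b.gs) + ((l.m.c.b.gs + l.m.Un) * l.iQ))

def PtL.p2 (l : PtL) : ℂ := (l.r1 * (LmF (l.m.c.b.se * l.r1)))

def PtL.iQ1 (l : PtL) : ℂ := (((l.m.c.b.se * l.r1) + (1 : ℂ)))⁻¹

def PtL.r2 (l : PtL) : ℂ := (((2 : ℂ) * l.m.c.b.gs) + (l.r1 * l.iQ1))

def PtL.p3 (l : PtL) : ℂ := (l.r2 * (LmF (l.m.c.b.se * l.r2)))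

def PtL.P2 (l : PtL) : ℂ := (l.p2 * (E1F (-(l.m.c.b.s * l.p2))))

def PtL.P3 (l : PtL) : ℂ := (l.p3 * (E1F (-(l.m.c.b.s * l.p3))))

def PtL.q3 (l : PtL) : ℂ := ((1 : ℂ) - (l.m.c.b.s * l.P3))

def PtL.i3 (l : PtL) : ℂ := ((l.q3 + (1 : ℂ)))⁻¹

def PtL.F2c (l : PtL) : ℂ := (((1 / 2) : ℂ) * (l.P3 * l.i3))

def PtL.er (l : PtL) : ℂ := (((l.m.c.b.se * (((l.r2 - l.m.c.b.gs) * (l.r2 - l.m.c.b.gs)) - (l.m.c.b.K * l.m.c.b.K))) * (l.q3 * (l.i3 * (l.i3 * l.i3)))) * l.C2)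

def PtL.Pt (l : PtL) : ℂ := ((l.P2 - ((2 : ℂ) * l.F2)) + ((2 : ℂ) * (l.m.c.b.s * (l.P2 * l.F2))))

def PtL.y (l : PtL) : ℂ := (((2 : ℂ) * l.m.c.b.z) * (l.xa + (1 : ℂ)))

def PtL.shc (l : PtL) : ℂ := (((1 / 2) : ℂ) * ((E1F l.y) + (E1F (-l.y))))

def PtL.ex (l : PtL) : ℂ := (Complex.exp (-(((2 : ℂ) * l.m.c.b.z) * l.xa)))

def PtL.X (l : PtL) : ℂ := (((l.Ae * l.m.c.b.kh) * (l.ex * ((l.shc * (l.xa + (1 : ℂ))))⁻¹)) * ((l.m.Un + l.m.c.b.K) * l.iQ))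

def PtL.ze (l : PtL) : ℂ := (((((1 / 2) : ℂ) * l.m.ls) - l.m.c.L) - l.m.c.lam)

def PtL.sz (l : PtL) : ℂ := (-(l.m.c.b.s * l.ze))

def PtL.Ez (l : PtL) : ℂ := ((l.sz * (E1F l.sz)) + (1 : ℂ))

def PtL.iR (l : PtL) : ℂ := (l.m.c.R)⁻¹

def PtL.law (l : PtL) : ℂ := (((l.ze * (E1F l.sz)) - (l.Ez * l.Pt)) * l.iR)

def PtL.A (l : PtL) : ℂ := (l.m.c.x - (l.M * (l.m.c.x - l.law)))

def PtL.G (l : PtL) : ℂ := (l.M * (l.Ez * (((1 : ℂ) - (l.m.c.b.s * l.Pt)) * (l.X * l.iR))))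

end

end Pool.Agent.helper12.RS
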