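import Pool.Agent.helper12.RS.Pt
import Pool.Agent.helper12.RS.OmChain

/-!
# Meaning of the normalised quantities: parameters and node
-/

namespace Pool.Agent.helper12.RS

open Complex ComplexConjugate Set Filter Topology
open Pool.Agent.helper31.EQ.Y Pool.Agent.helper31.EQ.R
open Pool.Agent.helper12.RP Pool.Agent.helper12.FF

/-- the parameters are `1/e`, `s`, `B` real, `κ = 2 s B/e` -/
structure BR (e κ s B : ℝ) (b : PtB) : Prop where
  hep : b.ep = ((1 / e : ℝ) : ℂ)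
  hs : b.s = (s : ℂ)
  hB : b.B = (B : ℂ)
  s0 : 0 < s
  B0 : 0 < B
  kap : κ = 2 * (s * B) / e

variable {e κ s B : ℝ}

namespace BR

variable {b : PtB}

theorem kap_pos (he : 0 < e) (h : BR e κ s B b) : 0 < κ := by
  have h1 := h.s0
  have h2 := h.B0
  rw [h.kap]
  positivity

theorem z_eq (h : BR e κ s B b) : b.z = ((κ / 2 : ℝ) : ℂ) := by
  unfold PtB.z PtB.b
  rw [h.hep, h.hs, h.hB, h.kap]
  push_cast
  ring

theorem se_eq (h : BR e κ s B b) : b.se = ((s / e : ℝ) : ℂ) := by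
  unfold PtB.se
  rw [h.hep, h.hs]
  push_cast
  ring

theorem se_pos (he : 0 < e) (h : BR e κ s B b) : 0 < s / e := div_pos h.s0 he

theorem z_sg (h : BR e κ s B b) : b.z * b.sg = (Real.sinh (κ / 2) : ℂ) := by
  have h1 := mul_E1F b.z
  have h2 := mul_E1F (-b.z)
  have h3 : b.z * b.sg = (exp b.z - exp (-b.z)) / 2 := by
    unfold PtB.sg
    linear_combination (1 / 2) * h1 - (1 / 2) * h2
  rw [h3, h.z_eq, ofReal_sinh, Complex.sinh]

theorem ch_eq (h : BR e κ s B b) : b.ch = (Real.cosh (κ / 2) : ℂ) := by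
  have h1 := mul_E1F b.z
  have h2 := mul_E1F (-b.z)
  have h3 : b.ch = (exp b.z + exp (-b.z)) / 2 := by
    unfold PtB.ch
    linear_combination (1 / 2) * h1 + (1 / 2) * h2
  rw [h3, h.z_eq, ofReal_cosh, Complex.cosh]

theorem z_rel (h : BR e κ s B b) : b.z = b.se * b.B := by
  unfold PtB.z PtB.b PtB.se
  ring

/-- `H² = (s ε)² Z4` -/
theorem H_sq (h : BR e κ s B b) : (Hh κ : ℂ) ^ 2 = b.se ^ 2 * b.Z4 := by
  have h1 := h.z_sg
  have h2 : (Hh κ : ℂ) = 2 * (b.z * b.sg) := by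
    rw [h1]
    unfold Hh
    push_cast
    ring
  rw [h2, h.z_rel]
  unfold PtB.Z4
  ring

theorem cosh_c (h : BR e κ s B b) : (Real.cosh κ : ℂ) = 1 + b.se * b.gs := by
  have h1 : (Hh κ : ℂ) ^ 2 = 2 * ((Real.cosh κ : ℂ) - 1) := by
    have := Hh_sq κ
    rw [← ofReal_pow, this]
    push_cast
    ring
  rw [h.H_sq] at h1
  unfold PtB.gs
  linear_combination (-(1 / 2)) * h1

/-- `sinh κ = 2 z kh` -/
theorem sinh_c (h : BR e κ s B b) : (Real.sinh κ : ℂ) = b.se * b.K := by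
  have h1 := h.z_sg
  have h2 := h.ch_eq
  have h3 : (Real.sinh κ : ℂ) = 2 * (Real.sinh (κ / 2) : ℂ) * (Real.cosh (κ / 2) : ℂ) := by
    have := Real.sinh_two_mul (κ / 2)
    rw [show 2 * (κ / 2) = κ by ring] at this
    rw [this]
    push_cast
    ring
  rw [h3, ← h1, ← h2, h.z_rel]
  unfold PtB.K PtB.kh
  ring

theorem kh_eq (h : BR e κ s B b) : (κ : ℂ) * b.kh = (Real.sinh κ : ℂ) := by
  have h1 : (κ : ℂ) = 2 * b.z := by
    rw [h.z_eq]
    push_cast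
    ring
  rw [h.sinh_c, h1, h.z_rel]
  unfold PtB.K
  ring

/-- `log (1 + exp (-l)) = log 2 + s λ` for the chain `wl`, `lam` -/
theorem lc_of {s L : ℂ} {wl : ℂ} (hwl : wl = ((-1 / 2) : ℂ) * (L * (E1F (-(s * L)))))
    (hn : ‖s * wl‖ < 1) : 1 + exp (-(s * L)) = 2 * (1 + s * wl) ∧
      0 < (1 + exp (-(s * L))).re ∧
      lc (s * L) = (Real.log 2 : ℂ) + s * (wl * LmF (s * wl)) ∧
      exp (lc (s * L)) = 2 * (1 + s * wl) := by
  have h1 := mul_E1F (-(s * L))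
  have h2 : 1 + exp (-(s * L)) = 2 * (1 + s * wl) := by
    rw [hwl]
    linear_combination -h1
  have h3 : 0 < (1 + s * wl).re := by
    rw [add_re, one_re]
    have := (abs_lt.1 ((Complex.abs_re_le_norm _).trans_lt hn)).1
    linarith
  have h4 : 0 < (1 + exp (-(s * L))).re := by
    rw [h2, Complex.mul_re]
    simp only [re_ofNat, im_ofNat, zero_mul, sub_zero]
    linarith
  have h5 := mul_LmF (s * wl)
  have h6 : (1 + s * wl) ≠ 0 := by
    intro h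
    rw [h, zero_re] at h3
    exact lt_irrefl _ h3
  refine ⟨h2, h4, ?_, ?_⟩
  · unfold lc
    have h7 : (2 : ℂ) * (1 + s * wl) = ((2 : ℝ) : ℂ) * (1 + s * wl) := by push_cast; ring
    rw [h2, h7, Complex.log_ofReal_mul (by norm_num) h6, ← h5]
    ring
  · unfold lc
    rw [exp_log, h2]
    rw [h2]
    exact mul_ne_zero two_ne_zero h6

theorem LA_eq (he : 0 < e) (h : BR e κ s B b) (hn : ‖b.s * b.wb‖ < 1) :
    (LA e κ : ℂ) = b.s * (b.B + b.lb) + (Real.log 2 : ℂ) := by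
  have h0 : b.wb = ((-1 / 2) : ℂ) * ((2 * b.B) * (E1F (-(b.s * (2 * b.B))))) := by
    unfold PtB.wb PtB.b
    rw [show b.s * (2 * b.B) = 2 * (b.s * b.B) by ring]
    ring
  obtain ⟨-, -, h3, -⟩ := lc_of h0 hn
  have h4 : b.s * (2 * b.B) = ((e * κ : ℝ) : ℂ) := by
    rw [h.hs, h.hB, h.kap]
    have : (e : ℂ) ≠ 0 := by exact_mod_cast he.ne'
    push_cast
    field_simp
  have h5 : (LA e κ : ℂ) = ((e * κ / 2 : ℝ) : ℂ) + lc (b.s * (2 * b.B)) := by
    unfold LA lc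
    rw [h4]
    have h6 : (1 : ℂ) + exp (-((e * κ : ℝ) : ℂ)) = ((1 + Real.exp (-(e * κ)) : ℝ) : ℂ) := by
      push_cast
      rfl
    have h7 : 0 < 1 + Real.exp (-(e * κ)) := by positivity
    rw [h6, ← Complex.ofReal_log h7.le, ← ofReal_add]
    congr 1
    have h8 : 2 * Real.cosh (e * κ / 2) = Real.exp (e * κ / 2) * (1 + Real.exp (-(e * κ))) := by
      rw [Real.cosh_eq, mul_add, ← Real.exp_add]
      ring_nf
    rw [h8, Real.log_mul (Real.exp_pos _).ne' h7.ne', Real.log_exp]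
  rw [h5, h3]
  unfold PtB.lb
  have h9 : ((e * κ / 2 : ℝ) : ℂ) = b.s * b.B := by
    have : ((e * κ / 2 : ℝ) : ℂ) = ((e * κ : ℝ) : ℂ) / 2 := by push_cast; ring
    rw [this, ← h4]
    ring
  rw [h9]
  ring

end BR

/-- logarithms at a node -/
theorem node_logs (he : 0 < e) {c : PtC} (h : BR e κ s B c.b) (hb : ‖c.b.s * c.b.wb‖ < 1)
    (h1 : ‖c.b.s * c.wl‖ < 1) (h2 : ‖c.b.s * c.ER‖ < 1) (h3 : ‖-(c.b.s * c.Rx)‖ < 1) :
    LC (c.b.s * c.L) (c.b.s * c.R * c.x) ∧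
    CL (c.b.s * c.L) = c.b.s * (c.L + c.lam) + (Real.log 2 : ℂ) ∧
    (LA e κ : ℂ) + lG (c.b.s * c.L) (c.b.s * c.R * c.x) = c.b.s * c.g1 ∧
    lF (c.b.s * c.L) (c.b.s * c.R * c.x) - lG (c.b.s * c.L) (c.b.s * c.R * c.x) =
      c.b.s * c.Lam ∧
    exp (-(c.b.s * c.L)) = c.E := by
  obtain ⟨a1, a2, a3, a4⟩ := BR.lc_of (s := c.b.s) (L := c.L) (wl := c.wl) rfl h1
  have hE : exp (-(c.b.s * c.L)) = c.E := by
    unfold PtC.E
    linear_combination a1
  have hχ : c.b.s * c.R * c.x = c.b.s * c.Rx := by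
    unfold PtC.Rx
    ring
  have hEχ : exp (-(c.b.s * c.L)) * (c.b.s * c.R * c.x) = c.b.s * c.ER := by
    rw [hE, hχ]
    unfold PtC.ER
    ring
  have b1 : log (1 + exp (-(c.b.s * c.L)) * (c.b.s * c.R * c.x)) = c.b.s * c.l1 := by
    rw [hEχ, ← mul_LmF]
    unfold PtC.l1
    ring
  have b2 : log (1 - c.b.s * c.R * c.x) = c.b.s * c.l2 := by
    have h4 : 1 - c.b.s * c.R * c.x = 1 + -(c.b.s * c.Rx) := by
      rw [hχ]
      ring
    rw [h4, ← mul_LmF]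
    unfold PtC.l2
    ring
  have c1 : lc (c.b.s * c.L) = (Real.log 2 : ℂ) + c.b.s * c.lam := a3
  refine ⟨⟨a2, ?_, ?_⟩, ?_, ?_, ?_, hE⟩
  · rw [hEχ, add_re, one_re]
    have := (abs_lt.1 ((Complex.abs_re_le_norm _).trans_lt h2)).1
    linarith
  · have h4 : 1 - c.b.s * c.R * c.x = 1 + -(c.b.s * c.Rx) := by
      rw [hχ]
      ring
    rw [h4, Complex.mem_slitPlane_iff]
    left
    rw [add_re, one_re]
    have := (abs_lt.1 ((Complex.abs_re_le_norm _).trans_lt h3)).1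
    linarith
  · unfold CL
    rw [c1]
    ring
  · unfold lG
    rw [b2, c1, h.LA_eq he hb]
    unfold PtC.g1
    ring
  · unfold lF lG
    rw [b1, b2]
    unfold PtC.Lam
    ring

end Pool.Agent.helper12.RS
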