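import Pool.Agent.helper12.RS.Chain

/-!
# The plain scheme with `p`-dependent regions, and the first node in the rigid form

`FarP`: far field record (plain scheme) whose regions and radii depend on the start `p`.
First node: `s0 = tanh κ(p+1)`, `1 - F = (1 - fT s0)(1 - χ)`.
-/

namespace Pool.Agent.helper12.RS

open Complex ComplexConjugate Set Filter Topology
open Pool.Agent.helper31.EQ.Y Pool.Agent.helper31.EQ.R
open Pool.Agent.helper12.RP Pool.Agent.helper12.FF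

variable {e κ θ : ℝ}

/-- Far field data of the plain scheme, regions and radii depend on `p`. -/
structure FarP (e κ θ : ℝ) where
  DF : Set ℂ
  isOpen_DF : IsOpen DF
  conj_DF : ∀ p ∈ DF, conj p ∈ DF
  Ω : ℂ → ℕ → Set ℂ
  X : ℂ → ℕ → ℂ → ℂ
  isOpen_entry : IsOpen {q : ℂ × ℂ | q.1 ∈ DF ∧ q.2 ∈ Ω q.1 0}
  conj_entry : ∀ p ∈ DF, ∀ τ ∈ Ω p 0, conj τ ∈ Ω (conj p) 0
  re : ∀ p ∈ DF, ∀ n, ∀ τ ∈ Ω p n, 0 < τ.re
  X_diff : ∀ p ∈ DF, ∀ n, ∀ τ ∈ Ω p n, DifferentiableAt ℂ (fun q : ℂ × ℂ => X q.1 n q.2) (p, τ)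
  X_conj : ∀ p ∈ DF, ∀ n, ∀ τ ∈ Ω p n, X (conj p) n (conj τ) = conj (X p n τ)
  X_ne : ∀ p ∈ DF, ∀ n, ∀ τ ∈ Ω p n, X p n τ ≠ 0
  X_lt : ∀ p ∈ DF, ∀ n, ∀ τ ∈ Ω p n, ‖X p n τ‖ < 1
  rad : ∀ p ∈ DF, ∀ n, ∀ τ ∈ Ω p n, ∀ χ : ℂ, ‖χ‖ ≤ ‖X p n τ‖ → rd e κ τ χ ∈ slitPlane
  inv : ∀ p ∈ DF, ∀ n, ∀ τ ∈ Ω p n, ∀ χ : ℂ, ‖χ‖ ≤ ‖X p n τ‖ → nxt e κ τ χ ∈ Ω p (n + 1)
  close : ∀ p ∈ DF, ∀ n, ∀ τ ∈ Ω p n, ∀ χ χ' : ℂ, ‖χ‖ ≤ ‖X p n τ‖ →
    ‖χ'‖ ≤ ‖X p (n + 1) (nxt e κ τ χ)‖ →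
    ‖1 - R1 e κ τ (nxt e κ τ χ) * (1 + qq e κ (shf κ (nxt e κ τ χ)) * χ')‖ ≤ θ * ‖X p n τ‖
  ρ : ℂ → ℕ → ℝ
  ρ_lim : ∀ p : ℝ, (p : ℂ) ∈ DF → Tendsto (ρ p) atTop (𝓝 0)
  ρ_le : ∀ p : ℝ, (p : ℂ) ∈ DF → ∀ n, ∀ τ ∈ Ω p n, ‖τ - 1‖ ≤ ρ p n * ‖τ + 1‖

private theorem comp_snd {f : ℂ → ℂ} {p τ : ℂ} (h : DifferentiableAt ℂ f τ) :
    DifferentiableAt ℂ (fun q : ℂ × ℂ => f q.2) (p, τ) :=
  DifferentiableAt.comp (f := fun q : ℂ × ℂ => q.2) (g := f) (p, τ) h differentiableAt_snd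

/-- **The far field record.** -/
noncomputable def farP (he : 0 < e) (hκ : 0 < κ) (d : FarP e κ θ) : FarF e κ θ where
  DF := d.DF
  isOpen_DF := d.isOpen_DF
  conj_DF := d.conj_DF
  Ω := d.Ω
  isOpen_entry := d.isOpen_entry
  conj_entry := d.conj_entry
  Ω_re := d.re
  C := fun _ _ τ => cC e κ τ
  v := fun _ _ τ => cv e κ τ
  r := fun p n τ => cv e κ τ * d.X p n τ
  C_diff := fun p hp n τ hτ => comp_snd (cC_diff hκ (d.re p hp n τ hτ))
  v_diff := fun p hp n τ hτ => comp_snd (cv_diff he hκ (d.re p hp n τ hτ))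
  r_diff := fun p hp n τ hτ => (comp_snd (cv_diff he hκ (d.re p hp n τ hτ))).mul
    (d.X_diff p hp n τ hτ)
  C_conj := fun p hp τ hτ => cC_conj hκ (d.re p hp 0 τ hτ)
  v_conj := fun p hp τ hτ => cv_conj hκ (d.re p hp 0 τ hτ)
  r_conj := fun p hp τ hτ => by
    rw [cv_conj hκ (d.re p hp 0 τ hτ), d.X_conj p hp 0 τ hτ, map_mul]
  r_ne := fun p hp n τ hτ => mul_ne_zero (cv_ne he hκ (d.re p hp n τ hτ)) (d.X_ne p hp n τ hτ)
  C_real := fun p hp n τ hτ => im_of_conj (cC_conj hκ (d.re p hp n τ hτ)) (by rw [conj_ofReal])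
  v_real := fun p hp n τ hτ => im_of_conj (cv_conj hκ (d.re p hp n τ hτ)) (by rw [conj_ofReal])
  r_real := fun p hp n τ hτ => by
    have h1 := im_of_conj (cv_conj hκ (d.re p hp n τ hτ) (e := e)) (by rw [conj_ofReal])
    have h2 := im_of_conj (d.X_conj p hp n τ hτ) (by rw [conj_ofReal, conj_ofReal])
    rw [Complex.mul_im, h1, h2]
    ring
  F_slit := fun p hp n τ hτ x hx => by
    have h1 := d.X_lt p hp n τ hτ
    have h2 : cv e κ τ - cv e κ τ * d.X p n τ * x = cv e κ τ * (1 - d.X p n τ * x) := by ring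
    rw [h2]
    refine F_slit he hκ (shf_re hκ (d.re p hp n τ hτ).le) ?_
    rw [norm_mul]
    have := norm_nonneg (d.X p n τ)
    nlinarith [norm_nonneg x]
  g_slit := fun p hp n τ hτ x hx => by
    have h1 := d.X_lt p hp n τ hτ
    have h2 : cv e κ τ - cv e κ τ * d.X p n τ * x = cv e κ τ * (1 - d.X p n τ * x) := by ring
    rw [h2]
    refine g_slit he hκ (shf_re hκ (d.re p hp n τ hτ).le) ?_
    rw [norm_mul]
    have := norm_nonneg (d.X p n τ)
    nlinarith [norm_nonneg x]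
  rad_slit := fun p hp n τ hτ x hx => by
    have h2 : cv e κ τ - cv e κ τ * d.X p n τ * x = cv e κ τ * (1 - d.X p n τ * x) := by ring
    rw [h2]
    refine d.rad p hp n τ hτ _ ?_
    rw [norm_mul]
    exact mul_le_of_le_one_right (norm_nonneg _) hx
  inv := fun p hp n τ hτ x hx => by
    have h2 : cv e κ τ - cv e κ τ * d.X p n τ * x = cv e κ τ * (1 - d.X p n τ * x) := by ring
    rw [h2]
    refine d.inv p hp n τ hτ _ ?_
    rw [norm_mul]
    exact mul_le_of_le_one_right (norm_nonneg _) hx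
  close := by
    intro p hp n τ hτ x x' hx hx' τ' hτ'
    have h2 : cv e κ τ - cv e κ τ * d.X p n τ * x = cv e κ τ * (1 - d.X p n τ * x) := by ring
    have h3 : cv e κ τ' - cv e κ τ' * d.X p (n + 1) τ' * x' =
        cv e κ τ' * (1 - d.X p (n + 1) τ' * x') := by ring
    rw [h2] at hτ'
    rw [h3]
    have hX : ‖d.X p n τ * x‖ ≤ ‖d.X p n τ‖ := by
      rw [norm_mul]
      exact mul_le_of_le_one_right (norm_nonneg _) hx
    have hi := d.inv p hp n τ hτ _ hX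
    have hn : nxt e κ τ (d.X p n τ * x) = τ' := hτ'.symm
    rw [hn] at hi
    have hX0 := d.X_ne p hp n τ hτ
    rw [law_eq he hκ (d.re p hp n τ hτ) (d.re p hp _ _ hi) hX0, norm_div,
      div_le_iff₀ (norm_pos_iff.2 hX0)]
    have hc := d.close p hp n τ hτ _ (d.X p (n + 1) τ' * x') hX (by
      rw [hn, norm_mul]
      exact mul_le_of_le_one_right (norm_nonneg _) hx')
    rw [hn] at hc
    exact hc
  tend := by
    intro p hp x hx _ t h0 _ ht
    have h1 : ∀ n, t n ∈ d.Ω p n := by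
      intro n
      induction n with
      | zero => exact h0
      | succ n ih =>
        rw [ht n]
        have h2 : cv e κ (t n) - cv e κ (t n) * d.X p n (t n) * x n =
          cv e κ (t n) * (1 - d.X p n (t n) * x n) := by ring
        rw [h2]
        refine d.inv p hp n (t n) ih _ ?_
        rw [norm_mul]
        exact mul_le_of_le_one_right (norm_nonneg _) (hx n)
    exact tend_one (d.ρ_lim p hp) (fun n => d.ρ_le p hp n (t n) (h1 n))

/-! ### the first node in the rigid form -/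

noncomputable section

/-- `tanh κ(p+1)` -/
def s0 (κ : ℝ) (p : ℂ) : ℂ := tanh (κ * (p + 1))

/-- centre of the first node -/
def C0r (e κ : ℝ) (p : ℂ) : ℂ :=
  (e : ℂ) * log (Qk κ (s0 κ p)) - log (fT e κ (shf κ (s0 κ p)))

/-- value of the first node -/
def F0r (e κ : ℝ) (p χ : ℂ) : ℂ := fT e κ (s0 κ p) * (1 + qq e κ (s0 κ p) * χ)

/-- radicand of the first link -/
def rd0 (e κ : ℝ) (p χ : ℂ) : ℂ :=
  rad0F e κ p ((e : ℂ) * log (Qk κ (s0 κ p))) (fT e κ (shf κ (s0 κ p)) * (1 - χ))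

/-- first link -/
def nx0 (e κ : ℝ) (p χ : ℂ) : ℂ :=
  step0F e κ p ((e : ℂ) * log (Qk κ (s0 κ p))) (fT e κ (shf κ (s0 κ p)) * (1 - χ))

/-- `(1 - f(τ'))/(1 - f(s0))` -/
def R0r (e κ : ℝ) (p τ' : ℂ) : ℂ := (1 - fT e κ τ') / (1 - fT e κ (s0 κ p))

end

theorem mul_cpow_re {a b : ℂ} (ha : 0 < a.re) (hb : 0 < b.re) (c : ℂ) :
    (a * b) ^ c = a ^ c * b ^ c := by
  have ha0 : a ≠ 0 := by intro h; rw [h] at ha; simp at ha
  have hb0 : b ≠ 0 := by intro h; rw [h] at hb; simp at hb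
  rw [cpow_def_of_ne_zero (mul_ne_zero ha0 hb0), cpow_def_of_ne_zero ha0,
    cpow_def_of_ne_zero hb0, log_mul_re ha hb, add_mul, exp_add]

theorem aF_mul {C v g : ℂ} (hv : 0 < v.re) (hg : 0 < g.re) :
    aF e κ (C - log v) g = aF e κ C (v * g) := by
  have hv0 : v ≠ 0 := by intro h; rw [h] at hv; simp at hv
  unfold aF
  rw [mul_cpow_re hv hg, cpow_def_of_ne_zero hv0,
    show -((C - log v) / (e : ℂ)) = -(C / e) + log v * ((1 / e : ℝ) : ℂ) by
      push_cast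
      ring, exp_add]
  ring

theorem fF_mul {C v g : ℂ} (hv : v ≠ 0) : fF (C - log v) g = fF C (v * g) := by
  unfold fF
  rw [neg_sub, show log v - C = -C + log v by ring, exp_add, exp_log hv]
  ring

theorem rad0F_mul {p C v g : ℂ} (hv : 0 < v.re) (hg : 0 < g.re) :
    rad0F e κ p (C - log v) g = rad0F e κ p C (v * g) := by
  have hv0 : v ≠ 0 := by intro h; rw [h] at hv; simp at hv
  unfold rad0F
  rw [aF_mul hv hg, fF_mul hv0]

theorem lawF_mul {C v r τ' F' : ℂ} (hv : v ≠ 0) :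
    lawF e κ (C - log v) 1 r τ' F' = lawF e κ C v (v * r) τ' F' := by
  unfold lawF
  rw [sub_eq_add_neg C, exp_add, exp_neg, exp_log hv]
  rcases eq_or_ne r 0 with h | h
  · rw [h, mul_zero, div_zero, div_zero]
  · field_simp

/-- Data of the first node. -/
structure Rig0 (e κ : ℝ) where
  DN : Set ℂ
  isOpen_DN : IsOpen DN
  conj_DN : ∀ p ∈ DN, conj p ∈ DN
  strip : ∀ p ∈ DN, |p.im| < Real.pi / (2 * κ)
  re : ∀ p ∈ DN, 0 < (s0 κ p).re
  X : ℂ → ℂ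
  X_diff : DifferentiableOn ℂ X DN
  X_conj : ∀ p ∈ DN, X (conj p) = conj (X p)

theorem tanh_diff (hκ : 0 < κ) {p : ℂ} (h : |p.im| < Real.pi / (2 * κ)) :
    DifferentiableAt ℂ (fun p : ℂ => tanh (κ * p)) p := by
  have h1 : cosh (κ * p) ≠ 0 := by
    intro h0
    have := re_cosh_pos hκ h
    rw [h0] at this
    simp at this
  have hs : DifferentiableAt ℂ (fun z : ℂ => sinh (κ * z)) p :=
    (differentiableAt_id.const_mul (κ : ℂ)).csinh
  have hc : DifferentiableAt ℂ (fun z : ℂ => cosh (κ * z)) p :=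
    (differentiableAt_id.const_mul (κ : ℂ)).ccosh
  have h2 : DifferentiableAt ℂ (fun z : ℂ => sinh (κ * z) / cosh (κ * z)) p := hs.div hc h1
  refine h2.congr_of_eventuallyEq (Eventually.of_forall fun z => ?_)
  exact tanh_eq_sinh_div_cosh _

theorem s0_diff (hκ : 0 < κ) {p : ℂ} (h : |p.im| < Real.pi / (2 * κ)) :
    DifferentiableAt ℂ (s0 κ) p := by
  have h1 : |(p + 1).im| < Real.pi / (2 * κ) := by
    rw [add_im, one_im, add_zero]
    exact h
  have h2 : DifferentiableAt ℂ (fun p : ℂ => p + 1) p := differentiableAt_id.add_const 1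
  exact DifferentiableAt.comp (f := fun p : ℂ => p + 1) (g := fun p : ℂ => tanh (κ * p)) p
    (tanh_diff hκ h1) h2

theorem s0_conj (p : ℂ) : s0 κ (conj p) = conj (s0 κ p) := by
  unfold s0
  rw [← conj_tanh, map_add, map_one]

/-- `Re s0 > 0` for `Re p > -1` -/
theorem s0_re (hκ : 0 < κ) {p : ℂ} (h : |p.im| < Real.pi / (2 * κ)) (hp : -1 < p.re) :
    0 < (s0 κ p).re := by
  have h1 : |(p + 1).im| < Real.pi / (2 * κ) := by
    rw [add_im, one_im, add_zero]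
    exact h
  have h2 : cosh (κ * (p + 1)) ≠ 0 := by
    intro h0
    have := re_cosh_pos hκ h1
    rw [h0] at this
    simp at this
  obtain ⟨x, hx⟩ : ∃ x : ℝ, x = κ * (p.re + 1) := ⟨_, rfl⟩
  obtain ⟨y, hy⟩ : ∃ y : ℝ, y = κ * p.im := ⟨_, rfl⟩
  have hz : (κ : ℂ) * (p + 1) = (x : ℂ) + (y : ℂ) * I := by
    apply Complex.ext
    · simp [hx]
    · simp [hy]
  have hx0 : 0 < x := by
    rw [hx]
    apply mul_pos hκ
    linarith
  unfold s0
  rw [tanh_eq_sinh_div_cosh, div_re]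
  rw [hz] at h2 ⊢
  have hn : 0 < normSq (cosh ((x : ℂ) + (y : ℂ) * I)) := normSq_pos.2 h2
  rw [← add_div]
  apply div_pos _ hn
  have e1 : sinh ((x : ℂ) + (y : ℂ) * I) =
      ((Real.sinh x * Real.cos y : ℝ) : ℂ) + ((Real.cosh x * Real.sin y : ℝ) : ℂ) * I := by
    rw [sinh_add, sinh_mul_I, cosh_mul_I]
    push_cast
    ring
  have e2 : cosh ((x : ℂ) + (y : ℂ) * I) =
      ((Real.cosh x * Real.cos y : ℝ) : ℂ) + ((Real.sinh x * Real.sin y : ℝ) : ℂ) * I := by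
    rw [cosh_add, sinh_mul_I, cosh_mul_I]
    push_cast
    ring
  rw [e1, e2]
  have r1 : ∀ a b : ℝ, ((a : ℂ) + (b : ℂ) * I).re = a := fun a b => by simp
  have r2 : ∀ a b : ℝ, ((a : ℂ) + (b : ℂ) * I).im = b := fun a b => by simp
  rw [r1, r1, r2, r2]
  have h3 := Real.sin_sq_add_cos_sq y
  have h4 : Real.sinh x * Real.cos y * (Real.cosh x * Real.cos y) +
      Real.cosh x * Real.sin y * (Real.sinh x * Real.sin y) = Real.sinh x * Real.cosh x := by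
    linear_combination Real.sinh x * Real.cosh x * h3
  rw [h4]
  exact mul_pos (Real.sinh_pos_iff.2 hx0) (Real.cosh_pos x)

/-- the record with one near node in the rigid form -/
noncomputable def Rig0.toNear (he : 0 < e) (hκ : 0 < κ) (D : Rig0 e κ) : NearN where
  DN := D.DN
  isOpen_DN := D.isOpen_DN
  conj_DN := D.conj_DN
  C0 := C0r e κ
  X0 := D.X
  M0 := fun _ => 1
  S := fun _ => univ
  isOpen_S := fun _ => isOpen_univ
  conj_S := fun _ _ _ _ => mem_univ _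
  C := fun _ _ _ => 0
  X := fun _ _ _ => 1
  M := fun _ _ _ => 1
  C0_diff := by
    intro p hp
    have h1 := s0_diff hκ (D.strip p hp)
    have h2 := D.re p hp
    have h3 : DifferentiableAt ℂ (fun z => Qk κ (s0 κ z)) p := by
      unfold Qk
      exact (h1.const_mul _).const_add _
    have h4 : DifferentiableAt ℂ (fun z => shf κ (s0 κ z)) p :=
      DifferentiableAt.comp (f := s0 κ) (g := shf κ) p (shf_diff hκ h2) h1
    have h5 := shf_re hκ h2.le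
    have h6 : DifferentiableAt ℂ (fun z => fT e κ (shf κ (s0 κ z))) p :=
      DifferentiableAt.comp (f := fun z => shf κ (s0 κ z)) (g := fT e κ) p
        (fT_diffAt he hκ h5) h4
    have h7 : DifferentiableAt ℂ (C0r e κ) p :=
      ((h3.clog (Qk_slit hκ h2)).const_mul _).sub (h6.clog (fT_slit he hκ h5))
    exact h7.differentiableWithinAt
  X0_diff := D.X_diff
  M0_diff := differentiableOn_const _
  C_diff := fun _ _ _ _ => differentiableAt_const _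
  X_diff := fun _ _ _ _ => differentiableAt_const _
  M_diff := fun _ _ _ _ => differentiableAt_const _
  C0_conj := by
    intro p hp
    have h2 := D.re p hp
    have h5 := shf_re hκ h2.le
    unfold C0r
    rw [s0_conj, Qk_conj, shf_conj hκ, fT_conj hκ h5,
      Complex.log_conj _ (slitPlane_arg_ne_pi (Qk_slit hκ h2)),
      Complex.log_conj _ (slitPlane_arg_ne_pi (fT_slit he hκ h5)), map_sub, map_mul, conj_ofReal]
  X0_conj := D.X_conj
  M0_conj := fun _ _ => (map_one _).symm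
  C_conj := fun _ _ _ _ => (map_zero _).symm
  X_conj := fun _ _ _ _ => (map_one _).symm
  M_conj := fun _ _ _ _ => (map_one _).symm

/-- law with the centre position `s` -/
theorem law_gen (he : 0 < e) (hκ : 0 < κ) {s τ' X χ' : ℂ} (hs : 0 < s.re) (hτ' : 0 < τ'.re)
    (hX : X ≠ 0) :
    lawF e κ ((e : ℂ) * log (Qk κ s)) (fT e κ (shf κ s)) (fT e κ (shf κ s) * X) τ'
      (fF (cC e κ τ') (cv e κ τ' * (1 - χ'))) =
      (1 - (1 - fT e κ τ') / (1 - fT e κ s) * (1 + qq e κ (shf κ τ') * χ')) / X := by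
  have hs' := shf_re hκ hτ'.le
  have hv : fT e κ (shf κ s) ≠ 0 := fT_ne he hκ (shf_re hκ hs.le)
  have h1 : fF (cC e κ τ') (cv e κ τ' * (1 - χ')) =
      fT e κ (shf κ τ') * (1 + qq e κ (shf κ τ') * χ') := fF_node he hκ hs'
  have h2 := one_sub_fT he hκ hτ'
  have h3 := one_sub_fT he hκ hs
  have hQs := Qk_ne hκ hs
  have h4 : exp ((e : ℂ) * log (Qk κ s)) * Qk κ s ^ (-(e : ℂ)) = 1 := by
    rw [cpow_def_of_ne_zero hQs, ← exp_add,
      show (e : ℂ) * log (Qk κ s) + log (Qk κ s) * -(e : ℂ) = 0 by ring, exp_zero]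
  have h5 : fT e κ (shf κ s) = exp ((e : ℂ) * log (Qk κ s)) * (1 - fT e κ s) := by
    rw [h3, ← mul_assoc, h4, one_mul]
  have h6 := one_sub_fT_ne he hκ hs
  have hE := exp_ne_zero ((e : ℂ) * log (Qk κ s))
  have h7 : exp ((e : ℂ) * log (Qk κ s)) * Qk κ τ' ^ (-(e : ℂ)) *
      (fT e κ (shf κ τ') * (1 + qq e κ (shf κ τ') * χ')) =
      exp ((e : ℂ) * log (Qk κ s)) * ((1 - fT e κ τ') * (1 + qq e κ (shf κ τ') * χ')) := by
    rw [h2]
    ring
  unfold lawF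
  rw [h1, h7, h5]
  field_simp

/-- **Conditions at the first node.** -/
structure RigPt (d : FarP e κ θ) (D : Rig0 e κ) (p x0 : ℂ) : Prop where
  mem : p ∈ D.DN
  memF : p ∈ d.DF
  X_ne : D.X p ≠ 0
  X_lt : ‖D.X p * x0‖ < 1
  w0 : 1 - rho e κ (F0r e κ p (D.X p * x0)) ^ 2 * (1 - tanh (κ * p) ^ 2) ∈ slitPlane
  rad0 : rd0 e κ p (D.X p * x0) ∈ slitPlane
  rH : radH e κ p (F0r e κ p (D.X p * x0)) ∈ slitPlane
  ent : nx0 e κ p (D.X p * x0) ∈ d.Ω p 0
  close : ∀ χ' : ℂ, ‖χ'‖ ≤ ‖d.X p 0 (nx0 e κ p (D.X p * x0))‖ →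
    ‖1 - R0r e κ p (nx0 e κ p (D.X p * x0)) *
      (1 + qq e κ (shf κ (nx0 e κ p (D.X p * x0))) * χ')‖ < θ * ‖D.X p‖

theorem F0r_eq (he : 0 < e) (hκ : 0 < κ) {p χ : ℂ} (hs : 0 < (s0 κ p).re) :
    fF (C0r e κ p) (1 - χ) = F0r e κ p χ := by
  have h5 := shf_re hκ hs.le
  unfold C0r
  rw [fF_mul (fT_ne he hκ h5)]
  exact fF_node he hκ hs

/-- **`RigPt → NPt`.** -/
theorem nPt_of_rig (he : 0 < e) (hκ : 0 < κ) {d : FarP e κ θ} {D : Rig0 e κ} {p : ℂ}
    {x : ℕ → ℂ} (hx : x ∈ KK) (h : RigPt d D p (x 0)) :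
    NPt (farP he hκ d) (D.toNear he hκ) 0 p x := by
  have hs := D.re p h.mem
  have hs1 := shf_re hκ hs.le
  have hv1 := half_lt_re_fT he hκ hs1
  have hv : 0 < (fT e κ (shf κ (s0 κ p))).re := by linarith
  have hv0 := fT_ne he hκ hs1
  have hg : 0 < (1 - D.X p * x 0).re := by
    have h1 := h.X_lt
    have h2 := Complex.abs_re_le_norm (D.X p * x 0)
    have h3 := le_abs_self (D.X p * x 0).re
    rw [Complex.sub_re, Complex.one_re]
    linarith
  have hF : fF ((D.toNear he hκ).C0 p) (1 - (D.toNear he hκ).X0 p * x 0) =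
      F0r e κ p (D.X p * x 0) := F0r_eq he hκ hs
  have hR : rad0F e κ p ((D.toNear he hκ).C0 p) (1 - (D.toNear he hκ).X0 p * x 0) =
      rd0 e κ p (D.X p * x 0) := rad0F_mul hv hg
  have hP : aP (farP he hκ d) (D.toNear he hκ) 0 p x 0 = nx0 e κ p (D.X p * x 0) := by
    rw [aP_zero]
    unfold step0F nx0 step0F
    rw [hR]
    rfl
  refine ⟨h.mem, h.memF, D.strip p h.mem, h.X_ne, one_ne_zero, fun n hn => absurd hn (by omega),
    fun n hn => absurd hn (by omega), ?_, ?_, ?_, ?_, ?_, fun n hn => absurd hn (by omega),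
    fun n hn => absurd hn (by omega), fun n hn => absurd hn (by omega),
    fun n hn => absurd hn (by omega), fun n hn => absurd hn (by omega), ?_, ?_⟩
  · exact Complex.mem_slitPlane_iff.2 (Or.inl hg)
  · rw [hF]
    have h1 := F_slit he hκ hs h.X_lt
    rw [fF_node he hκ hs] at h1
    exact h1
  · rw [hF]
    exact h.w0
  · rw [hR]
    exact h.rad0
  · rw [hF]
    exact h.rH
  · rw [hP]
    exact h.ent
  · intro n hn
    have hn0 : n = 0 := by omega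
    subst hn0
    have hre := d.re p h.memF 0 _ h.ent
    have hX : ‖d.X p 0 (nx0 e κ p (D.X p * x 0)) * x 1‖ ≤
        ‖d.X p 0 (nx0 e κ p (D.X p * x 0))‖ := by
      rw [norm_mul]
      exact mul_le_of_le_one_right (norm_nonneg _) (hx 1)
    have hc := h.close _ hX
    rw [aPhi_zero, aV_last, hP]
    show ‖x 0 - 1 * (x 0 - lawF e κ (C0r e κ p) 1 (D.X p) (nx0 e κ p (D.X p * x 0))
      (fF (cC e κ (nx0 e κ p (D.X p * x 0))) (cv e κ (nx0 e κ p (D.X p * x 0)) -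
        cv e κ (nx0 e κ p (D.X p * x 0)) * d.X p 0 (nx0 e κ p (D.X p * x 0)) * x 1)))‖ < θ
    rw [one_mul, sub_sub_cancel]
    have e1 : cv e κ (nx0 e κ p (D.X p * x 0)) -
        cv e κ (nx0 e κ p (D.X p * x 0)) * d.X p 0 (nx0 e κ p (D.X p * x 0)) * x 1 =
        cv e κ (nx0 e κ p (D.X p * x 0)) *
          (1 - d.X p 0 (nx0 e κ p (D.X p * x 0)) * x 1) := by ring
    rw [e1]
    unfold C0r
    rw [lawF_mul hv0, law_gen he hκ hs hre h.X_ne, norm_div,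
      div_lt_iff₀ (norm_pos_iff.2 h.X_ne)]
    exact hc

/-- **The result for one pair `(e, κ)`, rigid form.** -/
theorem rdataF_of_rig (he : 0 < e) (hκ : 0 < κ) (hθ0 : 0 ≤ θ) (hθ1 : θ < 1) (d : FarP e κ θ)
    (D : Rig0 e κ) {η : ℝ} (hη : 0 < η)
    (hseg : ∀ y : ℝ, 0 ≤ y → y ≤ η → ∀ x0 : ℂ, ‖x0‖ ≤ 1 → RigPt d D ((y : ℂ) * I) x0)
    (h0 : ∀ x0 : ℂ, ‖x0‖ ≤ 1 → ‖rho e κ (F0r e κ 0 (D.X 0 * x0))‖ < 1)
    (test : ∀ x0 : ℂ, ‖x0‖ < θ → (H0 e κ ((η : ℂ) * I)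
      (F0r e κ ((η : ℂ) * I) (D.X ((η : ℂ) * I) * x0))).re ≠ 1 / 2) :
    Nonempty (RDataF e κ) := by
  have hs : ∀ y : ℝ, 0 ≤ y → y ≤ η → 0 < (s0 κ ((y : ℂ) * I)).re := fun y h1 h2 =>
    D.re _ (hseg y h1 h2 0 (by simp)).mem
  refine nonempty_RDataF_N hκ hθ0 hθ1 (farP he hκ d) (D.toNear he hκ) 0 hη
    (fun y hy hy2 x hx => nPt_of_rig he hκ hx (hseg y hy hy2 (x 0) (hx 0))) ?_ ?_
  · intro x0 hx0
    have h1 := hs 0 le_rfl hη.le
    rw [ofReal_zero, zero_mul] at h1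
    show ‖rho e κ (fF (C0r e κ 0) (1 - D.X 0 * x0))‖ < 1
    rw [F0r_eq he hκ h1]
    exact h0 x0 hx0
  · intro x hx hfix
    have h1 := hs η hη.le le_rfl
    have hx0 : ‖x 0‖ < θ := by
      rw [hfix 0]
      exact (nPt_of_rig he hκ hx (hseg η hη.le le_rfl (x 0) (hx 0))).close 0 (by omega)
    have h2 := test (x 0) hx0
    rw [← F0r_eq he hκ h1] at h2
    exact h2

end Pool.Agent.helper12.RS
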