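import Pool.Agent.helper12.RP.Cont
import Pool.Agent.helper12.RP.Basic

/-!
# Near field: the functions of the scheme in scaled form

`H = 2 sinh (κ/2)`, `LA = log (2 cosh (eκ/2))`.  For a node `1 - F = exp (-C) g` with
`lF = log F`, `lg = log g - C`: `ρ = H exp (-(LA + lF)/e)`, `1/a = H exp (-(LA + lg)/e)`.
-/

namespace Pool.Agent.helper12.RS

open Complex ComplexConjugate Pool.Agent.helper31.EQ.Y Pool.Agent.helper31.EQ.R
open Pool.Agent.helper12.RP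

noncomputable section

/-- `2 sinh (κ/2)` -/
def Hh (κ : ℝ) : ℝ := 2 * Real.sinh (κ / 2)

/-- `log (2 cosh (eκ/2))` -/
def LA (e κ : ℝ) : ℝ := Real.log (2 * Real.cosh (e * κ / 2))

/-- `y = e (1 - Q^{-2})` -/
def yv (e κ : ℝ) (τ : ℂ) : ℂ := (e : ℂ) * (1 - (Qk κ τ ^ 2)⁻¹)

end

variable {e κ : ℝ}

theorem Hh_pos (hκ : 0 < κ) : 0 < Hh κ := by
  unfold Hh
  have := Real.sinh_pos_iff.2 (half_pos hκ)
  positivity

theorem Hh_sq (κ : ℝ) : Hh κ ^ 2 = 2 * (Real.cosh κ - 1) := by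
  have h := Real.cosh_two_mul (κ / 2)
  have h2 := Real.cosh_sq_sub_sinh_sq (κ / 2)
  rw [show 2 * (κ / 2) = κ by ring] at h
  unfold Hh
  nlinarith

theorem log_Ck' (hκ : 0 < κ) : Real.log (Ck e κ) = LA e κ - e * Real.log (Hh κ) := by
  have h1 := Real.cosh_pos (e * κ / 2)
  have h2 : 0 < 2 * Real.sinh (κ / 2) := Hh_pos hκ
  unfold Ck LA Hh
  rw [Real.log_mul (by positivity) (by positivity), Real.log_rpow h2]
  ring

/-- `ρ` -/
theorem rho_exp (he : 0 < e) (hκ : 0 < κ) {F : ℂ} (hF : F ≠ 0) :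
    rho e κ F = (Hh κ : ℂ) * exp (-((LA e κ : ℂ) + log F) / e) := by
  have he0 : (e : ℂ) ≠ 0 := by exact_mod_cast he.ne'
  have hC := Ck_pos (e := e) hκ
  have hH := Hh_pos hκ
  have h1 : exp ((Real.log (Hh κ) : ℂ)) = (Hh κ : ℂ) := by
    rw [← Complex.ofReal_exp, Real.exp_log hH]
  unfold rho
  rw [cpow_def_of_ne_zero (mul_ne_zero (by exact_mod_cast hC.ne') hF),
    Complex.log_ofReal_mul hC hF, log_Ck' hκ, ← h1, ← exp_add]
  congr 1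
  push_cast
  field_simp
  ring

/-- `1/a` -/
theorem aF_inv (he : 0 < e) (hκ : 0 < κ) {C g : ℂ} (hg : g ≠ 0) :
    1 / aF e κ C g = (Hh κ : ℂ) * exp (-((LA e κ : ℂ) + (log g - C)) / e) := by
  have he0 : (e : ℂ) ≠ 0 := by exact_mod_cast he.ne'
  have hC := Ck_pos (e := e) hκ
  have hH := Hh_pos hκ
  have h1 : exp ((Real.log (Hh κ) : ℂ)) = (Hh κ : ℂ) := by
    rw [← Complex.ofReal_exp, Real.exp_log hH]
  have h2 : ((Ck e κ ^ (1 / e) : ℝ) : ℂ) = exp ((Real.log (Ck e κ) : ℂ) * ((1 / e : ℝ) : ℂ)) := by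
    rw [Real.rpow_def_of_pos hC]
    push_cast
    rfl
  unfold aF
  rw [cpow_def_of_ne_zero hg, h2, ← exp_add, ← exp_add, one_div, ← exp_neg, log_Ck' hκ, ← h1,
    ← exp_add]
  congr 1
  push_cast
  field_simp
  ring

/-- `ρ⁻¹` -/
theorem rho_inv (he : 0 < e) (hκ : 0 < κ) {F : ℂ} (hF : F ≠ 0) :
    (rho e κ F)⁻¹ = (Hh κ : ℂ)⁻¹ * exp (((LA e κ : ℂ) + log F) / e) := by
  rw [rho_exp he hκ hF, mul_inv, ← exp_neg]
  congr 2
  ring

/-- **The radicand.** -/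
theorem radF_sc (he : 0 < e) (hκ : 0 < κ) {τ C g : ℂ} (hg : g ≠ 0) (hF : fF C g ≠ 0) :
    radF e κ τ C g = 1 + (Hh κ : ℂ) ^ 2 *
      (exp (-(2 * ((LA e κ : ℂ) + (log g - C))) / e) +
        exp (-(2 * (LA e κ : ℂ) + (log g - C) + log (fF C g)) / e)) +
      (1 - (Qk κ τ ^ 2)⁻¹) * exp ((log (fF C g) - (log g - C)) / e) := by
  have hH : (Hh κ : ℂ) ≠ 0 := by exact_mod_cast (Hh_pos hκ).ne'
  have h1 := rho_exp he hκ hF
  have h2 := aF_inv he hκ (C := C) hg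
  have h3 := rho_inv he hκ hF
  unfold radF
  rw [div_eq_mul_one_div _ (aF e κ C g), div_eq_mul_inv _ (rho e κ (fF C g)), h3, h2, h1]
  obtain ⟨A, hA⟩ : ∃ A, A = -((LA e κ : ℂ) + (log g - C)) / e := ⟨_, rfl⟩
  obtain ⟨B, hB⟩ : ∃ B, B = -((LA e κ : ℂ) + log (fF C g)) / e := ⟨_, rfl⟩
  have e1 : exp (-(2 * ((LA e κ : ℂ) + (log g - C))) / e) = exp A * exp A := by
    rw [← exp_add, hA]
    congr 1
    ring
  have e2 : exp (-(2 * (LA e κ : ℂ) + (log g - C) + log (fF C g)) / e) = exp A * exp B := by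
    rw [← exp_add, hA, hB]
    congr 1
    ring
  have e3 : exp ((log (fF C g) - (log g - C)) / e) = exp (((LA e κ : ℂ) + log (fF C g)) / e) *
      exp A := by
    rw [← exp_add, hA]
    congr 1
    ring
  rw [e1, e2, e3, ← hA, ← hB]
  field_simp
  ring

/-- the radicand of the first link -/
theorem rad0F_sc (he : 0 < e) (hκ : 0 < κ) {p C g : ℂ} (hg : g ≠ 0) (hF : fF C g ≠ 0) :
    rad0F e κ p C g = 1 + (Hh κ : ℂ) ^ 2 * (exp (-(2 * ((LA e κ : ℂ) + (log g - C))) / e) +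
        2 * exp (-(2 * (LA e κ : ℂ) + (log g - C) + log (fF C g)) / e) *
          (1 - tanh (κ * p) ^ 2)) +
      2 * (Hh κ : ℂ) * exp (-((LA e κ : ℂ) + (log g - C)) / e) * (tanh (κ * p) *
        (1 - (Hh κ : ℂ) ^ 2 * exp (-(2 * ((LA e κ : ℂ) + log (fF C g))) / e) *
          (1 - tanh (κ * p) ^ 2)) ^ ((1 / 2 : ℝ) : ℂ)) := by
  have h1 := rho_exp he hκ hF
  have h2 := aF_inv he hκ (C := C) hg
  obtain ⟨A, hA⟩ : ∃ A, A = -((LA e κ : ℂ) + (log g - C)) / e := ⟨_, rfl⟩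
  obtain ⟨B, hB⟩ : ∃ B, B = -((LA e κ : ℂ) + log (fF C g)) / e := ⟨_, rfl⟩
  have e1 : exp (-(2 * ((LA e κ : ℂ) + (log g - C))) / e) = exp A * exp A := by
    rw [← exp_add, hA]
    congr 1
    ring
  have e2 : exp (-(2 * (LA e κ : ℂ) + (log g - C) + log (fF C g)) / e) = exp A * exp B := by
    rw [← exp_add, hA, hB]
    congr 1
    ring
  have e3 : exp (-(2 * ((LA e κ : ℂ) + log (fF C g))) / e) = exp B ^ 2 := by
    rw [sq, ← exp_add, hB]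
    congr 1
    ring
  unfold rad0F
  rw [div_eq_mul_one_div _ (aF e κ C g), h2, h1, e1, e2, e3, ← hA, ← hB]
  unfold T1
  rw [show ((Hh κ : ℂ) * exp B) ^ 2 = (Hh κ : ℂ) ^ 2 * exp B ^ 2 by ring]
  ring

/-- `E0²/E1²` -/
theorem radH_sc (he : 0 < e) (hκ : 0 < κ) {p F : ℂ} (hF : F ≠ 0) :
    radH e κ p F = 1 + (Hh κ : ℂ) ^ 2 * exp (-(2 * ((LA e κ : ℂ) + log F)) / e) *
        (1 - 2 * (1 - tanh (κ * p) ^ 2)) -
      2 * (Hh κ : ℂ) * exp (-((LA e κ : ℂ) + log F) / e) * (tanh (κ * p) *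
        (1 - (Hh κ : ℂ) ^ 2 * exp (-(2 * ((LA e κ : ℂ) + log F)) / e) *
          (1 - tanh (κ * p) ^ 2)) ^ ((1 / 2 : ℝ) : ℂ)) := by
  have h1 := rho_exp he hκ hF
  obtain ⟨B, hB⟩ : ∃ B, B = -((LA e κ : ℂ) + log F) / e := ⟨_, rfl⟩
  have e3 : exp (-(2 * ((LA e κ : ℂ) + log F)) / e) = exp B ^ 2 := by
    rw [sq, ← exp_add, hB]
    congr 1
    ring
  unfold radH
  rw [h1, e3, ← hB]
  unfold T1
  rw [show ((Hh κ : ℂ) * exp B) ^ 2 = (Hh κ : ℂ) ^ 2 * exp B ^ 2 by ring]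
  ring

theorem Qk_stepF (hκ : 0 < κ) (τ C g : ℂ) :
    Qk κ (stepF e κ τ C g) = radF e κ τ C g ^ ((1 / 2 : ℝ) : ℂ) := by
  have hs : (Real.sinh κ : ℂ) ≠ 0 := by exact_mod_cast (Real.sinh_pos_iff.2 hκ).ne'
  unfold Qk stepF
  field_simp
  ring

theorem Qk_step0F (hκ : 0 < κ) (p C g : ℂ) :
    Qk κ (step0F e κ p C g) = rad0F e κ p C g ^ ((1 / 2 : ℝ) : ℂ) := by
  have hs : (Real.sinh κ : ℂ) ≠ 0 := by exact_mod_cast (Real.sinh_pos_iff.2 hκ).ne'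
  unfold Qk step0F
  field_simp
  ring

theorem half_sq {S : ℂ} (hS : S ≠ 0) : (S ^ ((1 / 2 : ℝ) : ℂ)) ^ 2 = S := by
  rw [← Complex.cpow_nat_mul]
  norm_num

theorem log_half {S : ℂ} (hS : S ≠ 0) : log (S ^ ((1 / 2 : ℝ) : ℂ)) = log S / 2 := by
  have h1 := Complex.neg_pi_lt_arg S
  have h2 := Complex.arg_le_pi S
  rw [cpow_def_of_ne_zero hS, Complex.log_exp]
  · push_cast
    ring
  · rw [Complex.im_mul_ofReal, Complex.log_im]
    linarith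
  · rw [Complex.im_mul_ofReal, Complex.log_im]
    linarith

/-- `Q^{-e} = exp (-(e/2) log S)` for `Q = S^{1/2}` -/
theorem cpow_half {S : ℂ} (hS : S ≠ 0) (e : ℝ) :
    (S ^ ((1 / 2 : ℝ) : ℂ)) ^ (-(e : ℂ)) = exp (-((e : ℂ) / 2 * log S)) := by
  have h1 : S ^ ((1 / 2 : ℝ) : ℂ) ≠ 0 := by
    rw [cpow_def_of_ne_zero hS]
    exact exp_ne_zero _
  rw [cpow_def_of_ne_zero h1, log_half hS]
  congr 1
  ring

/-- the law -/
theorem lawF_sc {C v r τ' S F' : ℂ} (hS : S ≠ 0)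
    (hQ : Qk κ τ' = S ^ ((1 / 2 : ℝ) : ℂ)) :
    lawF e κ C v r τ' F' = (v - exp (C - (e : ℂ) / 2 * log S) * F') / r := by
  unfold lawF
  rw [hQ, cpow_half hS, ← exp_add]
  rfl

/-- `y` of the next link: `y' = e (1 - 1/S)` -/
theorem yv_of {τ' S : ℂ} (hS : S ≠ 0) (hQ : Qk κ τ' = S ^ ((1 / 2 : ℝ) : ℂ)) :
    yv e κ τ' = (e : ℂ) * (1 - S⁻¹) := by
  unfold yv
  rw [hQ, half_sq hS]

end Pool.Agent.helper12.RS
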