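import Pool.Agent.helper12.RS.OmNodes

/-!
# Near node functions given as functions of `T = Q - cosh κ`
-/

namespace Pool.Agent.helper12.RS

open Complex ComplexConjugate Set Filter Topology
open Pool.Agent.helper31.EQ.Y Pool.Agent.helper31.EQ.R
open Pool.Agent.helper12.RP Pool.Agent.helper12.FF

variable {e κ θ : ℝ}

/-- `T` as a function of `y` -/
noncomputable def Ty (e κ : ℝ) (y : ℂ) : ℂ := exp (-(log (1 - y / e)) / 2) - (Real.cosh κ : ℂ)

theorem inv_sq_slit {Q : ℂ} (h : 0 < Q.re) : (Q ^ 2)⁻¹ ∈ slitPlane ∧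
    log ((Q ^ 2)⁻¹) = -(2 * log Q) := by
  have hQ : Q ≠ 0 := by
    intro h0
    rw [h0, zero_re] at h
    exact lt_irrefl _ h
  have h1 : |arg Q| < Real.pi / 2 := Complex.abs_arg_lt_pi_div_two_iff.2 (Or.inl h)
  have h2 := abs_lt.1 h1
  have e1 : log ((Q ^ 2)⁻¹) = -(2 * log Q) := by
    have h3 : (Q ^ 2)⁻¹ = exp (-(2 * log Q)) := by
      rw [exp_neg, two_mul, exp_add, exp_log hQ, sq]
    rw [h3, Complex.log_exp]
    · rw [neg_im, Complex.mul_im, Complex.log_im]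
      simp only [re_ofNat, im_ofNat, zero_mul, add_zero]
      linarith
    · rw [neg_im, Complex.mul_im, Complex.log_im]
      simp only [re_ofNat, im_ofNat, zero_mul, add_zero]
      linarith
  refine ⟨?_, e1⟩
  rw [Complex.mem_slitPlane_iff_arg]
  refine ⟨?_, inv_ne_zero (pow_ne_zero 2 hQ)⟩
  rw [← Complex.log_im, e1, neg_im, Complex.mul_im, Complex.log_im]
  simp only [re_ofNat, im_ofNat, zero_mul, add_zero]
  intro h3
  linarith

theorem y_div (he : 0 < e) {Q y : ℂ} (hy : y = (e : ℂ) * (1 - (Q ^ 2)⁻¹)) :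
    1 - y / e = (Q ^ 2)⁻¹ := by
  have he0 : (e : ℂ) ≠ 0 := by exact_mod_cast he.ne'
  rw [hy, mul_div_cancel_left₀ _ he0]
  ring

theorem Ty_of (he : 0 < e) {Q y : ℂ} (h : 0 < Q.re) (hy : y = (e : ℂ) * (1 - (Q ^ 2)⁻¹)) :
    Ty e κ y = Q - (Real.cosh κ : ℂ) := by
  have hQ : Q ≠ 0 := by
    intro h0
    rw [h0, zero_re] at h
    exact lt_irrefl _ h
  unfold Ty
  rw [y_div he hy, (inv_sq_slit h).2, neg_neg, mul_div_cancel_left₀ _ (two_ne_zero), exp_log hQ]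

/-- Near node functions as functions of `T`. -/
structure LamT where
  DN : Set ℂ
  isOpen_DN : IsOpen DN
  conj_DN : ∀ p ∈ DN, conj p ∈ DN
  DT : ℕ → Set (ℂ × ℂ)
  isOpen_DT : ∀ n, IsOpen (DT n)
  conj_DT : ∀ n, ∀ p T : ℂ, (p, T) ∈ DT n → (conj p, conj T) ∈ DT n
  l0 : ℂ → ℂ
  r0 : ℂ → ℂ
  M0 : ℂ → ℂ
  l : ℕ → ℂ → ℂ → ℂ
  r : ℕ → ℂ → ℂ → ℂ
  M : ℕ → ℂ → ℂ → ℂ
  l0_diff : DifferentiableOn ℂ l0 DN
  r0_diff : DifferentiableOn ℂ r0 DN
  M0_diff : DifferentiableOn ℂ M0 DN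
  l_diff : ∀ n, ∀ p T : ℂ, (p, T) ∈ DT n →
    DifferentiableAt ℂ (fun q : ℂ × ℂ => l n q.1 q.2) (p, T)
  r_diff : ∀ n, ∀ p T : ℂ, (p, T) ∈ DT n →
    DifferentiableAt ℂ (fun q : ℂ × ℂ => r n q.1 q.2) (p, T)
  M_diff : ∀ n, ∀ p T : ℂ, (p, T) ∈ DT n →
    DifferentiableAt ℂ (fun q : ℂ × ℂ => M n q.1 q.2) (p, T)
  l0_conj : ∀ p ∈ DN, l0 (conj p) = conj (l0 p)
  r0_conj : ∀ p ∈ DN, r0 (conj p) = conj (r0 p)
  M0_conj : ∀ p ∈ DN, M0 (conj p) = conj (M0 p)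
  l_conj : ∀ n, ∀ p T : ℂ, (p, T) ∈ DT n → l n (conj p) (conj T) = conj (l n p T)
  r_conj : ∀ n, ∀ p T : ℂ, (p, T) ∈ DT n → r n (conj p) (conj T) = conj (r n p T)
  M_conj : ∀ n, ∀ p T : ℂ, (p, T) ∈ DT n → M n (conj p) (conj T) = conj (M n p T)

/-- the map `(p, y) ↦ (p, T y)` -/
theorem pair_Ty {p y : ℂ} (h : 1 - y / e ∈ slitPlane) :
    DifferentiableAt ℂ (fun q : ℂ × ℂ => ((q.1, Ty e κ q.2) : ℂ × ℂ)) (p, y) := by
  have h0 : DifferentiableAt ℂ (fun y : ℂ => 1 - y / e) y :=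
    (differentiableAt_id.div_const _).const_sub _
  have h1 : DifferentiableAt ℂ (Ty e κ) y := by
    unfold Ty
    exact ((((h0.clog h).neg).div_const 2).cexp).sub_const _
  have h2 : DifferentiableAt ℂ (fun q : ℂ × ℂ => Ty e κ q.2) (p, y) :=
    DifferentiableAt.comp (f := fun q : ℂ × ℂ => q.2) (g := Ty e κ) (p, y) h1
      differentiableAt_snd
  exact differentiableAt_fst.prodMk h2

theorem Ty_conj {y : ℂ} (h : 1 - y / e ∈ slitPlane) : Ty e κ (conj y) = conj (Ty e κ y) := by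
  have h1 : 1 - conj y / e = conj (1 - y / e) := by
    rw [map_sub, map_one, map_div₀, conj_ofReal]
  unfold Ty
  rw [h1, Complex.log_conj _ (slitPlane_arg_ne_pi h), map_sub, conj_ofReal, ← exp_conj, map_div₀,
    map_neg, show (conj (2 : ℂ)) = 2 from Complex.conj_ofNat 2]

theorem slit_conj {z : ℂ} (h : z ∈ slitPlane) : conj z ∈ slitPlane := by
  rw [Complex.mem_slitPlane_iff] at h ⊢
  rw [conj_re, conj_im]
  rcases h with h | h
  · exact Or.inl h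
  · exact Or.inr (neg_ne_zero.2 h)

/-- The record in `y`. -/
noncomputable def LamT.toN (D : LamT) (e κ : ℝ) : LamN where
  DN := D.DN
  isOpen_DN := D.isOpen_DN
  conj_DN := D.conj_DN
  DY := fun n => {q | 1 - q.2 / e ∈ slitPlane ∧ (q.1, Ty e κ q.2) ∈ D.DT n}
  isOpen_DY := by
    intro n
    rw [isOpen_iff_mem_nhds]
    rintro ⟨p, y⟩ ⟨h1, h2⟩
    have h1' : 1 - y / e ∈ slitPlane := h1
    have hc : ContinuousAt (fun q : ℂ × ℂ => 1 - q.2 / (e : ℂ)) (p, y) :=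
      (continuousAt_snd.div_const _).const_sub _
    filter_upwards [hc.eventually (isOpen_slitPlane.mem_nhds h1'),
      (pair_Ty (κ := κ) (p := p) h1').continuousAt.eventually ((D.isOpen_DT n).mem_nhds h2)]
      with q h3 h4
    exact ⟨h3, h4⟩
  conj_DY := by
    rintro n p y ⟨h1, h2⟩
    have h1' : 1 - y / e ∈ slitPlane := h1
    refine ⟨?_, ?_⟩
    · show 1 - conj y / e ∈ slitPlane
      have h3 : 1 - conj y / e = conj (1 - y / e) := by
        rw [map_sub, map_one, map_div₀, conj_ofReal]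
      rw [h3]
      exact slit_conj h1'
    · show (conj p, Ty e κ (conj y)) ∈ D.DT n
      rw [Ty_conj h1']
      exact D.conj_DT n p _ h2
  l0 := D.l0
  r0 := D.r0
  M0 := D.M0
  l := fun n p y => D.l n p (Ty e κ y)
  r := fun n p y => D.r n p (Ty e κ y)
  M := fun n p y => D.M n p (Ty e κ y)
  l0_diff := D.l0_diff
  r0_diff := D.r0_diff
  M0_diff := D.M0_diff
  l_diff := fun n p y h => DifferentiableAt.comp
    (f := fun q : ℂ × ℂ => ((q.1, Ty e κ q.2) : ℂ × ℂ)) (g := fun q : ℂ × ℂ => D.l n q.1 q.2)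
    (p, y) (D.l_diff n p _ h.2) (pair_Ty h.1)
  r_diff := fun n p y h => DifferentiableAt.comp
    (f := fun q : ℂ × ℂ => ((q.1, Ty e κ q.2) : ℂ × ℂ)) (g := fun q : ℂ × ℂ => D.r n q.1 q.2)
    (p, y) (D.r_diff n p _ h.2) (pair_Ty h.1)
  M_diff := fun n p y h => DifferentiableAt.comp
    (f := fun q : ℂ × ℂ => ((q.1, Ty e κ q.2) : ℂ × ℂ)) (g := fun q : ℂ × ℂ => D.M n q.1 q.2)
    (p, y) (D.M_diff n p _ h.2) (pair_Ty h.1)
  l0_conj := D.l0_conj
  r0_conj := D.r0_conj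
  M0_conj := D.M0_conj
  l_conj := fun n p y h => by
    have h1 : 1 - y / e ∈ slitPlane := h.1
    rw [Ty_conj h1]
    exact D.l_conj n p _ h.2
  r_conj := fun n p y h => by
    have h1 : 1 - y / e ∈ slitPlane := h.1
    rw [Ty_conj h1]
    exact D.r_conj n p _ h.2
  M_conj := fun n p y h => by
    have h1 : 1 - y / e ∈ slitPlane := h.1
    rw [Ty_conj h1]
    exact D.M_conj n p _ h.2

/-- the domain condition at a link -/
theorem LamT.mem_DY (he : 0 < e) (D : LamT) {n : ℕ} {p Q y : ℂ} (h : 0 < Q.re)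
    (hy : y = (e : ℂ) * (1 - (Q ^ 2)⁻¹)) (hT : (p, Q - (Real.cosh κ : ℂ)) ∈ D.DT n) :
    (p, y) ∈ (D.toN e κ).DY n := by
  refine ⟨?_, ?_⟩
  · show 1 - y / e ∈ slitPlane
    rw [y_div he hy]
    exact (inv_sq_slit h).1
  · show (p, Ty e κ y) ∈ D.DT n
    rw [Ty_of he h hy]
    exact hT

/-- the functions at a link -/
theorem LamT.eval (he : 0 < e) (D : LamT) {n : ℕ} {p Q y : ℂ} (h : 0 < Q.re)
    (hy : y = (e : ℂ) * (1 - (Q ^ 2)⁻¹)) :
    (D.toN e κ).l n p y = D.l n p (Q - (Real.cosh κ : ℂ)) ∧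
    (D.toN e κ).r n p y = D.r n p (Q - (Real.cosh κ : ℂ)) ∧
    (D.toN e κ).M n p y = D.M n p (Q - (Real.cosh κ : ℂ)) := by
  refine ⟨?_, ?_, ?_⟩
  · show D.l n p (Ty e κ y) = _
    rw [Ty_of he h hy]
  · show D.r n p (Ty e κ y) = _
    rw [Ty_of he h hy]
  · show D.M n p (Ty e κ y) = _
    rw [Ty_of he h hy]

/-- the same with the radicand `S = Q²` -/
theorem LamT.eval_S (he : 0 < e) (D : LamT) {n : ℕ} {p S : ℂ} (hS : S ∈ slitPlane) :
    (D.toN e κ).l n p ((e : ℂ) * (1 - S⁻¹)) =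
      D.l n p (S ^ ((1 / 2 : ℝ) : ℂ) - (Real.cosh κ : ℂ)) ∧
    (D.toN e κ).r n p ((e : ℂ) * (1 - S⁻¹)) =
      D.r n p (S ^ ((1 / 2 : ℝ) : ℂ) - (Real.cosh κ : ℂ)) ∧
    (D.toN e κ).M n p ((e : ℂ) * (1 - S⁻¹)) =
      D.M n p (S ^ ((1 / 2 : ℝ) : ℂ) - (Real.cosh κ : ℂ)) := by
  have hS0 := slitPlane_ne_zero hS
  have h1 : 0 < (S ^ ((1 / 2 : ℝ) : ℂ)).re := by
    have h2 : S ^ ((1 / 2 : ℝ) : ℂ) = exp (log S / 2) := by
      rw [cpow_def_of_ne_zero hS0]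
      congr 1
      push_cast
      ring
    have h3 : (log S / 2).im = arg S / 2 := by
      rw [Complex.div_ofNat_im, Complex.log_im]
    have h4 := Complex.neg_pi_lt_arg S
    have h5 : arg S < Real.pi := lt_of_le_of_ne (Complex.arg_le_pi S) (slitPlane_arg_ne_pi hS)
    rw [h2, Complex.exp_re, h3]
    apply mul_pos (Real.exp_pos _)
    apply Real.cos_pos_of_mem_Ioo
    constructor <;> linarith
  refine D.eval he h1 ?_
  rw [half_sq hS0]

end Pool.Agent.helper12.RS
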