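import Pool.Agent.helper12.RS.Node

/-!
# The record of near node functions from coefficient lists
-/

namespace Pool.Agent.helper12.RS

open Complex ComplexConjugate Set Filter Topology
open Pool.Agent.helper31.EQ.Y Pool.Agent.helper31.EQ.R
open Pool.Agent.helper12.RP Pool.Agent.helper12.FF

noncomputable section

/-- Horner evaluation, low order first -/
def horn : List ℂ → ℂ → ℂ
  | [], _ => 0
  | [c], _ => c
  | c :: d :: t, z => (horn (d :: t) z * z) + c

/-- two variables: the rows are the coefficients (polynomials in `u`) of the powers of `v` -/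
def horn2 (rows : List (List ℂ)) (u v : ℂ) : ℂ := horn (rows.map (fun r => horn r u)) v

/-- Tables: `l = 2b + (T - K)/ε · h(ε, T)`, `r = a2 (T + K)/ε/(1 + c T)`, `M(ε, T)`; node 0 in terms of
`φ = i v/(1 + i v/2)`, `i v = sinh (κ/2) tanh (κ p)/(ε g(ε) (1 + (3/2) sinh² (κ/2)))`:
`l0 = 2b + φ l0(ε, φ)`, `r0 = a0 u/(1 + c0 u)`, `u = 4 b + 4 g(ε) φ`, `M0(ε, φ)`. -/
structure Tab where
  h : ℕ → List (List ℂ)
  M : ℕ → List (List ℂ)
  a2 : ℕ → ℂ
  c : ℕ → ℂ
  g : List ℂ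
  l0 : List (List ℂ)
  M0 : List (List ℂ)
  a0 : ℂ
  c0 : ℂ

/-- all coefficients are real -/
structure Tab.IsReal (t : Tab) : Prop where
  h : ∀ n, ∀ r ∈ t.h n, ∀ c ∈ r, conj c = c
  M : ∀ n, ∀ r ∈ t.M n, ∀ c ∈ r, conj c = c
  a2 : ∀ n, conj (t.a2 n) = t.a2 n
  c : ∀ n, conj (t.c n) = t.c n
  g : ∀ c ∈ t.g, conj c = c
  l0 : ∀ r ∈ t.l0, ∀ c ∈ r, conj c = c
  M0 : ∀ r ∈ t.M0, ∀ c ∈ r, conj c = c
  a0 : conj t.a0 = t.a0
  c0 : conj t.c0 = t.c0

theorem horn_diff (l : List ℂ) : Differentiable ℂ (horn l) := by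
  induction l with
  | nil =>
    have : horn [] = fun _ => 0 := rfl
    rw [this]
    exact differentiable_const _
  | cons c t ih =>
    cases t with
    | nil =>
      have : horn [c] = fun _ => c := rfl
      rw [this]
      exact differentiable_const _
    | cons d t =>
      have : horn (c :: d :: t) = fun z => (horn (d :: t) z * z) + c := rfl
      rw [this]
      exact (ih.mul differentiable_id).add_const c

theorem horn_conj (l : List ℂ) (h : ∀ c ∈ l, conj c = c) (z : ℂ) :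
    horn l (conj z) = conj (horn l z) := by
  induction l with
  | nil =>
    show (0 : ℂ) = conj 0
    simp
  | cons c t ih =>
    cases t with
    | nil =>
      show c = conj c
      exact (h c (by simp)).symm
    | cons d t =>
      show (horn (d :: t) (conj z) * conj z) + c = conj ((horn (d :: t) z * z) + c)
      rw [ih (fun x hx => h x (List.mem_cons_of_mem _ hx)), map_add, map_mul, h c (by simp)]

theorem horn_map_real (rows : List (List ℂ)) (h : ∀ r ∈ rows, ∀ c ∈ r, conj c = c) {u : ℂ}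
    (hu : conj u = u) : ∀ c ∈ rows.map (fun r => horn r u), conj c = c := by
  intro c hc
  rw [List.mem_map] at hc
  obtain ⟨r, hr, rfl⟩ := hc
  have := horn_conj r (h r hr) u
  rw [hu] at this
  exact this.symm

theorem horn2_diff (rows : List (List ℂ)) (u : ℂ) : Differentiable ℂ (horn2 rows u) :=
  horn_diff _

theorem horn2_conj (rows : List (List ℂ)) (h : ∀ r ∈ rows, ∀ c ∈ r, conj c = c) {u : ℂ}
    (hu : conj u = u) (v : ℂ) : horn2 rows u (conj v) = conj (horn2 rows u v) :=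
  horn_conj _ (horn_map_real rows h hu) v

namespace Tab

variable (t : Tab) (e κ : ℝ)

/-- `1/e` -/
def ep : ℂ := ((1 / e : ℝ) : ℂ)

/-- `i v` -/
def iv (p : ℂ) : ℂ := (Real.sinh (κ / 2) : ℂ) * tanh (κ * p) /
  (ep e * horn t.g (ep e) * (1 + (3 / 2) * (Real.sinh (κ / 2) : ℂ) ^ 2))

/-- `φ` -/
def ph (p : ℂ) : ℂ := t.iv e κ p / (1 + t.iv e κ p / 2)

/-- `u = 4 b + 4 g φ` -/
def u0 (p : ℂ) : ℂ := 4 * ((e * κ / 2 : ℝ) : ℂ) + 4 * (horn t.g (ep e) * t.ph e κ p)

theorem conj_ep : conj (ep e) = ep e := conj_ofReal _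

variable {t e κ}

theorem tanh_diff {p : ℂ} (h : cosh (κ * p) ≠ 0) :
    DifferentiableAt ℂ (fun p : ℂ => tanh (κ * p)) p := by
  have h1 : DifferentiableAt ℂ (fun p : ℂ => (κ : ℂ) * p) p := differentiableAt_id.const_mul _
  have h2 : (fun p : ℂ => tanh (κ * p)) = fun p : ℂ => sinh (κ * p) / cosh (κ * p) := by
    funext q
    exact Complex.tanh_eq_sinh_div_cosh _
  rw [h2]
  exact (Complex.differentiable_sinh.differentiableAt.comp p h1).div
    (Complex.differentiable_cosh.differentiableAt.comp p h1) h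

theorem tanh_conj' (κ : ℝ) (p : ℂ) : tanh (κ * conj p) = conj (tanh (κ * p)) := by
  have : (κ : ℂ) * conj p = conj ((κ : ℂ) * p) := by rw [map_mul, conj_ofReal]
  rw [this, Complex.tanh_conj]

theorem cosh_conj' (κ : ℝ) (p : ℂ) : cosh (κ * conj p) = conj (cosh (κ * p)) := by
  have : (κ : ℂ) * conj p = conj ((κ : ℂ) * p) := by rw [map_mul, conj_ofReal]
  rw [this, Complex.cosh_conj]

theorem iv_conj (ht : t.IsReal) (p : ℂ) : t.iv e κ (conj p) = conj (t.iv e κ p) := by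
  have h1 := horn_conj t.g ht.g (ep e)
  rw [conj_ep] at h1
  unfold iv
  rw [tanh_conj', map_div₀, map_mul, map_mul, map_mul, ← h1, conj_ep, conj_ofReal]
  congr 2
  rw [map_add, map_mul, map_pow, conj_ofReal, map_one, map_div₀]
  congr 3
  · exact (Complex.conj_ofNat 3).symm
  · exact (Complex.conj_ofNat 2).symm

theorem ph_conj (ht : t.IsReal) (p : ℂ) : t.ph e κ (conj p) = conj (t.ph e κ p) := by
  unfold ph
  rw [iv_conj ht, map_div₀, map_add, map_div₀, map_one, show (conj (2 : ℂ)) = 2 from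
    Complex.conj_ofNat 2]

theorem u0_conj (ht : t.IsReal) (p : ℂ) : t.u0 e κ (conj p) = conj (t.u0 e κ p) := by
  have h1 := horn_conj t.g ht.g (ep e)
  rw [conj_ep] at h1
  unfold u0
  rw [ph_conj ht, map_add, map_mul, map_mul, map_mul, ← h1, conj_ofReal,
    show (conj (4 : ℂ)) = 4 from Complex.conj_ofNat 4]

/-- the domain of the start -/
def DN (t : Tab) (e κ : ℝ) : Set ℂ :=
  {p | cosh (κ * p) ≠ 0 ∧ 1 + t.iv e κ p / 2 ≠ 0 ∧ 1 + t.c0 * t.u0 e κ p ≠ 0}

theorem iv_diff {p : ℂ} (h : cosh (κ * p) ≠ 0) : DifferentiableAt ℂ (t.iv e κ) p := by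
  unfold iv
  exact ((tanh_diff h).const_mul _).div_const _

theorem ph_diff {p : ℂ} (h : cosh (κ * p) ≠ 0) (h2 : 1 + t.iv e κ p / 2 ≠ 0) :
    DifferentiableAt ℂ (t.ph e κ) p := by
  unfold ph
  exact (iv_diff h).div (((iv_diff h).div_const 2).const_add 1) h2

theorem u0_diff {p : ℂ} (h : cosh (κ * p) ≠ 0) (h2 : 1 + t.iv e κ p / 2 ≠ 0) :
    DifferentiableAt ℂ (t.u0 e κ) p := by
  unfold u0
  exact (((ph_diff h h2).const_mul _).const_mul _).const_add _

theorem isOpen_DN (t : Tab) (e κ : ℝ) : IsOpen (t.DN e κ) := by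
  rw [isOpen_iff_mem_nhds]
  rintro p ⟨h1, h2, h3⟩
  have c1 : ContinuousAt (fun p : ℂ => cosh (κ * p)) p := by
    have : DifferentiableAt ℂ (fun p : ℂ => (κ : ℂ) * p) p := differentiableAt_id.const_mul _
    exact (Complex.differentiable_cosh.differentiableAt.comp p this).continuousAt
  have c2 : ContinuousAt (fun p : ℂ => 1 + t.iv e κ p / 2) p :=
    (((iv_diff h1).div_const 2).const_add 1).continuousAt
  have c3 : ContinuousAt (fun p : ℂ => 1 + t.c0 * t.u0 e κ p) p :=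
    (((u0_diff h1 h2).const_mul t.c0).const_add 1).continuousAt
  filter_upwards [c1.eventually_ne h1, c2.eventually_ne h2, c3.eventually_ne h3] with q a b c
  exact ⟨a, b, c⟩

/-- **The record.** -/
def lamT (t : Tab) (ht : t.IsReal) (e κ : ℝ) : LamT where
  DN := t.DN e κ
  isOpen_DN := isOpen_DN t e κ
  conj_DN := by
    rintro p ⟨h1, h2, h3⟩
    refine ⟨?_, ?_, ?_⟩
    · rw [cosh_conj']
      exact (map_ne_zero _).2 h1
    · rw [iv_conj ht]
      have : 1 + conj (t.iv e κ p) / 2 = conj (1 + t.iv e κ p / 2) := by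
        rw [map_add, map_div₀, map_one, show (conj (2 : ℂ)) = 2 from Complex.conj_ofNat 2]
      rw [this]
      exact (map_ne_zero _).2 h2
    · rw [u0_conj ht]
      have : 1 + t.c0 * conj (t.u0 e κ p) = conj (1 + t.c0 * t.u0 e κ p) := by
        rw [map_add, map_mul, map_one, ht.c0]
      rw [this]
      exact (map_ne_zero _).2 h3
  DT := fun n => {q | 1 + t.c n * q.2 ≠ 0}
  isOpen_DT := by
    intro n
    have : Continuous (fun q : ℂ × ℂ => 1 + t.c n * q.2) :=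
      (continuous_const.mul continuous_snd).const_add 1
    exact isOpen_ne_fun this continuous_const
  conj_DT := by
    intro n p T h
    have h' : 1 + t.c n * T ≠ 0 := h
    show 1 + t.c n * conj T ≠ 0
    have : 1 + t.c n * conj T = conj (1 + t.c n * T) := by
      rw [map_add, map_mul, map_one, ht.c]
    rw [this]
    exact (map_ne_zero _).2 h'
  l0 := fun p => ((e * κ : ℝ) : ℂ) + t.ph e κ p * horn2 t.l0 (ep e) (t.ph e κ p)
  r0 := fun p => t.a0 * t.u0 e κ p / (1 + t.c0 * t.u0 e κ p)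
  M0 := fun p => horn2 t.M0 (ep e) (t.ph e κ p)
  l := fun n _ T => ((e * κ : ℝ) : ℂ) + (e : ℂ) * ((T - (Real.sinh κ : ℂ)) *
    horn2 (t.h n) (ep e) T)
  r := fun n _ T => t.a2 n * ((e : ℂ) * (T + (Real.sinh κ : ℂ))) / (1 + t.c n * T)
  M := fun n _ T => horn2 (t.M n) (ep e) T
  l0_diff := by
    rintro p ⟨h1, h2, -⟩
    have h4 := ph_diff (t := t) h1 h2
    exact ((h4.mul (((horn2_diff t.l0 (ep e)).differentiableAt).comp p h4)).const_add
      _).differentiableWithinAt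
  r0_diff := by
    rintro p ⟨h1, h2, h3⟩
    have h4 := u0_diff (t := t) h1 h2
    exact ((h4.const_mul t.a0).div ((h4.const_mul t.c0).const_add 1) h3).differentiableWithinAt
  M0_diff := by
    rintro p ⟨h1, h2, -⟩
    exact (((horn2_diff t.M0 (ep e)).differentiableAt).comp p
      (ph_diff h1 h2)).differentiableWithinAt
  l_diff := by
    intro n p T _
    have h1 : DifferentiableAt ℂ (fun q : ℂ × ℂ => q.2) (p, T) := differentiableAt_snd
    have h2 : DifferentiableAt ℂ (fun q : ℂ × ℂ => horn2 (t.h n) (ep e) q.2) (p, T) :=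
      ((horn2_diff (t.h n) (ep e)).differentiableAt).comp (p, T) h1
    exact ((((h1.sub_const _).mul h2).const_mul _).const_add _)
  r_diff := by
    intro n p T h
    have h' : 1 + t.c n * T ≠ 0 := h
    have h1 : DifferentiableAt ℂ (fun q : ℂ × ℂ => q.2) (p, T) := differentiableAt_snd
    have h2 : DifferentiableAt ℂ (fun q : ℂ × ℂ => 1 + t.c n * q.2) (p, T) :=
      (h1.const_mul (t.c n)).const_add 1
    have h3 : DifferentiableAt ℂ (fun q : ℂ × ℂ =>
        t.a2 n * ((e : ℂ) * (q.2 + (Real.sinh κ : ℂ)))) (p, T) :=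
      (((h1.add_const _).const_mul _).const_mul _)
    simp only [div_eq_mul_inv]
    exact h3.mul (h2.inv h')
  M_diff := by
    intro n p T _
    have h1 : DifferentiableAt ℂ (fun q : ℂ × ℂ => q.2) (p, T) := differentiableAt_snd
    exact ((horn2_diff (t.M n) (ep e)).differentiableAt).comp (p, T) h1
  l0_conj := by
    intro p _
    rw [ph_conj ht, horn2_conj t.l0 ht.l0 (conj_ep e), map_add, map_mul, conj_ofReal]
  r0_conj := by
    intro p _
    rw [u0_conj ht, map_div₀, map_mul, map_add, map_mul, map_one, ht.a0, ht.c0]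
  M0_conj := by
    intro p _
    rw [ph_conj ht, horn2_conj t.M0 ht.M0 (conj_ep e)]
  l_conj := by
    intro n p T _
    rw [horn2_conj (t.h n) (ht.h n) (conj_ep e), map_add, map_mul, map_mul, map_sub, conj_ofReal,
      conj_ofReal, conj_ofReal]
  r_conj := by
    intro n p T _
    rw [map_div₀, map_mul, map_mul, map_add, map_add, map_mul, map_one, ht.a2, ht.c, conj_ofReal,
      conj_ofReal]
  M_conj := by
    intro n p T _
    exact horn2_conj (t.M n) (ht.M n) (conj_ep e) T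

end Tab

/-! ### Normalised values -/

/-- `L` of a near node -/
def Tab.Lf (t : Tab) (n : ℕ) (b : PtB) (U : ℂ) : ℂ :=
  ((2 : ℂ) * b.B) + ((U - b.K) * horn2 (t.h n) b.ep (b.se * U))

/-- `R` of a near node -/
def Tab.Rf (t : Tab) (n : ℕ) (b : PtB) (U : ℂ) : ℂ :=
  (t.a2 n * (U + b.K)) * ((t.c n * (b.se * U)) + (1 : ℂ))⁻¹

/-- `M` of a near node -/
def Tab.Mf (t : Tab) (n : ℕ) (b : PtB) (U : ℂ) : ℂ := horn2 (t.M n) b.ep (b.se * U)

/-- the normalised functions -/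
def Tab.nf (t : Tab) : NF := ⟨t.Lf, t.Rf, t.Mf⟩

/-- `g(ep)` -/
def Tab.gf (t : Tab) (b : PtB) : ℂ := horn t.g b.ep

/-- `i V` -/
def Tab.IV (V : ℂ) : ℂ := (1 * Complex.I : ℂ) * V

def Tab.W0 (t : Tab) (b : PtB) (V : ℂ) : ℂ :=
  ((2 : ℂ) * (Tab.IV V * t.gf b)) * ((((3 / 8) : ℂ) * ((b.se * b.se) * b.Z4)) + (1 : ℂ))

/-- `φ = s Φ` -/
def Tab.Ph (b : PtB) (V : ℂ) : ℂ :=
  Tab.IV V * ((((1 / 2) : ℂ) * (b.s * Tab.IV V)) + (1 : ℂ))⁻¹

def Tab.L0 (t : Tab) (b : PtB) (V : ℂ) : ℂ :=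
  ((2 : ℂ) * b.B) + (Tab.Ph b V * horn2 t.l0 b.ep (b.s * Tab.Ph b V))

def Tab.un (t : Tab) (b : PtB) (V : ℂ) : ℂ :=
  (4 : ℂ) * (b.B + (Tab.Ph b V * t.gf b))

def Tab.R0 (t : Tab) (b : PtB) (V : ℂ) : ℂ :=
  (t.a0 * t.un b V) * ((t.c0 * (b.s * t.un b V)) + (1 : ℂ))⁻¹

def Tab.M0f (t : Tab) (b : PtB) (V : ℂ) : ℂ := horn2 t.M0 b.ep (b.s * Tab.Ph b V)

/-- the normalised functions of the first node -/
def Tab.nf0 (t : Tab) : NF0 := ⟨t.W0, t.L0, t.R0, t.M0f⟩

end

variable {e κ s B : ℝ} {t : Tab}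

theorem Tab.nf_ok (he : 0 < e) (ht : t.IsReal) : t.nf.OK e κ (t.lamT ht e κ) := by
  have he0 : (e : ℂ) ≠ 0 := by exact_mod_cast he.ne'
  refine ⟨?_, ?_, ?_⟩
  · intro s B b h n p U
    have h1 : Tab.ep e = b.ep := h.hep.symm
    have h2 : (e : ℂ) * b.se = b.s := by
      unfold PtB.se
      rw [h.hep]
      push_cast
      field_simp
    have h3 : ((e * κ : ℝ) : ℂ) = 2 * (b.s * b.B) := by
      rw [h.hs, h.hB, h.kap]
      push_cast
      field_simp
    show ((e * κ : ℝ) : ℂ) + (e : ℂ) * ((b.se * U - (Real.sinh κ : ℂ)) *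
      horn2 (t.h n) (Tab.ep e) (b.se * U)) = b.s * t.Lf n b U
    rw [h1, h.sinh_c, h3]
    unfold Tab.Lf
    linear_combination ((U - b.K) * horn2 (t.h n) b.ep (b.se * U)) * h2
  · intro s B b h n p U
    have h2 : (e : ℂ) * b.se = b.s := by
      unfold PtB.se
      rw [h.hep]
      push_cast
      field_simp
    show t.a2 n * ((e : ℂ) * (b.se * U + (Real.sinh κ : ℂ))) / (1 + t.c n * (b.se * U)) =
      b.s * t.Rf n b U
    rw [h.sinh_c]
    have h3 : (e : ℂ) * (b.se * U + b.se * b.K) = b.s * (U + b.K) := by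
      linear_combination (U + b.K) * h2
    rw [h3]
    unfold Tab.Rf
    rw [div_eq_mul_inv, add_comm (1 : ℂ)]
    ring
  · intro s B b h n p U
    have h1 : Tab.ep e = b.ep := h.hep.symm
    show horn2 (t.M n) (Tab.ep e) (b.se * U) = t.Mf n b U
    rw [h1]
    rfl

/-- `v` at the start `i η` -/
noncomputable def Tab.vv (e κ g η : ℝ) : ℝ :=
  Real.sinh (κ / 2) * Real.tan (κ * η) / (1 / e * g * (1 + (3 / 2) * Real.sinh (κ / 2) ^ 2))

theorem Tab.nf0_ok (he : 0 < e) (hκ : 0 < κ) (ht : t.IsReal) {g η : ℝ} (hg : 0 < g)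
    (hgt : horn t.g (Tab.ep e) = (g : ℂ)) :
    t.nf0.OK e κ (Tab.vv e κ g η) ((η : ℂ) * I) (t.lamT ht e κ) := by
  have he0 : (e : ℂ) ≠ 0 := by exact_mod_cast he.ne'
  have hg0 : (g : ℂ) ≠ 0 := by exact_mod_cast hg.ne'
  obtain ⟨v, hv⟩ : ∃ v, v = Tab.vv e κ g η := ⟨_, rfl⟩
  have hd : 0 < 1 + (3 / 2) * Real.sinh (κ / 2) ^ 2 := by positivity
  have hvr : Real.sinh (κ / 2) * Real.tan (κ * η) =
      v * (1 / e * g * (1 + (3 / 2) * Real.sinh (κ / 2) ^ 2)) := by
    rw [hv]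
    unfold Tab.vv
    field_simp
  have hth : tanh (κ * ((η : ℂ) * I)) = (Real.tan (κ * η) : ℂ) * I := tanh_I κ η
  have hiv : t.iv e κ ((η : ℂ) * I) = (v : ℂ) * I := by
    unfold Tab.iv
    rw [hth, hgt]
    unfold Tab.ep
    have h1 : (Real.sinh (κ / 2) : ℂ) * (Real.tan (κ * η) : ℂ) =
      v * (((1 / e : ℝ) : ℂ) * g * (1 + (3 / 2) * (Real.sinh (κ / 2) : ℂ) ^ 2)) := by
      have := congrArg (fun x : ℝ => (x : ℂ)) hvr
      simp only [ofReal_mul, ofReal_add, ofReal_pow, ofReal_one, ofReal_div, ofReal_ofNat] at this ⊢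
      exact this
    have h2 : ((1 / e : ℝ) : ℂ) * g * (1 + (3 / 2) * (Real.sinh (κ / 2) : ℂ) ^ 2) ≠ 0 := by
      have : ((1 / e * g * (1 + (3 / 2) * Real.sinh (κ / 2) ^ 2) : ℝ) : ℂ) ≠ 0 := by
        exact_mod_cast (show 1 / e * g * (1 + (3 / 2) * Real.sinh (κ / 2) ^ 2) ≠ 0 by positivity)
      simp only [ofReal_mul, ofReal_add, ofReal_pow, ofReal_one, ofReal_div, ofReal_ofNat] at this ⊢
      exact this
    rw [div_eq_iff h2]
    linear_combination I * h1
  have hVs : ∀ {s B V : ℝ} {b : PtB}, BR e κ s B b → s * V = v →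
      b.s * Tab.IV V = (v : ℂ) * I := by
    intro s B V b h hV
    unfold Tab.IV
    rw [h.hs, ← hV]
    push_cast
    ring
  have hPh : ∀ {s B V : ℝ} {b : PtB}, BR e κ s B b → s * V = v →
      t.ph e κ ((η : ℂ) * I) = b.s * Tab.Ph b V := by
    intro s B V b h hV
    have h1 := hVs h hV
    unfold Tab.ph Tab.Ph
    rw [hiv, ← h1, div_eq_mul_inv, mul_assoc]
    congr 3
    ring
  rw [← hv]
  refine ⟨?_, ?_, ?_, ?_, ?_⟩
  · intro s B V b h hV
    have h1 : t.gf b = (g : ℂ) := by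
      unfold Tab.gf
      rw [h.hep]
      exact hgt
    have h2 : b.se * Tab.IV V = ((1 / e : ℝ) : ℂ) * ((v : ℂ) * I) := by
      rw [← hVs h hV]
      unfold PtB.se
      rw [h.hep]
      ring
    have h3 : b.se ^ 2 * b.Z4 = (Hh κ : ℂ) ^ 2 := h.H_sq.symm
    have h4 : (Hh κ : ℂ) = 2 * (Real.sinh (κ / 2) : ℂ) := by
      unfold Hh
      push_cast
      ring
    have h5 : (Real.sinh (κ / 2) : ℂ) * (Real.tan (κ * η) : ℂ) =
      v * (((1 / e : ℝ) : ℂ) * g * (1 + (3 / 2) * (Real.sinh (κ / 2) : ℂ) ^ 2)) := by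
      have := congrArg (fun x : ℝ => (x : ℂ)) hvr
      simp only [ofReal_mul, ofReal_add, ofReal_pow, ofReal_one, ofReal_div, ofReal_ofNat] at this ⊢
      exact this
    show _ = b.se * (((2 : ℂ) * (Tab.IV V * t.gf b)) *
      ((((3 / 8) : ℂ) * ((b.se * b.se) * b.Z4)) + (1 : ℂ)))
    rw [h1, hth]
    have h6 : (b.se * b.se) * b.Z4 = 4 * (Real.sinh (κ / 2) : ℂ) ^ 2 := by
      linear_combination h3 + ((Hh κ : ℂ) + 2 * (Real.sinh (κ / 2) : ℂ)) * h4
    rw [h6, h4]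
    linear_combination (2 * I) * h5 - 2 * (g : ℂ) *
      ((((3 / 8) : ℂ) * (4 * (Real.sinh (κ / 2) : ℂ) ^ 2)) + (1 : ℂ)) * h2
  · intro s B V b h hV
    have h1 : t.gf b = (g : ℂ) := by
      unfold Tab.gf
      rw [h.hep]
      exact hgt
    obtain ⟨z, hz⟩ : ∃ z : ℝ, (b.se * b.se) * b.Z4 = (z : ℂ) := by
      refine ⟨Hh κ ^ 2, ?_⟩
      have h3 : b.se ^ 2 * b.Z4 = (Hh κ : ℂ) ^ 2 := h.H_sq.symm
      push_cast
      linear_combination h3
    refine ⟨2 * (V * g) * (3 / 8 * z + 1), ?_⟩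
    show ((2 : ℂ) * (Tab.IV V * t.gf b)) * ((((3 / 8) : ℂ) * ((b.se * b.se) * b.Z4)) + (1 : ℂ)) = _
    rw [h1, hz]
    unfold Tab.IV
    push_cast
    ring
  · intro s B V b h hV
    have h1 : Tab.ep e = b.ep := h.hep.symm
    have h3 : ((e * κ : ℝ) : ℂ) = 2 * (b.s * b.B) := by
      rw [h.hs, h.hB, h.kap]
      push_cast
      field_simp
    show ((e * κ : ℝ) : ℂ) + t.ph e κ ((η : ℂ) * I) * horn2 t.l0 (Tab.ep e)
      (t.ph e κ ((η : ℂ) * I)) = b.s * (((2 : ℂ) * b.B) + (Tab.Ph b V * horn2 t.l0 b.ep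
        (b.s * Tab.Ph b V)))
    rw [hPh h hV, h1, h3]
    ring
  · intro s B V b h hV
    have h1 : horn t.g (Tab.ep e) = t.gf b := by
      unfold Tab.gf
      rw [h.hep]
      rfl
    have h3 : ((e * κ / 2 : ℝ) : ℂ) = b.s * b.B := by
      rw [h.hs, h.hB, h.kap]
      push_cast
      field_simp
    have h4 : t.u0 e κ ((η : ℂ) * I) = b.s * t.un b V := by
      unfold Tab.u0 Tab.un
      rw [hPh h hV, h1, h3]
      ring
    show t.a0 * t.u0 e κ ((η : ℂ) * I) / (1 + t.c0 * t.u0 e κ ((η : ℂ) * I)) =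
      b.s * ((t.a0 * t.un b V) * ((t.c0 * (b.s * t.un b V)) + (1 : ℂ))⁻¹)
    rw [h4, div_eq_mul_inv, add_comm (1 : ℂ)]
    ring
  · intro s B V b h hV
    have h1 : Tab.ep e = b.ep := h.hep.symm
    show horn2 t.M0 (Tab.ep e) (t.ph e κ ((η : ℂ) * I)) = horn2 t.M0 b.ep (b.s * Tab.Ph b V)
    rw [hPh h hV, h1]

end Pool.Agent.helper12.RS
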