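import Pool.Agent.helper12.RS.Tb

/-!
# Extensionality of the record of near functions
-/

namespace Pool.Agent.helper12.RS

theorem Tb.ext' {s t : Tb} (h1 : s.ec = t.ec) (h2 : s.bc = t.bc) (h3 : s.H = t.H)
    (h4 : s.pol = t.pol) (h5 : s.M = t.M) (h6 : s.a = t.a) (h7 : s.j = t.j) (h8 : s.c = t.c)
    (h9 : s.l0 = t.l0) (h10 : s.q0 = t.q0) (h11 : s.M0 = t.M0) (h12 : s.a0 = t.a0)
    (h13 : s.j0 = t.j0) (h14 : s.c0 = t.c0) : s = t := by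
  cases s
  cases t
  simp only at h1 h2 h3 h4 h5 h6 h7 h8 h9 h10 h11 h12 h13 h14
  subst h1 h2 h3 h4 h5 h6 h7 h8 h9 h10 h11 h12 h13 h14
  rfl

end Pool.Agent.helper12.RS
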